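import Pool.Agent.Lib_MP_a23b08_g.GPhiDefs

/-!
PIECE F2. `dPhi ∘ dPhi = 0`.
-/

open CategoryTheory

namespace GZ

/-- a formal linear combination that is zero is mapped to zero by every linear extension. Proof:
`Finsupp.linearCombination` applied to `h` (prove first, by induction on the list, that
`(p.map fun t => t.1 • φ t.2).sum = Finsupp.linearCombination k φ (toFin p)`). -/
lemma sum_eq_zero_of_toFin {k : Type} [Field k] {A B : Type} [AddCommGroup B] [Module k B]
    (φ : List A → B) (p : List (k × List A)) (h : toFin p = 0) :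
    (p.map fun t => t.1 • φ t.2).sum = 0 := by
  have key : ∀ q : List (k × List A),
      (q.map fun t => t.1 • φ t.2).sum = Finsupp.linearCombination k φ (toFin q) := by
    intro q
    induction q with
    | nil => simp [toFin]
    | cons t q ih =>
      have h1 : toFin (t :: q) = Finsupp.single t.2 t.1 + toFin q := by simp [toFin]
      rw [List.map_cons, List.sum_cons, ih, h1, map_add, Finsupp.linearCombination_single]
  rw [key, h, map_zero]

namespace DGM

variable {k : Type} [Field k] {Γ : QF k} {X Y : DGM Γ}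

private lemma evP_map_append {A M : Type} [AddCommGroup M] [Module k M] (act : A → M →ₗ[k] M)
    (p : List (k × List A)) (w : List A) (x : M) :
    evP act (p.map fun t => (t.1, t.2 ++ w)) x = evP act p (evW act w x) := by
  induction p with
  | nil => simp
  | cons t p ih => simp only [List.map_cons, evP_cons, ih, evW_append]

private lemma evP_map_cons {A M : Type} [AddCommGroup M] [Module k M] (act : A → M →ₗ[k] M)
    (p : List (k × List A)) (c : k) (a : A) (x : M) :
    evP act (p.map fun t => (c * t.1, a :: t.2)) x = c • act a (evP act p x) := by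
  induction p with
  | nil => simp
  | cons t p ih =>
    simp only [List.map_cons, evP_cons, ih, evW_cons, map_add, map_smul, smul_add, mul_smul]

/-- The Leibniz rule for paths. Proof: induction on `w` with `leibniz`, `evP_append`, `evW_append`
(and: `evP act (p.map fun t => (t.1, t.2 ++ w)) x = evP act p (evW act w x)`,
`evP act (p.map fun t => (c * t.1, a :: t.2)) x = c • act a (evP act p x)`). -/
lemma d_evW (X : DGM Γ) (w : List Γ.A) (x : X.M) :
    X.d (evW X.act w x) = evP X.act (dWord Γ w) x + sg k (degW Γ.deg w) • evW X.act w (X.d x) := by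
  induction w with
  | nil => simp [dWord]
  | cons a w ih =>
    rw [evW_cons, X.leibniz, ih, dWord, evP_append, evP_map_append, evP_map_cons, evW_cons,
      degW_cons, sg_add, map_add, map_smul, smul_add, mul_smul]
    abel

/-- `D(v w) = D(v) w + (-1)^(m |v|) v D(w)`. Proof: induction on `v`. -/
lemma derW_append (m : ℤ) (D : Γ.A → (X.M →ₗ[k] Y.M)) (v w : List Γ.A) (x : X.M) :
    derW m D (v ++ w) x = derW m D v (evW X.act w x) +
      sg k (m * degW Γ.deg v) • evW Y.act v (derW m D w x) := by
  induction v with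
  | nil => simp
  | cons a v ih =>
    rw [List.cons_append, derW_cons, derW_cons, ih, evW_append, evW_cons, degW_cons, mul_add,
      sg_add, map_add, map_smul, smul_add, mul_smul]
    abel

private lemma derP_append (m : ℤ) (D : Γ.A → (X.M →ₗ[k] Y.M)) (p q : List (k × List Γ.A))
    (x : X.M) : derP m D (p ++ q) x = derP m D p x + derP m D q x := by
  induction p with
  | nil => simp
  | cons t p ih => rw [List.cons_append, derP_cons_apply, derP_cons_apply, ih, add_assoc]

private lemma derP_map_append (m : ℤ) (D : Γ.A → (X.M →ₗ[k] Y.M)) (e : ℤ)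
    (p : List (k × List Γ.A)) (hp : ∀ t ∈ p, degW Γ.deg t.2 = e) (w : List Γ.A) (x : X.M) :
    derP m D (p.map fun t => (t.1, t.2 ++ w)) x = derP m D p (evW X.act w x) +
      sg k (m * e) • evP Y.act p (derW m D w x) := by
  induction p with
  | nil => simp
  | cons t p ih =>
    have h1 := hp t (List.mem_cons_self ..)
    have h2 := ih fun s hs => hp s (List.mem_cons_of_mem _ hs)
    rw [List.map_cons, derP_cons_apply, derP_cons_apply, h2, evP_cons, derW_append, h1]
    module

private lemma derP_map_cons (m : ℤ) (D : Γ.A → (X.M →ₗ[k] Y.M))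
    (p : List (k × List Γ.A)) (c : k) (a : Γ.A) (x : X.M) :
    derP m D (p.map fun t => (c * t.1, a :: t.2)) x = c • (D a (evP X.act p x) +
      sg k (m * Γ.deg a) • Y.act a (derP m D p x)) := by
  induction p with
  | nil => simp
  | cons t p ih =>
    rw [List.map_cons, derP_cons_apply, derP_cons_apply, ih, evP_cons, derW_cons, map_add,
      map_add, map_smul, map_smul]
    module

private lemma derP_mul_left (m : ℤ) (D : Γ.A → (X.M →ₗ[k] Y.M)) (c : k)
    (p : List (k × List Γ.A)) (x : X.M) :
    derP m D (p.map fun s => (c * s.1, s.2)) x = c • derP m D p x := by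
  induction p with
  | nil => simp
  | cons t p ih =>
    rw [List.map_cons, derP_cons_apply, derP_cons_apply, ih]
    module

/-- The formula `(∂D)(γ) = [d, D(γ)] - (-1)^m D(dγ)` for all paths `γ = w`. Proof: induction on `w`.
`w = a :: w'`: by definition the left side is
`(bd m D a)(w' x) + (-1)^((m+1)|a|) a (derW (m+1) (bd m D) w' x)`. Insert the definition of
`bd m D a` and the induction hypothesis. On the right side use
`D(a w') = D_a w' + (-1)^(m|a|) a D(w')`, Leibniz in `Y` for `d (a _)`, `d_evW` in `X` for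
`d (w' x)` and `D(d(a w')) = D(da) w' + (-1)^(m (|a|+1)) (da) D(w') +
(-1)^|a| (D_a (d w') + (-1)^(m|a|) a D(d w'))`, where words in `da` have degree `|a| + 1`
(`Γ.diff_deg`). The terms `(da) D(w')` and `D_a (d w')` cancel. Check in the text:
`(∂D)(γγ') = (∂D)(γ)γ' + (-1)^((m+1)|γ|) γ(∂D)(γ')`. -/
lemma derW_bd (m : ℤ) (D : Γ.A → (X.M →ₗ[k] Y.M)) (w : List Γ.A) (x : X.M) :
    derW (m + 1) (bd m D) w x = Y.d (derW m D w x) -
      sg k (m + degW Γ.deg w) • derW m D w (X.d x) - sg k m • derP m D (dWord Γ w) x := by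
  induction w with
  | nil => simp [dWord]
  | cons a w ih =>
    have hS : sg k m * sg k m = 1 := sg_mul_self m
    have e1 : (m + 1) * Γ.deg a = m * Γ.deg a + Γ.deg a := by ring
    have e2 : m * (Γ.deg a + 1) = m * Γ.deg a + m := by ring
    have key : sg k m • sg k (m * (Γ.deg a + 1)) • evP Y.act (Γ.diff a) (derW m D w x) =
        sg k (m * Γ.deg a) • evP Y.act (Γ.diff a) (derW m D w x) := by
      rw [smul_smul, e2, sg_add, mul_comm (sg k (m * Γ.deg a)) (sg k m), ← mul_assoc, hS, one_mul]
    rw [derW_cons, derW_cons, derW_cons, ih, bd_apply, dWord, derP_append,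
      derP_map_append m D (Γ.deg a + 1) (Γ.diff a) (Γ.diff_deg a), derP_map_cons, d_evW X w x,
      degW_cons, map_add Y.d, map_smul Y.d, Y.leibniz, e1, smul_add (sg k m),
      smul_add (sg k m), key]
    simp only [sg_add, map_add, map_sub, map_smul]
    module

private lemma derP_bd (m : ℤ) (D : Γ.A → (X.M →ₗ[k] Y.M)) (e : ℤ) (p : List (k × List Γ.A))
    (hp : ∀ t ∈ p, degW Γ.deg t.2 = e) (x : X.M) :
    derP (m + 1) (bd m D) p x = Y.d (derP m D p x) - sg k (m + e) • derP m D p (X.d x) -
      sg k m • derP m D (dPoly Γ p) x := by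
  induction p with
  | nil => simp [dPoly]
  | cons t p ih =>
    have h1 := hp t (List.mem_cons_self ..)
    have h2 := ih fun s hs => hp s (List.mem_cons_of_mem _ hs)
    have h3 : dPoly Γ (t :: p) = (dWord Γ t.2).map (fun s => (t.1 * s.1, s.2)) ++ dPoly Γ p := by
      simp [dPoly]
    rw [derP_cons_apply, derP_cons_apply, derP_cons_apply, h2, h3, derP_append, derP_mul_left,
      derW_bd, h1, map_add, map_smul]
    module

/-- Proof: `derW_bd` summed over the words of `Γ.diff a` gives
`(∂D)(da) = d D(da) - (-1)^(m+|a|+1) D(da) d - (-1)^m D(dda)` and `D(dda) = 0` by `Γ.Nice.dd`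
and `sum_eq_zero_of_toFin` (`D(dda)` is `derP m D (dPoly Γ (Γ.diff a))`). Then
`(∂∂D)_a = d (∂D)_a - (-1)^(m+1+|a|) (∂D)_a d - (-1)^(m+1) (∂D)(da)`, insert `bd m D a`; all terms
cancel (`d d = 0`). -/
lemma bd_bd (hΓ : Γ.Nice) (m : ℤ) (D : Γ.A → (X.M →ₗ[k] Y.M)) : bd (m + 1) (bd m D) = 0 := by
  funext a
  ext x
  have h0 : derP m D (dPoly Γ (Γ.diff a)) = 0 :=
    sum_eq_zero_of_toFin (fun w => derW m D w) _ (hΓ.dd a)
  have h1 := derP_bd m D (Γ.deg a + 1) (Γ.diff a) (Γ.diff_deg a) x
  rw [h0, LinearMap.zero_apply, smul_zero, sub_zero] at h1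
  have hS : sg k m * sg k m = 1 := sg_mul_self m
  have hA : sg k (Γ.deg a) * sg k (Γ.deg a) = 1 := sg_mul_self _
  have e1 : sg k (m + 1) = - sg k m := sg_succ m
  have e2 : sg k (m + 1 + Γ.deg a) = - (sg k m * sg k (Γ.deg a)) := by
    rw [sg_add, e1, neg_mul]
  have e3 : sg k (m + (Γ.deg a + 1)) = - (sg k m * sg k (Γ.deg a)) := by
    rw [← add_assoc, sg_succ, sg_add]
  rw [bd_apply, h1, bd_apply, bd_apply, Pi.zero_apply, LinearMap.zero_apply, X.d_d, map_zero, e1,
    e2, e3, sg_add, map_sub, map_sub, map_smul, map_smul, Y.d_d]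
  module

/-- `[h, γ] = h γ - (-1)^(n|γ|) γ h` for paths. Proof: induction on `w`. -/
lemma derW_inn (n : ℤ) (h : X.M →ₗ[k] Y.M) (w : List Γ.A) (x : X.M) :
    derW n (inn n h) w x = h (evW X.act w x) - sg k (n * degW Γ.deg w) • evW Y.act w (h x) := by
  induction w with
  | nil => simp
  | cons a w ih =>
    rw [derW_cons, ih, inn_apply, evW_cons, evW_cons, degW_cons, mul_add, sg_add, map_sub,
      map_smul]
    module

private lemma derP_inn (n : ℤ) (h : X.M →ₗ[k] Y.M) (e : ℤ) (p : List (k × List Γ.A))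
    (hp : ∀ t ∈ p, degW Γ.deg t.2 = e) (x : X.M) :
    derP n (inn n h) p x = h (evP X.act p x) - sg k (n * e) • evP Y.act p (h x) := by
  induction p with
  | nil => simp
  | cons t p ih =>
    have h1 := hp t (List.mem_cons_self ..)
    have h2 := ih fun s hs => hp s (List.mem_cons_of_mem _ hs)
    rw [derP_cons_apply, h2, derW_inn, h1, evP_cons, evP_cons, map_add, map_smul]
    module

/-- Proof: both sides at `a`: use `leibniz` in `X` and `Y` and `derW_inn` for the words of
`Γ.diff a` (all of degree `|a| + 1`). -/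
lemma inn_dH (n : ℤ) (h : X.M →ₗ[k] Y.M) : inn (n + 1) (dH n h) = bd n (inn n h) := by
  funext a
  ext x
  have hS : sg k n * sg k n = 1 := sg_mul_self n
  have e1 : (n + 1) * Γ.deg a = n * Γ.deg a + Γ.deg a := by ring
  have e2 : n * (Γ.deg a + 1) = n * Γ.deg a + n := by ring
  have key : sg k n • sg k (n * (Γ.deg a + 1)) • evP Y.act (Γ.diff a) (h x) =
      sg k (n * Γ.deg a) • evP Y.act (Γ.diff a) (h x) := by
    rw [smul_smul, e2, sg_add, mul_comm (sg k (n * Γ.deg a)) (sg k n), ← mul_assoc, hS, one_mul]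
  rw [bd_apply, inn_apply, inn_apply, inn_apply, dH_apply, dH_apply,
    derP_inn n h (Γ.deg a + 1) (Γ.diff a) (Γ.diff_deg a), X.leibniz, e1, smul_sub (sg k n), key,
    map_sub Y.d, map_smul Y.d, Y.leibniz]
  simp only [sg_add, map_add, map_sub, map_smul]
  module

lemma dH_dH (n : ℤ) (h : X.M →ₗ[k] Y.M) : dH (n + 1) (dH n h) = 0 := by
  ext x
  rw [dH_apply, dH_apply, dH_apply, X.d_d, map_zero, map_sub, map_smul, Y.d_d, sg_succ,
    LinearMap.zero_apply]
  module

lemma dPhi_dPhi (hΓ : Γ.Nice) (n : ℤ) (φ : Amb X Y) : dPhi (n + 1) (dPhi n φ) = 0 := by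
  have h1 : bd n (inn n φ.1 - bd (n - 1) φ.2) = bd n (inn n φ.1) := by
    have h2 : inn n φ.1 - bd (n - 1) φ.2 = inn n φ.1 + (-1 : k) • bd (n - 1) φ.2 := by
      rw [neg_one_smul, sub_eq_add_neg]
    have h3 := bd_bd (X := X) (Y := Y) hΓ (n - 1) φ.2
    rw [sub_add_cancel] at h3
    rw [h2, bd_add, bd_smul, h3, smul_zero, add_zero]
  rw [dPhi_apply, dPhi_apply]
  simp only [add_sub_cancel_right, h1, dH_dH, inn_dH, sub_self]
  rfl

end DGM

end GZ
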