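import Pool.Agent.Lib_MP_a23b08_g.GPhi1
import Pool.Agent.Lib_MP_a23b08_g.GPhi2

/-!
PIECE F5. `Φ(X, Z)` is acyclic when `Z` is acyclic.
-/

open CategoryTheory

namespace GZ

namespace DGM

variable {k : Type} [Field k] {Γ : QF k}

/-- acyclic dg modules. -/
def Acyclic (X : DGM Γ) : Prop := ∀ x, X.d x = 0 → ∃ y, X.d y = x

/-- glueing linear maps given on the components. -/
private lemma GAcy_glue (Z : DGM Γ) {N : Type} [AddCommGroup N] [Module k N]
    (g : Γ.V → ℤ → (Z.M →ₗ[k] N)) :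
    ∃ s : Z.M →ₗ[k] N, ∀ v n x, x ∈ Z.gr v n → s x = g v n x := by
  classical
  have hI : DirectSum.IsInternal (fun p : Γ.V × ℤ => Z.gr p.1 p.2) :=
    DirectSum.isInternal_submodule_of_iSupIndep_of_iSup_eq_top Z.indep Z.iSup_eq_top
  let e := LinearEquiv.ofBijective
    (DirectSum.coeLinearMap (fun p : Γ.V × ℤ => Z.gr p.1 p.2)) hI
  refine ⟨DirectSum.toModule k _ N (fun p => (g p.1 p.2) ∘ₗ (Z.gr p.1 p.2).subtype) ∘ₗ
    e.symm.toLinearMap, ?_⟩
  intro v n x hx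
  have h1 : e.symm x = DirectSum.lof k (Γ.V × ℤ) (fun p => Z.gr p.1 p.2) (v, n) ⟨x, hx⟩ := by
    rw [LinearEquiv.symm_apply_eq]
    simp [e]
  simp [h1]

/-- the component of a linear combination. -/
private lemma GAcy_proj (Z : DGM Γ) (v : Γ.V) (n : ℤ) :
    ∃ P : Z.M →ₗ[k] Z.M, (∀ x ∈ Z.gr v n, P x = x) ∧
      (∀ w m x, (w, m) ≠ (v, n) → x ∈ Z.gr w m → P x = 0) ∧ ∀ x, P x ∈ Z.gr v n := by
  classical
  obtain ⟨P, hP⟩ := GAcy_glue Z
    (fun w m => if (w, m) = (v, n) then (LinearMap.id : Z.M →ₗ[k] Z.M) else 0)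
  have h1 : ∀ x ∈ Z.gr v n, P x = x := fun x hx => by
    rw [hP v n x hx]; simp
  have h2 : ∀ w m x, (w, m) ≠ (v, n) → x ∈ Z.gr w m → P x = 0 := fun w m x hne hx => by
    rw [hP w m x hx, if_neg hne]; simp
  refine ⟨P, h1, h2, ?_⟩
  intro x
  refine Z.induction (P := fun x => P x ∈ Z.gr v n) x ?_ (by simp) ?_
  · intro w m y hy
    by_cases hh : (w, m) = (v, n)
    · obtain ⟨rfl, rfl⟩ := Prod.mk.inj hh
      rw [h1 y hy]; exact hy
    · rw [h2 w m y hh hy]; exact zero_mem _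
  · intro y z hy hz
    rw [map_add]; exact add_mem hy hz

/-- homogeneous primitives. -/
private lemma GAcy_hom_primitive (Z : DGM Γ) (hZ : Acyclic Z) {v : Γ.V} {n : ℤ} {x : Z.M}
    (hx : x ∈ Z.gr v n) (h0 : Z.d x = 0) : ∃ y ∈ Z.gr v (n - 1), Z.d y = x := by
  obtain ⟨y, hy⟩ := hZ x h0
  obtain ⟨P, hP1, hP2, -⟩ := GAcy_proj Z v n
  obtain ⟨Q, hQ1, hQ2, hQ3⟩ := GAcy_proj Z v (n - 1)
  refine ⟨Q y, hQ3 y, ?_⟩
  have key : Z.d ∘ₗ Q = P ∘ₗ Z.d := by
    refine Z.ext_hom ?_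
    intro w m z hz
    simp only [LinearMap.comp_apply]
    by_cases hh : (w, m) = (v, n - 1)
    · obtain ⟨rfl, rfl⟩ := Prod.mk.inj hh
      rw [hQ1 z hz, hP1]
      exact Z.d_mem (by ring) hz
    · rw [hQ2 w m z hh hz, map_zero, hP2 w (m + 1) _ _ (Z.d_mem rfl hz)]
      intro h3
      apply hh
      obtain ⟨h4, h5⟩ := Prod.mk.inj h3
      rw [h4]
      congr 1
      omega
  have h6 := congrArg (fun f => f y) key
  simp only [LinearMap.comp_apply] at h6
  rw [h6, hy, hP1 x hx]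

/-- a section on one component. -/
private lemma GAcy_section (Z : DGM Γ) (hZ : Acyclic Z) (v : Γ.V) (n : ℤ) :
    ∃ g : Z.M →ₗ[k] Z.M, (∀ x, g x ∈ Z.gr v (n - 1)) ∧
      ∀ x ∈ Z.gr v n, Z.d x = 0 → Z.d (g x) = x := by
  have hmem : ∀ y : ↥(Z.gr v (n - 1)), (Z.d ∘ₗ (Z.gr v (n - 1)).subtype) y ∈
      LinearMap.ker Z.d ⊓ Z.gr v n := by
    intro y
    refine ⟨?_, ?_⟩
    · simp [Z.d_d]
    · exact Z.d_mem (by ring) y.2
  let f := LinearMap.codRestrict (LinearMap.ker Z.d ⊓ Z.gr v n)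
    (Z.d ∘ₗ (Z.gr v (n - 1)).subtype) hmem
  have hf : LinearMap.range f = ⊤ := by
    rw [LinearMap.range_eq_top]
    rintro ⟨x, hx1, hx2⟩
    obtain ⟨y, hy1, hy2⟩ := GAcy_hom_primitive Z hZ hx2 hx1
    exact ⟨⟨y, hy1⟩, Subtype.ext hy2⟩
  obtain ⟨σ, hσ⟩ := f.exists_rightInverse_of_surjective hf
  obtain ⟨g, hg⟩ := LinearMap.exists_extend σ
  refine ⟨(Z.gr v (n - 1)).subtype ∘ₗ g, fun x => (g x).2, ?_⟩
  intro x hx h0
  have h1 : g x = σ ⟨x, h0, hx⟩ := by
    rw [← hg]; rfl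
  have h2 : f (σ ⟨x, h0, hx⟩) = ⟨x, h0, hx⟩ := by
    have := congrArg (fun F => F ⟨x, h0, hx⟩) hσ
    simpa using this
  have h3 := congrArg Subtype.val h2
  simp only [LinearMap.comp_apply, h1]
  exact h3

/-- An acyclic dg module has a contraction compatible with the grading (not with the arrows).
Proof. `d` maps `gr v p` onto `ker d ∩ gr v (p+1)`: if `x ∈ gr v (p+1)`, `x = d y`, take the
component of `y` in `gr v p` (the decomposition `indep`, `iSup_eq_top` and `d_mem`; e.g. through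
`DirectSum.IsInternal` of `fun p : Γ.V × ℤ => gr p.1 p.2`, with `Classical.decEq`). Choose linear
sections `σ v p : ker d ∩ gr v (p+1) → gr v p` of `d` (`LinearMap.exists_rightInverse_of_surjective`),
and define `c` on `gr v (p+1)` by `c x = σ (x - σ' (d x))` (where `d x ∈ ker d ∩ gr v (p+2)`,
`σ'` the section there; `x - σ' (d x)` is a cocycle in `gr v (p+1)`), extend linearly over the direct
sum (`DirectSum.toModule`). Then `d c x = x - σ' d x`, `c d x = σ' (d x)`. -/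
theorem exists_contraction (Z : DGM Γ) (hZ : Acyclic Z) :
    ∃ c : Z.M →ₗ[k] Z.M, c ∈ HomV Z Z (-1) ∧ ∀ x, Z.d (c x) + c (Z.d x) = x := by
  choose g hg1 hg2 using GAcy_section Z hZ
  obtain ⟨s, hs⟩ := GAcy_glue Z g
  have hs1 : ∀ v n x, x ∈ Z.gr v n → s x ∈ Z.gr v (n - 1) := fun v n x hx => by
    rw [hs v n x hx]; exact hg1 v n x
  have hs2 : ∀ v n x, x ∈ Z.gr v n → Z.d x = 0 → Z.d (s x) = x := fun v n x hx h0 => by
    rw [hs v n x hx]; exact hg2 v n x hx h0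
  have hs3 : ∀ v n x, x ∈ Z.gr v n → s (Z.d x) ∈ Z.gr v n := fun v n x hx => by
    have := hs1 v (n + 1) _ (Z.d_mem rfl hx)
    rwa [add_sub_cancel_right] at this
  refine ⟨s ∘ₗ (LinearMap.id - s ∘ₗ Z.d), ?_, ?_⟩
  · intro v p q x hpq hx
    have h1 : x - s (Z.d x) ∈ Z.gr v p := sub_mem hx (hs3 v p x hx)
    have h2 := hs1 v p _ h1
    rw [← sub_eq_add_neg] at hpq
    rw [← hpq]
    exact h2
  · have key : Z.d ∘ₗ (s ∘ₗ (LinearMap.id - s ∘ₗ Z.d)) +
        (s ∘ₗ (LinearMap.id - s ∘ₗ Z.d)) ∘ₗ Z.d = LinearMap.id := by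
      refine Z.ext_hom ?_
      intro v n x hx
      simp only [LinearMap.add_apply, LinearMap.comp_apply, LinearMap.sub_apply,
        LinearMap.id_apply, Z.d_d, map_zero, sub_zero]
      have h1 : x - s (Z.d x) ∈ Z.gr v n := sub_mem hx (hs3 v n x hx)
      have h2 : Z.d (s (Z.d x)) = Z.d x := hs2 v (n + 1) _ (Z.d_mem rfl hx) (Z.d_d x)
      have h3 : Z.d (x - s (Z.d x)) = 0 := by rw [map_sub, h2, sub_self]
      rw [hs2 v n _ h1 h3]
      abel
    intro x
    have := congrArg (fun F => F x) key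
    simpa using this



private lemma GAcy_degW_le {A : Type} {deg : A → ℤ} (h : ∀ a, deg a ≤ 0) {w : List A} {b : A}
    (hb : b ∈ w) : degW deg w ≤ deg b := by
  have hnp : ∀ w : List A, degW deg w ≤ 0 := by
    intro w
    induction w with
    | nil => simp
    | cons a w ih => rw [degW_cons]; have := h a; omega
  induction w with
  | nil => simp at hb
  | cons a w ih =>
    rw [degW_cons]
    rcases List.mem_cons.1 hb with h1 | h1
    · subst h1
      have := hnp w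
      omega
    · have := ih h1
      have := h a
      omega

private lemma GAcy_derW_eq_zero {X Y : DGM Γ} (m : ℤ) {D : Γ.A → (X.M →ₗ[k] Y.M)}
    {w : List Γ.A} (h : ∀ b ∈ w, D b = 0) : derW m D w = 0 := by
  induction w with
  | nil => simp
  | cons a w ih =>
    ext x
    rw [derW_cons, h a List.mem_cons_self, ih fun b hb => h b (List.mem_cons_of_mem _ hb)]
    simp

private lemma GAcy_derP_eq_zero {X Y : DGM Γ} (m : ℤ) {D : Γ.A → (X.M →ₗ[k] Y.M)}
    {p : List (k × List Γ.A)} (h : ∀ t ∈ p, ∀ b ∈ t.2, D b = 0) : derP m D p = 0 := by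
  induction p with
  | nil => simp
  | cons t p ih =>
    rw [derP_cons, GAcy_derW_eq_zero m (h t List.mem_cons_self),
      ih fun s hs => h s (List.mem_cons_of_mem _ hs)]
    simp

/-- a derivation that is zero on the arrows of degree `> deg a` is zero on `diff a`. -/
private lemma GAcy_derP_diff (hΓ : Γ.Nice) {X Y : DGM Γ} (m : ℤ) {D : Γ.A → (X.M →ₗ[k] Y.M)}
    (a : Γ.A) (h : ∀ b, Γ.deg a < Γ.deg b → D b = 0) : derP m D (Γ.diff a) = 0 := by
  refine GAcy_derP_eq_zero m fun t ht b hb => h b ?_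
  have h1 := GAcy_degW_le hΓ.deg_nonpos hb
  have h2 := Γ.diff_deg a t ht
  omega

private lemma GAcy_bd_sub {X Y : DGM Γ} (m : ℤ) (D E : Γ.A → (X.M →ₗ[k] Y.M)) :
    bd m (D - E) = bd m D - bd m E := by
  have h : D - E = D + (-1 : k) • E := by
    rw [neg_smul, one_smul, sub_eq_add_neg]
  rw [h, bd_add, bd_smul, neg_smul, one_smul, sub_eq_add_neg]

private lemma GAcy_bd_neg {X Y : DGM Γ} (m : ℤ) (E : Γ.A → (X.M →ₗ[k] Y.M)) :
    bd m (-E) = - bd m E := by
  have h : -E = (-1 : k) • E := by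
    rw [neg_smul, one_smul]
  rw [h, bd_smul, neg_smul, one_smul]

private lemma GAcy_sg_pred (n : ℤ) : sg k (n - 1) = - sg k n := by
  rw [sg_sub, sg_one]; ring

/-- composing with a map of degree `-1`. -/
private lemma GAcy_comp_mem {X Z : DGM Γ} {c : Z.M →ₗ[k] Z.M} (hc : c ∈ HomV Z Z (-1)) {a : Γ.A}
    {m n : ℤ} (hmn : m - 1 = n) {f : X.M →ₗ[k] Z.M} (hf : f ∈ HomA a X Z m) :
    c ∘ₗ f ∈ HomA a X Z n := by
  refine ⟨fun p q x hpq hx => ?_, fun v p x hv hx => ?_⟩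
  · exact hc _ (p + m) q _ (by omega) (hf.1 p (p + m) x rfl hx)
  · rw [LinearMap.comp_apply, hf.2 v p x hv hx, map_zero]

/-- one more level. -/
private lemma GAcy_level (hΓ : Γ.Nice) {X Z : DGM Γ} {c : Z.M →ₗ[k] Z.M}
    (hc : c ∈ HomV Z Z (-1)) (hc1 : ∀ x, Z.d (c x) + c (Z.d x) = x) (m : ℤ)
    {D : Γ.A → (X.M →ₗ[k] Z.M)} (hD : ∀ a, D a ∈ HomA a X Z (m + Γ.deg a)) (h0 : bd m D = 0)
    (l : ℕ) : ∃ E : Γ.A → (X.M →ₗ[k] Z.M), (∀ a, E a ∈ HomA a X Z (m - 1 + Γ.deg a)) ∧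
      ∀ a, -(l : ℤ) < Γ.deg a → D a - bd (m - 1) E a = 0 := by
  classical
  induction l with
  | zero =>
    refine ⟨0, fun a => zero_mem _, fun a ha => ?_⟩
    exfalso
    have := hΓ.deg_nonpos a
    simp at ha
    omega
  | succ l ih =>
    obtain ⟨E, hE, hE0⟩ := ih
    have hD' : ∀ a, (D - bd (m - 1) E) a ∈ HomA a X Z (m + Γ.deg a) := by
      intro a
      refine sub_mem (hD a) ?_
      have := bd_mem hE a
      rwa [sub_add_cancel] at this
    have hcl : bd m (D - bd (m - 1) E) = 0 := by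
      have h1 := bd_bd hΓ (m - 1) E
      rw [sub_add_cancel] at h1
      rw [GAcy_bd_sub, h0, h1, sub_zero]
    have hz : ∀ a, -(l : ℤ) < Γ.deg a → (D - bd (m - 1) E) a = 0 := hE0
    generalize hDD : D - bd (m - 1) E = D' at hD' hcl hz
    let E' : Γ.A → (X.M →ₗ[k] Z.M) := fun a => if Γ.deg a = -(l : ℤ) then c ∘ₗ D' a else 0
    have hE'0 : ∀ a, Γ.deg a ≠ -(l : ℤ) → E' a = 0 := fun a ha => if_neg ha
    have hE'1 : ∀ a, Γ.deg a = -(l : ℤ) → E' a = c ∘ₗ D' a := fun a ha => if_pos ha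
    have hE'm : ∀ a, E' a ∈ HomA a X Z (m - 1 + Γ.deg a) := by
      intro a
      by_cases ha : Γ.deg a = -(l : ℤ)
      · rw [hE'1 a ha]
        exact GAcy_comp_mem hc (by ring) (hD' a)
      · rw [hE'0 a ha]; exact zero_mem _
    refine ⟨E + E', fun a => add_mem (hE a) (hE'm a), fun a ha => ?_⟩
    have h1 : D a - bd (m - 1) (E + E') a = D' a - bd (m - 1) E' a := by
      rw [← hDD, bd_add]
      simp only [Pi.sub_apply, Pi.add_apply]
      abel
    rw [h1]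
    have ha' : -(l : ℤ) ≤ Γ.deg a := by push_cast at ha; omega
    have h2 : derP (m - 1) E' (Γ.diff a) = 0 := by
      refine GAcy_derP_diff hΓ _ a fun b hb => hE'0 b ?_
      omega
    rcases ha'.lt_or_eq with h3 | h3
    · rw [hz a h3]
      ext x
      have h4 : E' a = 0 := hE'0 a (by omega)
      rw [LinearMap.sub_apply, bd_apply, h2, h4]
      simp
    · have h5 : derP m D' (Γ.diff a) = 0 := by
        refine GAcy_derP_diff hΓ _ a fun b hb => hz b ?_
        omega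
      ext x
      have h6 : bd m D' a x = 0 := by rw [hcl]; rfl
      rw [bd_apply, h5] at h6
      have h7 : Z.d (D' a x) = sg k (m + Γ.deg a) • D' a (X.d x) := by
        have : (0 : X.M →ₗ[k] Z.M) x = 0 := rfl
        rw [this, smul_zero, sub_zero] at h6
        exact sub_eq_zero.1 h6
      have h8 := hc1 (D' a x)
      rw [h7, map_smul] at h8
      rw [LinearMap.sub_apply, bd_apply, h2, hE'1 a h3.symm]
      have h9 : sg k (m - 1 + Γ.deg a) = - sg k (m + Γ.deg a) := by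
        rw [← GAcy_sg_pred]; congr 1; ring
      rw [h9]
      simp only [LinearMap.comp_apply, LinearMap.zero_apply, smul_zero, sub_zero, neg_smul,
        sub_neg_eq_add]
      rw [h8, sub_self]

/-- Let `c` be a contraction of `Z`. Every closed derivation of degree `m` is a coboundary.
Proof. Levels: claim for every `l : ℕ`: there is `E` (`E a ∈ HomA a X Z (m - 1 + deg a)`) with
`(D - bd (m-1) E) a = 0` for all `a` with `deg a > - l` (Lean: `- (l : ℤ) < deg a`). Induction: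
`l = 0` is empty (`hΓ.deg_nonpos`: there is no `a` with `deg a > 0`). Step: let
`D' = D - bd (m-1) E`, still closed (`bd_bd`), zero on `deg > -l`. Put `E' a = c ∘ D' a` if
`deg a = -l` and `0` otherwise. Letters of the words in `Γ.diff a` have degree `> deg a` (all
degrees are `≤ 0` and their sum is `deg a + 1`, `Γ.diff_deg`), so for `deg a ≥ -l` we have
`derP m D' (diff a) = 0`, `derP (m-1) E' (diff a) = 0`. For `deg a = -l`: closedness gives
`d D'_a = sg (m+|a|) D'_a d`, so `bd (m-1) E' a = d c D'_a - sg (m-1+|a|) c D'_a d =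
d c D'_a + c d D'_a = D'_a`; for `deg a > -l` both are zero. Finally `Γ.A` is finite, so for large
`l` all arrows have degree `> -l`. -/
theorem bd_exact (hΓ : Γ.Nice) {X Z : DGM Γ} {c : Z.M →ₗ[k] Z.M} (hc : c ∈ HomV Z Z (-1))
    (hc1 : ∀ x, Z.d (c x) + c (Z.d x) = x) (m : ℤ) {D : Γ.A → (X.M →ₗ[k] Z.M)}
    (hD : ∀ a, D a ∈ HomA a X Z (m + Γ.deg a)) (h0 : bd m D = 0) :
    ∃ E : Γ.A → (X.M →ₗ[k] Z.M), (∀ a, E a ∈ HomA a X Z (m - 1 + Γ.deg a)) ∧
      bd (m - 1) E = D := by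
  have := hΓ.finA
  obtain ⟨B, hB⟩ := (Set.finite_range Γ.deg).bddBelow
  obtain ⟨E, hE, hE0⟩ := GAcy_level hΓ hc hc1 m hD h0 (1 - B).toNat
  refine ⟨E, hE, ?_⟩
  funext a
  have h1 : B ≤ Γ.deg a := hB ⟨a, rfl⟩
  have h2 := hE0 a (by omega)
  exact (sub_eq_zero.1 h2).symm

/-- Proof. `φ = (h, D)`. `dH n h = 0` gives `h = dH (n-1) (c h)`. So `φ - dPhi (n-1) (c h, 0) = (0, D')`
is a cocycle (`dPhi_dPhi`), `bd (n-1) D' = 0`, `D' = bd (n-2) E = - ` second component of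
`dPhi (n-1) (0, E)`; so `φ = dPhi (n-1) (c h, -E)`. -/
theorem phi_acyclic (hΓ : Γ.Nice) {X Z : DGM Γ} (hZ : Acyclic Z) (n : ℤ) {φ : Amb X Z}
    (hφ : φ ∈ ZPhi X Z n) : φ ∈ BPhi X Z n := by
  obtain ⟨c, hc, hc1⟩ := exists_contraction Z hZ
  obtain ⟨⟨hh, hD⟩, hk⟩ := hφ
  obtain ⟨h, D⟩ := φ
  simp only at hh hD
  have hk' : dPhi n ((h, D) : Amb X Z) = 0 := hk
  rw [dPhi_apply] at hk'
  obtain ⟨h1, h2⟩ := Prod.mk.inj hk'
  simp only at h1 h2
  have h1' : ∀ x, Z.d (h x) = sg k n • h (X.d x) := by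
    intro x
    have := congrArg (fun F => F x) h1
    simp only [dH_apply, LinearMap.zero_apply] at this
    exact sub_eq_zero.1 this
  have hch : c ∘ₗ h ∈ HomV X Z (n - 1) := by
    intro v p q x hpq hx
    exact hc v (p + n) q _ (by omega) (hh v p (p + n) x rfl hx)
  have hdch : dH (n - 1) (c ∘ₗ h) = h := by
    ext x
    rw [dH_apply, GAcy_sg_pred]
    simp only [LinearMap.comp_apply, neg_smul, sub_neg_eq_add]
    have := hc1 (h x)
    rwa [h1', map_smul] at this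
  have hcl : bd (n - 1) (D - inn (n - 1) (c ∘ₗ h)) = 0 := by
    rw [GAcy_bd_sub, ← inn_dH, hdch, sub_add_cancel]
    rw [← neg_sub, h2, neg_zero]
  have hD1 : ∀ a, (D - inn (n - 1) (c ∘ₗ h)) a ∈ HomA a X Z (n - 1 + Γ.deg a) := fun a =>
    sub_mem (hD a) (inn_mem hch a)
  obtain ⟨E, hE, hE1⟩ := bd_exact hΓ hc hc1 (n - 1) hD1 hcl
  refine ⟨(c ∘ₗ h, -E), ⟨hch, fun a => neg_mem (hE a)⟩, ?_⟩
  rw [dPhi_apply]
  simp only
  rw [hdch, GAcy_bd_neg, hE1]
  congr 1
  abel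

end DGM

end GZ
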