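import Pool.Agent.Lib_MP_a23b08_g.GPhiDefs

/-!
PIECE F1. Degrees and vertices of `evW`, `derW`, `bd`, `inn`, `dH`, `dPhi`.
-/

open CategoryTheory

namespace GZ

namespace DGM

variable {k : Type} [Field k] {Γ : QF k} {X Y : DGM Γ}

/-- Proof: induction on `w` (with `j` general); for `a :: w`: `tgt a = j`, `w : i → src a`, use
`act_mem` with `degW (a :: w) = deg a + degW w`. -/
lemma evW_mem {i j : Γ.V} {w : List Γ.A} (hw : IsPath Γ.src Γ.tgt i j w) {p q : ℤ} {x : X.M}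
    (h : p + degW Γ.deg w = q) (hx : x ∈ X.gr i p) : evW X.act w x ∈ X.gr j q := by
  induction w generalizing j q with
  | nil =>
    have h1 : i = j := hw
    have h2 : p = q := by simpa using h
    subst h1 h2
    exact hx
  | cons a w ih =>
    obtain ⟨h1, h2⟩ : Γ.tgt a = j ∧ IsPath Γ.src Γ.tgt i (Γ.src a) w := hw
    subst h1
    rw [evW_cons]
    rw [degW_cons] at h
    exact X.act_mem a (by omega) (ih h2 rfl)

/-- For `v ≠ i` and a NONEMPTY path `w` starting at `i`, `w` acts as zero on the component of `v`.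
Proof: induction; `w = [a]`: `act_zero`; `a :: b :: w'`: the induction hypothesis for `b :: w'`. -/
lemma evW_zero {i j v : Γ.V} {w : List Γ.A} (hw : IsPath Γ.src Γ.tgt i j w) (hne : w ≠ [])
    (hv : v ≠ i) {p : ℤ} {x : X.M} (hx : x ∈ X.gr v p) : evW X.act w x = 0 := by
  induction w generalizing j with
  | nil => exact absurd rfl hne
  | cons a w ih =>
    obtain ⟨h1, h2⟩ : Γ.tgt a = j ∧ IsPath Γ.src Γ.tgt i (Γ.src a) w := hw
    rw [evW_cons]
    rcases w with _ | ⟨b, w⟩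
    · have h3 : i = Γ.src a := h2
      rw [evW_nil, LinearMap.id_apply]
      exact X.act_zero a (h3 ▸ hv) hx
    · rw [ih h2 (List.cons_ne_nil _ _), map_zero]

/-- Proof: induction on `w`; `derW_cons`, `evW_mem`, `act_mem`. -/
lemma derW_mem {m : ℤ} {D : Γ.A → (X.M →ₗ[k] Y.M)} (hD : ∀ a, D a ∈ HomA a X Y (m + Γ.deg a))
    {i j : Γ.V} {w : List Γ.A} (hw : IsPath Γ.src Γ.tgt i j w) {p q : ℤ} {x : X.M}
    (h : p + m + degW Γ.deg w = q) (hx : x ∈ X.gr i p) : derW m D w x ∈ Y.gr j q := by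
  induction w generalizing j q with
  | nil =>
    rw [derW_nil, LinearMap.zero_apply]
    exact zero_mem _
  | cons a w ih =>
    obtain ⟨h1, h2⟩ : Γ.tgt a = j ∧ IsPath Γ.src Γ.tgt i (Γ.src a) w := hw
    subst h1
    rw [derW_cons]
    rw [degW_cons] at h
    refine add_mem ?_ (Submodule.smul_mem _ _ ?_)
    · exact (hD a).1 (p + degW Γ.deg w) q _ (by omega) (evW_mem h2 rfl hx)
    · exact Y.act_mem a (by omega) (ih h2 rfl)

lemma derW_zero {m : ℤ} {D : Γ.A → (X.M →ₗ[k] Y.M)} (hD : ∀ a, D a ∈ HomA a X Y (m + Γ.deg a))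
    {i j v : Γ.V} {w : List Γ.A} (hw : IsPath Γ.src Γ.tgt i j w) (hv : v ≠ i) {p : ℤ} {x : X.M}
    (hx : x ∈ X.gr v p) : derW m D w x = 0 := by
  induction w generalizing j with
  | nil => rw [derW_nil, LinearMap.zero_apply]
  | cons a w ih =>
    obtain ⟨h1, h2⟩ : Γ.tgt a = j ∧ IsPath Γ.src Γ.tgt i (Γ.src a) w := hw
    rw [derW_cons, ih h2, map_zero, smul_zero, add_zero]
    rcases w with _ | ⟨b, w⟩
    · have h3 : i = Γ.src a := h2
      rw [evW_nil, LinearMap.id_apply]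
      exact (hD a).2 v p x (h3 ▸ hv) hx
    · rw [evW_zero h2 (List.cons_ne_nil _ _) hv hx, map_zero]

/-- the value of a derivation of degree `m` on `d a`. Proof: `derP` is a linear combination of the
`derW m D w`, `w` in `Γ.diff a`; use `Γ.diff_path`, `Γ.diff_deg`. -/
lemma derP_diff_mem {m : ℤ} {D : Γ.A → (X.M →ₗ[k] Y.M)}
    (hD : ∀ a, D a ∈ HomA a X Y (m + Γ.deg a)) (a : Γ.A) :
    derP m D (Γ.diff a) ∈ HomA a X Y (m + 1 + Γ.deg a) := by
  unfold derP
  apply list_sum_mem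
  intro f hf
  rw [List.mem_map] at hf
  obtain ⟨t, ht, rfl⟩ := hf
  refine Submodule.smul_mem _ _ ⟨fun p q x h hx => ?_, fun v p x hv hx => ?_⟩
  · refine derW_mem hD (Γ.diff_path a t ht) ?_ hx
    rw [Γ.diff_deg a t ht]
    omega
  · exact derW_zero hD (Γ.diff_path a t ht) hv hx

lemma bd_mem {m : ℤ} {D : Γ.A → (X.M →ₗ[k] Y.M)} (hD : ∀ a, D a ∈ HomA a X Y (m + Γ.deg a))
    (a : Γ.A) : bd m D a ∈ HomA a X Y (m + 1 + Γ.deg a) := by
  refine sub_mem (sub_mem ?_ (Submodule.smul_mem _ _ ?_))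
    (Submodule.smul_mem _ _ (derP_diff_mem hD a))
  · refine ⟨fun p q x h hx => ?_, fun v p x hv hx => ?_⟩
    · exact Y.d_mem (by omega) ((hD a).1 p (p + (m + Γ.deg a)) x rfl hx)
    · rw [LinearMap.comp_apply, (hD a).2 v p x hv hx, map_zero]
  · refine ⟨fun p q x h hx => ?_, fun v p x hv hx => ?_⟩
    · exact (hD a).1 (p + 1) q _ (by omega) (X.d_mem rfl hx)
    · exact (hD a).2 v (p + 1) _ hv (X.d_mem rfl hx)

lemma inn_mem {n : ℤ} {h : X.M →ₗ[k] Y.M} (hh : h ∈ HomV X Y n) (a : Γ.A) :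
    inn n h a ∈ HomA a X Y (n + Γ.deg a) := by
  refine sub_mem ?_ (Submodule.smul_mem _ _ ?_)
  · refine ⟨fun p q x h hx => ?_, fun v p x hv hx => ?_⟩
    · exact hh _ (p + Γ.deg a) q _ (by omega) (X.act_mem a rfl hx)
    · rw [LinearMap.comp_apply, X.act_zero a hv hx, map_zero]
  · refine ⟨fun p q x h hx => ?_, fun v p x hv hx => ?_⟩
    · exact Y.act_mem a (by omega) (hh _ p (p + n) x rfl hx)
    · exact Y.act_zero a hv (hh v p (p + n) x rfl hx)

lemma dH_mem {n : ℤ} {h : X.M →ₗ[k] Y.M} (hh : h ∈ HomV X Y n) : dH n h ∈ HomV X Y (n + 1) := by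
  refine sub_mem ?_ (Submodule.smul_mem _ _ ?_)
  · intro v p q x h hx
    exact Y.d_mem (by omega) (hh v p (p + n) x rfl hx)
  · intro v p q x h hx
    exact hh v (p + 1) q _ (by omega) (X.d_mem rfl hx)

lemma dPhi_mem {n : ℤ} {φ : Amb X Y} (hφ : φ ∈ Phi X Y n) : dPhi n φ ∈ Phi X Y (n + 1) := by
  refine ⟨dH_mem hφ.1, fun a => ?_⟩
  have h1 : n + 1 - 1 + Γ.deg a = n + Γ.deg a := by ring
  have h2 : n - 1 + 1 + Γ.deg a = n + Γ.deg a := by ring
  rw [h1]
  have h3 := bd_mem hφ.2 a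
  rw [h2] at h3
  exact sub_mem (inn_mem hφ.1 a) h3

end DGM

end GZ
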