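import Pool.Agent.Lib_MP_a23b08_al.QP
import Pool.Agent.Lib_MP_a23b08_g.GPhi1

/-!
PIECE C1. The supertrace of a finite-dimensional dg module and the Calabi-Yau pairing
`Φ(Z, X) × Φ(X, Z) → k`: definition and non-degeneracy.
-/

open CategoryTheory

namespace GZ

variable {k : Type} [Field k]

namespace DGM

section sigma

variable {Γ : QF k}

/-- A linear map given on the homogeneous components. -/
private theorem GCY1_lin (X : DGM Γ) {N : Type} [AddCommGroup N] [Module k N]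
    (φ : (p : Γ.V × ℤ) → X.gr p.1 p.2 →ₗ[k] N) :
    ∃ F : X.M →ₗ[k] N, ∀ v n (x : X.M) (hx : x ∈ X.gr v n), F x = φ (v, n) ⟨x, hx⟩ := by
  classical
  have hI : DirectSum.IsInternal (fun p : Γ.V × ℤ => X.gr p.1 p.2) :=
    DirectSum.isInternal_submodule_of_iSupIndep_of_iSup_eq_top X.indep X.iSup_eq_top
  let e := LinearEquiv.ofBijective (DirectSum.coeLinearMap fun p : Γ.V × ℤ => X.gr p.1 p.2) hI
  refine ⟨DirectSum.toModule k _ N φ ∘ₗ e.symm.toLinearMap, fun v n x hx => ?_⟩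
  have h1 : e.symm x = DirectSum.lof k (Γ.V × ℤ) (fun p => X.gr p.1 p.2) (v, n) ⟨x, hx⟩ := by
    rw [LinearEquiv.symm_apply_eq]
    exact (DirectSum.coeLinearMap_lof (fun p : Γ.V × ℤ => X.gr p.1 p.2) (v, n) ⟨x, hx⟩).symm
  show DirectSum.toModule k _ N φ (e.symm x) = _
  rw [h1, DirectSum.toModule_lof]

private theorem GCY1_proj (X : DGM Γ) (v : Γ.V) (n : ℤ) :
    ∃ P : X.M →ₗ[k] X.M, (∀ x ∈ X.gr v n, P x = x) ∧
      (∀ w m x, x ∈ X.gr w m → (w, m) ≠ (v, n) → P x = 0) ∧ ∀ x, P x ∈ X.gr v n := by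
  classical
  obtain ⟨P, hP⟩ := GCY1_lin X (N := X.M)
    (fun p => if p = (v, n) then (X.gr p.1 p.2).subtype else 0)
  have h1 : ∀ x ∈ X.gr v n, P x = x := fun x hx => by
    rw [hP v n x hx, if_pos rfl]
    rfl
  have h2 : ∀ w m x, x ∈ X.gr w m → (w, m) ≠ (v, n) → P x = 0 := fun w m x hx hne => by
    rw [hP w m x hx, if_neg hne]
    rfl
  refine ⟨P, h1, h2, fun x => X.induction (P := fun x => P x ∈ X.gr v n) x
    (fun w m y hy => ?_) ?_ fun y z hy hz => ?_⟩
  · by_cases e : (w, m) = (v, n)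
    · obtain ⟨rfl, rfl⟩ := Prod.mk.inj e
      rw [h1 y hy]
      exact hy
    · rw [h2 w m y hy e]
      exact zero_mem _
  · rw [map_zero]
    exact zero_mem _
  · rw [map_add]
    exact add_mem hy hz

private theorem GCY1_sum (X : DGM Γ) [Module.Finite k X.M] {P : Γ.V × ℤ → X.M →ₗ[k] X.M}
    (h1 : ∀ p, ∀ x ∈ X.gr p.1 p.2, P p x = x)
    (h2 : ∀ p w m x, x ∈ X.gr w m → (w, m) ≠ p → P p x = 0) :
    ∃ s : Finset (Γ.V × ℤ), ∑ p ∈ s, P p = LinearMap.id := by
  classical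
  have hfin : {p : Γ.V × ℤ | X.gr p.1 p.2 ≠ ⊥}.Finite :=
    WellFoundedGT.finite_ne_bot_of_iSupIndep X.indep
  refine ⟨hfin.toFinset, X.ext_hom fun w m x hx => ?_⟩
  rw [LinearMap.sum_apply, LinearMap.id_apply]
  by_cases h : (w, m) ∈ hfin.toFinset
  · rw [Finset.sum_eq_single_of_mem (w, m) h fun p _ hp => h2 p w m x hx fun e => hp e.symm]
    exact h1 (w, m) x hx
  · have h3 : X.gr w m = ⊥ := by
      by_contra h4
      exact h (hfin.mem_toFinset.mpr h4)
    have h5 : x = 0 := by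
      rw [h3] at hx
      exact hx
    rw [h5]
    exact Finset.sum_eq_zero fun p _ => map_zero _

private theorem GCY1_trace (X : DGM Γ) [Module.Finite k X.M] {P : Γ.V × ℤ → X.M →ₗ[k] X.M}
    (h1 : ∀ p, ∀ x ∈ X.gr p.1 p.2, P p x = x)
    (h2 : ∀ p w m x, x ∈ X.gr w m → (w, m) ≠ p → P p x = 0)
    (h3 : ∀ p x, P p x ∈ X.gr p.1 p.2) {T D : X.M →ₗ[k] X.M}
    (hD : ∀ p, ∀ x ∈ X.gr p.1 p.2, D x = P p (T x)) :
    LinearMap.trace k X.M D = LinearMap.trace k X.M T := by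
  obtain ⟨s, hs⟩ := GCY1_sum X h1 h2
  have h4 : D = ∑ p ∈ s, P p ∘ₗ (T ∘ₗ P p) := by
    refine LinearMap.ext fun x => ?_
    have h5 : x = ∑ p ∈ s, P p x := by
      rw [← LinearMap.sum_apply, hs, LinearMap.id_apply]
    rw [LinearMap.sum_apply]
    conv_lhs => rw [h5, map_sum]
    exact Finset.sum_congr rfl fun p _ => hD p _ (h3 p x)
  have h6 : T = ∑ p ∈ s, T ∘ₗ P p := by
    refine LinearMap.ext fun x => ?_
    have h5 : x = ∑ p ∈ s, P p x := by
      rw [← LinearMap.sum_apply, hs, LinearMap.id_apply]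
    rw [LinearMap.sum_apply]
    conv_lhs => rw [h5, map_sum]
    rfl
  conv_rhs => rw [h6]
  rw [h4, map_sum, map_sum]
  refine Finset.sum_congr rfl fun p _ => ?_
  rw [LinearMap.trace_comp_comm', LinearMap.comp_assoc]
  congr 1
  refine LinearMap.ext fun x => ?_
  show T (P p (P p x)) = T (P p x)
  rw [h1 p _ (h3 p x)]

/-- Every linear functional on the linear maps from a finite-dimensional space is given by the trace. -/
private theorem GCY1_rep {X Z : Type} [AddCommGroup X] [Module k X] [AddCommGroup Z] [Module k Z]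
    [Module.Finite k X] (ℓ : (X →ₗ[k] Z) →ₗ[k] k) :
    ∃ G : Z →ₗ[k] X, ∀ f : X →ₗ[k] Z, ℓ f = LinearMap.trace k X (G ∘ₗ f) := by
  let b := Module.finBasis k X
  let φ : Fin (Module.finrank k X) → Z →ₗ[k] k := fun s => ℓ ∘ₗ LinearMap.smulRightₗ (b.coord s)
  refine ⟨∑ s, (φ s).smulRight (b s), fun f => ?_⟩
  have h1 : (∑ s, (φ s).smulRight (b s)) ∘ₗ f = ∑ s, (φ s ∘ₗ f).smulRight (b s) := by
    refine LinearMap.ext fun x => ?_
    simp [LinearMap.sum_apply]
  rw [h1, map_sum]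
  have h2 : f = ∑ s, (b.coord s).smulRight (f (b s)) := by
    refine LinearMap.ext fun x => ?_
    have h3 := b.sum_repr x
    conv_lhs => rw [← h3, map_sum]
    rw [LinearMap.sum_apply]
    exact Finset.sum_congr rfl fun s _ => map_smul f _ _
  conv_lhs => rw [h2, map_sum]
  refine Finset.sum_congr rfl fun s _ => ?_
  rw [LinearMap.trace_smulRight]
  rfl

/-- The sign operator exists. Proof: the grading is a direct sum decomposition
(`DirectSum.IsInternal`, index type `Γ.V × ℤ` with `Classical.decEq`), define it on the components. -/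
theorem exists_sigma (X : DGM Γ) :
    ∃ σ : X.M →ₗ[k] X.M, ∀ v p x, x ∈ X.gr v p → σ x = sg k p • x := by
  obtain ⟨F, hF⟩ := GCY1_lin X (N := X.M) fun p => sg k p.2 • (X.gr p.1 p.2).subtype
  exact ⟨F, fun v p x hx => hF v p x hx⟩

/-- The sign operator `x ↦ (-1)^p x` on the component of degree `p`. -/
noncomputable def sigma (X : DGM Γ) : X.M →ₗ[k] X.M := (exists_sigma X).choose

lemma sigma_apply (X : DGM Γ) {v : Γ.V} {p : ℤ} {x : X.M} (hx : x ∈ X.gr v p) :
    sigma X x = sg k p • x := (exists_sigma X).choose_spec v p x hx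

private theorem GCY1_ss (X : DGM Γ) : sigma X ∘ₗ sigma X = LinearMap.id := by
  refine X.ext_hom fun v p x hx => ?_
  show sigma X (sigma X x) = x
  rw [sigma_apply X hx, map_smul, sigma_apply X hx, sg_mul_self_smul]

/-- The supertrace. -/
noncomputable def str (X : DGM Γ) : (X.M →ₗ[k] X.M) →ₗ[k] k :=
  LinearMap.trace k X.M ∘ₗ LinearMap.mulLeft k (sigma X)

lemma str_apply (X : DGM Γ) (f : X.M →ₗ[k] X.M) :
    str X f = LinearMap.trace k X.M (sigma X ∘ₗ f) := rfl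

/-- Proof: `σ d = - d σ` (`ext_hom`), `trace_mul_comm`. -/
lemma str_d_comp (X : DGM Γ) [Module.Finite k X.M] (f : X.M →ₗ[k] X.M) :
    str X (X.d ∘ₗ f) = - str X (f ∘ₗ X.d) := by
  have h1 : sigma X ∘ₗ X.d = - (X.d ∘ₗ sigma X) := by
    refine X.ext_hom fun v p x hx => ?_
    show sigma X (X.d x) = - X.d (sigma X x)
    rw [sigma_apply X (X.d_mem rfl hx), sigma_apply X hx, map_smul, sg_succ, neg_smul]
  rw [str_apply, str_apply, ← LinearMap.comp_assoc, h1, LinearMap.neg_comp, map_neg,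
    LinearMap.comp_assoc, LinearMap.trace_comp_comm', LinearMap.comp_assoc]

lemma str_act_comp (X : DGM Γ) [Module.Finite k X.M] (a : Γ.A) (f : X.M →ₗ[k] X.M) :
    str X (X.act a ∘ₗ f) = sg k (Γ.deg a) * str X (f ∘ₗ X.act a) := by
  have h1 : sigma X ∘ₗ X.act a = sg k (Γ.deg a) • (X.act a ∘ₗ sigma X) := by
    refine X.ext_hom fun v p x hx => ?_
    show sigma X (X.act a x) = sg k (Γ.deg a) • X.act a (sigma X x)
    rw [sigma_apply X hx, map_smul]
    by_cases hv : v = Γ.src a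
    · subst hv
      rw [sigma_apply X (X.act_mem a rfl hx), sg_add, smul_smul, mul_comm]
    · rw [X.act_zero a hv hx, map_zero, smul_zero, smul_zero]
  rw [str_apply, str_apply, ← LinearMap.comp_assoc, h1, LinearMap.smul_comp, map_smul, smul_eq_mul,
    LinearMap.comp_assoc, LinearMap.trace_comp_comm', LinearMap.comp_assoc]

/-- Linear maps of degree `n` from the component of `i` to the component of `j`. -/
def HomIJ (i j : Γ.V) (X Y : DGM Γ) (n : ℤ) : Submodule k (X.M →ₗ[k] Y.M) where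
  carrier := {f | (∀ (p q : ℤ) (x : X.M), p + n = q → x ∈ X.gr i p → f x ∈ Y.gr j q) ∧
    ∀ (v : Γ.V) (p : ℤ) (x : X.M), v ≠ i → x ∈ X.gr v p → f x = 0}
  add_mem' := fun ha hb => ⟨fun p q x h hx => add_mem (ha.1 p q x h hx) (hb.1 p q x h hx),
    fun v p x hv hx => by simp [ha.2 v p x hv hx, hb.2 v p x hv hx]⟩
  zero_mem' := ⟨fun _ _ _ _ _ => by simp, fun _ _ _ _ _ => by simp⟩
  smul_mem' := fun c _ hf => ⟨fun p q x h hx => Submodule.smul_mem _ c (hf.1 p q x h hx),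
    fun v p x hv hx => by simp [hf.2 v p x hv hx]⟩

lemma homA_eq (a : Γ.A) (X Y : DGM Γ) (n : ℤ) : HomA a X Y n = HomIJ (Γ.src a) (Γ.tgt a) X Y n := rfl

/-- Every linear functional on `HomIJ i j X Z n` is `f ↦ str (g ∘ f)` for some `g` in
`HomIJ j i Z X (-n)` if `X` is finite-dimensional.
Proof. `X.gr i p` is non-zero for finitely many `p` only (finite-dimensional, independent). Choose a
basis `e_1, …, e_r` of `⨆ p, X.gr i p` consisting of homogeneous elements `e_s ∈ X.gr i p_s` (for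
instance bases of the finitely many non-zero `X.gr i p`), and the linear forms `e^s` on `X.M`,
`e^s (e_t) = δ_st`, `e^s = 0` on `X.gr v p`, `v ≠ i`. For `z ∈ Z.gr j (p_s + n)` the map
`z ⊗ e^s : x ↦ e^s(x) z` is in `HomIJ i j X Z n`, and every `f` in `HomIJ i j X Z n` is
`∑ s, f(e_s) ⊗ e^s`. Put `g z = ∑ s, (-1)^(p_s) ℓ(z_s ⊗ e^s) e_s` where `z_s` is the component of `z` in
`Z.gr j (p_s + n)` (linear in `z`). Then `g` has degree `-n`, is zero outside the vertex `j`, and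
`str (g f) = ∑ s, (-1)^(p_s) e^s(g f e_s) = ∑ s, ℓ(f(e_s) ⊗ e^s) = ℓ f`. -/
theorem exists_str_rep (X Z : DGM Γ) [Module.Finite k X.M] (i j : Γ.V) (n : ℤ)
    (ℓ : (X.M →ₗ[k] Z.M) →ₗ[k] k) :
    ∃ g ∈ HomIJ j i Z X (-n), ∀ f ∈ HomIJ i j X Z n, ℓ f = str X (g ∘ₗ f) := by
  classical
  choose P hP1 hP2 hP3 using fun p : Γ.V × ℤ => GCY1_proj X p.1 p.2
  obtain ⟨G, hG⟩ := GCY1_rep ℓ
  obtain ⟨G', hG'⟩ := GCY1_lin Z (N := X.M)
    (fun p => if p.1 = j then P (i, p.2 - n) ∘ₗ G ∘ₗ (Z.gr p.1 p.2).subtype else 0)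
  have hj : ∀ q, ∀ z ∈ Z.gr j q, G' z = P (i, q - n) (G z) := fun q z hz => by
    rw [hG' j q z hz, if_pos rfl]
    rfl
  have hv : ∀ v q z, v ≠ j → z ∈ Z.gr v q → G' z = 0 := fun v q z hvj hz => by
    rw [hG' v q z hz, if_neg hvj]
    rfl
  refine ⟨sigma X ∘ₗ G', ⟨fun p q z h hz => ?_, fun v p z hvj hz => ?_⟩, fun f hf => ?_⟩
  · have hq : q = p - n := by omega
    subst hq
    show sigma X (G' z) ∈ X.gr i (p - n)
    have h1 : G' z ∈ X.gr i (p - n) := by
      rw [hj p z hz]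
      exact hP3 (i, p - n) _
    rw [sigma_apply X h1]
    exact Submodule.smul_mem _ _ h1
  · show sigma X (G' z) = 0
    rw [hv v p z hvj hz, map_zero]
  · have h1 : sigma X ∘ₗ ((sigma X ∘ₗ G') ∘ₗ f) = G' ∘ₗ f := by
      rw [← LinearMap.comp_assoc, ← LinearMap.comp_assoc, GCY1_ss, LinearMap.id_comp]
    rw [str_apply, h1, hG f]
    symm
    refine GCY1_trace X (P := P) hP1 (fun p w m x hx hne => hP2 p w m x hx hne) hP3 ?_
    rintro ⟨v, p⟩ x hx
    show G' (f x) = P (v, p) (G (f x))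
    by_cases hvi : v = i
    · subst hvi
      rw [hj (p + n) (f x) (hf.1 p (p + n) x rfl hx), add_sub_cancel_right]
    · rw [hf.2 v p x hvi hx, map_zero, map_zero, map_zero]

/-- Non-degeneracy: if `g ∈ HomIJ j i Z X (-n)` and `str (g f) = 0` for all `f` in `HomIJ i j X Z n`
then `g = 0`. Proof: if `g z ≠ 0` for some `z ∈ Z.gr j q`, `g z ∈ X.gr i (q - n)`, choose a linear form
`e` on `X.M` with `e (g z) = 1` that is zero on all other components; `f = z ⊗ e`;
`str (g f) = ± 1`. -/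
theorem eq_zero_of_str (X Z : DGM Γ) [Module.Finite k X.M] (i j : Γ.V) (n : ℤ)
    {g : Z.M →ₗ[k] X.M} (hg : g ∈ HomIJ j i Z X (-n))
    (h : ∀ f ∈ HomIJ i j X Z n, str X (g ∘ₗ f) = 0) : g = 0 := by
  refine Z.ext_hom fun v q z hz => ?_
  rw [LinearMap.zero_apply]
  by_cases hvj : v = j
  · subst hvj
    by_contra hne
    have hgz : g z ∈ X.gr i (q - n) := hg.1 q (q - n) z (by omega) hz
    obtain ⟨P, hP1, hP2, -⟩ := GCY1_proj X i (q - n)
    obtain ⟨e, he⟩ := Module.Projective.exists_dual_ne_zero k hne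
    let e' : X.M →ₗ[k] k := e ∘ₗ P
    have h1 : e'.smulRight z ∈ HomIJ i v X Z n := by
      refine ⟨fun p p' x hp hx => ?_, fun w p x hw hx => ?_⟩
      · show e (P x) • z ∈ Z.gr v p'
        by_cases hpq : p = q - n
        · have h2 : p' = q := by omega
          rw [h2]
          exact Submodule.smul_mem _ _ hz
        · rw [hP2 i p x hx fun e1 => hpq (Prod.mk.inj e1).2, map_zero, zero_smul]
          exact zero_mem _
      · show e (P x) • z = 0
        rw [hP2 w p x hx fun e1 => hw (Prod.mk.inj e1).1, map_zero, zero_smul]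
    have h2 := h _ h1
    have h3 : sigma X ∘ₗ (g ∘ₗ e'.smulRight z) = e'.smulRight (sigma X (g z)) := by
      refine LinearMap.ext fun x => ?_
      show sigma X (g (e' x • z)) = e' x • sigma X (g z)
      rw [map_smul, map_smul]
    rw [str_apply, h3, LinearMap.trace_smulRight, sigma_apply X hgz, map_smul, smul_eq_mul] at h2
    have h4 : e' (g z) = 0 := by
      rcases mul_eq_zero.1 h2 with h5 | h5
      · have h6 := sg_mul_self (k := k) (q - n)
        rw [h5, zero_mul] at h6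
        exact absurd h6 zero_ne_one
      · exact h5
    apply he
    have h5 : e (P (g z)) = 0 := h4
    rwa [hP1 _ hgz] at h5
  · exact hg.2 v q z hvj hz

end sigma

variable {Q : QP k}

/-- The Calabi-Yau pairing `Φⁿ'(Z, X) × Φ³⁻ⁿ'(X, Z) → k` on the ambient spaces. -/
noncomputable def Bp (n' : ℤ) (X Z : DGM (ginz Q)) : Amb Z X →ₗ[k] Amb X Z →ₗ[k] k :=
  LinearMap.mk₂ k (fun ψ φ =>
    str X (ψ.1 ∘ₗ ∑ v : Q.V, φ.2 (Gen.loop v)) +
      sg k n' * str X ((∑ v : Q.V, ψ.2 (Gen.loop v)) ∘ₗ φ.1) -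
      ∑ a : Q.A, str X (ψ.2 (Gen.arr a) ∘ₗ φ.2 (Gen.star a)) +
      sg k n' * ∑ a : Q.A, str X (ψ.2 (Gen.star a) ∘ₗ φ.2 (Gen.arr a)))
    (fun ψ ψ' φ => by
      simp only [Prod.fst_add, Prod.snd_add, Pi.add_apply, Finset.sum_add_distrib,
        LinearMap.add_comp, map_add, mul_add]
      ring)
    (fun c ψ φ => by
      simp only [Prod.smul_fst, Prod.smul_snd, Pi.smul_apply, ← Finset.smul_sum,
        LinearMap.smul_comp, map_smul, smul_eq_mul, ← Finset.mul_sum]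
      ring)
    (fun ψ φ φ' => by
      simp only [Prod.fst_add, Prod.snd_add, Pi.add_apply, Finset.sum_add_distrib,
        LinearMap.comp_add, map_add, mul_add]
      ring)
    (fun c ψ φ => by
      simp only [Prod.smul_fst, Prod.smul_snd, Pi.smul_apply, ← Finset.smul_sum,
        LinearMap.comp_smul, map_smul, smul_eq_mul, ← Finset.mul_sum]
      ring)

lemma Bp_apply (n' : ℤ) (X Z : DGM (ginz Q)) (ψ : Amb Z X) (φ : Amb X Z) :
    Bp n' X Z ψ φ = str X (ψ.1 ∘ₗ ∑ v : Q.V, φ.2 (Gen.loop v)) +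
      sg k n' * str X ((∑ v : Q.V, ψ.2 (Gen.loop v)) ∘ₗ φ.1) -
      ∑ a : Q.A, str X (ψ.2 (Gen.arr a) ∘ₗ φ.2 (Gen.star a)) +
      sg k n' * ∑ a : Q.A, str X (ψ.2 (Gen.star a) ∘ₗ φ.2 (Gen.arr a)) := rfl

end DGM

end GZ
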