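import Pool.Agent.Lib_MP_a23b08_g.GCY1

/-!
PIECE C1b. Chain level non-degeneracy of the Calabi-Yau pairing.
-/

open CategoryTheory

namespace GZ

variable {k : Type} [Field k]

namespace DGM

section proj

variable {Γ : QF k}

/-- The projection to the component of a vertex. -/
private theorem GCY1b_proj (X : DGM Γ) (v : Γ.V) :
    ∃ P : X.M →ₗ[k] X.M, (∀ n x, x ∈ X.gr v n → P x = x) ∧
      ∀ w n x, w ≠ v → x ∈ X.gr w n → P x = 0 := by
  classical
  have hI : DirectSum.IsInternal (fun p : Γ.V × ℤ => X.gr p.1 p.2) :=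
    DirectSum.isInternal_submodule_of_iSupIndep_of_iSup_eq_top X.indep X.iSup_eq_top
  let e := LinearEquiv.ofBijective (DirectSum.coeLinearMap fun p : Γ.V × ℤ => X.gr p.1 p.2) hI
  let φ : (p : Γ.V × ℤ) → X.gr p.1 p.2 →ₗ[k] X.M :=
    fun p => if p.1 = v then (X.gr p.1 p.2).subtype else 0
  have key : ∀ w n (x : X.M) (hx : x ∈ X.gr w n),
      (DirectSum.toModule k _ X.M φ ∘ₗ e.symm.toLinearMap) x = φ (w, n) ⟨x, hx⟩ := by
    intro w n x hx
    have h1 : e.symm x = DirectSum.lof k (Γ.V × ℤ) (fun p => X.gr p.1 p.2) (w, n) ⟨x, hx⟩ := by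
      rw [LinearEquiv.symm_apply_eq]
      exact (DirectSum.coeLinearMap_lof (fun p : Γ.V × ℤ => X.gr p.1 p.2) (w, n) ⟨x, hx⟩).symm
    show DirectSum.toModule k _ X.M φ (e.symm x) = _
    rw [h1, DirectSum.toModule_lof]
  refine ⟨DirectSum.toModule k _ X.M φ ∘ₗ e.symm.toLinearMap, fun n x hx => ?_,
    fun w n x hw hx => ?_⟩
  · rw [key v n x hx]
    simp [φ]
  · rw [key w n x hx]
    simp [φ, hw]

private noncomputable def GCY1b_P (X : DGM Γ) (v : Γ.V) : X.M →ₗ[k] X.M :=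
  (GCY1b_proj X v).choose

private theorem GCY1b_P_self (X : DGM Γ) (v : Γ.V) {n : ℤ} {x : X.M} (hx : x ∈ X.gr v n) :
    GCY1b_P X v x = x := (GCY1b_proj X v).choose_spec.1 n x hx

private theorem GCY1b_P_ne (X : DGM Γ) {v w : Γ.V} (hw : w ≠ v) {n : ℤ} {x : X.M}
    (hx : x ∈ X.gr w n) : GCY1b_P X v x = 0 := (GCY1b_proj X v).choose_spec.2 w n x hw hx

/-- The restriction of a graded map to a vertex. -/
private theorem GCY1b_restr {X Y : DGM Γ} {n : ℤ} {f : X.M →ₗ[k] Y.M} (hf : f ∈ HomV X Y n)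
    (v : Γ.V) : f ∘ₗ GCY1b_P X v ∈ HomIJ v v X Y n := by
  refine ⟨fun p q x h hx => ?_, fun w p x hw hx => ?_⟩
  · show f (GCY1b_P X v x) ∈ Y.gr v q
    rw [GCY1b_P_self X v hx]
    exact hf v p q x h hx
  · show f (GCY1b_P X v x) = 0
    rw [GCY1b_P_ne X hw hx, map_zero]

private theorem GCY1b_homV {X Y : DGM Γ} {n : ℤ} {v : Γ.V} {f : X.M →ₗ[k] Y.M}
    (hf : f ∈ HomIJ v v X Y n) : f ∈ HomV X Y n := by
  intro w p q x h hx
  by_cases hw : w = v
  · subst hw
    exact hf.1 p q x h hx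
  · rw [hf.2 w p x hw hx]
    exact zero_mem _

/-- The projection to the target. -/
private theorem GCY1b_P_comp {X Y : DGM Γ} {n : ℤ} {i v : Γ.V} {f : X.M →ₗ[k] Y.M}
    (hf : f ∈ HomIJ i v X Y n) : GCY1b_P Y v ∘ₗ f = f := by
  refine X.ext_hom fun w p x hx => ?_
  show GCY1b_P Y v (f x) = f x
  by_cases hw : w = i
  · subst hw
    exact GCY1b_P_self Y v (hf.1 p (p + n) x rfl hx)
  · rw [hf.2 w p x hw hx, map_zero]

/-- Maps with different middle vertices compose to zero. -/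
private theorem GCY1b_comp_zero {X Y Z : DGM Γ} {m n : ℤ} {i j v w : Γ.V} (hvw : w ≠ v)
    {u : Y.M →ₗ[k] Z.M} (hu : u ∈ HomIJ v j Y Z m) {f : X.M →ₗ[k] Y.M}
    (hf : f ∈ HomIJ i w X Y n) : u ∘ₗ f = 0 := by
  refine X.ext_hom fun w' p x hx => ?_
  show u (f x) = 0
  by_cases hw : w' = i
  · subst hw
    exact hu.2 w (p + n) (f x) hvw (hf.1 p (p + n) x rfl hx)
  · rw [hf.2 w' p x hw hx, map_zero]

/-- The source can be restricted to the vertex. -/
private theorem GCY1b_comp_P {X Y Z : DGM Γ} {m n : ℤ} {j v : Γ.V}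
    {u : Y.M →ₗ[k] Z.M} (hu : u ∈ HomIJ v j Y Z m) {f : X.M →ₗ[k] Y.M}
    (hf : f ∈ HomV X Y n) : u ∘ₗ (f ∘ₗ GCY1b_P X v) = u ∘ₗ f := by
  refine X.ext_hom fun w p x hx => ?_
  show u (f (GCY1b_P X v x)) = u (f x)
  by_cases hw : w = v
  · subst hw
    rw [GCY1b_P_self X w hx]
  · rw [GCY1b_P_ne X hw hx, map_zero, map_zero, hu.2 w (p + n) (f x) hw (hf w p (p + n) x rfl hx)]

private theorem GCY1b_sum_comp {A B C ι : Type} [AddCommGroup A] [Module k A] [AddCommGroup B]
    [Module k B] [AddCommGroup C] [Module k C] (s : Finset ι) (u : ι → B →ₗ[k] C)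
    (f : A →ₗ[k] B) : (∑ i ∈ s, u i) ∘ₗ f = ∑ i ∈ s, u i ∘ₗ f := by
  ext x
  simp [LinearMap.sum_apply]

private theorem GCY1b_sum_P {X Y : DGM Γ} [Fintype Γ.V] (f : X.M →ₗ[k] Y.M) :
    ∑ v : Γ.V, f ∘ₗ GCY1b_P X v = f := by
  classical
  refine X.ext_hom fun w p x hx => ?_
  rw [LinearMap.sum_apply, Finset.sum_eq_single_of_mem w (Finset.mem_univ w) fun v _ hv => ?_]
  · show f (GCY1b_P X w x) = f x
    rw [GCY1b_P_self X w hx]
  · show f (GCY1b_P X v x) = 0
    rw [GCY1b_P_ne X (Ne.symm hv) hx, map_zero]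

end proj

variable {Q : QP k}

/-- The element of the ambient space with one component. -/
private noncomputable def GCY1b_E {X Z : DGM (ginz Q)} (g : Gen Q.V Q.A) :
    (X.M →ₗ[k] Z.M) →ₗ[k] Amb X Z where
  toFun f := (0, fun g' : Gen Q.V Q.A => if g' = g then f else 0)
  map_add' f f' := by
    refine Prod.ext (by simp) (funext fun (g' : Gen Q.V Q.A) => ?_)
    show (if g' = g then f + f' else 0) = (if g' = g then f else 0) + if g' = g then f' else 0
    split_ifs <;> simp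
  map_smul' c f := by
    refine Prod.ext (by simp) (funext fun (g' : Gen Q.V Q.A) => ?_)
    show (if g' = g then c • f else 0) = c • if g' = g then f else 0
    split_ifs <;> simp

private theorem GCY1b_E_fst {X Z : DGM (ginz Q)} (g : Gen Q.V Q.A) (f : X.M →ₗ[k] Z.M) :
    (GCY1b_E g f : Amb X Z).1 = 0 := rfl

private theorem GCY1b_E_snd {X Z : DGM (ginz Q)} (g g' : Gen Q.V Q.A) (f : X.M →ₗ[k] Z.M) :
    (GCY1b_E g f : Amb X Z).2 g' = if g' = g then f else 0 := rfl

private theorem GCY1b_E_mem {X Z : DGM (ginz Q)} {n : ℤ} (g : Gen Q.V Q.A) {f : X.M →ₗ[k] Z.M}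
    (hf : f ∈ HomA (Γ := ginz Q) g X Z (n - 1 + (ginz Q).deg g)) :
    (GCY1b_E g f : Amb X Z) ∈ Phi X Z n := by
  refine ⟨zero_mem _, fun (g' : Gen Q.V Q.A) => ?_⟩
  have h : (GCY1b_E g f : Amb X Z).2 g' = if g' = g then f else 0 := rfl
  rw [h]
  split_ifs with hg
  · subst hg
    exact hf
  · exact zero_mem _

private theorem GCY1b_star {X Z : DGM (ginz Q)} (n' : ℤ) (ψ : Amb Z X) (a : Q.A)
    (f : X.M →ₗ[k] Z.M) :
    Bp n' X Z ψ (GCY1b_E (Gen.star a) f) = - str X (ψ.2 (Gen.arr a) ∘ₗ f) := by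
  rw [Bp_apply, GCY1b_E_fst]
  simp only [GCY1b_E_snd, reduceCtorEq, if_false, Finset.sum_const_zero, LinearMap.comp_zero,
    map_zero, mul_zero, add_zero, zero_sub, Gen.star.injEq]
  rw [Finset.sum_eq_single_of_mem a (Finset.mem_univ a) fun b _ hb => by
    rw [if_neg hb, LinearMap.comp_zero, map_zero], if_pos rfl]

private theorem GCY1b_arr {X Z : DGM (ginz Q)} (n' : ℤ) (ψ : Amb Z X) (a : Q.A)
    (f : X.M →ₗ[k] Z.M) :
    Bp n' X Z ψ (GCY1b_E (Gen.arr a) f) = sg k n' * str X (ψ.2 (Gen.star a) ∘ₗ f) := by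
  rw [Bp_apply, GCY1b_E_fst]
  simp only [GCY1b_E_snd, reduceCtorEq, if_false, Finset.sum_const_zero, LinearMap.comp_zero,
    map_zero, mul_zero, add_zero, sub_zero, zero_add, Gen.arr.injEq]
  rw [Finset.sum_eq_single_of_mem a (Finset.mem_univ a) fun b _ hb => by
    rw [if_neg hb, LinearMap.comp_zero, map_zero], if_pos rfl]

private theorem GCY1b_loop {X Z : DGM (ginz Q)} (n' : ℤ) (ψ : Amb Z X) (v : Q.V)
    (f : X.M →ₗ[k] Z.M) :
    Bp n' X Z ψ (GCY1b_E (Gen.loop v) f) = str X (ψ.1 ∘ₗ f) := by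
  rw [Bp_apply, GCY1b_E_fst]
  simp only [GCY1b_E_snd, reduceCtorEq, if_false, Finset.sum_const_zero, LinearMap.comp_zero,
    map_zero, mul_zero, add_zero, sub_zero, Gen.loop.injEq]
  rw [Finset.sum_eq_single_of_mem v (Finset.mem_univ v) fun b _ hb => if_neg hb, if_pos rfl]

private theorem GCY1b_one {X Z : DGM (ginz Q)} (n' : ℤ) (ψ : Amb Z X) (f : X.M →ₗ[k] Z.M) :
    Bp n' X Z ψ (f, 0) = sg k n' * str X ((∑ v : Q.V, ψ.2 (Gen.loop v)) ∘ₗ f) := by
  have h : ∀ φ : Amb X Z, φ.1 = f → (∀ g : Gen Q.V Q.A, φ.2 g = 0) →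
      Bp n' X Z ψ φ = sg k n' * str X ((∑ v : Q.V, ψ.2 (Gen.loop v)) ∘ₗ f) := by
    intro φ h1 h2
    rw [Bp_apply, h1]
    simp only [h2, Finset.sum_const_zero, LinearMap.comp_zero, map_zero, mul_zero, add_zero,
      sub_zero, zero_add]
  exact h (f, 0) rfl fun _ => rfl

private theorem GCY1b_sg_cancel {n : ℤ} {x : k} (h : sg k n * x = 0) : x = 0 := by
  have h1 := congrArg (fun y => sg k n * y) h
  simpa only [← mul_assoc, sg_mul_self, one_mul, mul_zero] using h1

/-- Chain level non-degeneracy. Proof: `eq_zero_of_str` for each of the components: test with `φ`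
having only one non-zero component; for `ψ.1` and `∑ v, ψ.2 (loop v)` test vertex by vertex
(`ψ.1 = 0` iff its restriction to each vertex is zero; the components `ψ.2 (loop v)` have disjoint
supports). Degrees: `φ.2 (arr a)` has degree `n - 1`, `φ.2 (star a)` degree `n - 2`, `φ.2 (loop v)` degree
`n - 3`, the same for `ψ` with `n'`, and `n' + n = 3`. -/
theorem Bp_injective {n' n : ℤ} (h : n' + n = 3) (X Z : DGM (ginz Q)) [Module.Finite k X.M]
    {ψ : Amb Z X} (hψ : ψ ∈ Phi Z X n') (h0 : ∀ φ ∈ Phi X Z n, Bp n' X Z ψ φ = 0) : ψ = 0 := by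
  obtain ⟨hψ1, hψ2⟩ := hψ
  have harr : ∀ a : Q.A, ψ.2 (Gen.arr a) = 0 := by
    intro a
    have hm := hψ2 (Gen.arr a)
    have e : n' - 1 + (ginz Q).deg (Gen.arr a) = -(n - 2) := by
      show n' - 1 + 0 = -(n - 2)
      omega
    rw [e] at hm
    refine eq_zero_of_str X Z (Q.tgt a) (Q.src a) (n - 2) hm fun f hf => ?_
    have e2 : n - 1 + (ginz Q).deg (Gen.star a) = n - 2 := by
      show n - 1 + (-1) = n - 2
      omega
    have h1 := h0 _ (GCY1b_E_mem (n := n) (Gen.star a) (f := f) (by rw [e2]; exact hf))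
    rw [GCY1b_star] at h1
    exact neg_eq_zero.1 h1
  have hstar : ∀ a : Q.A, ψ.2 (Gen.star a) = 0 := by
    intro a
    have hm := hψ2 (Gen.star a)
    have e : n' - 1 + (ginz Q).deg (Gen.star a) = -(n - 1) := by
      show n' - 1 + (-1) = -(n - 1)
      omega
    rw [e] at hm
    refine eq_zero_of_str X Z (Q.src a) (Q.tgt a) (n - 1) hm fun f hf => ?_
    have e2 : n - 1 + (ginz Q).deg (Gen.arr a) = n - 1 := by
      show n - 1 + 0 = n - 1
      omega
    have h1 := h0 _ (GCY1b_E_mem (n := n) (Gen.arr a) (f := f) (by rw [e2]; exact hf))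
    rw [GCY1b_arr] at h1
    exact GCY1b_sg_cancel h1
  have hloop : ∀ v : Q.V, ψ.2 (Gen.loop v) = 0 := by
    intro v
    have hm : ∀ v : Q.V, ψ.2 (Gen.loop v) ∈ HomIJ (Γ := ginz Q) v v Z X (-n) := by
      intro v
      have hm := hψ2 (Gen.loop v)
      have e : n' - 1 + (ginz Q).deg (Gen.loop v) = -n := by
        show n' - 1 + (-2) = -n
        omega
      rw [e] at hm
      exact hm
    refine eq_zero_of_str X Z v v n (hm v) fun f hf => ?_
    have h1 := h0 (f, 0) ⟨GCY1b_homV hf, fun _ => zero_mem _⟩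
    rw [GCY1b_one] at h1
    have h2 := GCY1b_sg_cancel h1
    have h3 : (∑ w : Q.V, ψ.2 (Gen.loop w)) ∘ₗ f = ψ.2 (Gen.loop v) ∘ₗ f := by
      rw [GCY1b_sum_comp, Finset.sum_eq_single_of_mem v (Finset.mem_univ v) fun w _ hw => ?_]
      exact GCY1b_comp_zero (Ne.symm hw) (hm w) hf
    rwa [h3] at h2
  have hone : ψ.1 = 0 := by
    have h1 : ∀ v : Q.V, ψ.1 ∘ₗ GCY1b_P Z v = 0 := by
      intro v
      have hm := GCY1b_restr hψ1 v
      have e : n' = -(n - 3) := by omega
      rw [e] at hm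
      refine eq_zero_of_str X Z v v (n - 3) hm fun f hf => ?_
      have e2 : n - 1 + (ginz Q).deg (Gen.loop v) = n - 3 := by
        show n - 1 + (-2) = n - 3
        omega
      have h1 := h0 _ (GCY1b_E_mem (n := n) (Gen.loop v) (f := f) (by rw [e2]; exact hf))
      rw [GCY1b_loop] at h1
      rw [LinearMap.comp_assoc, GCY1b_P_comp hf]
      exact h1
    refine Z.ext_hom fun v p x hx => ?_
    have h2 := LinearMap.congr_fun (h1 v) x
    rw [LinearMap.comp_apply, GCY1b_P_self Z v hx] at h2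
    exact h2
  refine Prod.ext hone (funext fun g => ?_)
  cases g with
  | arr a => exact harr a
  | star a => exact hstar a
  | loop v => exact hloop v

/-- Every linear functional on `Φⁿ(X, Z)` is given by an element of `Φⁿ'(Z, X)`. Proof:
`exists_str_rep` for each component (for `φ.1` decompose the identity map of `X` into the projections
to the vertices: `HomV X Z n` is the direct sum of the `HomIJ v v X Z n`, `Q.V` is finite). -/
theorem Bp_surjective {n' n : ℤ} (h : n' + n = 3) (X Z : DGM (ginz Q)) [Module.Finite k X.M]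
    (ℓ : Amb X Z →ₗ[k] k) : ∃ ψ ∈ Phi Z X n', ∀ φ ∈ Phi X Z n, ℓ φ = Bp n' X Z ψ φ := by
  have hS := fun a : Q.A => exists_str_rep X Z (Q.tgt a) (Q.src a) (n - 2)
    (ℓ ∘ₗ GCY1b_E (Gen.star a))
  have hA := fun a : Q.A => exists_str_rep X Z (Q.src a) (Q.tgt a) (n - 1)
    (ℓ ∘ₗ GCY1b_E (Gen.arr a))
  have hL := fun v : Q.V => exists_str_rep X Z v v (n - 3) (ℓ ∘ₗ GCY1b_E (Gen.loop v))
  have hO := fun v : Q.V => exists_str_rep X Z v v n
    (ℓ ∘ₗ LinearMap.inl k (X.M →ₗ[k] Z.M) ((ginz Q).A → (X.M →ₗ[k] Z.M)))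
  choose gS hgS1 hgS2 using hS
  choose gA hgA1 hgA2 using hA
  choose gL hgL1 hgL2 using hL
  choose gO hgO1 hgO2 using hO
  let ψ2 : Gen Q.V Q.A → (Z.M →ₗ[k] X.M) := fun g => match g with
    | .arr a => - gS a
    | .star a => sg k n' • gA a
    | .loop v => sg k n' • gO v
  let ψ : Amb Z X := (∑ v : Q.V, gL v, ψ2)
  refine ⟨ψ, ⟨?_, fun g => ?_⟩, fun φ hφ => ?_⟩
  · refine Submodule.sum_mem _ fun v _ => GCY1b_homV (v := v) ?_
    have e : n' = -(n - 3) := by omega
    rw [e]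
    exact hgL1 v
  · cases g with
    | arr a =>
      have e : n' - 1 + (ginz Q).deg (Gen.arr a) = -(n - 2) := by
        show n' - 1 + 0 = -(n - 2)
        omega
      rw [e]
      exact neg_mem (hgS1 a)
    | star a =>
      have e : n' - 1 + (ginz Q).deg (Gen.star a) = -(n - 1) := by
        show n' - 1 + (-1) = -(n - 1)
        omega
      rw [e]
      exact Submodule.smul_mem _ _ (hgA1 a)
    | loop v =>
      have e : n' - 1 + (ginz Q).deg (Gen.loop v) = -n := by
        show n' - 1 + (-2) = -n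
        omega
      rw [e]
      exact Submodule.smul_mem _ _ (hgO1 v)
  · obtain ⟨hφ1, hφ2⟩ := hφ
    have mS : ∀ a : Q.A, φ.2 (Gen.star a) ∈ HomIJ (Γ := ginz Q) (Q.tgt a) (Q.src a) X Z (n - 2) := by
      intro a
      have hm := hφ2 (Gen.star a)
      have e : n - 1 + (ginz Q).deg (Gen.star a) = n - 2 := by
        show n - 1 + (-1) = n - 2
        omega
      rw [e] at hm
      exact hm
    have mA : ∀ a : Q.A, φ.2 (Gen.arr a) ∈ HomIJ (Γ := ginz Q) (Q.src a) (Q.tgt a) X Z (n - 1) := by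
      intro a
      have hm := hφ2 (Gen.arr a)
      have e : n - 1 + (ginz Q).deg (Gen.arr a) = n - 1 := by
        show n - 1 + 0 = n - 1
        omega
      rw [e] at hm
      exact hm
    have mL : ∀ v : Q.V, φ.2 (Gen.loop v) ∈ HomIJ (Γ := ginz Q) v v X Z (n - 3) := by
      intro v
      have hm := hφ2 (Gen.loop v)
      have e : n - 1 + (ginz Q).deg (Gen.loop v) = n - 3 := by
        show n - 1 + (-2) = n - 3
        omega
      rw [e] at hm
      exact hm
    have hdec : φ = (∑ v : Q.V, ((φ.1 ∘ₗ GCY1b_P X v, 0) : Amb X Z)) +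
        (∑ v : Q.V, GCY1b_E (Gen.loop v) (φ.2 (Gen.loop v))) +
        (∑ a : Q.A, GCY1b_E (Gen.star a) (φ.2 (Gen.star a))) +
        ∑ a : Q.A, GCY1b_E (Gen.arr a) (φ.2 (Gen.arr a)) := by
      refine Prod.ext ?_ (funext fun g => ?_)
      · simp only [Prod.fst_add, Prod.fst_sum, GCY1b_E_fst, Finset.sum_const_zero, add_zero]
        exact (@GCY1b_sum_P k _ (ginz Q) X Z Q.finV φ.1).symm
      · simp only [Prod.snd_add, Prod.snd_sum, Pi.add_apply, Finset.sum_apply,
          Finset.sum_const_zero, zero_add, GCY1b_E_snd]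
        cases g with
        | arr a =>
          simp only [reduceCtorEq, if_false, Finset.sum_const_zero, zero_add, Gen.arr.injEq]
          rw [Finset.sum_eq_single_of_mem a (Finset.mem_univ a) fun b _ hb =>
            if_neg (Ne.symm hb), if_pos rfl]
        | star a =>
          simp only [reduceCtorEq, if_false, Finset.sum_const_zero, zero_add, add_zero,
            Gen.star.injEq]
          rw [Finset.sum_eq_single_of_mem a (Finset.mem_univ a) fun b _ hb =>
            if_neg (Ne.symm hb), if_pos rfl]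
        | loop v =>
          simp only [reduceCtorEq, if_false, Finset.sum_const_zero, add_zero, Gen.loop.injEq]
          rw [Finset.sum_eq_single_of_mem v (Finset.mem_univ v) fun b _ hb =>
            if_neg (Ne.symm hb), if_pos rfl]
    have hsq : ∀ y : k, sg k n' * (sg k n' * y) = y := fun y => by
      rw [← mul_assoc, sg_mul_self, one_mul]
    have hψloop : ∀ f : X.M →ₗ[k] Z.M, (∑ v : Q.V, ψ.2 (Gen.loop v)) ∘ₗ f =
        sg k n' • ∑ v : Q.V, gO v ∘ₗ f := by
      intro f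
      rw [GCY1b_sum_comp, Finset.smul_sum]
      exact Finset.sum_congr rfl fun v _ => LinearMap.smul_comp _ _ _
    conv_lhs => rw [hdec]
    conv_rhs => rw [hdec]
    simp only [map_add, map_sum]
    congr 1
    · congr 1
      · congr 1
        · refine Finset.sum_congr rfl fun v _ => ?_
          have h1 := hgO2 v _ (GCY1b_restr hφ1 v)
          have h2 : ℓ ((φ.1 ∘ₗ GCY1b_P X v, 0) : Amb X Z) = str X (gO v ∘ₗ (φ.1 ∘ₗ GCY1b_P X v)) := h1
          rw [h2, GCY1b_one, hψloop, map_smul, smul_eq_mul, hsq, map_sum,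
            Finset.sum_eq_single_of_mem v (Finset.mem_univ v) fun w _ hw => ?_]
          rw [GCY1b_comp_zero (Ne.symm hw) (hgO1 w) (GCY1b_restr hφ1 v), map_zero]
        · refine Finset.sum_congr rfl fun v _ => ?_
          have h1 := hgL2 v _ (mL v)
          have h2 : ℓ (GCY1b_E (Gen.loop v) (φ.2 (Gen.loop v)) : Amb X Z) =
            str X (gL v ∘ₗ φ.2 (Gen.loop v)) := h1
          rw [h2, GCY1b_loop]
          show _ = str X ((∑ w : Q.V, gL w) ∘ₗ φ.2 (Gen.loop v))
          rw [GCY1b_sum_comp,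
            Finset.sum_eq_single_of_mem v (Finset.mem_univ v) fun w _ hw => ?_]
          exact GCY1b_comp_zero (Ne.symm hw) (hgL1 w) (mL v)
      · refine Finset.sum_congr rfl fun a _ => ?_
        have h1 := hgS2 a _ (mS a)
        have h2 : ℓ (GCY1b_E (Gen.star a) (φ.2 (Gen.star a)) : Amb X Z) =
          str X (gS a ∘ₗ φ.2 (Gen.star a)) := h1
        rw [h2, GCY1b_star]
        show _ = - str X ((- gS a) ∘ₗ φ.2 (Gen.star a))
        rw [LinearMap.neg_comp, map_neg, neg_neg]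
    · refine Finset.sum_congr rfl fun a _ => ?_
      have h1 := hgA2 a _ (mA a)
      have h2 : ℓ (GCY1b_E (Gen.arr a) (φ.2 (Gen.arr a)) : Amb X Z) =
        str X (gA a ∘ₗ φ.2 (Gen.arr a)) := h1
      rw [h2, GCY1b_arr]
      show _ = sg k n' * str X ((sg k n' • gA a) ∘ₗ φ.2 (Gen.arr a))
      rw [LinearMap.smul_comp, map_smul, smul_eq_mul, hsq]

end DGM

end GZ
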