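import Pool.Agent.Lib_MP_a23b08_g.GCY1
import Pool.Agent.Lib_MP_a23b08_g.GPhi2

/-!
PIECE C2. The Calabi-Yau pairing is compatible with the differentials.
-/

open CategoryTheory

namespace GZ

variable {k : Type} [Field k]

namespace DGM

variable {Q : QP k}

/-! ### Sums over the splittings of a word -/

/-- the sum of `f p a s` over all splittings `w = p ++ a :: s`. -/
private def GCY2_spl {A B : Type} [AddCommMonoid B] : List A → (List A → A → List A → B) → B
  | [], _ => 0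
  | b :: w, f => f [] b w + GCY2_spl w (fun p a s => f (b :: p) a s)

private theorem GCY2_add {A B : Type} [AddCommMonoid B] (w : List A)
    (f g : List A → A → List A → B) :
    GCY2_spl w (fun p a s => f p a s + g p a s) = GCY2_spl w f + GCY2_spl w g := by
  induction w generalizing f g with
  | nil => exact (add_zero (0 : B)).symm
  | cons b w ih =>
    show f [] b w + g [] b w + GCY2_spl w (fun p a s => f (b :: p) a s + g (b :: p) a s) = _
    rw [ih, add_add_add_comm]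
    rfl

private theorem GCY2_zero {A B : Type} [AddCommMonoid B] (w : List A) :
    GCY2_spl w (fun _ _ _ => (0 : B)) = 0 := by
  induction w with
  | nil => rfl
  | cons b w ih =>
    show (0 : B) + GCY2_spl w (fun _ _ _ => (0 : B)) = 0
    rw [ih, add_zero]

private theorem GCY2_map {A B C : Type} [AddCommMonoid B] [AddCommMonoid C] (φ : B → C)
    (h0 : φ 0 = 0) (h1 : ∀ x y, φ (x + y) = φ x + φ y) (w : List A)
    (f : List A → A → List A → B) :
    φ (GCY2_spl w f) = GCY2_spl w (fun p a s => φ (f p a s)) := by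
  induction w generalizing f with
  | nil => exact h0
  | cons b w ih =>
    show φ (f [] b w + GCY2_spl w (fun p a s => f (b :: p) a s)) = _
    rw [h1, ih]
    rfl

private theorem GCY2_sum {A B I : Type} [AddCommMonoid B] [Fintype I] (w : List A)
    (f : I → List A → A → List A → B) :
    ∑ i, GCY2_spl w (f i) = GCY2_spl w (fun p a s => ∑ i, f i p a s) := by
  induction w generalizing f with
  | nil => exact Finset.sum_const_zero
  | cons b w ih =>
    show ∑ i, (f i [] b w + GCY2_spl w (fun p a s => f i (b :: p) a s)) = _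
    rw [Finset.sum_add_distrib, ih]
    rfl

private theorem GCY2_append {A B : Type} [AddCommMonoid B] (v w : List A)
    (f : List A → A → List A → B) :
    GCY2_spl (v ++ w) f = GCY2_spl v (fun p a s => f p a (s ++ w)) +
      GCY2_spl w (fun p a s => f (v ++ p) a s) := by
  induction v generalizing f with
  | nil => exact (zero_add _).symm
  | cons b v ih =>
    show f [] b (v ++ w) + GCY2_spl (v ++ w) (fun p a s => f (b :: p) a s) = _
    rw [ih, ← add_assoc]
    rfl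

/-- The splittings in two places. -/
private theorem GCY2_assoc {A B : Type} [AddCommMonoid B] (w : List A)
    (f : List A → A → List A → A → List A → B) :
    GCY2_spl w (fun p a s => GCY2_spl p (fun q b r => f q b r a s)) =
      GCY2_spl w (fun q b t => GCY2_spl t (fun r a s => f q b r a s)) := by
  induction w generalizing f with
  | nil => rfl
  | cons c w ih =>
    show GCY2_spl [] (fun q b r => f q b r c w) +
      GCY2_spl w (fun p a s => f [] c p a s + GCY2_spl p (fun q b r => f (c :: q) b r a s)) =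
      GCY2_spl w (fun r a s => f [] c r a s) +
        GCY2_spl w (fun q b t => GCY2_spl t (fun r a s => f (c :: q) b r a s))
    rw [GCY2_add, ih]
    exact zero_add _

private theorem GCY2_cder {A B : Type} [DecidableEq A] [AddCommMonoid B] (a : A)
    (g : List A → B) (u v : List A) : ((cder a u v).map g).sum =
      GCY2_spl v (fun p b s => if b = a then g (s ++ (u ++ p)) else 0) := by
  induction v generalizing u with
  | nil => rfl
  | cons b v ih =>
    have h1 : GCY2_spl (b :: v) (fun p b s => if b = a then g (s ++ (u ++ p)) else 0) =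
        (if b = a then g (v ++ (u ++ [])) else 0) +
          GCY2_spl v (fun p b' s => if b' = a then g (s ++ (u ++ b :: p)) else 0) := rfl
    have h2 : (fun (p : List A) (b' : A) (s : List A) =>
        if b' = a then g (s ++ (u ++ [b] ++ p)) else 0) =
        fun p b' s => if b' = a then g (s ++ (u ++ b :: p)) else 0 := by
      funext p b' s
      rw [List.append_assoc u [b] p]
      rfl
    rw [h1, cder]
    by_cases hb : b = a
    · rw [if_pos hb, if_pos hb, List.map_cons, List.sum_cons, ih, h2, List.append_nil]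
    · rw [if_neg hb, if_neg hb, ih, h2, zero_add]

private theorem GCY2_dW {k A B : Type} [DecidableEq A] [AddCommMonoid B] (a : A)
    (g : k → List A → B) (W : List (k × List A)) :
    ((W.flatMap fun t => (cder a [] t.2).map fun u => (t.1, u)).map fun t => g t.1 t.2).sum =
      (W.map fun t => GCY2_spl t.2 (fun p b s => if b = a then g t.1 (s ++ p) else 0)).sum := by
  induction W with
  | nil => rfl
  | cons t W ih =>
    rw [List.flatMap_cons, List.map_append, List.sum_append, ih, List.map_cons, List.sum_cons,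
      List.map_map]
    congr 1
    exact GCY2_cder a (g t.1) [] t.2

private theorem GCY2_dW_sum {k A B : Type} [Fintype A] [DecidableEq A] [AddCommMonoid B]
    (g : A → k → List A → B) (W : List (k × List A)) :
    ∑ a, ((W.flatMap fun t => (cder a [] t.2).map fun u => (t.1, u)).map
      fun t => g a t.1 t.2).sum =
      (W.map fun t => GCY2_spl t.2 (fun p b s => g b t.1 (s ++ p))).sum := by
  have h1 : ∀ a, ((W.flatMap fun t => (cder a [] t.2).map fun u => (t.1, u)).map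
      fun t => g a t.1 t.2).sum =
      (W.map fun t => GCY2_spl t.2 (fun p b s => if b = a then g a t.1 (s ++ p) else 0)).sum :=
    fun a => GCY2_dW a (g a) W
  rw [Finset.sum_congr rfl fun a _ => h1 a]
  clear h1
  induction W with
  | nil => exact Finset.sum_const_zero
  | cons t W ih =>
    simp only [List.map_cons, List.sum_cons]
    rw [Finset.sum_add_distrib, ih, GCY2_sum]
    congr 2
    funext p b s
    rw [Finset.sum_ite_eq Finset.univ b fun a => g a t.1 (s ++ p), if_pos (Finset.mem_univ b)]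

/-! ### Cyclicity -/

private theorem GCY2_cyc (X : DGM (ginz Q)) [Module.Finite k X.M] (w : List Q.A)
    (f : X.M →ₗ[k] X.M) :
    str X (evW X.act (w.map Gen.arr) ∘ₗ f) = str X (f ∘ₗ evW X.act (w.map Gen.arr)) := by
  induction w generalizing f with
  | nil => rfl
  | cons a w ih =>
    have h1 : evW X.act ((a :: w).map Gen.arr) =
        X.act (Gen.arr a) ∘ₗ evW X.act (w.map Gen.arr) := rfl
    have h2 : sg k ((ginz Q).deg (Gen.arr a)) = 1 := sg_zero
    rw [h1, LinearMap.comp_assoc, str_act_comp, h2, one_mul, LinearMap.comp_assoc, ih,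
      LinearMap.comp_assoc]

private theorem GCY2_der {X Z : DGM (ginz Q)} (m : ℤ) (D : (ginz Q).A → (X.M →ₗ[k] Z.M))
    (w : List Q.A) : derW m D (w.map Gen.arr) = GCY2_spl w (fun p a s =>
      evW Z.act (p.map Gen.arr) ∘ₗ (D (Gen.arr a) ∘ₗ evW X.act (s.map Gen.arr))) := by
  induction w with
  | nil => rfl
  | cons b w ih =>
    have h1 : derW m D ((b :: w).map Gen.arr) = D (Gen.arr b) ∘ₗ evW X.act (w.map Gen.arr) +
        sg k (m * (ginz Q).deg (Gen.arr b)) • (Z.act (Gen.arr b) ∘ₗ derW m D (w.map Gen.arr)) :=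
      rfl
    have h2 : sg k (m * (ginz Q).deg (Gen.arr b)) = 1 := by
      show sg k (m * 0) = 1
      rw [mul_zero, sg_zero]
    rw [h1, h2, one_smul, ih, GCY2_map (fun f => Z.act (Gen.arr b) ∘ₗ f)
      (LinearMap.comp_zero _) (fun x y => LinearMap.comp_add x y _)]
    rfl

private theorem GCY2_word (X Z : DGM (ginz Q)) [Module.Finite k X.M] (m m' : ℤ)
    (D : (ginz Q).A → (X.M →ₗ[k] Z.M)) (D' : (ginz Q).A → (Z.M →ₗ[k] X.M)) (w : List Q.A) :
    GCY2_spl w (fun p b s => str X (D' (Gen.arr b) ∘ₗ derW m D ((s ++ p).map Gen.arr))) =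
      GCY2_spl w (fun p b s => str X (derW m' D' ((s ++ p).map Gen.arr) ∘ₗ D (Gen.arr b))) := by
  have h1 : ∀ p b s, str X (D' (Gen.arr b) ∘ₗ derW m D ((s ++ p).map Gen.arr)) =
      GCY2_spl s (fun q a r => str X (D' (Gen.arr b) ∘ₗ (evW Z.act (q.map Gen.arr) ∘ₗ
        (D (Gen.arr a) ∘ₗ evW X.act ((r ++ p).map Gen.arr))))) +
      GCY2_spl p (fun q a r => str X (D' (Gen.arr b) ∘ₗ (evW Z.act ((s ++ q).map Gen.arr) ∘ₗ
        (D (Gen.arr a) ∘ₗ evW X.act (r.map Gen.arr))))) := by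
    intro p b s
    rw [GCY2_der, GCY2_append, LinearMap.comp_add, map_add,
      GCY2_map (fun f => str X (D' (Gen.arr b) ∘ₗ f))
        (by rw [LinearMap.comp_zero, map_zero]) (fun x y => by rw [LinearMap.comp_add, map_add]),
      GCY2_map (fun f => str X (D' (Gen.arr b) ∘ₗ f))
        (by rw [LinearMap.comp_zero, map_zero]) (fun x y => by rw [LinearMap.comp_add, map_add])]
  have h2 : ∀ p b s, str X (derW m' D' ((s ++ p).map Gen.arr) ∘ₗ D (Gen.arr b)) =
      GCY2_spl s (fun q a r => str X (D' (Gen.arr a) ∘ₗ (evW Z.act ((r ++ p).map Gen.arr) ∘ₗ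
        (D (Gen.arr b) ∘ₗ evW X.act (q.map Gen.arr))))) +
      GCY2_spl p (fun q a r => str X (D' (Gen.arr a) ∘ₗ (evW Z.act (r.map Gen.arr) ∘ₗ
        (D (Gen.arr b) ∘ₗ evW X.act ((s ++ q).map Gen.arr))))) := by
    intro p b s
    rw [GCY2_der, GCY2_append, LinearMap.add_comp, map_add,
      GCY2_map (fun f => str X (f ∘ₗ D (Gen.arr b)))
        (by rw [LinearMap.zero_comp, map_zero]) (fun x y => by rw [LinearMap.add_comp, map_add]),
      GCY2_map (fun f => str X (f ∘ₗ D (Gen.arr b)))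
        (by rw [LinearMap.zero_comp, map_zero]) (fun x y => by rw [LinearMap.add_comp, map_add])]
    congr 1
    · congr 1
      funext q a r
      rw [LinearMap.comp_assoc, GCY2_cyc, LinearMap.comp_assoc, LinearMap.comp_assoc]
    · congr 1
      funext q a r
      rw [LinearMap.comp_assoc, GCY2_cyc, LinearMap.comp_assoc, LinearMap.comp_assoc]
  simp only [h1, h2]
  rw [GCY2_add, GCY2_add,
    GCY2_assoc w (fun q a r b s => str X (D' (Gen.arr b) ∘ₗ (evW Z.act ((s ++ q).map Gen.arr) ∘ₗ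
        (D (Gen.arr a) ∘ₗ evW X.act (r.map Gen.arr))))),
    GCY2_assoc w (fun q a r b s => str X (D' (Gen.arr a) ∘ₗ (evW Z.act (r.map Gen.arr) ∘ₗ
        (D (Gen.arr b) ∘ₗ evW X.act ((s ++ q).map Gen.arr)))))]
  exact add_comm _ _

private theorem GCY2_list {A B : Type} [AddCommMonoid B] {C : Type} [AddCommMonoid C]
    (φ : B → C) (h0 : φ 0 = 0) (h1 : ∀ x y, φ (x + y) = φ x + φ y) (l : List A) (f : A → B) :
    φ (l.map f).sum = (l.map fun t => φ (f t)).sum := by
  induction l with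
  | nil => exact h0
  | cons a l ih => rw [List.map_cons, List.sum_cons, h1, ih, List.map_cons, List.sum_cons]

/-- The cyclic invariance of the potential. For maps `D_a : X → Z`, `D'_a : Z → X` (any linear maps; all
arrows `arr a` have degree `0`, so there are no signs in `derW` on words in the `arr a`):
`∑_a str (D'_a ∘ D(∂_a W)) = ∑_a str (D'(∂_a W) ∘ D_a)`.
Proof. By linearity one word `w` of `W`: the left side is the sum over all `w = p a s` (one term for each
position, `cder`) of `str (D'_a ∘ D(s p))`, the right side the sum of `str (D'(s p) ∘ D_a)`.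
`D(s p) = D(s) p + s D(p)` (`derW_append`). With `D(u) = ∑_(u = u₁ b u₂) u₁ D_b u₂`:
left = `∑_(w = p a r b s) str (D'_a r D_b s p) + ∑_(w = q b r a s) str (D'_a s q D_b r)`,
right = `∑_(w = q b s₁ a s₂) str (s₁ D'_a s₂ q D_b) + ∑_(w = p₁ a p₂ b s) str (s p₁ D'_a p₂ D_b)`,
and these agree by cyclicity of `str` for paths of degree `0` on `X` (`str_act_comp`). -/
theorem str_potential (X Z : DGM (ginz Q)) [Module.Finite k X.M] (m m' : ℤ)
    (D : (ginz Q).A → (X.M →ₗ[k] Z.M)) (D' : (ginz Q).A → (Z.M →ₗ[k] X.M)) :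
    ∑ a : Q.A, str X (D' (Gen.arr a) ∘ₗ derP m D ((ginz Q).diff (Gen.star a))) =
      ∑ a : Q.A, str X (derP m' D' ((ginz Q).diff (Gen.star a)) ∘ₗ D (Gen.arr a)) := by
  have h1 : ∀ a : Q.A, str X (D' (Gen.arr a) ∘ₗ derP m D ((ginz Q).diff (Gen.star a))) =
      ((Q.W.flatMap fun t => (cder a [] t.2).map fun u => (t.1, u)).map fun t =>
        t.1 * str X (D' (Gen.arr a) ∘ₗ derW m D (t.2.map Gen.arr))).sum := by
    intro a
    show str X (D' (Gen.arr a) ∘ₗ (((Q.dW a).map fun t => (t.1, t.2.map Gen.arr)).map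
      fun t => t.1 • derW m D t.2).sum) = _
    rw [List.map_map, GCY2_list (fun f => str X (D' (Gen.arr a) ∘ₗ f))
        (by rw [LinearMap.comp_zero, map_zero]) (fun x y => by rw [LinearMap.comp_add, map_add])]
    congr 1
    refine List.map_congr_left fun t _ => ?_
    show str X (D' (Gen.arr a) ∘ₗ (t.1 • derW m D (t.2.map Gen.arr))) = _
    rw [LinearMap.comp_smul, map_smul, smul_eq_mul]
  have h2 : ∀ a : Q.A, str X (derP m' D' ((ginz Q).diff (Gen.star a)) ∘ₗ D (Gen.arr a)) =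
      ((Q.W.flatMap fun t => (cder a [] t.2).map fun u => (t.1, u)).map fun t =>
        t.1 * str X (derW m' D' (t.2.map Gen.arr) ∘ₗ D (Gen.arr a))).sum := by
    intro a
    show str X ((((Q.dW a).map fun t => (t.1, t.2.map Gen.arr)).map
      fun t => t.1 • derW m' D' t.2).sum ∘ₗ D (Gen.arr a)) = _
    rw [List.map_map, GCY2_list (fun f => str X (f ∘ₗ D (Gen.arr a)))
        (by rw [LinearMap.zero_comp, map_zero]) (fun x y => by rw [LinearMap.add_comp, map_add])]
    congr 1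
    refine List.map_congr_left fun t _ => ?_
    show str X ((t.1 • derW m' D' (t.2.map Gen.arr)) ∘ₗ D (Gen.arr a)) = _
    rw [LinearMap.smul_comp, map_smul, smul_eq_mul]
  rw [Finset.sum_congr rfl fun a _ => h1 a, Finset.sum_congr rfl fun a _ => h2 a,
    GCY2_dW_sum (fun a c u => c * str X (D' (Gen.arr a) ∘ₗ derW m D (u.map Gen.arr))),
    GCY2_dW_sum (fun a c u => c * str X (derW m' D' (u.map Gen.arr) ∘ₗ D (Gen.arr a)))]
  congr 1
  refine List.map_congr_left fun t _ => ?_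
  rw [← GCY2_map (fun x => t.1 * x) (mul_zero _) (mul_add _),
    ← GCY2_map (fun x => t.1 * x) (mul_zero _) (mul_add _), GCY2_word X Z m m' D D' t.2]

/-- The differential of the loops. Proof: definition of `gdiff`, sums over `Finset.toList`. -/
theorem sum_derP_loop (X Z : DGM (ginz Q)) (m : ℤ) (D : (ginz Q).A → (X.M →ₗ[k] Z.M)) :
    ∑ v : Q.V, derP m D ((ginz Q).diff (Gen.loop v)) =
      ∑ a : Q.A, (D (Gen.arr a) ∘ₗ X.act (Gen.star a) + Z.act (Gen.arr a) ∘ₗ D (Gen.star a) -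
        D (Gen.star a) ∘ₗ X.act (Gen.arr a) -
        sg k m • (Z.act (Gen.star a) ∘ₗ D (Gen.arr a))) := by
  have h1 : ∀ v : Q.V, derP m D ((ginz Q).diff (Gen.loop v)) =
      ∑ a ∈ Finset.univ.filter (fun a => Q.tgt a = v),
        (D (Gen.arr a) ∘ₗ X.act (Gen.star a) + Z.act (Gen.arr a) ∘ₗ D (Gen.star a)) -
      ∑ a ∈ Finset.univ.filter (fun a => Q.src a = v),
        (D (Gen.star a) ∘ₗ X.act (Gen.arr a) +
          sg k m • (Z.act (Gen.star a) ∘ₗ D (Gen.arr a))) := by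
    intro v
    let l1 : Q.A → k × List (ginz Q).A := fun a => (1, [Gen.arr a, Gen.star a])
    let l2 : Q.A → k × List (ginz Q).A := fun a => (-1, [Gen.star a, Gen.arr a])
    show (((Finset.univ.filter fun a => Q.tgt a = v).toList.map l1 ++
      (Finset.univ.filter fun a => Q.src a = v).toList.map l2).map
        fun t : k × List (ginz Q).A => t.1 • derW m D t.2).sum = _
    rw [List.map_append, List.sum_append, List.map_map, List.map_map, Finset.sum_map_toList,
      Finset.sum_map_toList, sub_eq_add_neg, ← Finset.sum_neg_distrib]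
    congr 1
    · refine Finset.sum_congr rfl fun a _ => ?_
      show (1 : k) • (D (Gen.arr a) ∘ₗ (X.act (Gen.star a) ∘ₗ LinearMap.id) +
        sg k (m * 0) • (Z.act (Gen.arr a) ∘ₗ (D (Gen.star a) ∘ₗ LinearMap.id +
          sg k (m * (-1)) • (Z.act (Gen.star a) ∘ₗ (0 : X.M →ₗ[k] Z.M))))) = _
      rw [one_smul, mul_zero, sg_zero, one_smul, LinearMap.comp_zero, smul_zero, add_zero,
        LinearMap.comp_id, LinearMap.comp_id]
    · refine Finset.sum_congr rfl fun a _ => ?_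
      show (-1 : k) • (D (Gen.star a) ∘ₗ (X.act (Gen.arr a) ∘ₗ LinearMap.id) +
        sg k (m * (-1)) • (Z.act (Gen.star a) ∘ₗ (D (Gen.arr a) ∘ₗ LinearMap.id +
          sg k (m * 0) • (Z.act (Gen.arr a) ∘ₗ (0 : X.M →ₗ[k] Z.M))))) = _
      rw [neg_smul, one_smul, mul_neg_one, sg_neg, LinearMap.comp_zero, smul_zero, add_zero,
        LinearMap.comp_id, LinearMap.comp_id]
  rw [Finset.sum_congr rfl fun v _ => h1 v, Finset.sum_sub_distrib,
    Finset.sum_fiberwise (s := Finset.univ) (g := Q.tgt)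
      (f := fun a => D (Gen.arr a) ∘ₗ X.act (Gen.star a) + Z.act (Gen.arr a) ∘ₗ D (Gen.star a)),
    Finset.sum_fiberwise (s := Finset.univ) (g := Q.src)
      (f := fun a => D (Gen.star a) ∘ₗ X.act (Gen.arr a) +
          sg k m • (Z.act (Gen.star a) ∘ₗ D (Gen.arr a))), ← Finset.sum_sub_distrib]
  refine Finset.sum_congr rfl fun a _ => ?_
  rw [sub_add_eq_sub_sub]

private theorem GCY2_comp_sum {M N P I : Type} [AddCommGroup M] [Module k M] [AddCommGroup N]
    [Module k N] [AddCommGroup P] [Module k P] (f : N →ₗ[k] P) (s : Finset I)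
    (g : I → M →ₗ[k] N) : f ∘ₗ ∑ i ∈ s, g i = ∑ i ∈ s, f ∘ₗ g i := by
  refine LinearMap.ext fun x => ?_
  rw [LinearMap.comp_apply, LinearMap.sum_apply, map_sum, LinearMap.sum_apply]
  rfl

private theorem GCY2_sum_comp {M N P I : Type} [AddCommGroup M] [Module k M] [AddCommGroup N]
    [Module k N] [AddCommGroup P] [Module k P] (f : M →ₗ[k] N) (s : Finset I)
    (g : I → N →ₗ[k] P) : (∑ i ∈ s, g i) ∘ₗ f = ∑ i ∈ s, g i ∘ₗ f := by
  refine LinearMap.ext fun x => ?_
  rw [LinearMap.comp_apply, LinearMap.sum_apply, LinearMap.sum_apply]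
  rfl

private theorem GCY2_sg1 (n : ℤ) : sg k (n - 1) = - sg k n := by
  rw [sg_sub, sg_one, mul_neg_one]

private theorem GCY2_arr (X Z : DGM (ginz Q)) (n : ℤ) (φ : Amb X Z) (a : Q.A) :
    (dPhi n φ).2 (Gen.arr a) = φ.1 ∘ₗ X.act (Gen.arr a) - Z.act (Gen.arr a) ∘ₗ φ.1 -
      Z.d ∘ₗ φ.2 (Gen.arr a) - sg k n • (φ.2 (Gen.arr a) ∘ₗ X.d) := by
  show (φ.1 ∘ₗ X.act (Gen.arr a) - sg k (n * 0) • (Z.act (Gen.arr a) ∘ₗ φ.1)) -
    (Z.d ∘ₗ φ.2 (Gen.arr a) - sg k (n - 1 + 0) • (φ.2 (Gen.arr a) ∘ₗ X.d) -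
      sg k (n - 1) • (0 : X.M →ₗ[k] Z.M)) = _
  rw [mul_zero, sg_zero, one_smul, add_zero, GCY2_sg1, smul_zero, sub_zero, neg_smul,
    sub_neg_eq_add, sub_add_eq_sub_sub]

private theorem GCY2_star (X Z : DGM (ginz Q)) (n : ℤ) (φ : Amb X Z) (a : Q.A) :
    (dPhi n φ).2 (Gen.star a) = φ.1 ∘ₗ X.act (Gen.star a) -
      sg k n • (Z.act (Gen.star a) ∘ₗ φ.1) - Z.d ∘ₗ φ.2 (Gen.star a) +
      sg k n • (φ.2 (Gen.star a) ∘ₗ X.d) -
      sg k n • derP (n - 1) φ.2 ((ginz Q).diff (Gen.star a)) := by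
  show (φ.1 ∘ₗ X.act (Gen.star a) - sg k (n * (-1)) • (Z.act (Gen.star a) ∘ₗ φ.1)) -
    (Z.d ∘ₗ φ.2 (Gen.star a) - sg k (n - 1 + (-1)) • (φ.2 (Gen.star a) ∘ₗ X.d) -
      sg k (n - 1) • derP (n - 1) φ.2 ((ginz Q).diff (Gen.star a))) = _
  have h1 : sg k (n - 1 + (-1)) = sg k n := by
    rw [← sub_eq_add_neg, GCY2_sg1, GCY2_sg1, neg_neg]
  rw [mul_neg_one, sg_neg, h1, GCY2_sg1, neg_smul]
  abel

private theorem GCY2_loop (X Z : DGM (ginz Q)) (n : ℤ) (φ : Amb X Z) :
    ∑ v : Q.V, (dPhi n φ).2 (Gen.loop v) = φ.1 ∘ₗ (∑ v : Q.V, X.act (Gen.loop v)) -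
      (∑ v : Q.V, Z.act (Gen.loop v)) ∘ₗ φ.1 - Z.d ∘ₗ (∑ v : Q.V, φ.2 (Gen.loop v)) -
      sg k n • ((∑ v : Q.V, φ.2 (Gen.loop v)) ∘ₗ X.d) -
      sg k n • ∑ a : Q.A, (φ.2 (Gen.arr a) ∘ₗ X.act (Gen.star a) +
        Z.act (Gen.arr a) ∘ₗ φ.2 (Gen.star a) - φ.2 (Gen.star a) ∘ₗ X.act (Gen.arr a) +
        sg k n • (Z.act (Gen.star a) ∘ₗ φ.2 (Gen.arr a))) := by
  have h0 : ∀ v : Q.V, (dPhi n φ).2 (Gen.loop v) = φ.1 ∘ₗ X.act (Gen.loop v) -
      Z.act (Gen.loop v) ∘ₗ φ.1 - Z.d ∘ₗ φ.2 (Gen.loop v) -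
      sg k n • (φ.2 (Gen.loop v) ∘ₗ X.d) -
      sg k n • derP (n - 1) φ.2 ((ginz Q).diff (Gen.loop v)) := by
    intro v
    show (φ.1 ∘ₗ X.act (Gen.loop v) - sg k (n * (-2)) • (Z.act (Gen.loop v) ∘ₗ φ.1)) -
      (Z.d ∘ₗ φ.2 (Gen.loop v) - sg k (n - 1 + (-2)) • (φ.2 (Gen.loop v) ∘ₗ X.d) -
        sg k (n - 1) • derP (n - 1) φ.2 ((ginz Q).diff (Gen.loop v))) = _
    have h1 : sg k (n - 1 + (-2)) = - sg k n := by
      rw [sg_add, GCY2_sg1, sg_even (by decide : Even (-2 : ℤ)), mul_one]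
    have h2 : sg k (n * (-2)) = 1 := sg_even (Even.mul_left (by decide) n)
    rw [h1, h2, one_smul, GCY2_sg1, neg_smul, neg_smul]
    abel
  have h3 := sum_derP_loop X Z (n - 1) φ.2
  rw [GCY2_sg1] at h3
  rw [Finset.sum_congr rfl fun v _ => h0 v, Finset.sum_sub_distrib, Finset.sum_sub_distrib,
    Finset.sum_sub_distrib, Finset.sum_sub_distrib, ← Finset.smul_sum, ← Finset.smul_sum, h3,
    GCY2_comp_sum, GCY2_comp_sum, GCY2_sum_comp, GCY2_sum_comp]
  simp only [neg_smul, sub_neg_eq_add]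

/-- Compatibility with the differentials. No homogeneity is needed.
Proof. Write `ψ = (h', D')`, `φ = (h, D)`, `n = 2 - n'`, so `sg n = sg n'`. Let `t`, `a`, `a*` be the actions.
(0) `str (dH_r(A) B) = - sg r • str (A dH_s(B))` for `A : Z → X`, `B : X → Z`, `r + s = -1`
(`str_d_comp`).
Components of `dPhi n φ`: `dH n h`; at `arr a`: `h a - a h - dH_(n-1)(D_a)`; at `star a`:
`h a* - sg n a* h - dH_(n-2)(D_a*) - sg n D(∂_a W)`; at `loop v`:
`h t - t h - dH_(n-3)(D_t) - sg n D(d t_v)` (note `- sg (n-1) = sg n` and `bd` has a minus sign in front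
of `derP`: `- bd (n-1) D a = - dH(D_a) + sg (n-1) D(d a)`, i.e. `- sg n D(d a)`).
Same for `ψ` with `n'`. Expand `Bp (n'+1) (dPhi n' ψ) φ - sg n' * Bp n' ψ (dPhi n φ)` and collect (every
line is zero):
(1) `h'` with `D_t`, (2) `D'_t` with `h`, (3) `D'_a` with `D_a*`, (4) `D'_a*` with `D_a`: the `dH` terms, by
(0);
(5) `h'`, `h`: `str (h' (h t - t h))` and `str ((h' t - t h') h)`, with `str (t h' h) = str (h' h t)`;
(6) `h'` with `D_a`, `D_a*`: `sum_derP_loop` for `D` (`m = n - 1`) against `str ((h' a - a h') D_a*)` and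
`str ((h' a* - sg n' a* h') D_a)`, with `str (a* h' D_a) = - str (h' D_a a*)`;
(7) `D'` with `h`: the same;
(8) `D'` with `D`: `str_potential`. -/
theorem Bp_dPhi (X Z : DGM (ginz Q)) [Module.Finite k X.M] {n' n : ℤ} (h : n' + n = 2)
    (ψ : Amb Z X) (φ : Amb X Z) :
    Bp (n' + 1) X Z (dPhi n' ψ) φ = sg k n' * Bp n' X Z ψ (dPhi n φ) := by
  have hs0 : sg k n = sg k n' := by
    have h1 : n = 2 - n' := by omega
    rw [h1, sg_sub, sg_even (by decide : Even (2 : ℤ)), one_mul]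
  have hss : sg k n' * sg k n' = 1 := sg_mul_self n'
  have hd : ∀ f : X.M →ₗ[k] X.M, str X (X.d ∘ₗ f) = - str X (f ∘ₗ X.d) := str_d_comp X
  have ha : ∀ (a : Q.A) (f : X.M →ₗ[k] X.M),
      str X (X.act (Gen.arr a) ∘ₗ f) = str X (f ∘ₗ X.act (Gen.arr a)) := by
    intro a f
    rw [str_act_comp]
    show sg k 0 * _ = _
    rw [sg_zero, one_mul]
  have hst : ∀ (a : Q.A) (f : X.M →ₗ[k] X.M),
      str X (X.act (Gen.star a) ∘ₗ f) = - str X (f ∘ₗ X.act (Gen.star a)) := by
    intro a f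
    rw [str_act_comp]
    show sg k (-1) * _ = _
    rw [sg_neg_one, neg_one_mul]
  have hlo : ∀ f : X.M →ₗ[k] X.M, str X ((∑ v : Q.V, X.act (Gen.loop v)) ∘ₗ f) =
      str X (f ∘ₗ ∑ v : Q.V, X.act (Gen.loop v)) := by
    intro f
    rw [GCY2_sum_comp, GCY2_comp_sum, map_sum, map_sum]
    refine Finset.sum_congr rfl fun v _ => ?_
    rw [str_act_comp]
    show sg k (-2) * _ = _
    rw [sg_even (by decide : Even (-2 : ℤ)), one_mul]
  have hpot := str_potential X Z (n - 1) (n' - 1) φ.2 ψ.2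
  rw [Bp_apply, Bp_apply, GCY2_loop, GCY2_loop, sg_succ, hs0]
  simp only [GCY2_arr, GCY2_star, hs0]
  show str X ((X.d ∘ₗ ψ.1 - sg k n' • (ψ.1 ∘ₗ Z.d)) ∘ₗ ∑ v : Q.V, φ.2 (Gen.loop v)) + _ - _ + _ =
    sg k n' * (_ + sg k n' * str X ((∑ v : Q.V, ψ.2 (Gen.loop v)) ∘ₗ
      (Z.d ∘ₗ φ.1 - sg k n • (φ.1 ∘ₗ X.d))) - _ + _)
  rw [hs0]
  generalize (∑ v : Q.V, φ.2 (Gen.loop v)) = T
  generalize (∑ v : Q.V, ψ.2 (Gen.loop v)) = T'
  generalize (∑ v : Q.V, X.act (Gen.loop v)) = tX at hlo ⊢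
  generalize (∑ v : Q.V, Z.act (Gen.loop v)) = tZ
  generalize sg k n' = σ at hss ⊢
  simp only [LinearMap.comp_sub, LinearMap.sub_comp, LinearMap.comp_add, LinearMap.add_comp,
    LinearMap.comp_smul, LinearMap.smul_comp, GCY2_comp_sum, GCY2_sum_comp,
    map_sub, map_add, map_smul, map_sum, smul_eq_mul, LinearMap.comp_assoc,
    hd, ha, hst, hlo, Finset.sum_add_distrib, Finset.sum_sub_distrib, Finset.sum_neg_distrib,
    ← Finset.mul_sum, mul_neg]
  linear_combination (-(σ ^ 2)) * hpot + (str X (ψ.1 ∘ₗ T ∘ₗ X.d) +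
    σ * str X (T' ∘ₗ φ.1 ∘ₗ X.d) -
    σ * ∑ a : Q.A, str X (ψ.2 (Gen.arr a) ∘ₗ φ.1 ∘ₗ X.act (Gen.star a)) +
    σ * ∑ a : Q.A, str X (ψ.1 ∘ₗ Z.act (Gen.star a) ∘ₗ φ.2 (Gen.arr a)) +
    σ * ∑ a : Q.A, str X (ψ.2 (Gen.star a) ∘ₗ φ.2 (Gen.arr a) ∘ₗ X.d) +
    ∑ a : Q.A, str X (ψ.1 ∘ₗ Z.act (Gen.arr a) ∘ₗ φ.2 (Gen.star a)) -
    ∑ a : Q.A, str X (ψ.1 ∘ₗ φ.2 (Gen.star a) ∘ₗ X.act (Gen.arr a)) +
    ∑ a : Q.A, str X (ψ.2 (Gen.arr a) ∘ₗ φ.2 (Gen.star a) ∘ₗ X.d)) * hss

end DGM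

end GZ
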