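import Pool.Agent.Lib_MP_a23b08_g.GCY1b
import Pool.Agent.Lib_MP_a23b08_g.GCY2

/-!
PIECE C3. The Calabi-Yau pairing on cohomology is perfect.
-/

open CategoryTheory

namespace GZ

variable {k : Type} [Field k]

namespace DGM

variable {Q : QP k}

/-- Proof: `ψ = dPhi (n'-1) ψ₁`, `Bp_dPhi` (with `n' - 1` and `n`) gives
`Bp n' ψ φ = ± Bp (n'-1) ψ₁ (dPhi n φ) = 0`. -/
theorem Bp_eq_zero_left (X Z : DGM (ginz Q)) [Module.Finite k X.M] {n' n : ℤ} (h : n' + n = 3)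
    {ψ : Amb Z X} (hψ : ψ ∈ BPhi Z X n') {φ : Amb X Z} (hφ : φ ∈ ZPhi X Z n) :
    Bp n' X Z ψ φ = 0 := by
  obtain ⟨ψ₁, -, rfl⟩ := hψ
  have h1 := Bp_dPhi X Z (n' := n' - 1) (n := n) (by omega) ψ₁ φ
  rw [sub_add_cancel, LinearMap.mem_ker.mp hφ.2, map_zero, mul_zero] at h1
  exact h1

theorem Bp_eq_zero_right (X Z : DGM (ginz Q)) [Module.Finite k X.M] {n' n : ℤ} (h : n' + n = 3)
    {ψ : Amb Z X} (hψ : ψ ∈ ZPhi Z X n') {φ : Amb X Z} (hφ : φ ∈ BPhi X Z n) :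
    Bp n' X Z ψ φ = 0 := by
  obtain ⟨φ₁, -, rfl⟩ := hφ
  have h1 := Bp_dPhi X Z (n' := n') (n := n - 1) (by omega) ψ φ₁
  rw [LinearMap.mem_ker.mp hψ.2, map_zero, LinearMap.zero_apply] at h1
  have h2 : sg k n' * (sg k n' * Bp n' X Z ψ (dPhi (n - 1) φ₁)) = 0 := by rw [← h1, mul_zero]
  rwa [← mul_assoc, sg_mul_self, one_mul] at h2

/-- Proof. The functional `φ ↦ Bp n' ψ φ` on `Phi X Z n` is zero on the kernel of `dPhi n`, so it is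
`ℓ ∘ dPhi n` on `Phi X Z n` for a linear functional `ℓ` on `Amb X Z` (linear algebra: define it on
`(Phi X Z n).map (dPhi n)` and extend). By `Bp_surjective` (`n' - 1` and `n + 1`)
`ℓ = Bp (n'-1) ψ₁` on `Phi X Z (n+1)`, `ψ₁ ∈ Phi Z X (n'-1)` (`dPhi_mem`). By `Bp_dPhi`,
`Bp n' ψ φ = ± Bp n' (dPhi (n'-1) ψ₁) φ`, for all `φ ∈ Phi X Z n`, so `ψ = ± dPhi (n'-1) ψ₁` by
`Bp_injective`. (The sign `± = sg k (n'-1)` does not matter.) -/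
theorem mem_BPhi_of_Bp (X Z : DGM (ginz Q)) [Module.Finite k X.M] {n' n : ℤ} (h : n' + n = 3)
    {ψ : Amb Z X} (hψ : ψ ∈ ZPhi Z X n') (h0 : ∀ φ ∈ ZPhi X Z n, Bp n' X Z ψ φ = 0) :
    ψ ∈ BPhi Z X n' := by
  obtain ⟨g, hg⟩ : ∃ g : ↥(Phi X Z n) →ₗ[k] Amb X Z, g = (dPhi n).domRestrict (Phi X Z n) :=
    ⟨_, rfl⟩
  obtain ⟨f, hf⟩ : ∃ f : Module.Dual k ↥(Phi X Z n),
      f = (Bp n' X Z ψ).domRestrict (Phi X Z n) := ⟨_, rfl⟩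
  have h1 : f ∈ (LinearMap.ker g).dualAnnihilator := by
    rw [Submodule.mem_dualAnnihilator]
    intro φ hφ
    rw [hg, LinearMap.mem_ker, LinearMap.domRestrict_apply] at hφ
    rw [hf, LinearMap.domRestrict_apply]
    exact h0 φ.1 ⟨φ.2, LinearMap.mem_ker.mpr hφ⟩
  rw [← LinearMap.range_dualMap_eq_dualAnnihilator_ker] at h1
  obtain ⟨ℓ, hℓ⟩ := h1
  have hℓ' : ∀ φ ∈ Phi X Z n, ℓ (dPhi n φ) = Bp n' X Z ψ φ := by
    intro φ hφ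
    have h2 := LinearMap.congr_fun hℓ ⟨φ, hφ⟩
    rw [LinearMap.dualMap_apply, hg, hf, LinearMap.domRestrict_apply,
      LinearMap.domRestrict_apply] at h2
    exact h2
  obtain ⟨ψ₁, hψ₁, h3⟩ := Bp_surjective (n' := n' - 1) (n := n + 1) (by omega) X Z ℓ
  have h4 : ψ - sg k (n' - 1) • dPhi (n' - 1) ψ₁ = 0 := by
    refine Bp_injective h X Z ?_ fun φ hφ => ?_
    · refine sub_mem hψ.1 (Submodule.smul_mem _ _ ?_)
      have h5 := dPhi_mem hψ₁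
      rwa [sub_add_cancel] at h5
    · have h5 := Bp_dPhi X Z (n' := n' - 1) (n := n) (by omega) ψ₁ φ
      rw [sub_add_cancel, ← h3 _ (dPhi_mem hφ), hℓ' φ hφ] at h5
      rw [map_sub, map_smul, LinearMap.sub_apply, LinearMap.smul_apply, h5, smul_eq_mul,
        ← mul_assoc, sg_mul_self, one_mul, sub_self]
  rw [sub_eq_zero] at h4
  rw [h4]
  exact Submodule.smul_mem _ _ (Submodule.mem_map_of_mem hψ₁)

/-- Proof. `Bp_surjective` gives `ψ ∈ Phi Z X n'` with `ℓ = Bp n' ψ` on `Phi X Z n`. For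
`φ' ∈ Phi X Z (n-1)`: `0 = ℓ (dPhi (n-1) φ') = Bp n' ψ (dPhi (n-1) φ') = ± Bp (n'+1) (dPhi n' ψ) φ'`,
so `dPhi n' ψ = 0` by `Bp_injective` (`n' + 1` and `n - 1`, `dPhi_mem`). -/
theorem exists_Bp (X Z : DGM (ginz Q)) [Module.Finite k X.M] {n' n : ℤ} (h : n' + n = 3)
    (ℓ : Amb X Z →ₗ[k] k) (hℓ : ∀ φ ∈ BPhi X Z n, ℓ φ = 0) :
    ∃ ψ ∈ ZPhi Z X n', ∀ φ ∈ Phi X Z n, ℓ φ = Bp n' X Z ψ φ := by
  obtain ⟨ψ, hψ, h1⟩ := Bp_surjective h X Z ℓ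
  refine ⟨ψ, ⟨hψ, LinearMap.mem_ker.mpr ?_⟩, h1⟩
  refine Bp_injective (n' := n' + 1) (n := n - 1) (by omega) X Z (dPhi_mem hψ) fun φ hφ => ?_
  rw [Bp_dPhi X Z (n' := n') (n := n - 1) (by omega) ψ φ]
  have h2 := dPhi_mem hφ
  rw [sub_add_cancel] at h2
  rw [← h1 _ h2, hℓ _ (Submodule.mem_map_of_mem hφ), mul_zero]

/-- Non-degeneracy on the other side. Proof: if `φ ∉ BPhi X Z n` there is a functional `ℓ` on
`Amb X Z` which is zero on `BPhi X Z n` and `ℓ φ ≠ 0`; apply `exists_Bp`. -/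
theorem mem_BPhi_of_Bp' (X Z : DGM (ginz Q)) [Module.Finite k X.M] {n' n : ℤ} (h : n' + n = 3)
    {φ : Amb X Z} (hφ : φ ∈ ZPhi X Z n) (h0 : ∀ ψ ∈ ZPhi Z X n', Bp n' X Z ψ φ = 0) :
    φ ∈ BPhi X Z n := by
  by_contra hcon
  obtain ⟨ℓ, h1, h2⟩ := Submodule.exists_dual_map_eq_bot_of_notMem hcon inferInstance
  have h3 : ∀ φ ∈ BPhi X Z n, ℓ φ = 0 := by
    intro φ' hφ'
    have h4 : ℓ φ' ∈ (BPhi X Z n).map ℓ := Submodule.mem_map_of_mem hφ'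
    rw [h2] at h4
    exact (Submodule.mem_bot k).mp h4
  obtain ⟨ψ, hψ, h4⟩ := exists_Bp X Z h ℓ h3
  exact h1 (by rw [h4 φ hφ.1, h0 ψ hψ])

end DGM

end GZ
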