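import Pool.Agent.Lib_MP_a23b08_g.GTrunc

/-!
PIECE S3. A simple quotient of the top cohomology.
-/

open CategoryTheory

namespace GZ

namespace DGM

variable {k : Type} [Field k] {Γ : QF k}

/-- The cohomology is bounded. -/
lemma step_top (X : DGM Γ) (hX : Module.Finite k (Coh X)) (hne : ¬ Acyclic X) :
    ∃ b, ¬ CohZero X b ∧ ∀ p, b < p → CohZero X p := by
  classical
  let S : Set ℤ := {p | ¬ CohZero X p}
  have h1 : ∀ p : S, ∃ (v : Γ.V) (x : X.M), x ∈ X.gr v p ∧ X.d x = 0 ∧ ¬ ∃ y, X.d y = x := by
    rintro ⟨p, hp⟩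
    by_contra h
    push Not at h
    refine hp fun v x hx hd => ?_
    obtain ⟨y, hy⟩ := h v x hx hd
    exact ⟨y, hy⟩
  choose v x hx hd hb using h1
  let c : S → Coh X := fun p =>
    ((LinearMap.range X.d).comap (LinearMap.ker X.d).subtype).mkQ ⟨x p, hd p⟩
  have hc : LinearIndependent k c := by
    rw [linearIndependent_iff']
    intro s g hg p hp
    have e1 : ∑ i ∈ s, g i • c i =
        ((LinearMap.range X.d).comap (LinearMap.ker X.d).subtype).mkQ
          (∑ i ∈ s, g i • ⟨x i, hd i⟩) := by
      rw [map_sum]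
      refine Finset.sum_congr rfl fun i _ => ?_
      rw [map_smul]
    rw [e1, Submodule.mkQ_apply, Submodule.Quotient.mk_eq_zero] at hg
    obtain ⟨y, hy⟩ := hg
    have e2 : X.d y = ∑ i ∈ s, g i • x i := by
      rw [hy, Submodule.subtype_apply, Submodule.coe_sum]
      rfl
    by_contra h0
    refine hb p ⟨(g p)⁻¹ • cmp X (v p) (p - 1) y, ?_⟩
    rw [map_smul, d_cmp X (v p) (q := p) (by omega), e2, map_sum,
      Finset.sum_eq_single_of_mem p hp]
    · rw [map_smul, cmp_of_mem X (hx p), smul_smul, inv_mul_cancel₀ h0, one_smul]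
    · intro i _ hi
      rw [map_smul, cmp_of_ne X _ (hx i), smul_zero]
      intro e
      simp only [Prod.mk.injEq] at e
      exact hi (Subtype.ext e.2).symm
  have hfin : Finite S := hc.finite
  have hS : S.Nonempty := by
    by_contra h
    rw [Set.not_nonempty_iff_eq_empty] at h
    refine hne ((acyclic_iff X).2 fun p => ?_)
    by_contra hp
    have : p ∈ S := hp
    rw [h] at this
    exact this
  obtain ⟨b, hb1, hb2⟩ := Set.exists_max_image S id (Set.toFinite S) hS
  refine ⟨b, hb1, fun p hp => ?_⟩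
  by_contra h
  have := hb2 p h
  simp only [id_eq] at this
  omega

/-- The top cohomology is not contained in its radical. -/
lemma step_radical (hΓ : Γ.Nice) (T : DGM Γ) (hT : IsNil T) (b : ℤ)
    (h1 : ∀ v p x, b < p → x ∈ T.gr v p → x = 0)
    (h2 : ∀ v x, x ∈ T.gr v b → T.d x = 0) (h3 : ¬ CohZero T b) :
    ∃ v, ∃ x ∈ T.gr v b, x ∉ LinearMap.range T.d ⊔ ⨆ a, LinearMap.range (T.act a) := by
  by_contra hcon
  push Not at hcon
  let B : Submodule k T.M := ⨆ v, T.gr v b
  let W : ℕ → Set (List Γ.A) := fun N => {w | w.length = N ∧ ∀ a ∈ w, Γ.deg a = 0}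
  let Q : ℕ → Submodule k T.M := fun N =>
    LinearMap.range T.d ⊔ ⨆ w ∈ W N, B.map (evW T.act w)
  -- one step
  have key : B ≤ LinearMap.range T.d ⊔ ⨆ a ∈ {a : Γ.A | Γ.deg a = 0}, B.map (T.act a) := by
    refine iSup_le fun v x hx => ?_
    have e1 : LinearMap.range T.d ⊔ ⨆ a, LinearMap.range (T.act a) ≤
        (LinearMap.range T.d ⊔ ⨆ a ∈ {a : Γ.A | Γ.deg a = 0}, B.map (T.act a)).comap
          (cmp T v b) := by
      refine sup_le ?_ (iSup_le fun a => ?_)
      · rintro _ ⟨y, rfl⟩
        refine Submodule.mem_sup_left ⟨cmp T v (b - 1) y, ?_⟩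
        rw [d_cmp T v (q := b) (by omega)]
      · rintro _ ⟨y, rfl⟩
        rw [Submodule.mem_comap]
        by_cases hv : v = Γ.tgt a
        · subst hv
          rw [cmp_act T a (p := b - Γ.deg a) (by omega)]
          rcases eq_or_lt_of_le (hΓ.deg_nonpos a) with h | h
          · refine Submodule.mem_sup_right ?_
            refine Submodule.mem_iSup_of_mem a (Submodule.mem_iSup_of_mem h ?_)
            refine ⟨_, Submodule.mem_iSup_of_mem (Γ.src a) ?_, rfl⟩
            rw [h, sub_zero]
            exact cmp_mem T (Γ.src a) b y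
          · rw [h1 _ _ _ (by omega) (cmp_mem T (Γ.src a) (b - Γ.deg a) y), map_zero]
            exact zero_mem _
        · rw [cmp_act_ne T a hv]
          exact zero_mem _
    have e2 := e1 (hcon v x hx)
    rw [Submodule.mem_comap, cmp_of_mem T hx] at e2
    exact e2
  have hQ : ∀ N, B ≤ Q N := by
    intro N
    induction N with
    | zero =>
      refine le_trans ?_ le_sup_right
      refine le_trans ?_ (le_iSup₂_of_le ([] : List Γ.A) ⟨rfl, by simp⟩ le_rfl)
      intro x hx
      exact ⟨x, hx, rfl⟩
    | succ N ih =>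
      refine ih.trans (sup_le le_sup_left (iSup₂_le fun w hw => ?_))
      refine (Submodule.map_mono key).trans ?_
      rw [Submodule.map_sup]
      refine sup_le ?_ ?_
      · rintro _ ⟨_, ⟨y, rfl⟩, rfl⟩
        refine Submodule.mem_sup_left ⟨evW T.act w y, ?_⟩
        rw [d_evW_zero hΓ T hw.2]
      · rw [Submodule.map_iSup]
        refine iSup_le fun a => ?_
        rw [Submodule.map_iSup]
        refine iSup_le fun ha => ?_
        refine le_trans ?_ le_sup_right
        refine le_trans ?_ (le_iSup₂_of_le (w ++ [a]) ⟨?_, ?_⟩ le_rfl)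
        · rintro _ ⟨_, ⟨y, hy, rfl⟩, rfl⟩
          exact ⟨y, hy, by rw [evW_append]; rfl⟩
        · rw [List.length_append, hw.1]
          rfl
        · intro c hc
          rcases List.mem_append.1 hc with h | h
          · exact hw.2 c h
          · rw [List.mem_singleton.1 h]
            exact ha
  obtain ⟨N, hN⟩ := hT.nil
  refine h3 fun v x hx _ => ?_
  have e1 : Q N ≤ LinearMap.range T.d := by
    refine sup_le le_rfl (iSup₂_le fun w hw => ?_)
    rintro _ ⟨y, hy, rfl⟩
    have hy' : T.d y = 0 := by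
      have : B ≤ LinearMap.ker T.d := iSup_le fun v x hx => h2 v x hx
      exact this hy
    exact hN w hw.1.ge hw.2 y hy'
  exact e1 (hQ N (Submodule.mem_iSup_of_mem v hx))

/-- `X` has finite-dimensional nilpotent cohomology and is not acyclic. Then, up to a
quasi-isomorphism, the top cohomology has a simple quotient.

Proof. The cohomology is bounded (finite-dimensional: homogeneous cocycles of different degrees which
are not boundaries have independent classes), let `b` be the largest `p` with `¬ CohZero X p`.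
Let `(T, j)` be `exists_trunc X b`; `j` is a quasi-isomorphism; `X' = T`. Elements of `T` of degree
`b` are cocycles, there are no elements of degree `> b`. Let `H` be the (finite-dimensional, non-zero)
quotient of `⨆ v, T.gr v b` by the boundaries in it. The arrows of degree `0` act on it
(`Γ.diff a = []`), nilpotently (`IsNil T` by the last clause of `exists_trunc`), so
`R = ∑_(deg a = 0) a H ≠ H` (otherwise `H = ∑_w w H` over words `w` of length `N`, `= 0`).
Hence there are `v` and a non-zero linear form `e` on `T.M` which is zero on `T.gr w p` for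
`(w, p) ≠ (v, b)`, zero on boundaries and on `a x` for all arrows `a` of degree `0` and `x` of degree `b`
(take a vertex `v` where the image of `T.gr v b` in `H / R` is not zero). Then `π = e : T → (Sm v)[-b]`
is a morphism: it kills boundaries and all `a x` (if `deg a < 0`, `a x` of degree `b` would need `x` of
degree `> b`). It is surjective. `K = ker e` (`subMod`). `Coh K → Coh T` is injective
(if `x ∈ K` is the boundary of `y`, then `y` may be taken of degree `≤ b - 1` after removing its degree `b`
component, which is a cocycle, and such `y` is in `K`), with image the kernel of `Coh T → k`, so the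
dimension drops by exactly one, `K` is nilpotent, and `CohZero T p → CohZero K p`. -/
theorem exists_step (hΓ : Γ.Nice) (X : DGM Γ) (hX : IsNil X) (hne : ¬ Acyclic X) :
    ∃ (v : Γ.V) (b : ℤ) (X' K : DGM Γ) (i : X' ⟶ X) (j : K ⟶ X') (π : X' ⟶ (Sm hΓ v).sh (-b)),
      IsQis i ∧ IsShort j π ∧ IsNil K ∧ Module.finrank k (Coh K) + 1 = Module.finrank k (Coh X) ∧
      ¬ CohZero X b ∧ (∀ p, b < p → CohZero X p) ∧ ∀ p, CohZero X p → CohZero K p := by
  classical
  obtain ⟨b, hb1, hb2⟩ := step_top X hX.fin hne
  obtain ⟨T, F, i, -, -, t1, t2, -, -, -, -, t7, -, t9, -, t11⟩ := exists_trunc hΓ X b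
  have hi : IsQis i := t9 hb2
  have hT : IsNil T := (t11 hX).1
  have hTb : ¬ CohZero T b := by
    intro hc
    refine hb1 fun v x hx hd => ?_
    obtain ⟨t, y', ht, hxt⟩ := hi.surj x hd
    have e1 : x = lin i (cmp T v b t) + X.d (cmp X v (b - 1) y') := by
      rw [d_cmp X v (q := b) (by omega), ← cmp_lin, ← map_add, ← hxt, cmp_of_mem X hx]
    obtain ⟨s, hs⟩ := hc v (cmp T v b t) (cmp_mem T v b t) (by rw [d_cmp T v rfl, ht, map_zero])
    refine ⟨lin i s + cmp X v (b - 1) y', ?_⟩
    rw [map_add, ← lin_d, hs, ← e1]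
  obtain ⟨v, x₀, hx₀, hx₀R⟩ := step_radical hΓ T hT b t1 t2 hTb
  obtain ⟨f, hf0, hfR⟩ := Submodule.exists_le_ker_of_notMem hx₀R
  let l : T.M →ₗ[k] k := f ∘ₗ cmp T v b
  have l0 : l x₀ ≠ 0 := by
    change f (cmp T v b x₀) ≠ 0
    rw [cmp_of_mem T hx₀]
    exact hf0
  have lne : ∀ w p x, (v, b) ≠ (w, p) → x ∈ T.gr w p → l x = 0 := by
    intro w p x h hx
    change f (cmp T v b x) = 0
    rw [cmp_of_ne T h hx, map_zero]
  have ld : ∀ y, l (T.d y) = 0 := by
    intro y
    change f (cmp T v b (T.d y)) = 0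
    rw [← d_cmp T v (p := b - 1) (by omega)]
    exact hfR (Submodule.mem_sup_left ⟨_, rfl⟩)
  have la : ∀ a y, l (T.act a y) = 0 := by
    intro a y
    change f (cmp T v b (T.act a y)) = 0
    by_cases hv : v = Γ.tgt a
    · rw [hv, cmp_act T a (p := b - Γ.deg a) (by omega)]
      exact hfR (Submodule.mem_sup_right (Submodule.mem_iSup_of_mem a ⟨_, rfl⟩))
    · rw [cmp_act_ne T a hv, map_zero]
  have lc : ∀ x, l (cmp T v b x) = l x := by
    intro x
    change f (cmp T v b (cmp T v b x)) = f (cmp T v b x)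
    rw [cmp_cmp_same]
  let π : T ⟶ (Sm hΓ v).sh (-b) := homMk (X := T) (Y := (Sm hΓ v).sh (-b)) l
    (by
      intro w p x hx h
      by_contra hne
      refine h (lne w p x (fun e => hne ?_) hx)
      simp only [Prod.mk.injEq] at e
      exact ⟨e.1.symm, by omega⟩)
    (by
      intro a x
      rw [la]
      change (0 : k) = sg k (-b * Γ.deg a) • (0 : k)
      rw [smul_zero])
    (by
      intro x
      rw [ld]
      change (0 : k) = sg k (-b) • (0 : k)
      rw [smul_zero])
  have hK : IsSub T (LinearMap.ker l) :=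
    { hom := by
        intro w p x hx
        rw [LinearMap.mem_ker] at hx ⊢
        by_cases h : (v, b) = (w, p)
        · simp only [Prod.mk.injEq] at h
          rw [← h.1, ← h.2, lc, hx]
        · exact lne w p _ h (cmp_mem T w p x)
      d := fun x _ => ld x
      act := fun a x _ => la a x }
  have hinj : ∀ x : (subMod T (LinearMap.ker l) hK).M,
      (∃ y, T.d y = lin (subι T _ hK) x) → ∃ x', (subMod T (LinearMap.ker l) hK).d x' = x := by
    rintro x ⟨y, hy⟩
    have e1 : y - cmp T v b y ∈ LinearMap.ker l := by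
      rw [LinearMap.mem_ker, map_sub, lc, sub_self]
    refine ⟨⟨y - cmp T v b y, e1⟩, Subtype.ext ?_⟩
    change T.d (y - cmp T v b y) = (x : T.M)
    rw [map_sub, t2 v _ (cmp_mem T v b y), sub_zero]
    exact hy
  have hKnil : IsNil (subMod T (LinearMap.ker l) hK) :=
    hT.of_inj (subι T _ hK) (fun x _ hx => hinj x hx) hΓ
  refine ⟨v, b, T, subMod T _ hK, i, subι T _ hK, π, hi, ?_, hKnil, ?_, hb1, hb2, ?_⟩
  · refine ⟨Subtype.val_injective, ?_, ?_⟩
    · intro c
      refine ⟨(c / l x₀) • x₀, ?_⟩
      change l ((c / l x₀) • x₀) = c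
      rw [map_smul, smul_eq_mul, div_mul_cancel₀ _ l0]
    · intro x
      change l x = 0 ↔ _
      exact ⟨fun h => ⟨⟨x, h⟩, rfl⟩, by rintro ⟨y, rfl⟩; exact y.2⟩
  · have hfT := hT.fin
    have hfX := hX.fin
    have e1 : Module.finrank k (Coh T) = Module.finrank k (Coh X) :=
      (LinearEquiv.ofBijective (trCoh i)
        ⟨trCoh_injective i hi.inj, trCoh_surjective i hi.surj⟩).finrank_eq
    let lb : Coh T →ₗ[k] k := Submodule.liftQ _ (l ∘ₗ (LinearMap.ker T.d).subtype) (by
      rintro ⟨x, hx⟩ ⟨y, hy⟩
      change l x = 0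
      rw [← show T.d y = x from hy]
      exact ld y)
    have e2 : LinearMap.range lb = ⊤ := by
      rw [LinearMap.range_eq_top]
      intro c
      refine ⟨((LinearMap.range T.d).comap (LinearMap.ker T.d).subtype).mkQ
        ⟨(c / l x₀) • x₀, by rw [LinearMap.mem_ker, map_smul, t2 v x₀ hx₀, smul_zero]⟩, ?_⟩
      change l ((c / l x₀) • x₀) = c
      rw [map_smul, smul_eq_mul, div_mul_cancel₀ _ l0]
    have e3 : LinearMap.range (trCoh (subι T _ hK)) = LinearMap.ker lb := by
      ext z
      constructor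
      · rintro ⟨u, rfl⟩
        obtain ⟨⟨x, hx⟩, rfl⟩ := Submodule.mkQ_surjective _ u
        exact x.2
      · intro hz
        obtain ⟨⟨x, hx⟩, rfl⟩ := Submodule.mkQ_surjective _ z
        have hx' : l x = 0 := hz
        exact ⟨((LinearMap.range (subMod T _ hK).d).comap
          (LinearMap.ker (subMod T _ hK).d).subtype).mkQ ⟨⟨x, hx'⟩, Subtype.ext hx⟩, rfl⟩
    have e4 := LinearMap.finrank_range_add_finrank_ker lb
    rw [e2, finrank_top, Module.finrank_self, ← e3,
      LinearMap.finrank_range_of_inj (trCoh_injective _ fun x _ hx => hinj x hx)] at e4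
    rw [← e1, ← e4, add_comm]
  · intro p hp w x hx hd
    refine hinj x ?_
    exact t7 p hp w x hx (congrArg Subtype.val hd)

end DGM

end GZ
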