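import Pool.Agent.Lib_MP_a23b08_g.GTheta
import Pool.Agent.Lib_MP_a23b08_g.GStep

/-!
PIECE D7. Finite-dimensional models of the objects with finite-dimensional nilpotent cohomology.
-/

open CategoryTheory CategoryTheory.Limits CategoryTheory.Pretriangulated

namespace GZ

variable {k : Type} [Field k]

namespace DGM

variable {Γ : QF k}

/-- `shC` is injective. -/
private lemma GFd_shC_zero {X Y : DGM Γ} {m : ℤ} {φ : Amb X Y} (h : shC X Y m φ = 0) : φ = 0 := by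
  have h1 : φ.1 = 0 := congrArg Prod.fst h
  refine Prod.ext h1 (funext fun a => ?_)
  have h2 : sg k m • φ.2 a = 0 := congrFun (congrArg Prod.snd h) a
  have h3 := congrArg (fun z => sg k m • z) h2
  simp only [sg_mul_self_smul, smul_zero] at h3
  exact h3

/-- `shC` reflects cocycles. -/
private lemma GFd_memZ {B A : DGM Γ} {ψ : Amb B A} (h : shC B A 1 ψ ∈ ZPhi B (A.sh 1) 0) :
    ψ ∈ ZPhi B A 1 := by
  have h0 : (0 : ℤ) + 1 = 1 := zero_add 1
  refine ⟨(shC_mem_iff 1 h0).1 h.1, ?_⟩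
  have h1 : dPhi 0 (shC B A 1 ψ) = 0 := h.2
  rw [dPhi_shC 1 h0] at h1
  have h2 := congrArg (fun z => sg k 1 • z) h1
  simp only [sg_mul_self_smul, smul_zero] at h2
  exact GFd_shC_zero h2

/-- `shC` is surjective. -/
private lemma GFd_exists_shC {B A : DGM Γ} (φ : Amb B (A.sh 1)) : ∃ ψ : Amb B A, shC B A 1 ψ = φ :=
  ⟨((φ.1, fun a => sg k 1 • φ.2 a) : Amb B A),
    Prod.ext rfl (funext fun a => sg_mul_self_smul 1 (φ.2 a))⟩

private lemma GFd_shC_neg {B A : DGM Γ} (ψ : Amb B A) : shC B A 1 (-ψ) = -shC B A 1 ψ :=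
  Prod.ext rfl (funext fun _ => smul_neg _ _)

/-- The morphisms to a shifted object come from extensions. -/
private lemma GFd_exists_ext (hΓ : Γ.Nice) {A B : DGM Γ} (w : (Q Γ).obj B ⟶ (Q Γ).obj (A.sh 1)) :
    ∃ (E : DGM Γ) (j : A ⟶ E) (π : E ⟶ B) (h : IsShort j π),
      (Module.Finite k A.M → Module.Finite k B.M → Module.Finite k E.M) ∧
      (Q Γ).map (pr j) = (Q Γ).map (coneπ h) ≫ w := by
  obtain ⟨φ, hφ, hθ⟩ := cl_surjective (theta hΓ B (A.sh 1) w)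
  obtain ⟨ψ, rfl⟩ := GFd_exists_shC φ
  obtain ⟨E, j, π, h, hfin, hB⟩ := exists_ext (neg_mem (GFd_memZ hφ))
  refine ⟨E, j, π, h, hfin, ?_⟩
  apply theta_injective hΓ (cone j) (A.sh 1)
  rw [theta_Q_comp hΓ (coneπ h) w, hθ, HL_cl]
  refine (theta_Q hΓ (pr j)).trans ((cl_eq_iff _ _).2 ?_)
  rw [GFd_shC_neg, map_neg, ← sub_eq_add_neg] at hB
  exact hB

/-- Every morphism `w : Q B ⟶ (Q A)[1]` is the connecting morphism of a short exact sequence.

Proof. Let `w'' = w ≫ ((Q Γ).commShiftIso 1).inv.app A : Q B ⟶ Q (A[1])`, `A⟦1⟧ = A.sh 1` (rfl).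
`theta w'' = [φ']`, and `φ' = shC B A 1 ψ` with `ψ ∈ ZPhi B A 1` (`shC B A 1` is bijective and
`shC_mem_iff`, `dPhi_shC`). Apply `exists_ext` to `φ = - ψ`: `[(pr j, 0)] = - [mapL (coneπ h) (shC φ)] =
[mapL (coneπ h) φ'] = HL (coneπ h) (theta w'')`, so `theta (Q (pr j)) = theta (Q (coneπ h) ≫ w'')`
(`theta_Q`, `theta_Q_comp`) and `Q (pr j) = Q (coneπ h) ≫ w''` (`theta_injective`). The connecting
morphism `w_c` of `exists_tri_of_short` satisfies `Q (coneπ h) ≫ w_c = Q (pr j) ≫ iso = Q (coneπ h) ≫ w`,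
and `Q (coneπ h)` is an isomorphism (`isQis_coneπ`), so `w_c = w`. -/
theorem exists_ext_of_hom (hΓ : Γ.Nice) {A B : DGM Γ}
    (w : (Q Γ).obj B ⟶ ((Q Γ).obj A)⟦(1 : ℤ)⟧) :
    ∃ (E : DGM Γ) (j : A ⟶ E) (π : E ⟶ B),
      (Module.Finite k A.M → Module.Finite k B.M → Module.Finite k E.M) ∧
      Triangle.mk ((Q Γ).map j) ((Q Γ).map π) w ∈ distTriang (Der Γ) := by
  obtain ⟨w'', hw''⟩ : ∃ w'' : (Q Γ).obj B ⟶ (Q Γ).obj (A⟦(1 : ℤ)⟧),
      w'' ≫ ((Q Γ).commShiftIso (1 : ℤ)).hom.app A = w := by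
    refine ⟨w ≫ ((Q Γ).commShiftIso (1 : ℤ)).inv.app A, ?_⟩
    rw [Category.assoc, ← NatTrans.comp_app, Iso.inv_hom_id]
    exact Category.comp_id w
  obtain ⟨E, j, π, h, hfin, hpr⟩ := GFd_exists_ext hΓ w''
  obtain ⟨wc, hdist, hwc⟩ := exists_tri_of_short h
  have hiso : IsIso ((Q Γ).map (coneπ h)) := isIso_Q_of_isQis _ (isQis_coneπ h)
  have e1 : (Q Γ).map (coneπ h) ≫ wc = (Q Γ).map (coneπ h) ≫ w := by
    rw [hwc, hpr]
    exact (Category.assoc _ _ _).trans (congrArg (fun u => (Q Γ).map (coneπ h) ≫ u) hw'')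
  have e2 : wc = w := (cancel_epi ((Q Γ).map (coneπ h))).1 e1
  exact ⟨E, j, π, hfin, e2 ▸ hdist⟩

/-- Proof. Strong induction on `finrank (Coh X)`. If `X` is acyclic take `zeroObj Γ` (`isZero_Q_iff`).
Otherwise `exists_step`: `K → X' → B = (Sm v).sh (-b)`, `i : X' → X` a quasi-isomorphism, and
`finrank (Coh K) < finrank (Coh X)`. `Q K ≅ Q K'`, `K'.M` finite-dimensional, by induction. The triangle
of `exists_tri_of_short` has a connecting morphism `w`; `exists_ext_of_hom` for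
`w ≫ e⟦1⟧'`, `e : Q K ≅ Q K'`, gives `E` with `Q E ≅ Q X'` (two distinguished triangles with
isomorphic third morphism: `Pretriangulated.isoTriangleOfIso₁₃` or similar). -/
theorem exists_fd (hΓ : Γ.Nice) (X : DGM Γ) (hX : IsNil X) :
    ∃ X' : DGM Γ, Module.Finite k X'.M ∧ Nonempty ((Q Γ).obj X ≅ (Q Γ).obj X') := by
  suffices h : ∀ (n : ℕ) (X : DGM Γ), IsNil X → Module.finrank k (Coh X) = n →
      ∃ X' : DGM Γ, Module.Finite k X'.M ∧ Nonempty ((Q Γ).obj X ≅ (Q Γ).obj X') from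
    h _ X hX rfl
  intro n
  induction n using Nat.strong_induction_on with
  | _ n ih =>
  intro X hX hn
  by_cases hac : Acyclic X
  · refine ⟨zeroObj Γ, inferInstanceAs (Module.Finite k PUnit), ⟨?_⟩⟩
    have h1 : IsZero ((Q Γ).obj X) := (isZero_Q_iff X).2 hac
    have h2 : IsZero ((Q Γ).obj (zeroObj Γ)) :=
      (isZero_Q_iff (zeroObj Γ)).2 fun x _ => ⟨x, rfl⟩
    exact h1.iso h2
  · obtain ⟨v, b, X', K, i, j, π, hi, hs, hK, hrank, -, -, -⟩ := exists_step hΓ X hX hac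
    obtain ⟨K', hK', ⟨e⟩⟩ := ih (Module.finrank k (Coh K)) (by omega) K hK rfl
    obtain ⟨w, hdist, -⟩ := exists_tri_of_short hs
    obtain ⟨E, j', π', hfin, hdist'⟩ := exists_ext_of_hom hΓ (w ≫ e.hom⟦(1 : ℤ)⟧')
    have hB : Module.Finite k ((Sm hΓ v).sh (-b)).M := inferInstanceAs (Module.Finite k k)
    have hiso : IsIso ((Q Γ).map i) := isIso_Q_of_isQis _ hi
    have t := isoTriangleOfIso₁₃ _ _ hdist hdist' e (Iso.refl _) (by
      change w ≫ e.hom⟦(1 : ℤ)⟧' = 𝟙 _ ≫ w ≫ e.hom⟦(1 : ℤ)⟧'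
      rw [Category.id_comp])
    exact ⟨E, hfin hK' hB, ⟨(asIso ((Q Γ).map i)).symm ≪≫ Triangle.π₂.mapIso t⟩⟩

end DGM

end GZ
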