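import Pool.Agent.Lib_MP_a23b08_g.GCY3
import Pool.Agent.Lib_MP_a23b08_g.GFd

/-!
PIECE D8. The derived category of a Ginzburg dg algebra is 3-Calabi-Yau on the level of dimensions.
-/

open CategoryTheory CategoryTheory.Limits CategoryTheory.Pretriangulated

namespace GZ

variable {k : Type} [Field k]

namespace DGM

/-- Proof. `Amb X Y` is finite-dimensional (`Γ.A` is finite). -/
theorem finite_HPhi {Γ : QF k} (hΓ : Γ.Nice) (X Y : DGM Γ) [Module.Finite k X.M]
    [Module.Finite k Y.M] (n : ℤ) : Module.Finite k (HPhi X Y n) := by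
  have hA : Finite Γ.A := hΓ.finA
  have h1 : Module.Finite k (Amb X Y) := inferInstance
  infer_instance

/-- Linear algebra: the quotients by the left and the right kernel of a pairing have the same
dimension. -/
private theorem GCYD_finrank {U W : Type} [AddCommGroup U] [Module k U] [AddCommGroup W]
    [Module k W] [Module.Finite k W] (B : U →ₗ[k] W →ₗ[k] k)
    (U' : Submodule k U) (W' : Submodule k W) (hU : ∀ u, u ∈ U' ↔ ∀ w, B u w = 0)
    (hW : ∀ w, w ∈ W' ↔ ∀ u, B u w = 0) :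
    Module.finrank k (U ⧸ U') = Module.finrank k (W ⧸ W') := by
  have h1 : U' = LinearMap.ker B := by
    ext u
    rw [hU, LinearMap.mem_ker]
    exact ⟨fun h => LinearMap.ext h, fun h w => by rw [h, LinearMap.zero_apply]⟩
  have h2 : W' = LinearMap.ker B.flip := by
    ext w
    rw [hW, LinearMap.mem_ker]
    exact ⟨fun h => LinearMap.ext fun u => (B.flip_apply u w).trans (h u),
      fun h u => by rw [← B.flip_apply, h, LinearMap.zero_apply]⟩
  have h3 : B.flip = B.dualMap ∘ₗ (Module.evalEquiv k W).toLinearMap := by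
    ext w u
    rfl
  rw [h1, h2, LinearEquiv.finrank_eq B.quotKerEquivRange,
    LinearEquiv.finrank_eq B.flip.quotKerEquivRange, h3, LinearMap.range_comp_of_range_eq_top _
      (LinearEquiv.range _), LinearMap.finrank_range_dualMap_eq_finrank_range]

/-- Proof. The pairing `Bp n'` induces an injective map of `Hⁿ'(Z, X)` to the dual of `Hⁿ(X, Z)`
(`Bp_eq_zero_left`, `Bp_eq_zero_right`, `mem_BPhi_of_Bp`) and an injective map in the other direction
(`mem_BPhi_of_Bp'`); both spaces are finite-dimensional. -/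
theorem finrank_HPhi_dual {Q : QP k} (hQ : (ginz Q).Nice) (X Z : DGM (ginz Q))
    [Module.Finite k X.M] [Module.Finite k Z.M] {n' n : ℤ} (h : n' + n = 3) :
    Module.finrank k (HPhi Z X n') = Module.finrank k (HPhi X Z n) := by
  have hA : Finite (ginz Q).A := hQ.finA
  refine GCYD_finrank ((Bp n' X Z).domRestrict₁₂ (ZPhi Z X n') (ZPhi X Z n)) _ _ ?_ ?_
  · rintro ⟨ψ, hψ⟩
    rw [Submodule.mem_comap]
    constructor
    · rintro h1 ⟨φ, hφ⟩
      exact Bp_eq_zero_left X Z h h1 hφ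
    · intro h1
      exact mem_BPhi_of_Bp X Z h hψ fun φ hφ => h1 ⟨φ, hφ⟩
  · rintro ⟨φ, hφ⟩
    rw [Submodule.mem_comap]
    constructor
    · rintro h1 ⟨ψ, hψ⟩
      exact Bp_eq_zero_right X Z h hψ h1
    · intro h1
      exact mem_BPhi_of_Bp' X Z h hφ fun ψ hψ => h1 ⟨ψ, hψ⟩

theorem finite_hom {Γ : QF k} (hΓ : Γ.Nice) {X Y : DGM Γ} (hX : IsNil X) (hY : IsNil Y) :
    Module.Finite k ((Q Γ).obj X ⟶ (Q Γ).obj Y) := by
  obtain ⟨X', hX', ⟨e₁⟩⟩ := exists_fd hΓ X hX
  obtain ⟨Y', hY', ⟨e₂⟩⟩ := exists_fd hΓ Y hY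
  have h1 : Module.Finite k (HPhi X' Y' 0) := finite_HPhi hΓ X' Y' 0
  exact Module.Finite.equiv ((Linear.homCongr k e₁ e₂) ≪≫ₗ thetaE hΓ X' Y').symm

/-- Proof: `exists_fd` for `X` and `Y`, `nonempty_hom_equiv`, `finrank_HPhi_dual`. -/
theorem finrank_cy {P : QP k} (hP : (ginz P).Nice) {X Y : DGM (ginz P)} (hX : IsNil X)
    (hY : IsNil Y) (m : ℤ) :
    Module.finrank k ((Q (ginz P)).obj X ⟶ ((Q (ginz P)).obj Y)⟦m⟧) =
      Module.finrank k ((Q (ginz P)).obj Y ⟶ ((Q (ginz P)).obj X)⟦3 - m⟧) := by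
  obtain ⟨X', hX', ⟨e₁⟩⟩ := exists_fd hP X hX
  obtain ⟨Y', hY', ⟨e₂⟩⟩ := exists_fd hP Y hY
  obtain ⟨f₁⟩ := nonempty_hom_equiv hP X' Y' m
  obtain ⟨f₂⟩ := nonempty_hom_equiv hP Y' X' (3 - m)
  have h1 := LinearEquiv.finrank_eq ((Linear.homCongr k e₁
    ((CategoryTheory.shiftFunctor (Der (ginz P)) m).mapIso e₂)) ≪≫ₗ f₁)
  have h2 := LinearEquiv.finrank_eq ((Linear.homCongr k e₂
    ((CategoryTheory.shiftFunctor (Der (ginz P)) (3 - m)).mapIso e₁)) ≪≫ₗ f₂)
  exact h1.trans ((finrank_HPhi_dual hP Y' X' (by omega)).trans h2.symm)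

end DGM

end GZ
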