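import Pool.Agent.Lib_MP_a23b08_g.GSub

/-!
PIECE D6. Euler characteristics at the vertices.
-/

open CategoryTheory

namespace GZ

namespace DGM

variable {k : Type} [Field k] {Γ : QF k}

/-- The cohomology in degree `p` at the vertex `v`. -/
abbrev HV (X : DGM Γ) (v : Γ.V) (p : ℤ) : Type :=
  ↥(LinearMap.ker X.d ⊓ X.gr v p) ⧸ (LinearMap.range X.d).comap (LinearMap.ker X.d ⊓ X.gr v p).subtype

/-- The Euler characteristic of the cohomology at the vertex `v`. -/
noncomputable def eul (X : DGM Γ) (v : Γ.V) : ℤ :=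
  ∑ᶠ p : ℤ, ((p.negOnePow : ℤˣ) : ℤ) * (Module.finrank k (HV X v p) : ℤ)

/-- The class of a homogeneous cocycle. -/
private def gClsMk (X : DGM Γ) {v : Γ.V} {p : ℤ} (x : X.M) (hx : X.d x = 0) (hm : x ∈ X.gr v p) :
    HV X v p := Submodule.Quotient.mk ⟨x, hx, hm⟩

private lemma gCls_surj (X : DGM Γ) {v : Γ.V} {p : ℤ} (c : HV X v p) :
    ∃ (x : X.M) (hx : X.d x = 0) (hm : x ∈ X.gr v p), c = gClsMk X x hx hm := by
  obtain ⟨⟨x, hx, hm⟩, rfl⟩ := Submodule.Quotient.mk_surjective _ c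
  exact ⟨x, hx, hm, rfl⟩

private lemma gCls_eq_zero (X : DGM Γ) {v : Γ.V} {p : ℤ} (x : X.M) (hx : X.d x = 0)
    (hm : x ∈ X.gr v p) : gClsMk X x hx hm = 0 ↔ ∃ z, X.d z = x := by
  rw [gClsMk, Submodule.Quotient.mk_eq_zero]
  rfl

private lemma gCls_eq (X : DGM Γ) {v : Γ.V} {p : ℤ} (x y : X.M) (hx : X.d x = 0)
    (hm : x ∈ X.gr v p) (hy : X.d y = 0) (hn : y ∈ X.gr v p) :
    gClsMk X x hx hm = gClsMk X y hy hn ↔ ∃ z, X.d z = x - y := by
  rw [gClsMk, gClsMk, Submodule.Quotient.eq]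
  rfl

private lemma gCls_finrank_zero {X : DGM Γ} {v : Γ.V} {p : ℤ}
    (h : ∀ x, X.d x = 0 → x ∈ X.gr v p → ∃ z, X.d z = x) : Module.finrank k (HV X v p) = 0 := by
  have : Subsingleton (HV X v p) := by
    refine ⟨fun a b => ?_⟩
    obtain ⟨x, hx, hm, rfl⟩ := gCls_surj X a
    obtain ⟨y, hy, hn, rfl⟩ := gCls_surj X b
    rw [(gCls_eq_zero X x hx hm).2 (h x hx hm), (gCls_eq_zero X y hy hn).2 (h y hy hn)]
  exact Module.finrank_zero_of_subsingleton

/-- The map to the total cohomology. -/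
private def gClsToCoh (X : DGM Γ) (v : Γ.V) (p : ℤ) : HV X v p →ₗ[k] Coh X :=
  Submodule.mapQ _ _ (Submodule.inclusion (inf_le_left : LinearMap.ker X.d ⊓ X.gr v p ≤ _))
    (by
      rintro ⟨x, hx⟩ ⟨y, hy⟩
      exact ⟨y, hy⟩)

private lemma gClsToCoh_injective (X : DGM Γ) (v : Γ.V) (p : ℤ) :
    Function.Injective (gClsToCoh X v p) := by
  rw [injective_iff_map_eq_zero]
  intro c hc
  obtain ⟨x, hx, hm, rfl⟩ := gCls_surj X c
  rw [gCls_eq_zero]
  have h1 : (Submodule.Quotient.mk (⟨x, hx⟩ : ↥(LinearMap.ker X.d)) : Coh X) = 0 := hc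
  rw [Submodule.Quotient.mk_eq_zero] at h1
  exact h1

/-- Proof. `HV X v p → Coh X` is injective. -/
lemma finite_HV (X : DGM Γ) (h : Module.Finite k (Coh X)) (v : Γ.V) (p : ℤ) :
    Module.Finite k (HV X v p) :=
  Module.Finite.of_injective _ (gClsToCoh_injective X v p)

/-- Proof. Cocycles of different degrees which are not boundaries have linearly independent classes in
`Coh X` (components of boundaries are boundaries, `d_cmp`), so there are at most `finrank Coh X` such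
degrees. -/
lemma finite_supp (X : DGM Γ) (h : Module.Finite k (Coh X)) (v : Γ.V) :
    {p : ℤ | Module.finrank k (HV X v p) ≠ 0}.Finite := by
  classical
  have h1 : ∀ p : {p : ℤ | Module.finrank k (HV X v p) ≠ 0}, ∃ x : X.M, X.d x = 0 ∧
      x ∈ X.gr v p ∧ ¬ ∃ z, X.d z = x := by
    rintro ⟨p, hp⟩
    by_contra hcon
    push Not at hcon
    exact hp (gCls_finrank_zero fun x hx hm => hcon x hx hm)
  choose x hx hm hn using h1
  have hli : LinearIndependent k
      (fun p : {p : ℤ | Module.finrank k (HV X v p) ≠ 0} =>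
        (Submodule.Quotient.mk (⟨x p, hx p⟩ : ↥(LinearMap.ker X.d)) : Coh X)) := by
    rw [linearIndependent_iff']
    intro s g hg j hj
    by_contra hgj
    have h2 : (∑ i ∈ s, g i • (Submodule.Quotient.mk (⟨x i, hx i⟩ : ↥(LinearMap.ker X.d)) :
        Coh X)) = Submodule.Quotient.mk (∑ i ∈ s, g i • (⟨x i, hx i⟩ : ↥(LinearMap.ker X.d))) := by
      rw [← Submodule.mkQ_apply, map_sum]
      rfl
    rw [h2, Submodule.Quotient.mk_eq_zero] at hg
    obtain ⟨z, hz⟩ := hg
    have h3 : X.d z = ∑ i ∈ s, g i • x i := by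
      rw [hz]
      simp
    have h4 : cmp X v j.1 (X.d z) = g j • x j := by
      rw [h3, map_sum, Finset.sum_eq_single_of_mem j hj]
      · rw [map_smul, cmp_of_mem X (hm j)]
      · intro i _ hij
        rw [map_smul, cmp_of_ne X (w := v) (q := i.1) _ (hm i), smul_zero]
        intro e
        simp only [Prod.mk.injEq, true_and] at e
        exact hij (Subtype.ext e.symm)
    rw [← d_cmp X v (p := j.1 - 1) (by omega)] at h4
    refine hn j ⟨(g j)⁻¹ • cmp X v (j.1 - 1) z, ?_⟩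
    rw [map_smul, h4, smul_smul, inv_mul_cancel₀ hgj, one_smul]
  have := hli.finite_of_isNoetherian
  exact Set.toFinite _

/-- The map on cohomology. -/
noncomputable def HVmap {X Y : DGM Γ} (f : X ⟶ Y) (v : Γ.V) (p : ℤ) : HV X v p →ₗ[k] HV Y v p :=
  Submodule.mapQ _ _ ((lin f).restrict (p := LinearMap.ker X.d ⊓ X.gr v p)
      (q := LinearMap.ker Y.d ⊓ Y.gr v p) (by
        rintro x ⟨h1, h2⟩
        refine ⟨?_, lin_mem f h2⟩
        have h1' : X.d x = 0 := h1
        change Y.d (lin f x) = 0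
        rw [← lin_d, h1', map_zero]))
    (by
      rintro ⟨x, hx⟩ ⟨y, hy⟩
      refine ⟨lin f y, ?_⟩
      change Y.d (lin f y) = lin f x
      rw [← lin_d]
      exact congrArg (lin f) hy)

private lemma gClsMap_mk {X Y : DGM Γ} (f : X ⟶ Y) {v : Γ.V} {p : ℤ} (x : X.M) (hx : X.d x = 0)
    (hm : x ∈ X.gr v p) : HVmap f v p (gClsMk X x hx hm) =
      gClsMk Y (lin f x) (by rw [← lin_d, hx, map_zero]) (lin_mem f hm) := rfl

/-- Proof: `exists_hom_of_bd`. -/
theorem HVmap_bijective {X Y : DGM Γ} {f : X ⟶ Y} (hf : IsQis f) (v : Γ.V) (p : ℤ) :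
    Function.Bijective (HVmap f v p) := by
  constructor
  · rw [injective_iff_map_eq_zero]
    intro c hc
    obtain ⟨x, hx, hm, rfl⟩ := gCls_surj X c
    rw [gClsMap_mk, gCls_eq_zero] at hc
    rw [gCls_eq_zero]
    exact hf.inj x hx hc
  · intro c
    obtain ⟨y, hy, hm, rfl⟩ := gCls_surj Y c
    obtain ⟨x, y', hx, hxy⟩ := hf.surj y hy
    have h1 : X.d (cmp X v p x) = 0 := by rw [d_cmp X v rfl, hx, map_zero]
    refine ⟨gClsMk X (cmp X v p x) h1 (cmp_mem X v p x), ?_⟩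
    rw [gClsMap_mk, gCls_eq]
    refine ⟨-cmp Y v (p - 1) y', ?_⟩
    have h2 : y = lin f (cmp X v p x) + Y.d (cmp Y v (p - 1) y') := by
      rw [d_cmp Y v (p := p - 1) (q := p) (by omega), ← cmp_lin, ← map_add, ← hxy, cmp_of_mem Y hm]
    rw [map_neg, h2]
    abel

theorem eul_qis {X Y : DGM Γ} {f : X ⟶ Y} (hf : IsQis f) (v : Γ.V) : eul X v = eul Y v := by
  unfold eul
  refine finsum_congr fun p => ?_
  rw [(LinearEquiv.ofBijective (HVmap f v p) (HVmap_bijective hf v p)).finrank_eq]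

/-- The connecting map of the cone. -/
private def gClsBd {X Y : DGM Γ} (f : X ⟶ Y) (v : Γ.V) (p : ℤ) :
    HV (cone f) v p →ₗ[k] HV X v (p + 1) :=
  Submodule.mapQ _ _ ((LinearMap.snd k Y.M X.M).restrict
      (p := LinearMap.ker (cone f).d ⊓ (cone f).gr v p)
      (q := LinearMap.ker X.d ⊓ X.gr v (p + 1)) (by
        rintro ⟨y, x⟩ ⟨h1, h2⟩
        refine ⟨?_, h2.2⟩
        have h3 : (cone f).d (y, x) = 0 := h1
        rw [cone_d] at h3
        have h4 : -X.d x = 0 := congrArg Prod.snd h3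
        exact neg_eq_zero.1 h4))
    (by
      rintro ⟨⟨y, x⟩, hx⟩ ⟨⟨y', x'⟩, hy⟩
      rw [cone_d] at hy
      refine ⟨-x', ?_⟩
      rw [map_neg]
      exact congrArg Prod.snd hy)

private lemma gCls_cocycle {X Y : DGM Γ} {f : X ⟶ Y} {y : Y.M} {x : X.M}
    (h : (cone f).d (y, x) = 0) : X.d x = 0 ∧ Y.d y + lin f x = 0 := by
  rw [cone_d] at h
  exact ⟨neg_eq_zero.1 (congrArg Prod.snd h), congrArg Prod.fst h⟩

private lemma gClsBd_mk {X Y : DGM Γ} (f : X ⟶ Y) {v : Γ.V} {p : ℤ} (y : Y.M) (x : X.M)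
    (h : (cone f).d (y, x) = 0) (hm : (y, x) ∈ (cone f).gr v p) :
    gClsBd f v p (gClsMk (cone f) (y, x) h hm) = gClsMk X x (gCls_cocycle h).1 hm.2 := rfl

private lemma gCls_ker_bd {X Y : DGM Γ} (f : X ⟶ Y) (v : Γ.V) (p : ℤ) :
    LinearMap.ker (gClsBd f v p) = LinearMap.range (HVmap (inr f) v p) := by
  ext c
  constructor
  · intro hc
    obtain ⟨⟨y, x⟩, h, hm, rfl⟩ := gCls_surj (cone f) c
    rw [LinearMap.mem_ker, gClsBd_mk, gCls_eq_zero] at hc
    obtain ⟨z, hz, hzx⟩ := exists_hom_of_bd X (p := p) rfl hm.2 hc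
    obtain ⟨h1, h2⟩ := gCls_cocycle h
    have h3 : Y.d (y + lin f z) = 0 := by
      rw [map_add, ← lin_d, hzx, h2]
    refine ⟨gClsMk Y (y + lin f z) h3 (add_mem hm.1 (lin_mem f hz)), ?_⟩
    rw [gClsMap_mk, gCls_eq]
    refine ⟨(0, z), ?_⟩
    rw [cone_d, hzx, map_zero, zero_add]
    refine Prod.ext ?_ ?_
    · change lin f z = y + lin f z - y
      abel
    · change -x = 0 - x
      abel
  · rintro ⟨b, rfl⟩
    obtain ⟨y, hy, hm, rfl⟩ := gCls_surj Y b
    rw [LinearMap.mem_ker, gClsMap_mk]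
    change gClsBd f v p (gClsMk (cone f) (y, (0 : X.M)) _ _) = 0
    rw [gClsBd_mk, gCls_eq_zero]
    exact ⟨0, map_zero _⟩

private lemma gCls_ker_inr {X Y : DGM Γ} (f : X ⟶ Y) (v : Γ.V) (p : ℤ) :
    LinearMap.ker (HVmap (inr f) v p) = LinearMap.range (HVmap f v p) := by
  ext c
  constructor
  · intro hc
    obtain ⟨y, hy, hm, rfl⟩ := gCls_surj Y c
    rw [LinearMap.mem_ker, gClsMap_mk, gCls_eq_zero] at hc
    obtain ⟨⟨y', x'⟩, hz⟩ := hc
    rw [cone_d, lin_inr_apply] at hz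
    have h1 : Y.d y' + lin f x' = y := congrArg Prod.fst hz
    have h2 : X.d x' = 0 := neg_eq_zero.1 (congrArg Prod.snd hz)
    have h3 : X.d (cmp X v p x') = 0 := by rw [d_cmp X v rfl, h2, map_zero]
    refine ⟨gClsMk X (cmp X v p x') h3 (cmp_mem X v p x'), ?_⟩
    rw [gClsMap_mk, gCls_eq]
    refine ⟨-cmp Y v (p - 1) y', ?_⟩
    have h4 : y = lin f (cmp X v p x') + Y.d (cmp Y v (p - 1) y') := by
      rw [d_cmp Y v (p := p - 1) (q := p) (by omega), ← cmp_lin, ← map_add, add_comm, h1,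
        cmp_of_mem Y hm]
    rw [map_neg, h4]
    abel
  · rintro ⟨b, rfl⟩
    obtain ⟨x, hx, hm, rfl⟩ := gCls_surj X b
    rw [LinearMap.mem_ker, gClsMap_mk, gClsMap_mk, gCls_eq_zero]
    refine ⟨((0 : Y.M), x), ?_⟩
    rw [cone_d, hx, map_zero, zero_add, neg_zero]
    rfl

private lemma gCls_range_bd {X Y : DGM Γ} (f : X ⟶ Y) (v : Γ.V) (p : ℤ) :
    LinearMap.range (gClsBd f v p) = LinearMap.ker (HVmap f v (p + 1)) := by
  ext c
  constructor
  · rintro ⟨b, rfl⟩
    obtain ⟨⟨y, x⟩, h, hm, rfl⟩ := gCls_surj (cone f) b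
    rw [gClsBd_mk, LinearMap.mem_ker, gClsMap_mk, gCls_eq_zero]
    refine ⟨-y, ?_⟩
    rw [map_neg, neg_eq_iff_add_eq_zero]
    exact (gCls_cocycle h).2
  · intro hc
    obtain ⟨x, hx, hm, rfl⟩ := gCls_surj X c
    rw [LinearMap.mem_ker, gClsMap_mk, gCls_eq_zero] at hc
    obtain ⟨z, hz, hzx⟩ := exists_hom_of_bd Y (p := p) rfl (lin_mem f hm) hc
    have h1 : (cone f).d (-z, x) = 0 := by
      rw [cone_d, map_neg, hzx, hx]
      simp
    exact ⟨gClsMk (cone f) (-z, x) h1 ⟨neg_mem hz, hm⟩, rfl⟩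

/-- The dimension of the cohomology of a cone: with `r p` the rank of `HVmap f v p`,
`dim Hᵖ(cone f) = (dim Hᵖ(Y) - r p) + (dim Hᵖ⁺¹(X) - r (p+1))`. Proof: the exact sequence
`HV X v p → HV Y v p → HV (cone f) v p → HV X v (p+1) → HV Y v (p+1)`, `y ↦ (y, 0)`, `(y, x) ↦ x`;
elementary with `cone_d`, `exists_hom_of_bd`. -/
theorem finrank_HV_cone {X Y : DGM Γ} (f : X ⟶ Y) (hX : Module.Finite k (Coh X))
    (hY : Module.Finite k (Coh Y)) (v : Γ.V) (p : ℤ) :
    (Module.finrank k (HV (cone f) v p) : ℤ) =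
      (Module.finrank k (HV Y v p) - Module.finrank k (LinearMap.range (HVmap f v p))) +
      (Module.finrank k (HV X v (p + 1)) -
        Module.finrank k (LinearMap.range (HVmap f v (p + 1)))) := by
  have hY1 := finite_HV Y hY v p
  have hX1 := finite_HV X hX v (p + 1)
  have hN : Module.Finite k (LinearMap.ker (gClsBd f v p)) := by
    rw [gCls_ker_bd]
    infer_instance
  have hQ : Module.Finite k (HV (cone f) v p ⧸ LinearMap.ker (gClsBd f v p)) :=
    Module.Finite.equiv (gClsBd f v p).quotKerEquivRange.symm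
  have hC : Module.Finite k (HV (cone f) v p) := Module.Finite.of_submodule_quotient
    (LinearMap.ker (gClsBd f v p))
  have e1 := LinearMap.finrank_range_add_finrank_ker (gClsBd f v p)
  have e2 := LinearMap.finrank_range_add_finrank_ker (HVmap (inr f) v p)
  have e3 := LinearMap.finrank_range_add_finrank_ker (HVmap f v (p + 1))
  rw [gCls_ker_bd, gCls_range_bd] at e1
  rw [gCls_ker_inr] at e2
  omega

theorem eul_cone {X Y : DGM Γ} (f : X ⟶ Y) (hX : Module.Finite k (Coh X))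
    (hY : Module.Finite k (Coh Y)) (v : Γ.V) : eul (cone f) v = eul Y v - eul X v := by
  set y : ℤ → ℤ := fun p => ((p.negOnePow : ℤˣ) : ℤ) * (Module.finrank k (HV Y v p) : ℤ) with hy
  set x : ℤ → ℤ := fun p => ((p.negOnePow : ℤˣ) : ℤ) * (Module.finrank k (HV X v p) : ℤ) with hx
  set r : ℤ → ℤ := fun p => ((p.negOnePow : ℤˣ) : ℤ) *
    (Module.finrank k (LinearMap.range (HVmap f v p)) : ℤ) with hr
  have hys : (Function.support y).Finite := by
    refine (finite_supp Y hY v).subset fun p hp h0 => hp ?_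
    simp only [hy, h0, Nat.cast_zero, mul_zero]
  have hxs : (Function.support x).Finite := by
    refine (finite_supp X hX v).subset fun p hp h0 => hp ?_
    simp only [hx, h0, Nat.cast_zero, mul_zero]
  have hrs : (Function.support r).Finite := by
    refine (finite_supp Y hY v).subset fun p hp h0 => hp ?_
    have hY1 := finite_HV Y hY v p
    have h1 := Submodule.finrank_le (LinearMap.range (HVmap f v p))
    have h2 : Module.finrank k (LinearMap.range (HVmap f v p)) = 0 := by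
      have h3 : Module.finrank k (HV Y v p) = 0 := h0
      omega
    simp only [hr, h2, Nat.cast_zero, mul_zero]
  have hxs' : (Function.support fun p => x (p + 1)).Finite :=
    (hxs.preimage (f := fun p : ℤ => p + 1) (by
      intro a _ b _ h
      simpa using h)).subset fun p hp => hp
  have hrs' : (Function.support fun p => r (p + 1)).Finite :=
    (hrs.preimage (f := fun p : ℤ => p + 1) (by
      intro a _ b _ h
      simpa using h)).subset fun p hp => hp
  have ex : ∑ᶠ p, x (p + 1) = ∑ᶠ p, x p := finsum_comp_equiv (Equiv.addRight (1 : ℤ))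
  have er : ∑ᶠ p, r (p + 1) = ∑ᶠ p, r p := finsum_comp_equiv (Equiv.addRight (1 : ℤ))
  have e1 : eul (cone f) v = ∑ᶠ p, ((y p - r p) - (x (p + 1) - r (p + 1))) := by
    unfold eul
    refine finsum_congr fun p => ?_
    rw [finrank_HV_cone f hX hY v p]
    have hs : (((p + 1).negOnePow : ℤˣ) : ℤ) = -((p.negOnePow : ℤˣ) : ℤ) := by
      rw [Int.negOnePow_succ]
      simp
    simp only [hy, hx, hr, hs]
    ring
  rw [e1, finsum_sub_distrib, finsum_sub_distrib hys hrs, finsum_sub_distrib hxs' hrs', ex, er]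
  · change _ = ∑ᶠ p, y p - ∑ᶠ p, x p
    ring
  · exact (hys.union hrs).subset (Function.support_sub _ _)
  · exact (hxs'.union hrs').subset (Function.support_sub _ _)

private lemma gCls_Sm_zero (hΓ : Γ.Nice) {i v : Γ.V} {p : ℤ} (h : (v, p) ≠ (i, 0)) :
    Module.finrank k (HV (Sm hΓ i) v p) = 0 := by
  refine gCls_finrank_zero fun x _ hm => ⟨0, ?_⟩
  have h1 : x = 0 := by
    by_contra hx
    obtain ⟨rfl, rfl⟩ := (mem_simpleGr.1 hm) hx
    exact h rfl
  rw [map_zero, h1]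

theorem eul_Sm_self (hΓ : Γ.Nice) (i : Γ.V) : eul (Sm hΓ i) i = 1 := by
  unfold eul
  rw [finsum_eq_single _ (0 : ℤ)]
  · have h1 : Module.finrank k (HV (Sm hΓ i) i 0) = 1 := by
      have hm : ∀ x : k, x ∈ (Sm hΓ i).gr i 0 := fun x => mem_simpleGr.2 fun _ => ⟨rfl, rfl⟩
      let e : k →ₗ[k] HV (Sm hΓ i) i 0 :=
        (Submodule.mkQ _) ∘ₗ (LinearMap.codRestrict (LinearMap.ker (Sm hΓ i).d ⊓ (Sm hΓ i).gr i 0)
          (LinearMap.id : k →ₗ[k] k) fun x => ⟨rfl, hm x⟩)
      have he : Function.Bijective e := by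
        constructor
        · rw [injective_iff_map_eq_zero]
          intro x hx
          obtain ⟨z, hz⟩ := (gCls_eq_zero (Sm hΓ i) (v := i) (p := 0) x rfl (hm x)).1 hx
          exact hz.symm
        · intro c
          obtain ⟨x, hx, hm', rfl⟩ := gCls_surj (Sm hΓ i) c
          exact ⟨x, rfl⟩
      rw [← (LinearEquiv.ofBijective e he).finrank_eq, Module.finrank_self]
    rw [h1]
    simp
  · intro p hp
    rw [gCls_Sm_zero hΓ (fun e => hp (congrArg Prod.snd e))]
    simp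

theorem eul_Sm_of_ne (hΓ : Γ.Nice) {i v : Γ.V} (h : v ≠ i) : eul (Sm hΓ i) v = 0 := by
  unfold eul
  refine finsum_eq_zero_of_forall_eq_zero fun p => ?_
  rw [gCls_Sm_zero hΓ (fun e => h (congrArg Prod.fst e))]
  simp

theorem eul_of_acyclic {X : DGM Γ} (hX : Acyclic X) (v : Γ.V) : eul X v = 0 := by
  unfold eul
  refine finsum_eq_zero_of_forall_eq_zero fun p => ?_
  rw [gCls_finrank_zero fun x hx _ => hX x hx]
  simp

end DGM

end GZ
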