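import Pool.Agent.Lib_MP_a23b08_g.GHot

/-!
# dg modules: mapping cones (MP_a23b08_al, part G)

The cone of `f : X ⟶ Y` is `Y × X⟦1⟧` with differential `(y, x) ↦ (d y + f x, - d x)`.
-/

open CategoryTheory CategoryTheory.Limits

namespace GZ

variable {k : Type} [Field k] {Γ : QF k}

lemma evW_prodMap {A M N : Type} [AddCommGroup M] [Module k M] [AddCommGroup N] [Module k N]
    (u : A → M →ₗ[k] M) (v : A → N →ₗ[k] N) (w : List A) (x : M × N) :
    evW (fun a => (u a).prodMap (v a)) w x = (evW u w x.1, evW v w x.2) := by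
  induction w with
  | nil => rfl
  | cons a w ih => simp only [evW_cons, ih, LinearMap.prodMap_apply]

lemma evP_prodMap {A M N : Type} [AddCommGroup M] [Module k M] [AddCommGroup N] [Module k N]
    (u : A → M →ₗ[k] M) (v : A → N →ₗ[k] N) (p : List (k × List A)) (x : M × N) :
    evP (fun a => (u a).prodMap (v a)) p x = (evP u p x.1, evP v p x.2) := by
  induction p with
  | nil => rfl
  | cons t p ih =>
    simp only [evP_cons, ih, evW_prodMap]
    rfl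

lemma iSupIndep_prod {ι M N : Type} [AddCommGroup M] [Module k M] [AddCommGroup N] [Module k N]
    {A : ι → Submodule k M} {B : ι → Submodule k N} (hA : iSupIndep A) (hB : iSupIndep B) :
    iSupIndep (fun i => (A i).prod (B i)) := by
  intro i
  have hle : (⨆ (j : ι) (_ : j ≠ i), (A j).prod (B j)) ≤
      (⨆ (j : ι) (_ : j ≠ i), A j).prod (⨆ (j : ι) (_ : j ≠ i), B j) := by
    refine iSup₂_le fun j hj => Submodule.prod_mono ?_ ?_
    · exact le_iSup₂ (f := fun (j : ι) (_ : j ≠ i) => A j) j hj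
    · exact le_iSup₂ (f := fun (j : ι) (_ : j ≠ i) => B j) j hj
  refine Disjoint.mono_right hle ?_
  rw [Submodule.disjoint_def]
  rintro ⟨x, y⟩ ⟨h1, h2⟩ ⟨h3, h4⟩
  have e1 := (Submodule.disjoint_def.1 (hA i)) x h1 h3
  have e2 := (Submodule.disjoint_def.1 (hB i)) y h2 h4
  rw [e1, e2]
  rfl

lemma iSup_prod_eq_top {ι M N : Type} [AddCommGroup M] [Module k M] [AddCommGroup N] [Module k N]
    {A : ι → Submodule k M} {B : ι → Submodule k N} (hA : ⨆ i, A i = ⊤) (hB : ⨆ i, B i = ⊤) :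
    (⨆ i, (A i).prod (B i)) = ⊤ := by
  rw [eq_top_iff]
  rintro ⟨x, y⟩ -
  have h1 : (x, (0 : N)) ∈ ⨆ i, (A i).prod (B i) := by
    have hx : x ∈ ⨆ i, A i := by rw [hA]; trivial
    have : (Submodule.map (LinearMap.inl k M N) (⨆ i, A i)) ≤ ⨆ i, (A i).prod (B i) := by
      rw [Submodule.map_iSup]
      refine iSup_mono fun i => ?_
      rintro _ ⟨z, hz, rfl⟩
      exact ⟨hz, zero_mem _⟩
    exact this ⟨x, hx, rfl⟩
  have h2 : ((0 : M), y) ∈ ⨆ i, (A i).prod (B i) := by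
    have hy : y ∈ ⨆ i, B i := by rw [hB]; trivial
    have : (Submodule.map (LinearMap.inr k M N) (⨆ i, B i)) ≤ ⨆ i, (A i).prod (B i) := by
      rw [Submodule.map_iSup]
      refine iSup_mono fun i => ?_
      rintro _ ⟨z, hz, rfl⟩
      exact ⟨zero_mem _, hz⟩
    exact this ⟨y, hy, rfl⟩
  have := add_mem h1 h2
  simpa using this

namespace DGM

variable {X Y Z : DGM Γ}

/-- The mapping cone of a morphism of dg modules. -/
@[reducible] def cone (f : X ⟶ Y) : DGM Γ where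
  M := Y.M × X.M
  gr v p := (Y.gr v p).prod ((X.sh 1).gr v p)
  indep := iSupIndep_prod Y.indep (X.sh 1).indep
  iSup_eq_top := iSup_prod_eq_top Y.iSup_eq_top (X.sh 1).iSup_eq_top
  d := (Y.d ∘ₗ LinearMap.fst k Y.M X.M + lin f ∘ₗ LinearMap.snd k Y.M X.M).prod
    ((X.sh 1).d ∘ₗ LinearMap.snd k Y.M X.M)
  act a := (Y.act a).prodMap ((X.sh 1).act a)
  d_mem := by
    rintro v p q ⟨y, x⟩ h ⟨hy, hx⟩
    refine ⟨add_mem (Y.d_mem h hy) (lin_mem f ?_), (X.sh 1).d_mem h hx⟩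
    subst h
    exact hx
  d_d := by
    rintro ⟨y, x⟩
    have := (X.sh 1).d_d x
    ext
    · simp [Y.d_d, lin_d]
    · exact this
  act_mem := by
    rintro a p q ⟨y, x⟩ h ⟨hy, hx⟩
    exact ⟨Y.act_mem a h hy, (X.sh 1).act_mem a h hx⟩
  act_zero := by
    rintro a v p ⟨y, x⟩ h ⟨hy, hx⟩
    exact Prod.ext (Y.act_zero a h hy) ((X.sh 1).act_zero a h hx)
  leibniz := by
    rintro a ⟨y, x⟩
    rw [evP_prodMap]
    have h1 := Y.leibniz a y
    have h2 := (X.sh 1).leibniz a x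
    ext
    · simp [h1, lin_act, add_assoc]
    · exact h2

lemma cone_d (f : X ⟶ Y) (y : Y.M) (x : X.M) :
    (cone f).d (y, x) = (Y.d y + lin f x, -X.d x) := by
  ext
  · rfl
  · change (sg k 1 • X.d) x = _
    simp

lemma cone_act (f : X ⟶ Y) (a : Γ.A) (y : Y.M) (x : X.M) :
    (cone f).act a (y, x) = (Y.act a y, sg k (Γ.deg a) • X.act a x) := by
  ext
  · rfl
  · change (sg k (1 * Γ.deg a) • X.act a) x = _
    simp

lemma mem_cone_gr (f : X ⟶ Y) (v : Γ.V) (p : ℤ) (y : Y.M) (x : X.M) :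
    (y, x) ∈ (cone f).gr v p ↔ y ∈ Y.gr v p ∧ x ∈ X.gr v (p + 1) := Iff.rfl

/-- The inclusion of `Y` in the cone. -/
def inr (f : X ⟶ Y) : Y ⟶ cone f :=
  homMk (LinearMap.inl k Y.M X.M) (fun v p y hy => ⟨hy, zero_mem _⟩)
    (fun a y => by
      change (_, _) = _
      erw [cone_act]
      simp)
    (fun y => by
      change (_, _) = _
      erw [cone_d]
      simp)

@[simp] lemma lin_inr_apply (f : X ⟶ Y) (y : Y.M) : lin (inr f) y = (y, 0) := rfl

/-- The projection of the cone to `X⟦1⟧`. -/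
def pr (f : X ⟶ Y) : cone f ⟶ X⟦(1 : ℤ)⟧ :=
  homMk (X := cone f) (Y := X.sh 1) (LinearMap.snd k Y.M X.M) (fun _ _ _ hy => hy.2)
    (fun _ _ => rfl) (fun _ => rfl)

@[simp] lemma lin_pr_apply (f : X ⟶ Y) (z : (cone f).M) : lin (pr f) z = z.2 := rfl

/-- Morphisms from a cone: `(y, x) ↦ b y + z x` where `b (f x) = d (z x) + z (d x)`. -/
def descCone (f : X ⟶ Y) (b : Y ⟶ Z) (z : X.M →ₗ[k] Z.M) (hz : z ∈ Lin X Z (-1))
    (h : ∀ x, lin b (lin f x) = Z.d (z x) + z (X.d x)) : cone f ⟶ Z :=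
  homMk (X := cone f) (Y := Z) (lin b ∘ₗ LinearMap.fst k Y.M X.M + z ∘ₗ LinearMap.snd k Y.M X.M)
    (by
      rintro v p ⟨y, x⟩ ⟨hy, hx⟩
      exact add_mem (lin_mem b hy) (lin_neg_one_mem hz rfl hx))
    (by
      rintro a ⟨y, x⟩
      rw [cone_act]
      change lin b (Y.act a y) + z (sg k (Γ.deg a) • X.act a x) = Z.act a (lin b y + z x)
      rw [lin_act, map_smul, lin_neg_one_act hz, sg_mul_self_smul, map_add])
    (by
      rintro ⟨y, x⟩
      rw [cone_d]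
      change lin b (Y.d y + lin f x) + z (-X.d x) = Z.d (lin b y + z x)
      rw [map_add, map_add, map_neg, h, lin_d]
      abel)

@[simp] lemma lin_descCone_apply (f : X ⟶ Y) (b : Y ⟶ Z) (z : X.M →ₗ[k] Z.M)
    (hz : z ∈ Lin X Z (-1)) (h) (y : Y.M) (x : X.M) :
    lin (descCone f b z hz h) (y, x) = lin b y + z x := rfl

/-- The morphism of cones induced by a square which commutes up to homotopy. -/
def coneMap {X₁ Y₁ X₂ Y₂ : DGM Γ} (f₁ : X₁ ⟶ Y₁) (f₂ : X₂ ⟶ Y₂) (a : X₁ ⟶ X₂) (b : Y₁ ⟶ Y₂)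
    (z : X₁.M →ₗ[k] Y₂.M) (hz : z ∈ Lin X₁ Y₂ (-1))
    (h : ∀ x, lin (f₁ ≫ b) x = Y₂.d (z x) + z (X₁.d x) + lin (a ≫ f₂) x) : cone f₁ ⟶ cone f₂ :=
  homMk (X := cone f₁) (Y := cone f₂)
    ((lin b ∘ₗ LinearMap.fst k Y₁.M X₁.M + z ∘ₗ LinearMap.snd k Y₁.M X₁.M).prod
      (lin a ∘ₗ LinearMap.snd k Y₁.M X₁.M))
    (by
      rintro v p ⟨y, x⟩ ⟨hy, hx⟩
      exact ⟨add_mem (lin_mem b hy) (lin_neg_one_mem hz rfl hx), lin_mem a hx⟩)
    (by
      rintro c ⟨y, x⟩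
      rw [cone_act]
      change (lin b (Y₁.act c y) + z (sg k (Γ.deg c) • X₁.act c x),
        lin a (sg k (Γ.deg c) • X₁.act c x)) = (cone f₂).act c (lin b y + z x, lin a x)
      rw [cone_act, lin_act, map_smul, lin_neg_one_act hz, sg_mul_self_smul, map_add, map_smul,
        lin_act])
    (by
      rintro ⟨y, x⟩
      rw [cone_d]
      change (lin b (Y₁.d y + lin f₁ x) + z (-X₁.d x), lin a (-X₁.d x)) =
        (cone f₂).d (lin b y + z x, lin a x)
      have := h x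
      rw [lin_comp_apply, lin_comp_apply] at this
      rw [cone_d, map_add, map_add, map_neg, map_neg, this, lin_d, lin_d]
      refine Prod.ext ?_ rfl
      change Y₂.d (lin b y) + (Y₂.d (z x) + z (X₁.d x) + lin f₂ (lin a x)) + -z (X₁.d x) =
        Y₂.d (lin b y) + Y₂.d (z x) + lin f₂ (lin a x)
      abel)

@[simp] lemma lin_coneMap_apply {X₁ Y₁ X₂ Y₂ : DGM Γ} (f₁ : X₁ ⟶ Y₁) (f₂ : X₂ ⟶ Y₂)
    (a : X₁ ⟶ X₂) (b : Y₁ ⟶ Y₂) (z : X₁.M →ₗ[k] Y₂.M) (hz : z ∈ Lin X₁ Y₂ (-1)) (h)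
    (y : Y₁.M) (x : X₁.M) :
    lin (coneMap f₁ f₂ a b z hz h) (y, x) = (lin b y + z x, lin a x) := rfl

open Pretriangulated

/-- The standard triangle of a morphism. -/
@[simps! obj₁ obj₂ obj₃ mor₁ mor₂ mor₃]
def tri (f : X ⟶ Y) : Triangle (DGM Γ) := Triangle.mk f (inr f) (pr f)

/-- The standard triangle in the homotopy category. -/
noncomputable abbrev trih (f : X ⟶ Y) : Triangle (Hot Γ) := (quot Γ).mapTriangle.obj (tri f)

end DGM

end GZ
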