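import Pool.Agent.Lib_MP_a23b08_g.GPhi1
import Pool.Agent.Lib_MP_a23b08_g.GPhi2

/-!
PIECE F4. The cylinder that makes a derivation inner (effacing).
-/

open CategoryTheory

set_option linter.unusedSimpArgs false

namespace GZ

namespace DGM

variable {k : Type} [Field k] {Γ : QF k}

/-- Quasi-isomorphisms, elementwise. -/
structure IsQis {X Y : DGM Γ} (f : X ⟶ Y) : Prop where
  inj : ∀ x, X.d x = 0 → (∃ y, Y.d y = lin f x) → ∃ x', X.d x' = x
  surj : ∀ y, Y.d y = 0 → ∃ x y', X.d x = 0 ∧ y = lin f x + Y.d y'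

section GCyl_aux

private lemma GCyl_indep {ι M N : Type} [AddCommGroup M] [Module k M] [AddCommGroup N]
    [Module k N] {A : ι → Submodule k M} {B : ι → Submodule k N} (hA : iSupIndep A)
    (hB : iSupIndep B) : iSupIndep (fun i => (A i).prod (B i)) := by
  intro i
  have hle : (⨆ (j : ι) (_ : j ≠ i), (A j).prod (B j)) ≤
      (⨆ (j : ι) (_ : j ≠ i), A j).prod (⨆ (j : ι) (_ : j ≠ i), B j) := by
    refine iSup₂_le fun j hj => Submodule.prod_mono ?_ ?_
    · exact le_iSup₂ (f := fun (j : ι) (_ : j ≠ i) => A j) j hj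
    · exact le_iSup₂ (f := fun (j : ι) (_ : j ≠ i) => B j) j hj
  refine Disjoint.mono_right hle ?_
  rw [Submodule.disjoint_def]
  rintro ⟨x, y⟩ ⟨h1, h2⟩ ⟨h3, h4⟩
  have e1 := (Submodule.disjoint_def.1 (hA i)) x h1 h3
  have e2 := (Submodule.disjoint_def.1 (hB i)) y h2 h4
  rw [e1, e2]
  rfl

private lemma GCyl_top {ι M N : Type} [AddCommGroup M] [Module k M] [AddCommGroup N]
    [Module k N] {A : ι → Submodule k M} {B : ι → Submodule k N} (hA : ⨆ i, A i = ⊤)
    (hB : ⨆ i, B i = ⊤) : (⨆ i, (A i).prod (B i)) = ⊤ := by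
  rw [eq_top_iff]
  rintro ⟨x, y⟩ -
  have h1 : (x, (0 : N)) ∈ ⨆ i, (A i).prod (B i) := by
    have hx : x ∈ ⨆ i, A i := by rw [hA]; trivial
    have : (Submodule.map (LinearMap.inl k M N) (⨆ i, A i)) ≤ ⨆ i, (A i).prod (B i) := by
      rw [Submodule.map_iSup]
      refine iSup_mono fun i => ?_
      rintro _ ⟨z, hz, rfl⟩
      exact ⟨hz, zero_mem _⟩
    exact this ⟨x, hx, rfl⟩
  have h2 : ((0 : M), y) ∈ ⨆ i, (A i).prod (B i) := by
    have hy : y ∈ ⨆ i, B i := by rw [hB]; trivial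
    have : (Submodule.map (LinearMap.inr k M N) (⨆ i, B i)) ≤ ⨆ i, (A i).prod (B i) := by
      rw [Submodule.map_iSup]
      refine iSup_mono fun i => ?_
      rintro _ ⟨z, hz, rfl⟩
      exact ⟨zero_mem _, hz⟩
    exact this ⟨y, hy, rfl⟩
  have := add_mem h1 h2
  simpa using this

private lemma GCyl_shift_indep (X : DGM Γ) (n : ℤ) :
    iSupIndep (fun p : Γ.V × ℤ => X.gr p.1 (p.2 + n)) :=
  X.indep.comp (f := fun p : Γ.V × ℤ => (p.1, p.2 + n)) (by
    rintro ⟨v, p⟩ ⟨w, q⟩ h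
    simp only [Prod.mk.injEq, add_left_inj] at h
    ext <;> simp [h.1, h.2])

private lemma GCyl_shift_top (X : DGM Γ) (n : ℤ) :
    (⨆ p : Γ.V × ℤ, X.gr p.1 (p.2 + n)) = ⊤ := by
  rw [← X.iSup_eq_top]
  exact Equiv.iSup_comp (g := fun p : Γ.V × ℤ => X.gr p.1 p.2)
    (Equiv.prodCongr (Equiv.refl Γ.V) (Equiv.addRight n))

variable {X Y : DGM Γ}

/-- the action on the left cylinder -/
private def GCyl_actL (m : ℤ) (D : Γ.A → (X.M →ₗ[k] Y.M)) (a : Γ.A) :
    (Y.M × X.M × X.M) →ₗ[k] (Y.M × X.M × X.M) where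
  toFun z := (Y.act a z.1 - sg k (m * Γ.deg a) • D a z.2.1 -
    sg k ((m + 1) * Γ.deg a) • bd m D a z.2.2, sg k (m * Γ.deg a) • X.act a z.2.1,
    sg k ((m + 1) * Γ.deg a) • X.act a z.2.2)
  map_add' z z' := by
    refine Prod.ext ?_ (Prod.ext ?_ ?_)
    · simp only [Prod.fst_add, Prod.snd_add, map_add, smul_add]; abel
    · simp only [Prod.fst_add, Prod.snd_add, map_add, smul_add]
    · simp only [Prod.snd_add, map_add, smul_add]
  map_smul' c z := by
    refine Prod.ext ?_ (Prod.ext ?_ ?_)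
    · simp only [Prod.smul_fst, Prod.smul_snd, map_smul, RingHom.id_apply, smul_sub]
      rw [smul_comm c, smul_comm c]
    · simp only [Prod.smul_fst, Prod.smul_snd, map_smul, RingHom.id_apply]
      rw [smul_comm c]
    · simp only [Prod.smul_snd, map_smul, RingHom.id_apply]
      rw [smul_comm c]

private lemma GCyl_actL_apply (m : ℤ) (D : Γ.A → (X.M →ₗ[k] Y.M)) (a : Γ.A)
    (z : Y.M × X.M × X.M) : GCyl_actL m D a z =
    (Y.act a z.1 - sg k (m * Γ.deg a) • D a z.2.1 -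
    sg k ((m + 1) * Γ.deg a) • bd m D a z.2.2, sg k (m * Γ.deg a) • X.act a z.2.1,
    sg k ((m + 1) * Γ.deg a) • X.act a z.2.2) := rfl

private lemma GCyl_evW_L (m : ℤ) (D : Γ.A → (X.M →ₗ[k] Y.M)) (w : List Γ.A)
    (z : Y.M × X.M × X.M) : evW (GCyl_actL m D) w z =
    (evW Y.act w z.1 - sg k (m * degW Γ.deg w) • derW m D w z.2.1 -
    sg k ((m + 1) * degW Γ.deg w) • derW (m + 1) (bd m D) w z.2.2,
    sg k (m * degW Γ.deg w) • evW X.act w z.2.1,
    sg k ((m + 1) * degW Γ.deg w) • evW X.act w z.2.2) := by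
  induction w with
  | nil => simp
  | cons a w ih =>
    rw [evW_cons, ih, GCyl_actL_apply]
    simp only [evW_cons, derW_cons, degW_cons, mul_add, sg_add, map_sub, map_smul, smul_add,
      smul_smul]
    refine Prod.ext ?_ (Prod.ext ?_ ?_)
    · have e1 : sg k (m * Γ.deg a) * sg k (m * degW Γ.deg w) * sg k (m * Γ.deg a) =
          sg k (m * degW Γ.deg w) := by
        rw [mul_right_comm, sg_mul_self, one_mul]
      have e2 : sg k ((m + 1) * Γ.deg a) * sg k ((m + 1) * degW Γ.deg w) *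
          sg k ((m + 1) * Γ.deg a) = sg k ((m + 1) * degW Γ.deg w) := by
        rw [mul_right_comm, sg_mul_self, one_mul]
      simp only [e1, e2]
      abel
    · rfl
    · rfl

private lemma GCyl_evP_L (m n : ℤ) (D : Γ.A → (X.M →ₗ[k] Y.M)) (p : List (k × List Γ.A))
    (hp : ∀ t ∈ p, degW Γ.deg t.2 = n) (z : Y.M × X.M × X.M) : evP (GCyl_actL m D) p z =
    (evP Y.act p z.1 - sg k (m * n) • derP m D p z.2.1 -
    sg k ((m + 1) * n) • derP (m + 1) (bd m D) p z.2.2,
    sg k (m * n) • evP X.act p z.2.1,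
    sg k ((m + 1) * n) • evP X.act p z.2.2) := by
  induction p with
  | nil =>
    simp only [evP_nil, derP_nil, LinearMap.zero_apply, smul_zero, sub_zero]
    rfl
  | cons t p ih =>
    have h1 : degW Γ.deg t.2 = n := hp t (by simp)
    have h2 := ih (fun t' ht' => hp t' (List.mem_cons_of_mem _ ht'))
    rw [evP_cons, h2, GCyl_evW_L, h1]
    simp only [evP_cons, derP_cons_apply, smul_add]
    refine Prod.ext ?_ (Prod.ext ?_ ?_)
    · simp only [Prod.fst_add, Prod.smul_fst, smul_sub]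
      rw [smul_comm t.1, smul_comm t.1]
      abel
    · simp only [Prod.fst_add, Prod.snd_add, Prod.smul_fst, Prod.smul_snd]
      rw [smul_comm t.1]
    · simp only [Prod.snd_add, Prod.smul_snd]
      rw [smul_comm t.1]

/-- the differential on the left cylinder -/
private def GCyl_dL (X Y : DGM Γ) (m : ℤ) :
    (Y.M × X.M × X.M) →ₗ[k] (Y.M × X.M × X.M) where
  toFun z := (Y.d z.1, sg k m • X.d z.2.1, z.2.1 - sg k m • X.d z.2.2)
  map_add' z z' := by
    refine Prod.ext ?_ (Prod.ext ?_ ?_)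
    · simp only [Prod.fst_add, map_add]
    · simp only [Prod.fst_add, Prod.snd_add, map_add, smul_add]
    · simp only [Prod.fst_add, Prod.snd_add, map_add, smul_add]; abel
  map_smul' c z := by
    refine Prod.ext ?_ (Prod.ext ?_ ?_)
    · simp only [Prod.smul_fst, map_smul, RingHom.id_apply]
    · simp only [Prod.smul_fst, Prod.smul_snd, map_smul, RingHom.id_apply]
      rw [smul_comm c]
    · simp only [Prod.smul_fst, Prod.smul_snd, map_smul, RingHom.id_apply, smul_sub]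
      rw [smul_comm c]

private lemma GCyl_dL_apply (X Y : DGM Γ) (m : ℤ) (z : Y.M × X.M × X.M) :
    GCyl_dL X Y m z = (Y.d z.1, sg k m • X.d z.2.1, z.2.1 - sg k m • X.d z.2.2) := rfl

/-- the left cylinder -/
private def GCyl_L (hΓ : Γ.Nice) (X Y : DGM Γ) (m : ℤ) (D : Γ.A → (X.M →ₗ[k] Y.M))
    (hD : ∀ a, D a ∈ HomA a X Y (m + Γ.deg a)) : DGM Γ where
  M := Y.M × X.M × X.M
  gr v p := (Y.gr v p).prod ((X.gr v (p + (-m))).prod (X.gr v (p + (-m - 1))))
  indep := GCyl_indep Y.indep (GCyl_indep (GCyl_shift_indep X (-m)) (GCyl_shift_indep X (-m - 1)))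
  iSup_eq_top := GCyl_top Y.iSup_eq_top
    (GCyl_top (GCyl_shift_top X (-m)) (GCyl_shift_top X (-m - 1)))
  d := GCyl_dL X Y m
  act := GCyl_actL m D
  d_mem := by
    rintro v p q ⟨y, x₁, x₂⟩ h ⟨hy, h1, h2⟩
    refine ⟨Y.d_mem h hy, Submodule.smul_mem _ _ (X.d_mem (by omega) h1),
      sub_mem ?_ (Submodule.smul_mem _ _ (X.d_mem (by omega) h2))⟩
    have e : q + (-m - 1) = p + -m := by omega
    change x₁ ∈ X.gr v (q + (-m - 1))
    rw [e]
    exact h1
  d_d := by
    rintro ⟨y, x₁, x₂⟩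
    rw [GCyl_dL_apply, GCyl_dL_apply]
    refine Prod.ext ?_ (Prod.ext ?_ ?_)
    · exact Y.d_d y
    · simp only [map_smul, X.d_d, smul_zero]
      rfl
    · simp only [map_sub, map_smul, X.d_d, smul_zero, sub_zero, sub_self]
      rfl
  act_mem := by
    rintro a p q ⟨y, x₁, x₂⟩ h ⟨hy, h1, h2⟩
    refine ⟨sub_mem (sub_mem (Y.act_mem a h hy) (Submodule.smul_mem _ _ ?_))
      (Submodule.smul_mem _ _ ?_), Submodule.smul_mem _ _ (X.act_mem a (by omega) h1),
      Submodule.smul_mem _ _ (X.act_mem a (by omega) h2)⟩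
    · exact (hD a).1 _ _ _ (by omega) h1
    · exact (bd_mem hD a).1 _ _ _ (by omega) h2
  act_zero := by
    rintro a v p ⟨y, x₁, x₂⟩ h ⟨hy, h1, h2⟩
    have e1 := Y.act_zero a h hy
    have e2 := X.act_zero a h h1
    have e3 := X.act_zero a h h2
    have e4 := (hD a).2 _ _ _ h h1
    have e5 := (bd_mem hD a).2 _ _ _ h h2
    change GCyl_actL m D a (y, x₁, x₂) = 0
    rw [GCyl_actL_apply]
    simp only at e1 e2 e3 e4 e5
    simp only [e1, e2, e3, e4, e5, smul_zero, sub_zero]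
    rfl
  leibniz := by
    rintro a ⟨y, x₁, x₂⟩
    rw [GCyl_evP_L m (Γ.deg a + 1) D _ (Γ.diff_deg a), GCyl_actL_apply, GCyl_dL_apply,
      GCyl_dL_apply, GCyl_actL_apply]
    have hbd : bd (m + 1) (bd m D) a x₂ = 0 := by
      rw [bd_bd hΓ]; rfl
    rw [bd_apply] at hbd
    have hE : bd m D a x₁ = Y.d (D a x₁) - sg k (m + Γ.deg a) • D a (X.d x₁) -
      sg k m • derP m D (Γ.diff a) x₁ := rfl
    simp only [map_sub, map_smul, Y.leibniz, X.leibniz, mul_add, mul_one, add_mul, one_mul,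
      sg_add, sg_one] at hbd hE ⊢
    have e := sub_eq_zero.1 hbd
    have e' := sub_eq_iff_eq_add.1 e
    refine Prod.ext ?_ (Prod.ext ?_ ?_)
    · simp only [Prod.fst_add, Prod.smul_fst, hE, e']
      rcases sg_eq_one_or (k := k) m with hs | hs <;>
      rcases sg_eq_one_or (k := k) (Γ.deg a) with ht | ht <;>
      rcases sg_eq_one_or (k := k) (m * Γ.deg a) with hu | hu <;>
      simp only [hs, ht, hu, one_smul, neg_smul, smul_neg, smul_sub, smul_add, mul_one, one_mul,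
        mul_neg, neg_mul, neg_neg, neg_sub] <;> abel
    · simp only [Prod.fst_add, Prod.snd_add, Prod.smul_fst, Prod.smul_snd, smul_add, smul_smul]
      rcases sg_eq_one_or (k := k) m with hs | hs <;>
      rcases sg_eq_one_or (k := k) (Γ.deg a) with ht | ht <;>
      rcases sg_eq_one_or (k := k) (m * Γ.deg a) with hu | hu <;>
      simp only [hs, ht, hu, one_smul, neg_smul, smul_neg, smul_sub, smul_add, mul_one, one_mul,
        mul_neg, neg_mul, neg_neg, neg_sub]
    · simp only [Prod.snd_add, Prod.smul_snd, smul_add, smul_smul]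
      rcases sg_eq_one_or (k := k) m with hs | hs <;>
      rcases sg_eq_one_or (k := k) (Γ.deg a) with ht | ht <;>
      rcases sg_eq_one_or (k := k) (m * Γ.deg a) with hu | hu <;>
      simp only [hs, ht, hu, one_smul, neg_smul, smul_neg, smul_sub, smul_add, mul_one, one_mul,
        mul_neg, neg_mul, neg_neg, neg_sub] <;> abel

/-- the action on the right cylinder -/
private def GCyl_actR (m : ℤ) (D : Γ.A → (X.M →ₗ[k] Y.M)) (a : Γ.A) :
    (Y.M × Y.M × X.M) →ₗ[k] (Y.M × Y.M × X.M) where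
  toFun z := (sg k (m * Γ.deg a) • Y.act a z.1 + D a z.2.2,
    sg k ((m + 1) * Γ.deg a) • Y.act a z.2.1 - sg k m • bd m D a z.2.2, X.act a z.2.2)
  map_add' z z' := by
    refine Prod.ext ?_ (Prod.ext ?_ ?_)
    · simp only [Prod.fst_add, Prod.snd_add, map_add, smul_add]; abel
    · simp only [Prod.fst_add, Prod.snd_add, map_add, smul_add]; abel
    · simp only [Prod.snd_add, map_add]
  map_smul' c z := by
    refine Prod.ext ?_ (Prod.ext ?_ ?_)
    · simp only [Prod.smul_fst, Prod.smul_snd, map_smul, RingHom.id_apply, smul_add]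
      rw [smul_comm c]
    · simp only [Prod.smul_fst, Prod.smul_snd, map_smul, RingHom.id_apply, smul_sub]
      rw [smul_comm c, smul_comm c]
    · simp only [Prod.smul_snd, map_smul, RingHom.id_apply]

private lemma GCyl_actR_apply (m : ℤ) (D : Γ.A → (X.M →ₗ[k] Y.M)) (a : Γ.A)
    (z : Y.M × Y.M × X.M) : GCyl_actR m D a z =
    (sg k (m * Γ.deg a) • Y.act a z.1 + D a z.2.2,
    sg k ((m + 1) * Γ.deg a) • Y.act a z.2.1 - sg k m • bd m D a z.2.2, X.act a z.2.2) := rfl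

private lemma GCyl_evW_R (m : ℤ) (D : Γ.A → (X.M →ₗ[k] Y.M)) (w : List Γ.A)
    (z : Y.M × Y.M × X.M) : evW (GCyl_actR m D) w z =
    (sg k (m * degW Γ.deg w) • evW Y.act w z.1 + derW m D w z.2.2,
    sg k ((m + 1) * degW Γ.deg w) • evW Y.act w z.2.1 -
      sg k m • derW (m + 1) (bd m D) w z.2.2,
    evW X.act w z.2.2) := by
  induction w with
  | nil => simp
  | cons a w ih =>
    rw [evW_cons, ih, GCyl_actR_apply]
    simp only [evW_cons, derW_cons, degW_cons, mul_add, sg_add, map_add, map_sub, map_smul,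
      smul_add, smul_sub, smul_smul]
    refine Prod.ext ?_ (Prod.ext ?_ ?_)
    · abel_nf
    · have e1 : sg k ((m + 1) * Γ.deg a) * sg k m = sg k m * sg k ((m + 1) * Γ.deg a) :=
        mul_comm _ _
      simp only [e1]
      abel
    · rfl

private lemma GCyl_evP_R (m n : ℤ) (D : Γ.A → (X.M →ₗ[k] Y.M)) (p : List (k × List Γ.A))
    (hp : ∀ t ∈ p, degW Γ.deg t.2 = n) (z : Y.M × Y.M × X.M) : evP (GCyl_actR m D) p z =
    (sg k (m * n) • evP Y.act p z.1 + derP m D p z.2.2,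
    sg k ((m + 1) * n) • evP Y.act p z.2.1 - sg k m • derP (m + 1) (bd m D) p z.2.2,
    evP X.act p z.2.2) := by
  induction p with
  | nil =>
    simp only [evP_nil, derP_nil, LinearMap.zero_apply, smul_zero, sub_zero, add_zero]
    rfl
  | cons t p ih =>
    have h1 : degW Γ.deg t.2 = n := hp t (by simp)
    have h2 := ih (fun t' ht' => hp t' (List.mem_cons_of_mem _ ht'))
    rw [evP_cons, h2, GCyl_evW_R, h1]
    simp only [evP_cons, derP_cons_apply, smul_add]
    refine Prod.ext ?_ (Prod.ext ?_ ?_)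
    · simp only [Prod.fst_add, Prod.smul_fst, smul_add]
      rw [smul_comm t.1]
      abel
    · simp only [Prod.fst_add, Prod.snd_add, Prod.smul_fst, Prod.smul_snd, smul_sub]
      rw [smul_comm t.1, smul_comm t.1]
      abel
    · simp only [Prod.snd_add, Prod.smul_snd]

/-- the differential on the right cylinder -/
private def GCyl_dR (X Y : DGM Γ) (m : ℤ) :
    (Y.M × Y.M × X.M) →ₗ[k] (Y.M × Y.M × X.M) where
  toFun z := (sg k m • Y.d z.1 + z.2.1, -(sg k m • Y.d z.2.1), X.d z.2.2)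
  map_add' z z' := by
    refine Prod.ext ?_ (Prod.ext ?_ ?_)
    · simp only [Prod.fst_add, Prod.snd_add, map_add, smul_add]; abel
    · simp only [Prod.fst_add, Prod.snd_add, map_add, smul_add]; abel
    · simp only [Prod.snd_add, map_add]
  map_smul' c z := by
    refine Prod.ext ?_ (Prod.ext ?_ ?_)
    · simp only [Prod.smul_fst, Prod.smul_snd, map_smul, RingHom.id_apply, smul_add]
      rw [smul_comm c]
    · simp only [Prod.smul_fst, Prod.smul_snd, map_smul, RingHom.id_apply, smul_neg]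
      rw [smul_comm c]
    · simp only [Prod.smul_snd, map_smul, RingHom.id_apply]

private lemma GCyl_dR_apply (X Y : DGM Γ) (m : ℤ) (z : Y.M × Y.M × X.M) :
    GCyl_dR X Y m z = (sg k m • Y.d z.1 + z.2.1, -(sg k m • Y.d z.2.1), X.d z.2.2) := rfl

/-- the right cylinder -/
private def GCyl_R (hΓ : Γ.Nice) (X Y : DGM Γ) (m : ℤ) (D : Γ.A → (X.M →ₗ[k] Y.M))
    (hD : ∀ a, D a ∈ HomA a X Y (m + Γ.deg a)) : DGM Γ where
  M := Y.M × Y.M × X.M
  gr v p := (Y.gr v (p + m)).prod ((Y.gr v (p + (m + 1))).prod (X.gr v p))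
  indep := GCyl_indep (GCyl_shift_indep Y m) (GCyl_indep (GCyl_shift_indep Y (m + 1)) X.indep)
  iSup_eq_top := GCyl_top (GCyl_shift_top Y m)
    (GCyl_top (GCyl_shift_top Y (m + 1)) X.iSup_eq_top)
  d := GCyl_dR X Y m
  act := GCyl_actR m D
  d_mem := by
    rintro v p q ⟨y₁, y₂, x⟩ h ⟨h1, h2, hx⟩
    refine ⟨add_mem (Submodule.smul_mem _ _ (Y.d_mem (by omega) h1)) ?_,
      neg_mem (Submodule.smul_mem _ _ (Y.d_mem (by omega) h2)), X.d_mem h hx⟩
    have e : q + m = p + (m + 1) := by omega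
    change y₂ ∈ Y.gr v (q + m)
    rw [e]
    exact h2
  d_d := by
    rintro ⟨y₁, y₂, x⟩
    rw [GCyl_dR_apply, GCyl_dR_apply]
    refine Prod.ext ?_ (Prod.ext ?_ ?_)
    · simp only [map_add, map_smul, Y.d_d, smul_zero, zero_add]
      rw [add_neg_cancel]
      rfl
    · simp only [map_neg, map_smul, Y.d_d, smul_zero, neg_zero]
      rfl
    · exact X.d_d x
  act_mem := by
    rintro a p q ⟨y₁, y₂, x⟩ h ⟨h1, h2, hx⟩
    refine ⟨add_mem (Submodule.smul_mem _ _ (Y.act_mem a (by omega) h1)) ?_,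
      sub_mem (Submodule.smul_mem _ _ (Y.act_mem a (by omega) h2))
        (Submodule.smul_mem _ _ ?_), X.act_mem a h hx⟩
    · exact (hD a).1 _ _ _ (by omega) hx
    · exact (bd_mem hD a).1 _ _ _ (by omega) hx
  act_zero := by
    rintro a v p ⟨y₁, y₂, x⟩ h ⟨h1, h2, hx⟩
    have e1 := Y.act_zero a h h1
    have e2 := Y.act_zero a h h2
    have e3 := X.act_zero a h hx
    have e4 := (hD a).2 _ _ _ h hx
    have e5 := (bd_mem hD a).2 _ _ _ h hx
    change GCyl_actR m D a (y₁, y₂, x) = 0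
    rw [GCyl_actR_apply]
    simp only at e1 e2 e3 e4 e5
    simp only [e1, e2, e3, e4, e5, smul_zero, sub_zero, add_zero]
    rfl
  leibniz := by
    rintro a ⟨y₁, y₂, x⟩
    rw [GCyl_evP_R m (Γ.deg a + 1) D _ (Γ.diff_deg a), GCyl_actR_apply, GCyl_dR_apply,
      GCyl_dR_apply, GCyl_actR_apply]
    have hbd : bd (m + 1) (bd m D) a x = 0 := by
      rw [bd_bd hΓ]; rfl
    rw [bd_apply] at hbd
    have hE : bd m D a x = Y.d (D a x) - sg k (m + Γ.deg a) • D a (X.d x) -
      sg k m • derP m D (Γ.diff a) x := rfl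
    simp only [map_add, map_sub, map_neg, map_smul, Y.leibniz, X.leibniz, mul_add, mul_one,
      add_mul, one_mul, sg_add, sg_one] at hbd hE ⊢
    have e := sub_eq_zero.1 hbd
    have e' := sub_eq_iff_eq_add.1 e
    refine Prod.ext ?_ (Prod.ext ?_ ?_)
    · simp only [Prod.fst_add, Prod.smul_fst, hE]
      rcases sg_eq_one_or (k := k) m with hs | hs <;>
      rcases sg_eq_one_or (k := k) (Γ.deg a) with ht | ht <;>
      rcases sg_eq_one_or (k := k) (m * Γ.deg a) with hu | hu <;>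
      simp only [hs, ht, hu, one_smul, neg_smul, smul_neg, smul_sub, smul_add, mul_one, one_mul,
        mul_neg, neg_mul, neg_neg, neg_sub] <;> abel
    · simp only [Prod.fst_add, Prod.snd_add, Prod.smul_fst, Prod.smul_snd, e']
      rcases sg_eq_one_or (k := k) m with hs | hs <;>
      rcases sg_eq_one_or (k := k) (Γ.deg a) with ht | ht <;>
      rcases sg_eq_one_or (k := k) (m * Γ.deg a) with hu | hu <;>
      simp only [hs, ht, hu, one_smul, neg_smul, smul_neg, smul_sub, smul_add, mul_one, one_mul,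
        mul_neg, neg_mul, neg_neg, neg_sub] <;> abel
    · simp only [Prod.snd_add, Prod.smul_snd]

end GCyl_aux

/-- Let `D` be a derivation of degree `m` from `X` to `Y` (not necessarily closed). There are a dg
module `Y'`, a quasi-isomorphism `s : Y → Y'` and a linear map `h : X → Y'` of degree `m` with
`s ∘ D a = [h, a]` for all arrows `a`.

Proof. `Y'.M = Y.M × X.M × X.M` with
`gr v p = Y.gr v p × X.gr v (p - m) × X.gr v (p - m - 1)`,
`d (y, x₁, x₂) = (d y, sg m • d x₁, x₁ - sg m • d x₂)`,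
`act a (y, x₁, x₂) = (a y - sg (m|a|) • D_a x₁ - sg ((m+1)|a|) • E_a x₂, sg (m|a|) • a x₁,
  sg ((m+1)|a|) • a x₂)` where `E = bd m D`.
`indep` and `iSup_eq_top`: prove a general lemma for products of graded spaces and for reindexing by
a bijection of `V × ℤ` (the same is needed for cones and shifts: see GShift/GCone of helper88, you may
copy or import them if landed).
The action of a path `w` (induction): `(w y - sg (m|w|) • D(w) x₁ - sg ((m+1)|w|) • E(w) x₂,
sg (m|w|) • w x₁, sg ((m+1)|w|) • w x₂)` with `D(w) = derW m D w`, `E(w) = derW (m+1) E w`.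
Leibniz on `(0, x₁, 0)`: the first component is
`- sg (m|a|) • d D_a x₁ = - sg (m|a| + m) • D(da) x₁ + sg|a| • (- sg (m|a| + m) • D_a d x₁ -
sg ((m+1)|a|) • E_a x₁)`, which is the definition of `E_a = d D_a - sg (m+|a|) D_a d - sg m D(da)`.
Leibniz on `(0, 0, x₂)`: the first component is equivalent to `bd (m+1) E a = 0`, i.e. `bd_bd`.
`s y = (y, 0, 0)`, `h x = (0, x, 0)`. `s` is a quasi-isomorphism: if `(y, 0, 0) = d (y', x₁, x₂)`
then `y = d y'`; if `d (y, x₁, x₂) = 0` then `d y = 0`, `x₁ = sg m • d x₂` and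
`(y, x₁, x₂) = s y + d (0, x₂, 0)`. -/
theorem exists_cyl (hΓ : Γ.Nice) (X Y : DGM Γ) (m : ℤ) (D : Γ.A → (X.M →ₗ[k] Y.M))
    (hD : ∀ a, D a ∈ HomA a X Y (m + Γ.deg a)) :
    ∃ (Y' : DGM Γ) (s : Y ⟶ Y') (h : X.M →ₗ[k] Y'.M), IsQis s ∧ h ∈ HomV X Y' m ∧
      ∀ a, lin s ∘ₗ D a = inn m h a := by
  refine ⟨GCyl_L hΓ X Y m D hD, homMk (X := Y) (Y := GCyl_L hΓ X Y m D hD)
    (LinearMap.inl k Y.M (X.M × X.M)) (fun v p y hy => ⟨hy, zero_mem _⟩) (fun a y => ?_)
    (fun y => ?_), LinearMap.inr k Y.M (X.M × X.M) ∘ₗ LinearMap.inl k X.M X.M, ⟨?_, ?_⟩, ?_, ?_⟩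
  · change ((Y.act a y, 0) : Y.M × X.M × X.M) = GCyl_actL m D a (y, 0, 0)
    rw [GCyl_actL_apply]
    simp only [map_zero, smul_zero, sub_zero]
    rfl
  · change ((Y.d y, 0) : Y.M × X.M × X.M) = GCyl_dL X Y m (y, 0, 0)
    rw [GCyl_dL_apply]
    simp only [map_zero, smul_zero, sub_zero]
    rfl
  · rintro y - ⟨⟨y', x₁, x₂⟩, h⟩
    have h' : GCyl_dL X Y m (y', x₁, x₂) = (y, 0) := h
    rw [GCyl_dL_apply] at h'
    exact ⟨y', congrArg Prod.fst h'⟩
  · rintro ⟨y, x₁, x₂⟩ h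
    have h' : GCyl_dL X Y m (y, x₁, x₂) = 0 := h
    rw [GCyl_dL_apply] at h'
    have h1 : Y.d y = 0 := congrArg Prod.fst h'
    have h3 : x₁ - sg k m • X.d x₂ = 0 := congrArg (fun z => z.2.2) h'
    refine ⟨y, ((0 : Y.M), x₂, (0 : X.M)), h1, ?_⟩
    change ((y, x₁, x₂) : Y.M × X.M × X.M) = (y, 0) + GCyl_dL X Y m (0, x₂, 0)
    refine Prod.ext ?_ (Prod.ext ?_ ?_)
    · change y = y + Y.d 0
      rw [map_zero, add_zero]
    · change x₁ = 0 + sg k m • X.d x₂
      rw [zero_add]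
      exact sub_eq_zero.1 h3
    · change x₂ = 0 + (x₂ - sg k m • X.d 0)
      rw [map_zero, smul_zero, sub_zero, zero_add]
  · intro v p q x h hx
    refine ⟨zero_mem _, ?_, zero_mem _⟩
    change x ∈ X.gr v (q + -m)
    have e : q + -m = p := by omega
    rw [e]
    exact hx
  · intro a
    ext1 x
    change ((D a x, 0) : Y.M × X.M × X.M) = (0, X.act a x, 0) -
      sg k (m * Γ.deg a) • GCyl_actL m D a (0, x, 0)
    rw [GCyl_actL_apply]
    refine Prod.ext ?_ (Prod.ext ?_ ?_)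
    · simp only [Prod.fst_sub, Prod.smul_fst, map_zero, smul_zero, sub_zero, zero_sub, smul_neg,
        neg_neg, sg_mul_self_smul]
    · simp only [Prod.fst_sub, Prod.snd_sub, Prod.smul_fst, Prod.smul_snd, sg_mul_self_smul,
        sub_self]
      rfl
    · simp only [Prod.snd_sub, Prod.smul_snd, map_zero, smul_zero, sub_zero]
      rfl

/-- The same on the other side: there are `s : X' → X` and `h : X' → Y` of degree `m` with
`D a ∘ s = [h, a]`. Proof: `X'.M = Y.M × Y.M × X.M`, `gr v p = Y.gr v (p + m) × Y.gr v (p + m + 1) ×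
X.gr v p`, `d (y₁, y₂, x) = (sg m • d y₁ + y₂, - sg m • d y₂, d x)`,
`act a (y₁, y₂, x) = (sg (m|a|) • a y₁ + D_a x, sg ((m+1)|a|) • a y₂ - sg m • E_a x, a x)`,
`E = bd m D`; `s (y₁, y₂, x) = x`, `h (y₁, y₂, x) = y₁`. Leibniz on `(0, 0, x)`: first component
= definition of `E_a`, second component = `bd (m+1) E a = 0`. -/
theorem exists_cyl' (hΓ : Γ.Nice) (X Y : DGM Γ) (m : ℤ) (D : Γ.A → (X.M →ₗ[k] Y.M))
    (hD : ∀ a, D a ∈ HomA a X Y (m + Γ.deg a)) :
    ∃ (X' : DGM Γ) (s : X' ⟶ X) (h : X'.M →ₗ[k] Y.M), IsQis s ∧ h ∈ HomV X' Y m ∧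
      ∀ a, D a ∘ₗ lin s = inn m h a := by
  refine ⟨GCyl_R hΓ X Y m D hD, homMk (X := GCyl_R hΓ X Y m D hD) (Y := X)
    (LinearMap.snd k Y.M X.M ∘ₗ LinearMap.snd k Y.M (Y.M × X.M)) (fun v p z hz => hz.2.2)
    (fun a z => rfl) (fun z => rfl), LinearMap.fst k Y.M (Y.M × X.M), ⟨?_, ?_⟩, ?_, ?_⟩
  · rintro ⟨y₁, y₂, x⟩ h ⟨x', hx'⟩
    have h' : GCyl_dR X Y m (y₁, y₂, x) = 0 := h
    have hx : X.d x' = x := hx'
    rw [GCyl_dR_apply] at h'
    have h1 : sg k m • Y.d y₁ + y₂ = 0 := congrArg Prod.fst h'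
    refine ⟨((0 : Y.M), y₁, x'), ?_⟩
    change GCyl_dR X Y m (0, y₁, x') = (y₁, y₂, x)
    rw [GCyl_dR_apply]
    refine Prod.ext ?_ (Prod.ext ?_ hx)
    · simp only [map_zero, smul_zero, zero_add]
    · exact (eq_neg_of_add_eq_zero_right h1).symm
  · intro x hx
    refine ⟨((0 : Y.M), (0 : Y.M), x), 0, ?_, ?_⟩
    · change GCyl_dR X Y m (0, 0, x) = 0
      rw [GCyl_dR_apply]
      simp only [map_zero, smul_zero, add_zero, neg_zero]
      rw [hx]
      rfl
    · change x = x + X.d 0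
      rw [map_zero, add_zero]
  · intro v p q z h hz
    subst h
    exact hz.1
  · intro a
    ext1 z
    rcases z with ⟨y₁, y₂, x⟩
    change D a x = (sg k (m * Γ.deg a) • Y.act a y₁ + D a x) - sg k (m * Γ.deg a) • Y.act a y₁
    rw [add_sub_cancel_left]

end DGM

end GZ
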