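import Pool.Agent.Lib_MP_a23b08_g.GAcy
import Pool.Agent.Lib_MP_a23b08_g.GCyl
import Pool.Agent.Lib_MP_a23b08_g.GCone

/-!
# Cohomology of dg modules, nilpotent dg modules with finite-dimensional cohomology, simple modules
-/

open CategoryTheory

namespace GZ

namespace DGM

variable {k : Type} [Field k] {Γ : QF k}

/-- The total cohomology `ker d / im d`. -/
abbrev Coh (X : DGM Γ) : Type :=
  ↥(LinearMap.ker X.d) ⧸ (LinearMap.range X.d).comap (LinearMap.ker X.d).subtype

/-- `Hᵖ(X) = 0`. -/
def CohZero (X : DGM Γ) (p : ℤ) : Prop :=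
  ∀ (v : Γ.V) (x : X.M), x ∈ X.gr v p → X.d x = 0 → ∃ y, X.d y = x

/-- `X` has finite-dimensional total cohomology, on which all long paths in the arrows of degree
`0` act as zero. -/
structure IsNil (X : DGM Γ) : Prop where
  fin : Module.Finite k (Coh X)
  nil : ∃ N : ℕ, ∀ w : List Γ.A, N ≤ w.length → (∀ a ∈ w, Γ.deg a = 0) →
    ∀ x, X.d x = 0 → ∃ y, X.d y = evW X.act w x

/-- The grading of a simple module. -/
def simpleGr (k : Type) [Field k] {V : Type} (i v : V) (p : ℤ) : Submodule k k where
  carrier := {x | x ≠ 0 → v = i ∧ p = 0}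
  add_mem' := by
    intro a b ha hb h
    by_cases h0 : a = 0
    · subst h0
      rw [zero_add] at h
      exact hb h
    · exact ha h0
  zero_mem' := fun h => absurd rfl h
  smul_mem' := by
    intro c x hx h
    refine hx ?_
    rintro rfl
    simp at h

lemma mem_simpleGr {V : Type} {i v : V} {p : ℤ} {x : k} :
    x ∈ simpleGr k i v p ↔ (x ≠ 0 → v = i ∧ p = 0) := Iff.rfl

lemma evW_zero_act {A M : Type} [AddCommGroup M] [Module k M] {w : List A} (hw : w ≠ []) (x : M) :
    evW (fun _ : A => (0 : M →ₗ[k] M)) w x = 0 := by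
  cases w with
  | nil => exact absurd rfl hw
  | cons a w => simp

/-- The simple module at the vertex `i`, in degree `0`. -/
@[reducible] def Sm (hΓ : Γ.Nice) (i : Γ.V) : DGM Γ where
  M := k
  gr v p := simpleGr k i v p
  indep := by
    rintro ⟨v, p⟩
    rw [Submodule.disjoint_def]
    intro x h1 h2
    by_contra hx
    obtain ⟨h3, h4⟩ := h1 hx
    dsimp only at h3 h4
    have : (⨆ (j : Γ.V × ℤ) (_ : j ≠ (v, p)), simpleGr k i j.1 j.2) ≤ ⊥ := by
      refine iSup₂_le fun j hj => ?_
      intro y hy
      rw [Submodule.mem_bot]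
      by_contra h5
      obtain ⟨h6, h7⟩ := hy h5
      exact hj (Prod.ext (h6.trans h3.symm) (h7.trans h4.symm))
    exact hx ((Submodule.mem_bot k).1 (this h2))
  iSup_eq_top := by
    rw [eq_top_iff]
    intro x _
    exact Submodule.mem_iSup_of_mem (i, 0) (fun _ => ⟨rfl, rfl⟩)
  d := 0
  act _ := 0
  d_mem := by
    intro v p q x h hx
    simp
  d_d := by simp
  act_mem := by
    intro a p q x h hx
    simp
  act_zero := by simp
  leibniz := by
    intro a x
    have : ∀ p : List (k × List Γ.A), (∀ t ∈ p, 2 ≤ t.2.length) →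
        evP (fun _ : Γ.A => (0 : k →ₗ[k] k)) p x = 0 := by
      intro p hp
      induction p with
      | nil => simp
      | cons t p ih =>
        rw [evP_cons, ih (fun t' ht' => hp t' (List.mem_cons_of_mem _ ht')), evW_zero_act, smul_zero,
          add_zero]
        have := hp t (by simp)
        intro h
        rw [h] at this
        simp at this
    rw [this _ (hΓ.minimal a)]
    simp

end DGM

end GZ
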