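import Pool.Agent.Lib_MP_a23b08_g.GDer
import Pool.Agent.Lib_MP_a23b08_g.GCoh

/-!
# dg modules: total cohomology and quasi-isomorphisms (MP_a23b08_al, part G)
-/

open CategoryTheory CategoryTheory.Limits

namespace GZ

variable {k : Type} [Field k] {Γ : QF k}

namespace DGM

/-- The class of a cocycle. -/
def clsC (X : DGM Γ) (x : X.M) (hx : X.d x = 0) : Coh X := Submodule.Quotient.mk ⟨x, hx⟩

lemma clsC_surj (X : DGM Γ) (c : Coh X) : ∃ (x : X.M) (hx : X.d x = 0), c = clsC X x hx := by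
  obtain ⟨⟨x, hx⟩, rfl⟩ := Submodule.Quotient.mk_surjective _ c
  exact ⟨x, hx, rfl⟩

lemma clsC_eq_iff (X : DGM Γ) (x y : X.M) (hx : X.d x = 0) (hy : X.d y = 0) :
    clsC X x hx = clsC X y hy ↔ ∃ z, X.d z = x - y := by
  rw [clsC, clsC, Submodule.Quotient.eq]
  rfl

lemma clsC_eq_zero_iff (X : DGM Γ) (x : X.M) (hx : X.d x = 0) :
    clsC X x hx = 0 ↔ ∃ z, X.d z = x := by
  rw [clsC, Submodule.Quotient.mk_eq_zero]
  rfl

variable {X Y Z : DGM Γ}

/-- The restriction of a morphism to the cocycles. -/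
def kerMap (f : X ⟶ Y) : ↥(LinearMap.ker X.d) →ₗ[k] ↥(LinearMap.ker Y.d) :=
  (lin f).restrict (fun x hx => by
    rw [LinearMap.mem_ker] at hx ⊢
    rw [← lin_d, hx, map_zero])

/-- The map induced on cohomology. -/
def cohMap (f : X ⟶ Y) : Coh X →ₗ[k] Coh Y :=
  Submodule.mapQ _ _ (kerMap f) (by
    rintro ⟨x, hx⟩ ⟨y, hy⟩
    exact ⟨lin f y, by rw [← lin_d, hy]; rfl⟩)

lemma cohMap_clsC (f : X ⟶ Y) (x : X.M) (hx : X.d x = 0) :
    cohMap f (clsC X x hx) = clsC Y (lin f x) (by rw [← lin_d, hx, map_zero]) := rfl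

lemma cohMap_id (X : DGM Γ) : cohMap (𝟙 X) = LinearMap.id := by
  ext ⟨x, hx⟩
  rfl

lemma cohMap_comp (f : X ⟶ Y) (g : Y ⟶ Z) : cohMap (f ≫ g) = cohMap g ∘ₗ cohMap f := by
  ext ⟨x, hx⟩
  rfl

lemma cohMap_add (f g : X ⟶ Y) : cohMap (f + g) = cohMap f + cohMap g := by
  ext ⟨x, hx⟩
  rfl

variable (Γ) in
/-- The total cohomology functor on dg modules. -/
@[simps] def cohF : DGM Γ ⥤ ModuleCat.{0} k where
  obj X := ModuleCat.of k (Coh X)
  map f := ModuleCat.ofHom (cohMap f)
  map_id X := by rw [cohMap_id]; rfl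
  map_comp f g := by rw [cohMap_comp]; rfl

instance : (cohF Γ).Additive where
  map_add := by
    intro X Y f g
    simp only [cohF_map, cohMap_add]
    rfl

lemma cohMap_eq_of_homotopy {f g : X ⟶ Y} (h : homRel Γ f g) : cohMap f = cohMap g := by
  obtain ⟨z, -, h⟩ := h
  apply LinearMap.ext
  intro c
  obtain ⟨x, hx, rfl⟩ := clsC_surj X c
  rw [cohMap_clsC, cohMap_clsC, clsC_eq_iff]
  refine ⟨z x, ?_⟩
  rw [h, hx, map_zero]
  abel

variable (Γ) in
/-- The total cohomology functor on the homotopy category. -/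
def cohH : Hot Γ ⥤ ModuleCat.{0} k :=
  CategoryTheory.Quotient.lift _ (cohF Γ) (fun _ _ _ _ h => by
    simp only [cohF_map, cohMap_eq_of_homotopy h])

lemma cohH_obj (X : DGM Γ) : (cohH Γ).obj ((quot Γ).obj X) = ModuleCat.of k (Coh X) := rfl

lemma cohH_map (f : X ⟶ Y) : (cohH Γ).map ((quot Γ).map f) = ModuleCat.ofHom (cohMap f) := rfl

/-- A morphism is a quasi-isomorphism if and only if its cone is acyclic. -/
lemma acyc_cone_iff (f : X ⟶ Y) :
    acyc Γ ((quot Γ).obj (cone f)) ↔ Function.Bijective (cohMap f) := by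
  rw [acyc_quot_iff]
  constructor
  · intro h
    constructor
    · rw [injective_iff_map_eq_zero]
      intro c hc
      obtain ⟨x, hx, rfl⟩ := clsC_surj X c
      rw [cohMap_clsC, clsC_eq_zero_iff] at hc
      obtain ⟨y, hy⟩ := hc
      obtain ⟨⟨y', x'⟩, h'⟩ := h (-y, x) (by
        rw [cone_d]
        refine Prod.ext ?_ ?_
        · simp [hy]
        · simp [hx])
      rw [cone_d] at h'
      have h2 := congrArg Prod.snd h'
      rw [clsC_eq_zero_iff]
      exact ⟨-x', by rw [map_neg]; exact h2⟩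
    · intro c
      obtain ⟨y, hy, rfl⟩ := clsC_surj Y c
      obtain ⟨⟨y', x'⟩, h'⟩ := h (y, 0) (by
        rw [cone_d]
        refine Prod.ext ?_ ?_
        · simp [hy]
        · simp)
      rw [cone_d] at h'
      have h1 := congrArg Prod.fst h'
      have h2 := congrArg Prod.snd h'
      have h2' : X.d x' = 0 := by simpa using h2
      refine ⟨clsC X x' h2', ?_⟩
      rw [cohMap_clsC, clsC_eq_iff]
      refine ⟨-y', ?_⟩
      have h1' : Y.d y' + lin f x' = y := h1
      rw [map_neg, ← h1']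
      abel
  · rintro ⟨hi, hs⟩ ⟨y, x⟩ h
    rw [cone_d] at h
    have h1 : Y.d y + lin f x = 0 := congrArg Prod.fst h
    have h2 : -X.d x = 0 := congrArg Prod.snd h
    rw [neg_eq_zero] at h2
    have h3 : clsC X x h2 = 0 := by
      apply hi
      rw [cohMap_clsC, (cohMap f).map_zero, clsC_eq_zero_iff]
      refine ⟨-y, ?_⟩
      rw [map_neg, eq_comm]
      exact eq_neg_of_add_eq_zero_right h1
    rw [clsC_eq_zero_iff] at h3
    obtain ⟨x', hx'⟩ := h3
    have h4 : Y.d (y + lin f x') = 0 := by rw [map_add, ← lin_d, hx', h1]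
    obtain ⟨c, hc⟩ := hs (clsC Y _ h4)
    obtain ⟨x'', hx'', rfl⟩ := clsC_surj X c
    rw [cohMap_clsC, clsC_eq_iff] at hc
    obtain ⟨y'', hy''⟩ := hc
    refine ⟨(-y'', x'' - x'), ?_⟩
    rw [cone_d, map_neg, hy'', map_sub, map_sub, hx'', hx']
    refine Prod.ext ?_ ?_
    · change -(lin f x'' - (y + lin f x')) + (lin f x'' - lin f x') = y
      abel
    · change -(0 - x) = x
      abel

lemma acyc_iff_subsingleton (X : DGM Γ) : acyc Γ ((quot Γ).obj X) ↔ Subsingleton (Coh X) := by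
  rw [acyc_quot_iff]
  constructor
  · intro h
    refine ⟨fun a b => ?_⟩
    obtain ⟨x, hx, rfl⟩ := clsC_surj X a
    obtain ⟨y, hy, rfl⟩ := clsC_surj X b
    rw [clsC_eq_iff]
    exact h _ (by rw [map_sub, hx, hy, sub_zero])
  · intro h x hx
    have := Subsingleton.elim (clsC X x hx) 0
    rwa [clsC_eq_zero_iff] at this

lemma trW_quot_map_iff (f : X ⟶ Y) :
    (acyc Γ).trW ((quot Γ).map f) ↔ Function.Bijective (cohMap f) := by
  rw [← acyc_cone_iff]
  exact (acyc Γ).trW_iff_of_distinguished _ (trih_distinguished f)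

lemma cohH_inverts : (acyc Γ).trW.IsInvertedBy (cohH Γ) := by
  intro X Y f hf
  obtain ⟨X, rfl⟩ := quot_obj_surjective X
  obtain ⟨Y, rfl⟩ := quot_obj_surjective Y
  obtain ⟨f, rfl⟩ := (quot Γ).map_surjective f
  rw [trW_quot_map_iff] at hf
  rw [cohH_map]
  exact (ConcreteCategory.isIso_iff_bijective _).2 hf

variable (Γ) in
/-- The total cohomology functor on the derived category. -/
noncomputable def cohD : Der Γ ⥤ ModuleCat.{0} k :=
  Localization.lift (cohH Γ) cohH_inverts (Qh Γ)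

variable (Γ) in
/-- The compatibility of the cohomology functors. -/
noncomputable def cohDIso : Qh Γ ⋙ cohD Γ ≅ cohH Γ := Localization.fac _ cohH_inverts _

/-- A morphism becomes an isomorphism in the derived category if and only if it is bijective
on cohomology. -/
lemma isIso_Q_map_iff (f : X ⟶ Y) : IsIso ((Q Γ).map f) ↔ Function.Bijective (cohMap f) := by
  constructor
  · intro h
    have h1 : IsIso ((Qh Γ).map ((quot Γ).map f)) := h
    have h2 : IsIso ((cohH Γ).map ((quot Γ).map f)) := by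
      rw [← NatIso.isIso_map_iff (cohDIso Γ)]
      change IsIso ((cohD Γ).map _)
      infer_instance
    rw [cohH_map] at h2
    exact (ConcreteCategory.isIso_iff_bijective _).1 h2
  · intro h
    exact Localization.inverts (Qh Γ) (acyc Γ).trW _ ((trW_quot_map_iff f).2 h)

end DGM

end GZ
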