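import Pool.Agent.Lib_MP_a23b08_g.GCoh

/-!
PIECE S1. Sub dg modules, quotient dg modules, components.
-/

open CategoryTheory

namespace GZ

namespace DGM

variable {k : Type} [Field k] {Γ : QF k}

private lemma gsub_iSupIndep_of_proj {ι M : Type} [AddCommGroup M] [Module k M]
    {G : ι → Submodule k M} (π : ι → M →ₗ[k] M) (h1 : ∀ i, ∀ x ∈ G i, π i x = x)
    (h2 : ∀ i j, j ≠ i → ∀ x ∈ G j, π i x = 0) : iSupIndep G := by
  intro i
  rw [Submodule.disjoint_def]
  intro x hx hx'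
  have h3 : (⨆ (j : ι) (_ : j ≠ i), G j) ≤ LinearMap.ker (π i) :=
    iSup₂_le fun j hj y hy => h2 i j hj y hy
  rw [← h1 i x hx]
  exact h3 hx'

/-- The component of degree `p` at `v` of an element. Proof/definition: from `indep` and `iSup_eq_top`
(`DirectSum.IsInternal`, `Classical.decEq`). -/
theorem exists_comp (X : DGM Γ) : ∃ c : Γ.V → ℤ → (X.M →ₗ[k] X.M),
    (∀ v p x, c v p x ∈ X.gr v p) ∧ (∀ v p x, x ∈ X.gr v p → c v p x = x) ∧
    (∀ v p w q x, (v, p) ≠ (w, q) → x ∈ X.gr w q → c v p x = 0) := by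
  classical
  have hI : DirectSum.IsInternal (fun p : Γ.V × ℤ => X.gr p.1 p.2) :=
    (DirectSum.isInternal_submodule_iff_iSupIndep_and_iSup_eq_top _).2 ⟨X.indep, X.iSup_eq_top⟩
  let e := (LinearEquiv.ofBijective (DirectSum.coeLinearMap _) hI).symm
  have he : ∀ {v : Γ.V} {p : ℤ} {x : X.M} (hx : x ∈ X.gr v p),
      e x = DirectSum.lof k (Γ.V × ℤ) (fun p => X.gr p.1 p.2) (v, p) ⟨x, hx⟩ := by
    intro v p x hx
    rw [LinearEquiv.symm_apply_eq]
    exact (DirectSum.coeLinearMap_lof (fun p : Γ.V × ℤ => X.gr p.1 p.2) (v, p) ⟨x, hx⟩).symm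
  refine ⟨fun v p => (X.gr v p).subtype ∘ₗ
    DirectSum.component k (Γ.V × ℤ) (fun p => X.gr p.1 p.2) (v, p) ∘ₗ e.toLinearMap, ?_, ?_, ?_⟩
  · intro v p x
    exact Subtype.coe_prop _
  · intro v p x hx
    simp only [LinearMap.comp_apply, LinearEquiv.coe_coe, he hx,
      DirectSum.component.lof_self, Submodule.subtype_apply]
  · intro v p w q x hne hx
    simp only [LinearMap.comp_apply, LinearEquiv.coe_coe, he hx]
    have h1 := DirectSum.component.of (R := k) (ι := Γ.V × ℤ) (M := fun p => X.gr p.1 p.2)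
      (v, p) (w, q) ⟨x, hx⟩
    rw [h1, dif_neg hne.symm]
    rfl

/-- The component of degree `p` at `v`. -/
noncomputable def cmp (X : DGM Γ) (v : Γ.V) (p : ℤ) : X.M →ₗ[k] X.M := (exists_comp X).choose v p

lemma cmp_mem (X : DGM Γ) (v : Γ.V) (p : ℤ) (x : X.M) : cmp X v p x ∈ X.gr v p :=
  (exists_comp X).choose_spec.1 v p x
lemma cmp_of_mem (X : DGM Γ) {v : Γ.V} {p : ℤ} {x : X.M} (h : x ∈ X.gr v p) : cmp X v p x = x :=
  (exists_comp X).choose_spec.2.1 v p x h
lemma cmp_of_ne (X : DGM Γ) {v w : Γ.V} {p q : ℤ} {x : X.M} (h : (v, p) ≠ (w, q))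
    (hx : x ∈ X.gr w q) : cmp X v p x = 0 :=
  (exists_comp X).choose_spec.2.2 v p w q x h hx

/-- Every element is a finite sum of its components. -/
lemma eq_sum_cmp (X : DGM Γ) (x : X.M) : ∃ s : Finset (Γ.V × ℤ), x = ∑ i ∈ s, cmp X i.1 i.2 x ∧
    ∀ v p, (v, p) ∉ s → cmp X v p x = 0 := by
  classical
  have hx : ∃ s : Finset (Γ.V × ℤ), ∀ t : Finset (Γ.V × ℤ), s ⊆ t →
      x = ∑ i ∈ t, cmp X i.1 i.2 x := by
    refine X.induction (P := fun x => ∃ s : Finset (Γ.V × ℤ), ∀ t : Finset (Γ.V × ℤ), s ⊆ t →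
      x = ∑ i ∈ t, cmp X i.1 i.2 x) x ?_ ?_ ?_
    · intro v n y hy
      refine ⟨{(v, n)}, fun t ht => ?_⟩
      rw [Finset.sum_eq_single_of_mem (v, n) (ht (Finset.mem_singleton_self _))]
      · exact (cmp_of_mem X hy).symm
      · intro i _ hi
        exact cmp_of_ne X hi hy
    · exact ⟨∅, fun t _ => by simp⟩
    · rintro y z ⟨s, hs⟩ ⟨s', hs'⟩
      refine ⟨s ∪ s', fun t ht => ?_⟩
      simp only [map_add, Finset.sum_add_distrib]
      rw [← hs t (Finset.union_subset_left ht), ← hs' t (Finset.union_subset_right ht)]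
  obtain ⟨s, hs⟩ := hx
  refine ⟨s, hs s (Finset.Subset.refl _), fun v p hp => ?_⟩
  rw [hs s (Finset.Subset.refl _), map_sum]
  refine Finset.sum_eq_zero fun i hi => ?_
  refine cmp_of_ne X (w := i.1) (q := i.2) ?_ (cmp_mem X i.1 i.2 x)
  rintro h
  rw [h] at hp
  exact hp hi

/-- An element is zero if all its components are zero. Proof: it is a finite sum of homogeneous
elements, one for each `(v, p)`. -/
lemma eq_zero_of_cmp (X : DGM Γ) {x : X.M} (h : ∀ v p, cmp X v p x = 0) : x = 0 := by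
  obtain ⟨s, hs, -⟩ := eq_sum_cmp X x
  rw [hs]
  exact Finset.sum_eq_zero fun i _ => h _ _

/-- An element belongs to a submodule if all its components do. -/
lemma mem_of_cmp (X : DGM Γ) {W : Submodule k X.M} {x : X.M} (h : ∀ v p, cmp X v p x ∈ W) :
    x ∈ W := by
  obtain ⟨s, hs, -⟩ := eq_sum_cmp X x
  rw [hs]
  exact Submodule.sum_mem _ fun i _ => h _ _

/-- Homogeneous maps commute with taking components. -/
lemma cmp_homV {X Y : DGM Γ} {n : ℤ} {f : X.M →ₗ[k] Y.M} (hf : f ∈ HomV X Y n) (v : Γ.V)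
    {p q : ℤ} (h : p + n = q) (x : X.M) : cmp Y v q (f x) = f (cmp X v p x) := by
  suffices h' : cmp Y v q ∘ₗ f = f ∘ₗ cmp X v p from LinearMap.congr_fun h' x
  refine ext_hom X fun w r y hy => ?_
  change cmp Y v q (f y) = f (cmp X v p y)
  by_cases e : (v, p) = (w, r)
  · simp only [Prod.mk.injEq] at e
    obtain ⟨rfl, rfl⟩ := e
    rw [cmp_of_mem X hy, cmp_of_mem Y (hf _ _ _ _ h hy)]
  · rw [cmp_of_ne X e hy, map_zero, cmp_of_ne Y _ (hf w r (r + n) y rfl hy)]
    intro e'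
    simp only [Prod.mk.injEq] at e' e
    exact e ⟨e'.1, by omega⟩

/-- `d` commutes with taking components. Proof: `ext_hom`. -/
lemma d_cmp (X : DGM Γ) (v : Γ.V) {p q : ℤ} (h : p + 1 = q) (x : X.M) :
    X.d (cmp X v p x) = cmp X v q (X.d x) :=
  (cmp_homV (n := 1) (f := X.d) (fun _ _ _ _ h hx => X.d_mem h hx) v h x).symm

/-- Morphisms commute with taking components. -/
lemma cmp_lin {X Y : DGM Γ} (f : X ⟶ Y) (v : Γ.V) (p : ℤ) (x : X.M) :
    cmp Y v p (lin f x) = lin f (cmp X v p x) :=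
  cmp_homV (n := 0) (f := lin f) (fun _ _ _ _ h hx => by
    have := lin_mem f hx
    rwa [← h, add_zero]) v (by simp) x

/-- The arrows and components. -/
lemma cmp_act (X : DGM Γ) (a : Γ.A) {p q : ℤ} (h : p + Γ.deg a = q) (x : X.M) :
    cmp X (Γ.tgt a) q (X.act a x) = X.act a (cmp X (Γ.src a) p x) := by
  suffices h' : cmp X (Γ.tgt a) q ∘ₗ X.act a = X.act a ∘ₗ cmp X (Γ.src a) p from
    LinearMap.congr_fun h' x
  refine ext_hom X fun w r y hy => ?_
  change cmp X (Γ.tgt a) q (X.act a y) = X.act a (cmp X (Γ.src a) p y)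
  by_cases e : (Γ.src a, p) = (w, r)
  · simp only [Prod.mk.injEq] at e
    obtain ⟨rfl, rfl⟩ := e
    rw [cmp_of_mem X hy, cmp_of_mem X (X.act_mem a h hy)]
  · rw [cmp_of_ne X e hy, map_zero]
    by_cases e1 : w = Γ.src a
    · subst e1
      rw [cmp_of_ne X _ (X.act_mem a rfl hy)]
      intro e'
      simp only [Prod.mk.injEq, true_and] at e' e
      exact e (by omega)
    · rw [X.act_zero a e1 hy, map_zero]

lemma cmp_act_ne (X : DGM Γ) (a : Γ.A) {v : Γ.V} (h : v ≠ Γ.tgt a) (q : ℤ) (x : X.M) :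
    cmp X v q (X.act a x) = 0 := by
  suffices h' : cmp X v q ∘ₗ X.act a = 0 from LinearMap.congr_fun h' x
  refine ext_hom X fun w r y hy => ?_
  change cmp X v q (X.act a y) = 0
  by_cases e1 : w = Γ.src a
  · subst e1
    rw [cmp_of_ne X _ (X.act_mem a rfl hy)]
    intro e'
    simp only [Prod.mk.injEq] at e'
    exact h e'.1
  · rw [X.act_zero a e1 hy, map_zero]

lemma cmp_cmp_same (X : DGM Γ) (v : Γ.V) (p : ℤ) (x : X.M) :
    cmp X v p (cmp X v p x) = cmp X v p x := cmp_of_mem X (cmp_mem X v p x)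

lemma cmp_cmp_ne (X : DGM Γ) {v w : Γ.V} {p q : ℤ} (h : (v, p) ≠ (w, q)) (x : X.M) :
    cmp X v p (cmp X w q x) = 0 := cmp_of_ne X h (cmp_mem X w q x)

/-- If a homogeneous element of degree `p + 1` is a boundary, it is the boundary of an element of
degree `p`. -/
lemma exists_hom_of_bd (X : DGM Γ) {v : Γ.V} {p q : ℤ} (h : p + 1 = q) {x : X.M}
    (hx : x ∈ X.gr v q) (hy : ∃ y, X.d y = x) : ∃ y ∈ X.gr v p, X.d y = x := by
  obtain ⟨y, rfl⟩ := hy
  exact ⟨cmp X v p y, cmp_mem X v p y, by rw [d_cmp X v h, cmp_of_mem X hx]⟩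

/-- `X` is acyclic iff all its cohomology spaces are zero. -/
lemma acyclic_iff (X : DGM Γ) : Acyclic X ↔ ∀ p, CohZero X p := by
  constructor
  · intro h p v x _ hx
    exact h x hx
  · intro h x hx
    have h1 : x ∈ LinearMap.range X.d := mem_of_cmp X fun v p => by
      refine h p v _ (cmp_mem X v p x) ?_
      rw [d_cmp X v rfl, hx, map_zero]
    exact h1

/-- Homogeneous subspaces stable under `d` and the arrows. -/
structure IsSub (X : DGM Γ) (N : Submodule k X.M) : Prop where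
  hom : ∀ v p, ∀ x ∈ N, cmp X v p x ∈ N
  d : ∀ x ∈ N, X.d x ∈ N
  act : ∀ a, ∀ x ∈ N, X.act a x ∈ N

lemma evW_intertw {A M N : Type} [AddCommGroup M] [Module k M] [AddCommGroup N] [Module k N]
    {u : A → M →ₗ[k] M} {v : A → N →ₗ[k] N} {f : M →ₗ[k] N}
    (h : ∀ a x, f (u a x) = v a (f x)) (w : List A) (x : M) : f (evW u w x) = evW v w (f x) := by
  induction w with
  | nil => rfl
  | cons a w ih => rw [evW_cons, evW_cons, h, ih]

lemma evP_intertw {A M N : Type} [AddCommGroup M] [Module k M] [AddCommGroup N] [Module k N]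
    {u : A → M →ₗ[k] M} {v : A → N →ₗ[k] N} {f : M →ₗ[k] N}
    (h : ∀ a x, f (u a x) = v a (f x)) (p : List (k × List A)) (x : M) :
    f (evP u p x) = evP v p (f x) := by
  induction p with
  | nil => simp
  | cons t p ih => rw [evP_cons, evP_cons, map_add, map_smul, ih, evW_intertw h]

/-- The sub dg module. -/
@[reducible] def subMod (X : DGM Γ) (N : Submodule k X.M) (hN : IsSub X N) : DGM Γ where
  M := N
  gr v p := (X.gr v p).comap N.subtype
  indep := by
    refine gsub_iSupIndep_of_proj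
      (fun p : Γ.V × ℤ => (cmp X p.1 p.2).restrict (p := N) (q := N) (hN.hom p.1 p.2)) ?_ ?_
    · intro p x hx
      exact Subtype.ext (cmp_of_mem X hx)
    · intro p q hqp x hx
      exact Subtype.ext (cmp_of_ne X (w := q.1) (q := q.2) (fun e => hqp (Eq.symm e)) hx)
  iSup_eq_top := by
    rw [eq_top_iff]
    intro x _
    have h1 : (x : X.M) ∈ (⨆ p : Γ.V × ℤ, (X.gr p.1 p.2).comap N.subtype).map N.subtype :=
      mem_of_cmp X fun v p => ⟨⟨cmp X v p x, hN.hom v p x x.2⟩,
        Submodule.mem_iSup_of_mem (p := fun p : Γ.V × ℤ => (X.gr p.1 p.2).comap N.subtype) (v, p)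
          (cmp_mem X v p (x : X.M)), rfl⟩
    obtain ⟨y, hy, hyx⟩ := h1
    rwa [Subtype.ext hyx] at hy
  d := X.d.restrict hN.d
  act a := (X.act a).restrict (hN.act a)
  d_mem := by
    intro v p q x h hx
    exact X.d_mem h hx
  d_d := by
    intro x
    exact Subtype.ext (X.d_d x)
  act_mem := by
    intro a p q x h hx
    exact X.act_mem a h hx
  act_zero := by
    intro a v p x h hx
    exact Subtype.ext (X.act_zero a h hx)
  leibniz := by
    intro a x
    apply Subtype.ext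
    have h := evP_intertw (u := fun a => (X.act a).restrict (p := N) (q := N) (hN.act a))
      (v := X.act) (f := N.subtype) (fun _ _ => rfl) (Γ.diff a) x
    have h2 := X.leibniz a x
    rw [Submodule.subtype_apply, Submodule.subtype_apply] at h
    rw [← h] at h2
    exact h2

/-- The quotient dg module. -/
@[reducible] def quotMod (X : DGM Γ) (N : Submodule k X.M) (hN : IsSub X N) : DGM Γ where
  M := X.M ⧸ N
  gr v p := (X.gr v p).map N.mkQ
  indep := by
    refine gsub_iSupIndep_of_proj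
      (fun p : Γ.V × ℤ => N.mapQ N (cmp X p.1 p.2) (hN.hom p.1 p.2)) ?_ ?_
    · rintro p _ ⟨x, hx, rfl⟩
      change N.mkQ (cmp X p.1 p.2 x) = _
      rw [cmp_of_mem X hx]
    · rintro p q hqp _ ⟨x, hx, rfl⟩
      change N.mkQ (cmp X p.1 p.2 x) = _
      rw [cmp_of_ne X (w := q.1) (q := q.2) (fun e => hqp (Eq.symm e)) hx, map_zero]
  iSup_eq_top := by
    rw [← Submodule.map_iSup, X.iSup_eq_top, Submodule.map_top, Submodule.range_mkQ]
  d := N.mapQ N X.d hN.d
  act a := N.mapQ N (X.act a) (hN.act a)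
  d_mem := by
    rintro v p q _ h ⟨x, hx, rfl⟩
    exact ⟨X.d x, X.d_mem h hx, rfl⟩
  d_d := by
    intro x
    obtain ⟨x, rfl⟩ := N.mkQ_surjective x
    change N.mkQ (X.d (X.d x)) = 0
    rw [X.d_d, map_zero]
  act_mem := by
    rintro a p q _ h ⟨x, hx, rfl⟩
    exact ⟨X.act a x, X.act_mem a h hx, rfl⟩
  act_zero := by
    rintro a v p _ h ⟨x, hx, rfl⟩
    change N.mkQ (X.act a x) = 0
    rw [X.act_zero a h hx, map_zero]
  leibniz := by
    intro a x
    obtain ⟨x, rfl⟩ := N.mkQ_surjective x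
    rw [← evP_intertw (u := X.act) (v := fun a => N.mapQ N (X.act a) (hN.act a))
      (f := N.mkQ) (fun _ _ => rfl)]
    change N.mkQ (X.d (X.act a x)) = _ + _ • N.mkQ (X.act a (X.d x))
    rw [X.leibniz, map_add, map_smul]

/-- The inclusion. -/
def subι (X : DGM Γ) (N : Submodule k X.M) (hN : IsSub X N) : subMod X N hN ⟶ X :=
  homMk (X := subMod X N hN) (Y := X) N.subtype (fun _ _ _ h => h) (fun _ _ => rfl) (fun _ => rfl)

/-- The projection. -/
def quotπ (X : DGM Γ) (N : Submodule k X.M) (hN : IsSub X N) : X ⟶ quotMod X N hN :=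
  homMk (X := X) (Y := quotMod X N hN) N.mkQ (fun _ _ x h => ⟨x, h, rfl⟩) (fun _ _ => rfl)
    (fun _ => rfl)

@[simp] lemma lin_subι (X : DGM Γ) (N : Submodule k X.M) (hN : IsSub X N) :
    lin (subι X N hN) = N.subtype := rfl
@[simp] lemma lin_quotπ (X : DGM Γ) (N : Submodule k X.M) (hN : IsSub X N) :
    lin (quotπ X N hN) = N.mkQ := rfl

/-- Short exact sequences of dg modules. -/
structure IsShort {K X B : DGM Γ} (j : K ⟶ X) (π : X ⟶ B) : Prop where
  inj : Function.Injective (lin j)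
  surj : Function.Surjective (lin π)
  exact : ∀ x, lin π x = 0 ↔ ∃ y, lin j y = x

lemma isShort_sub (X : DGM Γ) (N : Submodule k X.M) (hN : IsSub X N) :
    IsShort (subι X N hN) (quotπ X N hN) where
  inj := Subtype.val_injective
  surj := N.mkQ_surjective
  exact := by
    intro x
    rw [lin_quotπ, Submodule.mkQ_apply, Submodule.Quotient.mk_eq_zero]
    exact ⟨fun h => ⟨⟨x, h⟩, rfl⟩, by rintro ⟨y, rfl⟩; exact y.2⟩

end DGM

end GZ
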