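import Pool.Agent.Lib_MP_a23b08_g.GDnil
import Pool.Agent.Lib_MP_a23b08_g.GSub

/-!
# Vanishing of cohomology: invariance, shifts, exact sequences (MP_a23b08_al, part G)
-/

open CategoryTheory CategoryTheory.Limits CategoryTheory.Pretriangulated

namespace GZ

variable {k : Type} [Field k] {Γ : QF k}

namespace DGM

lemma isQis_iff {X Y : DGM Γ} (f : X ⟶ Y) : IsQis f ↔ Function.Bijective (cohMap f) := by
  constructor
  · intro h
    constructor
    · rw [injective_iff_map_eq_zero]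
      intro c hc
      obtain ⟨x, hx, rfl⟩ := clsC_surj X c
      rw [cohMap_clsC, clsC_eq_zero_iff] at hc
      rw [clsC_eq_zero_iff]
      exact h.inj x hx hc
    · intro c
      obtain ⟨y, hy, rfl⟩ := clsC_surj Y c
      obtain ⟨x, y', hx, e⟩ := h.surj y hy
      refine ⟨clsC X x hx, ?_⟩
      rw [cohMap_clsC, clsC_eq_iff]
      exact ⟨-y', by rw [map_neg, e]; abel⟩
  · rintro ⟨h1, h2⟩
    constructor
    · intro x hx hy
      rw [← clsC_eq_zero_iff X x hx]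
      apply h1
      rw [cohMap_clsC, (cohMap f).map_zero, clsC_eq_zero_iff]
      exact hy
    · intro y hy
      obtain ⟨c, hc⟩ := h2 (clsC Y y hy)
      obtain ⟨x, hx, rfl⟩ := clsC_surj X c
      rw [cohMap_clsC, clsC_eq_iff] at hc
      obtain ⟨z, hz⟩ := hc
      exact ⟨x, -z, hx, by rw [map_neg, hz]; abel⟩

lemma cohZero_iff_of_isQis {X Y : DGM Γ} {f : X ⟶ Y} (hf : IsQis f) (p : ℤ) :
    CohZero X p ↔ CohZero Y p := by
  constructor
  · intro h v y hy hd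
    obtain ⟨x, y', hx, e⟩ := hf.surj y hd
    obtain ⟨x', hx'⟩ := h v (cmp X v p x) (cmp_mem X v p x) (by rw [d_cmp X v rfl, hx, map_zero])
    refine ⟨lin f x' + cmp Y v (p - 1) y', ?_⟩
    rw [map_add, ← lin_d, hx', d_cmp Y v (sub_add_cancel p 1), ← cmp_lin, ← map_add, ← e,
      cmp_of_mem Y hy]
  · intro h v x hx hd
    exact hf.inj x hd (h v (lin f x) (lin_mem f hx) (by rw [← lin_d, hd, map_zero]))

lemma cohZero_iff_of_iso {X Y : Der Γ} (e : X ≅ Y) (p : ℤ) :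
    CohZero (und X) p ↔ CohZero (und Y) p :=
  ⟨fun h => prop_of_iso_of_qis (P := fun X => CohZero X p)
      (fun _ _ f hf => cohZero_iff_of_isQis ((isQis_iff f).2 hf) p) e h,
    fun h => prop_of_iso_of_qis (P := fun X => CohZero X p)
      (fun _ _ f hf => cohZero_iff_of_isQis ((isQis_iff f).2 hf) p) e.symm h⟩

lemma cohZero_sh {X : DGM Γ} {n p q : ℤ} (h : p + n = q) : CohZero (X.sh n) p ↔ CohZero X q := by
  subst h
  constructor
  · intro h v x hx hd
    exact (exists_d_sh_iff X n x).1 (h v x hx ((d_sh_eq_zero_iff X n x).2 hd))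
  · intro h v x hx hd
    exact (exists_d_sh_iff X n x).2 (h v x hx ((d_sh_eq_zero_iff X n x).1 hd))

/-- The middle term of a triangle. -/
lemma cohZero_of_cone {X Y : DGM Γ} (f : X ⟶ Y) {p : ℤ} (h1 : CohZero X p)
    (h3 : CohZero (cone f) p) : CohZero Y p := by
  intro v y hy hd
  obtain ⟨⟨y', x'⟩, ⟨hy', hx'⟩, h⟩ := exists_hom_of_bd (cone f) (sub_add_cancel p 1)
    (x := (y, (0 : X.M))) (v := v) ⟨hy, zero_mem _⟩
    (h3 v (y, 0) ⟨hy, zero_mem _⟩ (by rw [cone_d, hd, map_zero, map_zero, add_zero, neg_zero]; rfl))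
  rw [cone_d] at h
  have e1 : Y.d y' + lin f x' = y := congrArg Prod.fst h
  have e2 : X.d x' = 0 := neg_eq_zero.1 (congrArg Prod.snd h)
  have hx'' : x' ∈ X.gr v p := by
    have : x' ∈ X.gr v (p - 1 + 1) := hx'
    rwa [sub_add_cancel] at this
  obtain ⟨x'', hx3⟩ := h1 v x' hx'' e2
  refine ⟨y' + lin f x'', ?_⟩
  rw [map_add, ← lin_d, hx3, e1]

/-- The third term of a triangle. -/
lemma cohZero_cone {X Y : DGM Γ} (f : X ⟶ Y) {p q : ℤ} (h : p + 1 = q) (h1 : CohZero X q)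
    (h2 : CohZero Y p) : CohZero (cone f) p := by
  rintro v ⟨y, x⟩ ⟨hy, hx⟩ hd
  rw [cone_d] at hd
  have e1 : Y.d y + lin f x = 0 := congrArg Prod.fst hd
  have e2 : X.d x = 0 := neg_eq_zero.1 (congrArg Prod.snd hd)
  subst h
  obtain ⟨x', hx', hx2⟩ := exists_hom_of_bd X rfl hx (h1 v x hx e2)
  obtain ⟨y', hy'⟩ := h2 v (y + lin f x') (add_mem hy (lin_mem f hx'))
    (by rw [map_add, ← lin_d, hx2, e1])
  refine ⟨(y', -x'), ?_⟩
  rw [cone_d, hy', map_neg, map_neg, hx2, neg_neg]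
  refine Prod.ext ?_ rfl
  change y + lin f x' + -lin f x' = y
  abel

/-- The first term of a triangle. -/
lemma cohZero_of_cone' {X Y : DGM Γ} (f : X ⟶ Y) {p q : ℤ} (h : p + 1 = q) (h2 : CohZero Y q)
    (h3 : CohZero (cone f) p) : CohZero X q := by
  intro v x hx hd
  subst h
  obtain ⟨y, hy, hy2⟩ := exists_hom_of_bd Y rfl (lin_mem f hx)
    (h2 v (lin f x) (lin_mem f hx) (by rw [← lin_d, hd, map_zero]))
  obtain ⟨⟨y', x'⟩, h⟩ := h3 v (-y, x) ⟨neg_mem hy, hx⟩ (by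
    rw [cone_d, map_neg, hy2, hd, neg_zero, neg_add_cancel]; rfl)
  rw [cone_d] at h
  exact ⟨-x', by rw [map_neg]; exact congrArg Prod.snd h⟩

variable {T : Triangle (Der Γ)}

lemma cohZero_obj₂ (hT : T ∈ distTriang (Der Γ)) {p : ℤ} (h1 : CohZero (und T.obj₁) p)
    (h3 : CohZero (und T.obj₃) p) : CohZero (und T.obj₂) p := by
  obtain ⟨X, Y, f, ⟨e⟩⟩ := (mem_distTriang_Der_iff T).1 hT
  exact (cohZero_iff_of_iso (Triangle.π₂.mapIso e) p).2
    (cohZero_of_cone f ((cohZero_iff_of_iso (Triangle.π₁.mapIso e) p).1 h1)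
      ((cohZero_iff_of_iso (Triangle.π₃.mapIso e) p).1 h3))

lemma cohZero_obj₃ (hT : T ∈ distTriang (Der Γ)) {p q : ℤ} (h : p + 1 = q)
    (h1 : CohZero (und T.obj₁) q) (h2 : CohZero (und T.obj₂) p) : CohZero (und T.obj₃) p := by
  obtain ⟨X, Y, f, ⟨e⟩⟩ := (mem_distTriang_Der_iff T).1 hT
  exact (cohZero_iff_of_iso (Triangle.π₃.mapIso e) p).2
    (cohZero_cone f h ((cohZero_iff_of_iso (Triangle.π₁.mapIso e) q).1 h1)
      ((cohZero_iff_of_iso (Triangle.π₂.mapIso e) p).1 h2))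

lemma cohZero_obj₁ (hT : T ∈ distTriang (Der Γ)) {p q : ℤ} (h : p + 1 = q)
    (h2 : CohZero (und T.obj₂) q) (h3 : CohZero (und T.obj₃) p) : CohZero (und T.obj₁) q := by
  obtain ⟨X, Y, f, ⟨e⟩⟩ := (mem_distTriang_Der_iff T).1 hT
  exact (cohZero_iff_of_iso (Triangle.π₁.mapIso e) q).2
    (cohZero_of_cone' f h ((cohZero_iff_of_iso (Triangle.π₂.mapIso e) q).1 h2)
      ((cohZero_iff_of_iso (Triangle.π₃.mapIso e) p).1 h3))

end DGM

end GZ
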