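import Mathlib

/-!
# dg modules over a quasi-free dg algebra: basic definitions

`QF k` is a presentation of a quasi-free dg algebra `Γ` over the semisimple ring `k^V`: a graded
quiver (vertices `V`, arrows `A`) together with the differential of each arrow, a linear
combination of paths. A dg `Γ`-module is a `k`-vector space `M` graded by `V × ℤ` with a
differential `d` and operators `act a` (for each arrow `a`) satisfying the Leibniz rule.
-/

open CategoryTheory

namespace GZ

section sign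

/-- the sign `(-1)^n` in the ring `k`. -/
def sg (k : Type) [CommRing k] (n : ℤ) : k := ((n.negOnePow : ℤ) : k)

variable {k : Type} [CommRing k]

@[simp] lemma sg_zero : sg k 0 = 1 := by simp [sg]
@[simp] lemma sg_one : sg k 1 = -1 := by simp [sg]
@[simp] lemma sg_neg_one : sg k (-1) = -1 := by simp [sg]
lemma sg_add (m n : ℤ) : sg k (m + n) = sg k m * sg k n := by
  simp [sg, Int.negOnePow_add]
@[simp] lemma sg_neg (n : ℤ) : sg k (-n) = sg k n := by
  simp [sg, Int.negOnePow_neg]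
lemma sg_sub (m n : ℤ) : sg k (m - n) = sg k m * sg k n := by
  rw [sub_eq_add_neg, sg_add, sg_neg]
@[simp] lemma sg_mul_self (n : ℤ) : sg k n * sg k n = 1 := by
  rw [← sg_add]
  have : (n + n) = 2 * n := by ring
  simp [sg, this, Int.negOnePow_two_mul]
lemma sg_sq (n : ℤ) : sg k n ^ 2 = 1 := by rw [sq, sg_mul_self]
lemma sg_succ (n : ℤ) : sg k (n + 1) = - sg k n := by rw [sg_add, sg_one]; ring
lemma sg_even {n : ℤ} (h : Even n) : sg k n = 1 := by simp [sg, Int.negOnePow_even n h]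
lemma sg_odd {n : ℤ} (h : Odd n) : sg k n = -1 := by simp [sg, Int.negOnePow_odd n h]
lemma sg_eq_one_or (n : ℤ) : sg k n = 1 ∨ sg k n = -1 := by
  rcases Int.even_or_odd n with h | h
  · exact Or.inl (sg_even h)
  · exact Or.inr (sg_odd h)
@[simp] lemma sg_mul_self_smul {M : Type} [AddCommGroup M] [Module k M] (n : ℤ) (x : M) :
    sg k n • sg k n • x = x := by rw [smul_smul, sg_mul_self, one_smul]

end sign

section words

variable {V A : Type}

/-- `w` is a path from `i` to `j`; the path `[a₁, …, aᵣ]` starts with the arrow `aᵣ`. -/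
def IsPath (src tgt : A → V) (i : V) : V → List A → Prop
  | j, [] => i = j
  | j, a :: w => tgt a = j ∧ IsPath src tgt i (src a) w

/-- the degree of a path. -/
def degW (deg : A → ℤ) (w : List A) : ℤ := (w.map deg).sum

@[simp] lemma degW_nil (deg : A → ℤ) : degW deg [] = 0 := rfl
@[simp] lemma degW_cons (deg : A → ℤ) (a : A) (w : List A) :
    degW deg (a :: w) = deg a + degW deg w := rfl
lemma degW_append (deg : A → ℤ) (v w : List A) :
    degW deg (v ++ w) = degW deg v + degW deg w := by simp [degW]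

variable {k : Type} [Field k] {M : Type} [AddCommGroup M] [Module k M]

/-- the action of a path: `[a₁, …, aᵣ]` acts as `a₁ ∘ ⋯ ∘ aᵣ`. -/
def evW (act : A → M →ₗ[k] M) : List A → M →ₗ[k] M
  | [] => LinearMap.id
  | a :: w => act a ∘ₗ evW act w

/-- the action of a linear combination of paths. -/
def evP (act : A → M →ₗ[k] M) (p : List (k × List A)) : M →ₗ[k] M :=
  (p.map fun t => t.1 • evW act t.2).sum

@[simp] lemma evW_nil (act : A → M →ₗ[k] M) : evW act [] = LinearMap.id := rfl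
@[simp] lemma evW_cons (act : A → M →ₗ[k] M) (a : A) (w : List A) (x : M) :
    evW act (a :: w) x = act a (evW act w x) := rfl
lemma evW_append (act : A → M →ₗ[k] M) (v w : List A) (x : M) :
    evW act (v ++ w) x = evW act v (evW act w x) := by
  induction v with
  | nil => rfl
  | cons a v ih => simp [ih]
@[simp] lemma evP_nil (act : A → M →ₗ[k] M) : evP act [] = 0 := rfl
@[simp] lemma evP_cons (act : A → M →ₗ[k] M) (t : k × List A) (p : List (k × List A)) (x : M) :
    evP act (t :: p) x = t.1 • evW act t.2 x + evP act p x := by simp [evP]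
lemma evP_append (act : A → M →ₗ[k] M) (p q : List (k × List A)) (x : M) :
    evP act (p ++ q) x = evP act p x + evP act q x := by
  induction p with
  | nil => simp
  | cons a v ih => simp [ih, add_assoc]

end words

/-- A presentation of a quasi-free dg algebra over `k^V`: a graded quiver with a differential
(homogeneous of degree one and compatible with sources and targets) on each arrow. -/
structure QF (k : Type) [Field k] where
  /-- vertices -/
  V : Type
  /-- arrows -/
  A : Type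
  /-- source -/
  src : A → V
  /-- target -/
  tgt : A → V
  /-- degree -/
  deg : A → ℤ
  /-- the differential of an arrow, a linear combination of paths -/
  diff : A → List (k × List A)
  /-- the paths in the differential of `a` are parallel to `a` -/
  diff_path : ∀ a, ∀ t ∈ diff a, IsPath src tgt (src a) (tgt a) t.2
  /-- the differential has degree one -/
  diff_deg : ∀ a, ∀ t ∈ diff a, degW deg t.2 = deg a + 1

variable {k : Type} [Field k]

/-- A dg module over the dg algebra presented by `Γ`. -/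
structure DGM (Γ : QF k) where
  /-- the underlying vector space -/
  M : Type
  [acg : AddCommGroup M]
  [mod : Module k M]
  /-- the component of degree `n` at the vertex `v` -/
  gr : Γ.V → ℤ → Submodule k M
  /-- the components form a direct sum decomposition -/
  indep : iSupIndep (fun p : Γ.V × ℤ => gr p.1 p.2)
  iSup_eq_top : ⨆ p : Γ.V × ℤ, gr p.1 p.2 = ⊤
  /-- the differential -/
  d : M →ₗ[k] M
  /-- the action of the arrows -/
  act : Γ.A → M →ₗ[k] M
  d_mem : ∀ {v : Γ.V} {p q : ℤ} {x : M}, p + 1 = q → x ∈ gr v p → d x ∈ gr v q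
  d_d : ∀ x, d (d x) = 0
  act_mem : ∀ (a : Γ.A) {p q : ℤ} {x : M}, p + Γ.deg a = q → x ∈ gr (Γ.src a) p →
    act a x ∈ gr (Γ.tgt a) q
  act_zero : ∀ (a : Γ.A) {v : Γ.V} {p : ℤ} {x : M}, v ≠ Γ.src a → x ∈ gr v p → act a x = 0
  /-- the Leibniz rule -/
  leibniz : ∀ a x, d (act a x) = evP act (Γ.diff a) x + sg k (Γ.deg a) • act a (d x)

attribute [instance] DGM.acg DGM.mod

namespace DGM

variable {Γ : QF k}

/-- Induction on homogeneous elements. -/
lemma induction (X : DGM Γ) {P : X.M → Prop} (x : X.M) (hom : ∀ v n y, y ∈ X.gr v n → P y)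
    (zero : P 0) (add : ∀ y z, P y → P z → P (y + z)) : P x := by
  have hx : x ∈ ⨆ p : Γ.V × ℤ, X.gr p.1 p.2 := by rw [X.iSup_eq_top]; trivial
  exact Submodule.iSup_induction _ (motive := P) hx (fun p y hy => hom p.1 p.2 y hy) zero add

/-- Two linear maps that agree on homogeneous elements are equal. -/
lemma ext_hom (X : DGM Γ) {N : Type} [AddCommGroup N] [Module k N] {f g : X.M →ₗ[k] N}
    (h : ∀ v n x, x ∈ X.gr v n → f x = g x) : f = g := by
  ext x
  refine X.induction x h (by simp) ?_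
  intro y z hy hz
  simp [hy, hz]

/-- Linear maps `X → Y` of degree `n` compatible with the vertices. -/
def HomV (X Y : DGM Γ) (n : ℤ) : Submodule k (X.M →ₗ[k] Y.M) where
  carrier := {f | ∀ (v : Γ.V) (p q : ℤ) (x : X.M), p + n = q → x ∈ X.gr v p → f x ∈ Y.gr v q}
  add_mem' := fun ha hb v p q x h hx => add_mem (ha v p q x h hx) (hb v p q x h hx)
  zero_mem' := fun _ _ _ _ _ _ => by simp
  smul_mem' := fun c _ hf v p q x h hx => Submodule.smul_mem _ c (hf v p q x h hx)

/-- `Γ`-linear maps `X → Y` of degree `n`. -/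
def Lin (X Y : DGM Γ) (n : ℤ) : Submodule k (X.M →ₗ[k] Y.M) where
  carrier := {f | f ∈ HomV X Y n ∧ ∀ a x, f (X.act a x) = sg k (n * Γ.deg a) • Y.act a (f x)}
  add_mem' := fun ha hb => ⟨add_mem ha.1 hb.1, fun a x => by
    simp [ha.2, hb.2, smul_add]⟩
  zero_mem' := ⟨zero_mem _, fun _ _ => by simp⟩
  smul_mem' := fun c f hf => ⟨Submodule.smul_mem _ c hf.1, fun a x => by
    simp only [LinearMap.smul_apply, hf.2, map_smul]; rw [smul_comm]⟩

/-- Closed `Γ`-linear maps of degree `0`: the morphisms of dg modules. -/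
def Z0 (X Y : DGM Γ) : Submodule k (X.M →ₗ[k] Y.M) where
  carrier := {f | (∀ (v : Γ.V) (p : ℤ) (x : X.M), x ∈ X.gr v p → f x ∈ Y.gr v p) ∧
    (∀ a x, f (X.act a x) = Y.act a (f x)) ∧ ∀ x, f (X.d x) = Y.d (f x)}
  add_mem' := fun ha hb => ⟨fun v p x hx => add_mem (ha.1 v p x hx) (hb.1 v p x hx),
    fun a x => by simp [ha.2.1, hb.2.1], fun x => by simp [ha.2.2, hb.2.2]⟩
  zero_mem' := ⟨fun _ _ _ _ => by simp, fun _ _ => by simp, fun _ => by simp⟩
  smul_mem' := fun c f hf => ⟨fun v p x hx => Submodule.smul_mem _ c (hf.1 v p x hx),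
    fun a x => by simp [hf.2.1], fun x => by simp [hf.2.2]⟩

/-- Morphisms of dg modules. -/
structure Hom (X Y : DGM Γ) where
  /-- the underlying linear map -/
  f : X.M →ₗ[k] Y.M
  mem : f ∈ Z0 X Y

@[ext] lemma Hom.ext {X Y : DGM Γ} {f g : Hom X Y} (h : f.f = g.f) : f = g := by
  cases f; cases g; cases h; rfl

/-- The category of dg `Γ`-modules. -/
instance : Category (DGM Γ) where
  Hom X Y := Hom X Y
  id X := ⟨LinearMap.id, fun _ _ _ h => h, fun _ _ => rfl, fun _ => rfl⟩
  comp f g := ⟨g.f ∘ₗ f.f, fun v p x h => g.mem.1 v p _ (f.mem.1 v p x h),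
    fun a x => by simp [f.mem.2.1, g.mem.2.1], fun x => by simp [f.mem.2.2, g.mem.2.2]⟩

/-- A morphism of dg modules as a linear map. -/
def lin {X Y : DGM Γ} (f : X ⟶ Y) : X.M →ₗ[k] Y.M := Hom.f f

/-- Construct a morphism of dg modules. -/
def homMk {X Y : DGM Γ} (f : X.M →ₗ[k] Y.M)
    (h1 : ∀ (v : Γ.V) (p : ℤ) (x : X.M), x ∈ X.gr v p → f x ∈ Y.gr v p)
    (h2 : ∀ a x, f (X.act a x) = Y.act a (f x)) (h3 : ∀ x, f (X.d x) = Y.d (f x)) : X ⟶ Y :=
  ⟨f, h1, h2, h3⟩

@[simp] lemma lin_homMk {X Y : DGM Γ} (f : X.M →ₗ[k] Y.M) (h1) (h2) (h3) :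
    lin (homMk (X := X) (Y := Y) f h1 h2 h3) = f := rfl
@[simp] lemma lin_id (X : DGM Γ) : lin (𝟙 X) = LinearMap.id := rfl
@[simp] lemma lin_comp {X Y Z : DGM Γ} (f : X ⟶ Y) (g : Y ⟶ Z) :
    lin (f ≫ g) = lin g ∘ₗ lin f := rfl
lemma lin_id_apply (X : DGM Γ) (x : X.M) : lin (𝟙 X) x = x := rfl
lemma lin_comp_apply {X Y Z : DGM Γ} (f : X ⟶ Y) (g : Y ⟶ Z) (x : X.M) :
    lin (f ≫ g) x = lin g (lin f x) := rfl

@[ext] lemma hom_ext {X Y : DGM Γ} {f g : X ⟶ Y} (h : ∀ x, lin f x = lin g x) : f = g :=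
  Hom.ext (LinearMap.ext h)

lemma lin_mem {X Y : DGM Γ} (f : X ⟶ Y) {v : Γ.V} {p : ℤ} {x : X.M} (hx : x ∈ X.gr v p) :
    lin f x ∈ Y.gr v p := f.mem.1 v p x hx
lemma lin_act {X Y : DGM Γ} (f : X ⟶ Y) (a : Γ.A) (x : X.M) :
    lin f (X.act a x) = Y.act a (lin f x) := f.mem.2.1 a x
lemma lin_d {X Y : DGM Γ} (f : X ⟶ Y) (x : X.M) : lin f (X.d x) = Y.d (lin f x) := f.mem.2.2 x

section
variable {X Y : DGM Γ}

instance : Zero (X ⟶ Y) := ⟨⟨0, zero_mem _⟩⟩
instance : Add (X ⟶ Y) := ⟨fun f g => ⟨lin f + lin g, add_mem f.mem g.mem⟩⟩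
instance : Neg (X ⟶ Y) := ⟨fun f => ⟨- lin f, neg_mem f.mem⟩⟩
instance : Sub (X ⟶ Y) := ⟨fun f g => ⟨lin f - lin g, sub_mem f.mem g.mem⟩⟩
instance : SMul k (X ⟶ Y) := ⟨fun c f => ⟨c • lin f, Submodule.smul_mem _ c f.mem⟩⟩
instance : SMul ℕ (X ⟶ Y) := ⟨fun c f => ⟨c • lin f, nsmul_mem f.mem c⟩⟩
instance : SMul ℤ (X ⟶ Y) := ⟨fun c f => ⟨c • lin f, zsmul_mem f.mem c⟩⟩

@[simp] lemma lin_zero : lin (0 : X ⟶ Y) = 0 := rfl
@[simp] lemma lin_add (f g : X ⟶ Y) : lin (f + g) = lin f + lin g := rfl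
@[simp] lemma lin_neg (f : X ⟶ Y) : lin (-f) = - lin f := rfl
@[simp] lemma lin_sub (f g : X ⟶ Y) : lin (f - g) = lin f - lin g := rfl
@[simp] lemma lin_smul (c : k) (f : X ⟶ Y) : lin (c • f) = c • lin f := rfl

lemma lin_injective : Function.Injective (lin : (X ⟶ Y) → (X.M →ₗ[k] Y.M)) :=
  fun _ _ h => Hom.ext h

instance : AddCommGroup (X ⟶ Y) :=
  Function.Injective.addCommGroup (lin : (X ⟶ Y) → (X.M →ₗ[k] Y.M)) lin_injective rfl
    (fun _ _ => rfl) (fun _ => rfl) (fun _ _ => rfl) (fun _ _ => rfl) (fun _ _ => rfl)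

/-- `lin` as an additive map. -/
def linHom (X Y : DGM Γ) : (X ⟶ Y) →+ (X.M →ₗ[k] Y.M) where
  toFun := lin
  map_zero' := rfl
  map_add' _ _ := rfl

instance : Module k (X ⟶ Y) :=
  Function.Injective.module k (linHom X Y) lin_injective (fun _ _ => rfl)

end

instance : Preadditive (DGM Γ) where
  homGroup _ _ := inferInstance
  add_comp _ _ _ f f' g := by ext x; simp
  comp_add _ _ _ f g g' := by ext x; simp

instance : Linear k (DGM Γ) where
  homModule _ _ := inferInstance
  smul_comp _ _ _ r f g := by ext x; simp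
  comp_smul _ _ _ f r g := by ext x; simp

end DGM

end GZ
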