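import Pool.Agent.Lib_MP_a23b08_g.GOct

/-!
# dg modules: the derived category (MP_a23b08_al, part G)

`Der Γ` is the Verdier quotient of the homotopy category of all dg modules by the acyclic ones.
-/

open CategoryTheory CategoryTheory.Limits CategoryTheory.Pretriangulated

namespace GZ

variable {k : Type} [Field k]

namespace DGM

variable (Γ : QF k)

/-- The acyclic dg modules. -/
def acyc : ObjectProperty (Hot Γ) :=
  fun X => ∀ x : X.as.M, X.as.d x = 0 → ∃ y, X.as.d y = x

variable {Γ}

lemma acyc_quot_iff (X : DGM Γ) :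
    acyc Γ ((quot Γ).obj X) ↔ ∀ x : X.M, X.d x = 0 → ∃ y, X.d y = x := Iff.rfl

instance : (acyc Γ).IsClosedUnderIsomorphisms where
  of_iso := by
    intro X Y e hX y hy
    obtain ⟨X, rfl⟩ := quot_obj_surjective X
    obtain ⟨Y, rfl⟩ := quot_obj_surjective Y
    obtain ⟨f, hf⟩ := (quot Γ).map_surjective e.hom
    obtain ⟨g, hg⟩ := (quot Γ).map_surjective e.inv
    have h : (quot Γ).map (g ≫ f) = (quot Γ).map (𝟙 Y) := by
      rw [Functor.map_comp, hf, hg, e.inv_hom_id, CategoryTheory.Functor.map_id]
    obtain ⟨z, -, hz⟩ := quot_map_eq_iff.1 h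
    change Y.M at y
    change Y.d y = 0 at hy
    obtain ⟨x, hx⟩ := (acyc_quot_iff X).1 hX (lin g y) (by rw [← lin_d, hy, map_zero])
    refine ⟨lin f x - z y, ?_⟩
    have h1 := hz y
    rw [lin_comp_apply, lin_id_apply, hy, map_zero, ← hx, lin_d] at h1
    change Y.d (lin f x - z y) = y
    rw [map_sub, h1]
    abel

instance : (acyc Γ).ContainsZero where
  exists_zero := ⟨(quot Γ).obj (zeroObj Γ), (quot Γ).map_isZero isZero_zeroObj, fun x _ => ⟨x, rfl⟩⟩

instance : (acyc Γ).IsStableUnderShift ℤ where
  isStableUnderShiftBy n :=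
    { le_shift := by
        intro X hX
        obtain ⟨X, rfl⟩ := quot_obj_surjective X
        refine (acyc Γ).prop_of_iso (((quot Γ).commShiftIso n).app X) ?_
        rw [acyc_quot_iff] at hX
        intro x hx
        change X.M at x
        change sg k n • X.d x = 0 at hx
        have hx' : X.d x = 0 := by
          have := congrArg (fun y => sg k n • y) hx
          simpa using this
        obtain ⟨y, hy⟩ := hX x hx'
        refine ⟨(sg k n • y : X.M), ?_⟩
        change sg k n • X.d (sg k n • y) = x
        rw [map_smul, sg_mul_self_smul, hy] }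

instance : (acyc Γ).IsTriangulatedClosed₂ :=
  ObjectProperty.IsTriangulatedClosed₂.mk' (by
    intro T hT h₁ h₃
    obtain ⟨X, Y, f, ⟨e⟩⟩ := (mem_distTriang_iff T).1 hT
    have h₁' := (acyc Γ).prop_of_iso (Triangle.π₁.mapIso e) h₁
    have h₃' := (acyc Γ).prop_of_iso (Triangle.π₃.mapIso e) h₃
    refine (acyc Γ).prop_of_iso (Triangle.π₂.mapIso e).symm ?_
    change acyc Γ ((quot Γ).obj X) at h₁'
    change acyc Γ ((quot Γ).obj (cone f)) at h₃'
    change acyc Γ ((quot Γ).obj Y)
    rw [acyc_quot_iff] at h₁' h₃' ⊢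
    intro y hy
    obtain ⟨⟨y', x'⟩, h⟩ := h₃' (y, 0) (by rw [cone_d, hy, map_zero, map_zero, add_zero, neg_zero]; rfl)
    rw [cone_d] at h
    have h2 : X.d x' = 0 := neg_eq_zero.1 (congrArg Prod.snd h)
    obtain ⟨x'', rfl⟩ := h₁' x' h2
    refine ⟨y' + lin f x'', ?_⟩
    rw [map_add, ← lin_d]
    exact congrArg Prod.fst h)

instance : (acyc Γ).IsTriangulated where

variable (Γ) in
/-- The derived category. -/
def Der := (acyc Γ).trW.Localization

noncomputable instance : Category (Der Γ) := inferInstanceAs (Category (acyc Γ).trW.Localization)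

variable (Γ) in
/-- The localization functor from the homotopy category. -/
noncomputable def Qh : Hot Γ ⥤ Der Γ := (acyc Γ).trW.Q

instance : (Qh Γ).IsLocalization (acyc Γ).trW :=
  inferInstanceAs ((acyc Γ).trW.Q.IsLocalization (acyc Γ).trW)

noncomputable instance : Preadditive (Der Γ) := Localization.preadditive (Qh Γ) (acyc Γ).trW

instance : (Qh Γ).Additive := Localization.functor_additive (Qh Γ) (acyc Γ).trW

instance : HasZeroObject (Der Γ) := (Qh Γ).hasZeroObject_of_additive

noncomputable instance : HasShift (Der Γ) ℤ := HasShift.localized (Qh Γ) (acyc Γ).trW ℤ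

noncomputable instance : (Qh Γ).CommShift ℤ :=
  Functor.CommShift.localized (Qh Γ) (acyc Γ).trW ℤ

instance (n : ℤ) : (CategoryTheory.shiftFunctor (Der Γ) n).Additive := by
  rw [Localization.functor_additive_iff (Qh Γ) (acyc Γ).trW]
  exact Functor.additive_of_iso ((Qh Γ).commShiftIso n)

noncomputable instance : Pretriangulated (Der Γ) :=
  Triangulated.Localization.pretriangulated (Qh Γ) (acyc Γ).trW

instance : (Qh Γ).IsTriangulated :=
  Triangulated.Localization.isTriangulated_functor (Qh Γ) (acyc Γ).trW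

instance : IsTriangulated (Der Γ) :=
  Triangulated.Localization.isTriangulated (Qh Γ) (acyc Γ).trW

noncomputable instance : Linear k (Der Γ) := Localization.linear k (Qh Γ) (acyc Γ).trW

instance : Functor.Linear k (Qh Γ) := Localization.functor_linear k (Qh Γ) (acyc Γ).trW

instance (n : ℤ) : (CategoryTheory.shiftFunctor (Der Γ) n).Linear k :=
  Shift.linear_of_localization k (Qh Γ) (acyc Γ).trW n

variable (Γ) in
/-- The functor from dg modules to the derived category. -/
noncomputable def Q : DGM Γ ⥤ Der Γ := quot Γ ⋙ Qh Γ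

/-- The dg module underlying an object of the derived category. -/
def und (X : Der Γ) : DGM Γ := X.as.obj.as

lemma Q_obj_und (X : Der Γ) : (Q Γ).obj (und X) = X := rfl

lemma und_Q_obj (X : DGM Γ) : und ((Q Γ).obj X) = X := rfl

instance : (Q Γ).Additive := inferInstanceAs ((quot Γ ⋙ Qh Γ).Additive)

instance : Functor.Linear k (Q Γ) := inferInstanceAs (Functor.Linear k (quot Γ ⋙ Qh Γ))

noncomputable instance : (Q Γ).CommShift ℤ := inferInstanceAs ((quot Γ ⋙ Qh Γ).CommShift ℤ)

end DGM

end GZ
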