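import Pool.Agent.Lib_MP_a23b08_g.GNil

/-!
# The triangulated category `Dnil` (MP_a23b08_al, part G)

`Dnil Γ` is the full subcategory of the derived category of all dg modules consisting of the dg
modules with finite-dimensional total cohomology, on which all long paths in the arrows of degree
`0` act as zero.
-/

open CategoryTheory CategoryTheory.Limits CategoryTheory.Pretriangulated

namespace GZ

variable {k : Type} [Field k] {Γ : QF k}

open DGM

variable (Γ) in
/-- The objects of the derived category with finite-dimensional total cohomology, on which long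
paths act as zero. (The condition `Γ.Nice` is only there to have a triangulated subcategory for
all `Γ`, without further hypotheses.) -/
def nilP : ObjectProperty (Der Γ) := fun X => Γ.Nice → IsNil (und X)

lemma nilP_iff (hΓ : Γ.Nice) (X : Der Γ) : nilP Γ X ↔ IsNil (und X) :=
  ⟨fun h => h hΓ, fun h _ => h⟩

lemma nilP_Q_iff (hΓ : Γ.Nice) (X : DGM Γ) : nilP Γ ((Q Γ).obj X) ↔ IsNil X := nilP_iff hΓ _

instance : (nilP Γ).IsClosedUnderIsomorphisms :=
  ⟨fun e hX hΓ => prop_of_iso_of_qis (fun _ _ f hf => isNil_iff_of_qis hΓ f hf) e (hX hΓ)⟩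

instance : (nilP Γ).ContainsZero :=
  ⟨(Q Γ).obj (zeroObj Γ), (Q Γ).map_isZero isZero_zeroObj, fun _ => isNil_zeroObj⟩

instance : (nilP Γ).IsStableUnderShift ℤ where
  isStableUnderShiftBy n :=
    { le_shift := fun X hX => (nilP Γ).prop_of_iso (((Q Γ).commShiftIso n).app (und X))
        (fun hΓ => isNil_sh (hX hΓ) n) }

instance : (nilP Γ).IsTriangulatedClosed₂ :=
  ObjectProperty.IsTriangulatedClosed₂.mk' (by
    intro T hT h₁ h₃
    obtain ⟨X, Y, f, ⟨e⟩⟩ := (mem_distTriang_Der_iff T).1 hT
    refine (nilP Γ).prop_of_iso (Triangle.π₂.mapIso e).symm ?_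
    exact fun hΓ => isNil_of_cone hΓ f ((nilP Γ).prop_of_iso (Triangle.π₁.mapIso e) h₁ hΓ)
      ((nilP Γ).prop_of_iso (Triangle.π₃.mapIso e) h₃ hΓ))

instance : (nilP Γ).IsTriangulated where

variable (Γ) in
/-- The category `Dnil`. All its structures are those of a full triangulated subcategory. -/
abbrev Dnil := (nilP Γ).FullSubcategory

example : IsTriangulated (Dnil Γ) := inferInstance

instance (n : ℤ) : (CategoryTheory.shiftFunctor (nilP Γ).FullSubcategory n).Linear k where
  map_smul := by
    intro X Y f r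
    apply (nilP Γ).ι.map_injective
    rw [← cancel_mono (((nilP Γ).ι.commShiftIso n).hom.app Y),
      Functor.commShiftIso_hom_naturality, Functor.map_smul, Functor.map_smul, Functor.map_smul,
      Linear.smul_comp, Functor.commShiftIso_hom_naturality, Linear.comp_smul]

namespace Dnil

/-- The dg module underlying an object of `Dnil`. -/
def mod (X : Dnil Γ) : DGM Γ := und X.obj

lemma isNil_mod (hΓ : Γ.Nice) (X : Dnil Γ) : IsNil X.mod := X.property hΓ

/-- The object of `Dnil` given by a dg module. -/
noncomputable def of (X : DGM Γ) (hX : IsNil X) : Dnil Γ := ⟨(Q Γ).obj X, fun _ => hX⟩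

lemma ι_obj_of (X : DGM Γ) (hX : IsNil X) : (nilP Γ).ι.obj (of X hX) = (Q Γ).obj X := rfl

lemma of_mod (X : Dnil Γ) (hX : IsNil X.mod) : of X.mod hX = X := rfl

lemma mod_of (X : DGM Γ) (hX : IsNil X) : (of X hX).mod = X := rfl

lemma distinguished_iff (T : Triangle (Dnil Γ)) :
    T ∈ distTriang (Dnil Γ) ↔ (nilP Γ).ι.mapTriangle.obj T ∈ distTriang (Der Γ) := Iff.rfl

end Dnil

end GZ
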