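import Pool.Agent.Lib_MP_a23b08_g.GQ
import Pool.Agent.Lib_MP_a23b08_g.GCls
import Pool.Agent.Lib_MP_a23b08_g.GDnil

/-!
PIECE D10. Invariance under isomorphisms of the derived category; additivity of the Euler
characteristics on distinguished triangles.
-/

open CategoryTheory CategoryTheory.Limits CategoryTheory.Pretriangulated

namespace GZ

variable {k : Type} [Field k]

namespace DGM

variable {Γ : QF k}

/-- Proof: elementary (`clsC_eq_zero_iff`, `clsC_surj`). -/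
theorem isQis_iff_cohMap {X Y : DGM Γ} (f : X ⟶ Y) : IsQis f ↔ Function.Bijective (cohMap f) := by
  rw [← trW_quot_iff, trW_quot_map_iff]

/-- Isomorphic objects are connected by quasi-isomorphisms of dg modules. Proof: `exists_left` for
`e.hom`: `e.hom ≫ Q s = Q g`, so `Q g` is an isomorphism and `g` is a quasi-isomorphism by
`isIso_Q_map_iff`. -/
theorem exists_qis_of_iso {X Y : DGM Γ} (e : (Q Γ).obj X ≅ (Q Γ).obj Y) :
    ∃ (Y' : DGM Γ) (g : X ⟶ Y') (s : Y ⟶ Y'), IsQis g ∧ IsQis s := by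
  obtain ⟨Y', s, g, hs, h⟩ := exists_left e.hom
  refine ⟨Y', g, s, ?_, hs⟩
  have h1 : IsIso ((Q Γ).map s) := isIso_Q_of_isQis s hs
  rw [isQis_iff_cohMap, ← isIso_Q_map_iff, ← h]
  infer_instance

theorem cohZero_qis {X Y : DGM Γ} {f : X ⟶ Y} (hf : IsQis f) (p : ℤ) : CohZero X p ↔ CohZero Y p := by
  constructor
  · intro h v y hy hd
    obtain ⟨x, y', hx, e⟩ := hf.surj y hd
    have e1 : y = lin f (cmp X v p x) + Y.d (cmp Y v (p - 1) y') := by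
      rw [d_cmp Y v (q := p) (by omega), ← cmp_lin, ← map_add, ← e, cmp_of_mem Y hy]
    obtain ⟨x', hx'⟩ := h v (cmp X v p x) (cmp_mem X v p x) (by rw [d_cmp X v rfl, hx, map_zero])
    refine ⟨lin f x' + cmp Y v (p - 1) y', ?_⟩
    rw [map_add, ← lin_d, hx', ← e1]
  · intro h v x hx hd
    refine hf.inj x hd (h v _ (lin_mem f hx) ?_)
    rw [← lin_d, hd, map_zero]

theorem isNil_qis (hΓ : Γ.Nice) {X Y : DGM Γ} {f : X ⟶ Y} (hf : IsQis f) : IsNil X ↔ IsNil Y :=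
  isNil_iff_of_qis hΓ f ((isQis_iff_cohMap f).1 hf)

theorem cohZero_iso {X Y : DGM Γ} (e : (Q Γ).obj X ≅ (Q Γ).obj Y) (p : ℤ) :
    CohZero X p ↔ CohZero Y p := by
  obtain ⟨Y', g, s, hg, hs⟩ := exists_qis_of_iso e
  rw [cohZero_qis hg, cohZero_qis hs]

theorem isNil_iso (hΓ : Γ.Nice) {X Y : DGM Γ} (e : (Q Γ).obj X ≅ (Q Γ).obj Y) :
    IsNil X ↔ IsNil Y := by
  obtain ⟨Y', g, s, hg, hs⟩ := exists_qis_of_iso e
  rw [isNil_qis hΓ hg, isNil_qis hΓ hs]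

theorem eul_iso {X Y : DGM Γ} (e : (Q Γ).obj X ≅ (Q Γ).obj Y) (v : Γ.V) : eul X v = eul Y v := by
  obtain ⟨Y', g, s, hg, hs⟩ := exists_qis_of_iso e
  rw [eul_qis hg, eul_qis hs]

private theorem finite_GEulD {X Y : DGM Γ} (e : (Q Γ).obj X ≅ (Q Γ).obj Y)
    (hX : Module.Finite k (Coh X)) : Module.Finite k (Coh Y) := by
  obtain ⟨Y', g, s, hg, hs⟩ := exists_qis_of_iso e
  have h1 : Module.Finite k (Coh Y') :=
    Module.Finite.equiv (LinearEquiv.ofBijective (cohMap g) ((isQis_iff_cohMap g).1 hg))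
  exact Module.Finite.equiv (LinearEquiv.ofBijective (cohMap s) ((isQis_iff_cohMap s).1 hs)).symm

/-- The cone of a morphism between modules in the subcategory is in it. -/
theorem isNil_cone (hΓ : Γ.Nice) {X Y : DGM Γ} (f : X ⟶ Y) (hX : IsNil X) (hY : IsNil Y) :
    IsNil (cone f) :=
  (nilP_Q_iff hΓ _).1 ((nilP Γ).ext_of_isTriangulatedClosed₃ _ (tri_distinguished f)
    ((nilP_Q_iff hΓ X).2 hX) ((nilP_Q_iff hΓ Y).2 hY))

/-- Additivity. Proof: `exists_tri_iso`, `eul_iso`, `eul_cone`. -/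
theorem eul_triangle {X Y Z : DGM Γ} (f : (Q Γ).obj X ⟶ (Q Γ).obj Y) (g : (Q Γ).obj Y ⟶ (Q Γ).obj Z)
    (h : (Q Γ).obj Z ⟶ ((Q Γ).obj X)⟦(1 : ℤ)⟧) (hT : Triangle.mk f g h ∈ distTriang (Der Γ))
    (hX : IsNil X) (hY : IsNil Y) (v : Γ.V) : eul Y v = eul X v + eul Z v := by
  obtain ⟨X', Y', f', ⟨e⟩⟩ := exists_tri_iso _ hT
  have e1 : (Q Γ).obj X ≅ (Q Γ).obj X' := Triangle.π₁.mapIso e
  have e2 : (Q Γ).obj Y ≅ (Q Γ).obj Y' := Triangle.π₂.mapIso e
  have e3 : (Q Γ).obj Z ≅ (Q Γ).obj (cone f') := Triangle.π₃.mapIso e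
  rw [eul_iso e1, eul_iso e2, eul_iso e3, eul_cone f' (finite_GEulD e1 hX.fin)
    (finite_GEulD e2 hY.fin)]
  ring

end DGM

end GZ
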