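import Pool.Agent.Lib_MP_a23b08_g.GCohF

/-!
# dg modules: objects of the derived category, nilpotent dg modules (MP_a23b08_al, part G)
-/

open CategoryTheory CategoryTheory.Limits CategoryTheory.Pretriangulated

namespace GZ

variable {k : Type} [Field k] {Γ : QF k}

namespace DGM

lemma exists_roof {X Y : DGM Γ} (e : (Q Γ).obj X ⟶ (Q Γ).obj Y) :
    ∃ (Z : DGM Γ) (f : X ⟶ Z) (s : Y ⟶ Z), Function.Bijective (cohMap s) ∧
      e ≫ (Q Γ).map s = (Q Γ).map f := by
  obtain ⟨φ, hφ⟩ := Localization.exists_leftFraction (Qh Γ) (acyc Γ).trW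
    (X := (quot Γ).obj X) (Y := (quot Γ).obj Y) e
  obtain ⟨Z, hZ⟩ := quot_obj_surjective φ.Y'
  rcases φ with @⟨Y', f, s, hs⟩
  obtain rfl : (quot Γ).obj Z = Y' := hZ
  obtain ⟨f, rfl⟩ := (quot Γ).map_surjective f
  obtain ⟨s, rfl⟩ := (quot Γ).map_surjective s
  refine ⟨Z, f, s, (trW_quot_map_iff s).1 hs, ?_⟩
  rw [hφ]
  exact MorphismProperty.LeftFraction.map_comp_map_s _ _ _

/-- A property of dg modules which is invariant under quasi-isomorphisms is invariant under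
isomorphisms in the derived category. -/
lemma prop_of_iso_of_qis {P : DGM Γ → Prop}
    (hP : ∀ (X Y : DGM Γ) (f : X ⟶ Y), Function.Bijective (cohMap f) → (P X ↔ P Y))
    {X Y : Der Γ} (e : X ≅ Y) (hX : P (und X)) : P (und Y) := by
  obtain ⟨Z, f, s, hs, h⟩ := exists_roof (X := und X) (Y := und Y) e.hom
  have hs' : IsIso ((Q Γ).map s) := (isIso_Q_map_iff s).2 hs
  have hf : IsIso ((Q Γ).map f) := by rw [← h]; infer_instance
  exact (hP _ _ s hs).2 ((hP _ _ f ((isIso_Q_map_iff f).1 hf)).1 hX)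

/-- The distinguished triangles of the derived category come from mapping cones. -/
lemma mem_distTriang_Der_iff (T : Triangle (Der Γ)) : T ∈ distTriang (Der Γ) ↔
    ∃ (X Y : DGM Γ) (f : X ⟶ Y), Nonempty (T ≅ (Qh Γ).mapTriangle.obj (trih f)) := by
  constructor
  · rintro ⟨T', e, hT'⟩
    obtain ⟨X, Y, f, ⟨e'⟩⟩ := (mem_distTriang_iff T').1 hT'
    exact ⟨X, Y, f, ⟨e ≪≫ (Qh Γ).mapTriangle.mapIso e'⟩⟩
  · rintro ⟨X, Y, f, ⟨e⟩⟩
    exact Pretriangulated.isomorphic_distinguished _ ((Qh Γ).map_distinguished _ (trih_distinguished f)) _ e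

lemma act_d (hΓ : Γ.Nice) (X : DGM Γ) {a : Γ.A} (ha : Γ.deg a = 0) (x : X.M) :
    X.d (X.act a x) = X.act a (X.d x) := by
  have h0 : Γ.diff a = [] := by
    rcases h : Γ.diff a with _ | ⟨t, p⟩
    · rfl
    · exfalso
      have h1 := Γ.diff_deg a t (by rw [h]; simp)
      have h2 : ∀ w : List Γ.A, degW Γ.deg w ≤ 0 := by
        intro w
        induction w with
        | nil => simp
        | cons b w ih =>
          rw [degW_cons]
          have := hΓ.deg_nonpos b
          omega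
      have := h2 t.2
      omega
  rw [X.leibniz, h0, ha, evP_nil, sg_zero, one_smul, LinearMap.zero_apply, zero_add]

lemma evW_d (hΓ : Γ.Nice) (X : DGM Γ) {w : List Γ.A} (hw : ∀ a ∈ w, Γ.deg a = 0) (x : X.M) :
    X.d (evW X.act w x) = evW X.act w (X.d x) := by
  induction w with
  | nil => rfl
  | cons a w ih =>
    rw [evW_cons, evW_cons, act_d hΓ X (hw a (by simp)),
      ih (fun b hb => hw b (List.mem_cons_of_mem _ hb))]

lemma lin_evW {X Y : DGM Γ} (f : X ⟶ Y) (w : List Γ.A) (x : X.M) :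
    lin f (evW X.act w x) = evW Y.act w (lin f x) := by
  induction w with
  | nil => rfl
  | cons a w ih => rw [evW_cons, evW_cons, lin_act, ih]

lemma isNil_iff_of_qis (hΓ : Γ.Nice) {X Y : DGM Γ} (f : X ⟶ Y)
    (hf : Function.Bijective (cohMap f)) : IsNil X ↔ IsNil Y := by
  have e : Coh X ≃ₗ[k] Coh Y := LinearEquiv.ofBijective (cohMap f) hf
  constructor
  · rintro ⟨h1, N, hN⟩
    refine ⟨Module.Finite.equiv e, N, fun w hw hw' y hy => ?_⟩
    obtain ⟨c, hc⟩ := hf.2 (clsC Y y hy)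
    obtain ⟨x, hx, rfl⟩ := clsC_surj X c
    rw [cohMap_clsC, clsC_eq_iff] at hc
    obtain ⟨y', hy'⟩ := hc
    obtain ⟨x', hx'⟩ := hN w hw hw' x hx
    refine ⟨lin f x' - evW Y.act w y', ?_⟩
    rw [map_sub, ← lin_d, hx', evW_d hΓ Y hw', hy', map_sub, lin_evW]
    abel
  · rintro ⟨h1, N, hN⟩
    refine ⟨Module.Finite.equiv e.symm, N, fun w hw hw' x hx => ?_⟩
    obtain ⟨y, hy⟩ := hN w hw hw' (lin f x) (by rw [← lin_d, hx, map_zero])
    have h2 : X.d (evW X.act w x) = 0 := by rw [evW_d hΓ X hw', hx, map_zero]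
    rw [← clsC_eq_zero_iff X _ h2]
    apply hf.1
    rw [cohMap_clsC, (cohMap f).map_zero, clsC_eq_zero_iff]
    exact ⟨y, by rw [hy, lin_evW]⟩

lemma ker_cohMap_inr {X Y : DGM Γ} (f : X ⟶ Y) :
    LinearMap.ker (cohMap (inr f)) = LinearMap.range (cohMap f) := by
  ext c
  rw [LinearMap.mem_ker, LinearMap.mem_range]
  constructor
  · intro hc
    obtain ⟨y, hy, rfl⟩ := clsC_surj Y c
    rw [cohMap_clsC, clsC_eq_zero_iff] at hc
    obtain ⟨⟨y', x'⟩, h⟩ := hc
    rw [lin_inr_apply, cone_d] at h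
    have e1 : Y.d y' + lin f x' = y := congrArg Prod.fst h
    have e2 : X.d x' = 0 := neg_eq_zero.1 (congrArg Prod.snd h)
    refine ⟨clsC X x' e2, ?_⟩
    rw [cohMap_clsC, clsC_eq_iff]
    exact ⟨-y', by rw [map_neg, ← e1]; abel⟩
  · rintro ⟨c', rfl⟩
    obtain ⟨x, hx, rfl⟩ := clsC_surj X c'
    rw [cohMap_clsC, cohMap_clsC, clsC_eq_zero_iff]
    refine ⟨((0 : Y.M), x), ?_⟩
    rw [lin_inr_apply, cone_d, hx, map_zero, zero_add, neg_zero]

lemma finite_of_exact {M N P : Type} [AddCommGroup M] [Module k M] [AddCommGroup N] [Module k N]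
    [AddCommGroup P] [Module k P] [Module.Finite k M] [Module.Finite k P]
    (f : M →ₗ[k] N) (g : N →ₗ[k] P) (h : LinearMap.ker g = LinearMap.range f) :
    Module.Finite k N := by
  have h1 : Module.Finite k (N ⧸ LinearMap.range f) := by
    rw [← h]
    exact Module.Finite.of_injective _ (LinearMap.ker_eq_bot.1 (Submodule.ker_liftQ_eq_bot _ g
      (le_refl _) (le_refl _)))
  exact Module.Finite.of_submodule_quotient (LinearMap.range f)

lemma isNil_of_cone (hΓ : Γ.Nice) {X Y : DGM Γ} (f : X ⟶ Y) (hX : IsNil X)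
    (hZ : IsNil (cone f)) : IsNil Y := by
  obtain ⟨h1, N₁, hN₁⟩ := hX
  obtain ⟨h3, N₃, hN₃⟩ := hZ
  constructor
  · have := finite_of_exact (cohMap f) (cohMap (inr f)) (by rw [ker_cohMap_inr])
    exact this
  · refine ⟨N₁ + N₃, fun w hw hw' y hy => ?_⟩
    have hsplit : w = w.take N₁ ++ w.drop N₁ := (List.take_append_drop _ _).symm
    have ha : ∀ a ∈ w.take N₁, Γ.deg a = 0 := fun a ha => hw' a (List.mem_of_mem_take ha)
    have hb : ∀ a ∈ w.drop N₁, Γ.deg a = 0 := fun a ha => hw' a (List.mem_of_mem_drop ha)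
    obtain ⟨⟨y', x'⟩, h⟩ := hN₃ (w.drop N₁) (by rw [List.length_drop]; omega) hb (lin (inr f) y)
      (by rw [← lin_d, hy, map_zero])
    rw [← lin_evW, lin_inr_apply, cone_d] at h
    have e1 : Y.d y' + lin f x' = evW Y.act (w.drop N₁) y := congrArg Prod.fst h
    have e2 : X.d x' = 0 := neg_eq_zero.1 (congrArg Prod.snd h)
    obtain ⟨x'', hx''⟩ := hN₁ (w.take N₁) (by rw [List.length_take]; omega) ha x' e2
    refine ⟨evW Y.act (w.take N₁) y' + lin f x'', ?_⟩
    conv_rhs => rw [hsplit, evW_append, ← e1]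
    rw [map_add, map_add, evW_d hΓ Y ha, ← lin_d, hx'', lin_evW]

lemma evW_sh (X : DGM Γ) (n : ℤ) {w : List Γ.A} (hw : ∀ a ∈ w, Γ.deg a = 0) (x : X.M) :
    evW (X.sh n).act w x = evW X.act w x := by
  induction w with
  | nil => rfl
  | cons a w ih =>
    rw [evW_cons, ih (fun b hb => hw b (List.mem_cons_of_mem _ hb)), evW_cons]
    change sg k (n * Γ.deg a) • X.act a _ = _
    rw [hw a (by simp), mul_zero, sg_zero, one_smul]

lemma d_sh_eq_zero_iff (X : DGM Γ) (n : ℤ) (x : X.M) : (X.sh n).d x = 0 ↔ X.d x = 0 := by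
  change sg k n • X.d x = 0 ↔ _
  constructor
  · intro h
    have := congrArg (fun y => sg k n • y) h
    simpa using this
  · intro h
    rw [h, smul_zero]

lemma exists_d_sh_iff (X : DGM Γ) (n : ℤ) (x : X.M) :
    (∃ y, (X.sh n).d y = x) ↔ ∃ y, X.d y = x := by
  constructor
  · rintro ⟨y, hy⟩
    refine ⟨(sg k n • y : X.M), ?_⟩
    rw [map_smul]
    exact hy
  · rintro ⟨y, hy⟩
    refine ⟨(sg k n • y : X.M), ?_⟩
    change sg k n • X.d (sg k n • y) = x
    rw [map_smul, sg_mul_self_smul, hy]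

lemma isNil_sh {X : DGM Γ} (hX : IsNil X) (n : ℤ) : IsNil (X.sh n) := by
  obtain ⟨h1, N, hN⟩ := hX
  constructor
  · let i : ↥(LinearMap.ker X.d) →ₗ[k] ↥(LinearMap.ker (X.sh n).d) :=
      LinearMap.restrict LinearMap.id (fun x hx => (d_sh_eq_zero_iff X n x).2 hx)
    have hi : (LinearMap.range X.d).comap (LinearMap.ker X.d).subtype ≤
        ((LinearMap.range (X.sh n).d).comap (LinearMap.ker (X.sh n).d).subtype).comap i := by
      rintro ⟨x, hx⟩ h
      exact (exists_d_sh_iff X n x).2 h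
    refine Module.Finite.of_surjective (Submodule.mapQ _ _ i hi) ?_
    intro c
    obtain ⟨x, hx, rfl⟩ := clsC_surj (X.sh n) c
    exact ⟨clsC X x ((d_sh_eq_zero_iff X n x).1 hx), rfl⟩
  · refine ⟨N, fun w hw hw' x hx => ?_⟩
    rw [exists_d_sh_iff, evW_sh X n hw']
    exact hN w hw hw' x ((d_sh_eq_zero_iff X n x).1 hx)

lemma isNil_zeroObj : IsNil (zeroObj Γ) := by
  constructor
  · have : Subsingleton (Coh (zeroObj Γ)) := by
      rw [← acyc_iff_subsingleton]
      exact fun x _ => ⟨x, rfl⟩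
    infer_instance
  · exact ⟨0, fun w _ _ x _ => ⟨x, rfl⟩⟩

end DGM

end GZ
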