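import Pool.Agent.Lib_MP_a23b08_g.GDefs

/-!
# The complexes `Φ(X, Y)` computing morphisms in the derived category: definitions

`Φⁿ(X, Y)` consists of the pairs `(h, D)`, `h : X → Y` a `V`-graded linear map of degree `n`, `D` a
derivation `Γ → Hom_k(X, Y)` of degree `n - 1`, given by its values `D a` on the arrows. The
differential is `d(h, D) = ([d, h], [h, -] - ∂D)`.
-/

open CategoryTheory

namespace GZ

variable {k : Type} [Field k]

/-- a formal linear combination of words as a finitely supported function. -/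
noncomputable def toFin {A : Type} (p : List (k × List A)) : List A →₀ k :=
  (p.map fun t => Finsupp.single t.2 t.1).sum

/-- the differential of a path. -/
def dWord (Γ : QF k) : List Γ.A → List (k × List Γ.A)
  | [] => []
  | a :: w => (Γ.diff a).map (fun t => (t.1, t.2 ++ w)) ++
      (dWord Γ w).map (fun t => (sg k (Γ.deg a) * t.1, a :: t.2))

/-- the differential of a linear combination of paths. -/
def dPoly (Γ : QF k) (p : List (k × List Γ.A)) : List (k × List Γ.A) :=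
  p.flatMap fun t => (dWord Γ t.2).map fun s => (t.1 * s.1, s.2)

/-- Conditions on the presentation: finitely many vertices and arrows, all arrows in degrees `≤ 0`,
`d ∘ d = 0`, and no words of length `0` or `1` in the differentials (minimality). -/
structure QF.Nice (Γ : QF k) : Prop where
  finV : Finite Γ.V
  finA : Finite Γ.A
  deg_nonpos : ∀ a, Γ.deg a ≤ 0
  dd : ∀ a, toFin (dPoly Γ (Γ.diff a)) = 0
  minimal : ∀ a, ∀ t ∈ Γ.diff a, 2 ≤ t.2.length

namespace DGM

variable {Γ : QF k}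

/-- Linear maps `X → Y` of degree `n` from the component of the source of `a` to the component
of the target of `a`. -/
def HomA (a : Γ.A) (X Y : DGM Γ) (n : ℤ) : Submodule k (X.M →ₗ[k] Y.M) where
  carrier := {f | (∀ (p q : ℤ) (x : X.M), p + n = q → x ∈ X.gr (Γ.src a) p →
      f x ∈ Y.gr (Γ.tgt a) q) ∧
    ∀ (v : Γ.V) (p : ℤ) (x : X.M), v ≠ Γ.src a → x ∈ X.gr v p → f x = 0}
  add_mem' := fun ha hb => ⟨fun p q x h hx => add_mem (ha.1 p q x h hx) (hb.1 p q x h hx),
    fun v p x hv hx => by simp [ha.2 v p x hv hx, hb.2 v p x hv hx]⟩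
  zero_mem' := ⟨fun _ _ _ _ _ => by simp, fun _ _ _ _ _ => by simp⟩
  smul_mem' := fun c _ hf => ⟨fun p q x h hx => Submodule.smul_mem _ c (hf.1 p q x h hx),
    fun v p x hv hx => by simp [hf.2 v p x hv hx]⟩

/-- The ambient space of the complexes `Φ(X, Y)`. -/
abbrev Amb (X Y : DGM Γ) := (X.M →ₗ[k] Y.M) × (Γ.A → (X.M →ₗ[k] Y.M))

/-- `Φⁿ(X, Y)`. -/
def Phi (X Y : DGM Γ) (n : ℤ) : Submodule k (Amb X Y) where
  carrier := {φ | φ.1 ∈ HomV X Y n ∧ ∀ a, φ.2 a ∈ HomA a X Y (n - 1 + Γ.deg a)}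
  add_mem' := fun ha hb => ⟨add_mem ha.1 hb.1, fun a => add_mem (ha.2 a) (hb.2 a)⟩
  zero_mem' := ⟨zero_mem _, fun _ => zero_mem _⟩
  smul_mem' := fun c _ hf => ⟨Submodule.smul_mem _ c hf.1, fun a => Submodule.smul_mem _ c (hf.2 a)⟩

variable {X Y : DGM Γ}

/-- The value on a path of the derivation of degree `m` with values `D a` on the arrows:
`D(γ γ') = D(γ) γ' + (-1)^(m |γ|) γ D(γ')`. -/
def derW (m : ℤ) (D : Γ.A → (X.M →ₗ[k] Y.M)) : List Γ.A → (X.M →ₗ[k] Y.M)
  | [] => 0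
  | a :: w => D a ∘ₗ evW X.act w + sg k (m * Γ.deg a) • (Y.act a ∘ₗ derW m D w)

/-- The value of a derivation on a linear combination of paths. -/
def derP (m : ℤ) (D : Γ.A → (X.M →ₗ[k] Y.M)) (p : List (k × List Γ.A)) : X.M →ₗ[k] Y.M :=
  (p.map fun t => t.1 • derW m D t.2).sum

@[simp] lemma derW_nil (m : ℤ) (D : Γ.A → (X.M →ₗ[k] Y.M)) : derW m D [] = 0 := rfl
lemma derW_cons (m : ℤ) (D : Γ.A → (X.M →ₗ[k] Y.M)) (a : Γ.A) (w : List Γ.A) (x : X.M) :
    derW m D (a :: w) x =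
      D a (evW X.act w x) + sg k (m * Γ.deg a) • Y.act a (derW m D w x) := rfl
@[simp] lemma derP_nil (m : ℤ) (D : Γ.A → (X.M →ₗ[k] Y.M)) : derP m D [] = 0 := rfl
lemma derP_cons (m : ℤ) (D : Γ.A → (X.M →ₗ[k] Y.M)) (t : k × List Γ.A) (p : List (k × List Γ.A)) :
    derP m D (t :: p) = t.1 • derW m D t.2 + derP m D p := by simp [derP]
lemma derP_cons_apply (m : ℤ) (D : Γ.A → (X.M →ₗ[k] Y.M)) (t : k × List Γ.A)
    (p : List (k × List Γ.A)) (x : X.M) :
    derP m D (t :: p) x = t.1 • derW m D t.2 x + derP m D p x := by simp [derP]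

lemma derW_add (m : ℤ) (D E : Γ.A → (X.M →ₗ[k] Y.M)) (w : List Γ.A) :
    derW m (D + E) w = derW m D w + derW m E w := by
  induction w with
  | nil => simp
  | cons a w ih =>
    ext x
    simp only [derW_cons, ih, Pi.add_apply, LinearMap.add_apply, map_add, smul_add]
    abel
lemma derW_smul (m : ℤ) (c : k) (D : Γ.A → (X.M →ₗ[k] Y.M)) (w : List Γ.A) :
    derW m (c • D) w = c • derW m D w := by
  induction w with
  | nil => simp
  | cons a w ih =>
    ext x
    simp only [derW_cons, ih, Pi.smul_apply, LinearMap.smul_apply, map_smul, smul_add]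
    rw [smul_comm c]
lemma derP_add (m : ℤ) (D E : Γ.A → (X.M →ₗ[k] Y.M)) (p : List (k × List Γ.A)) :
    derP m (D + E) p = derP m D p + derP m E p := by
  induction p with
  | nil => simp
  | cons a w ih =>
    simp only [derP_cons, ih, derW_add, smul_add]
    abel
lemma derP_smul (m : ℤ) (c : k) (D : Γ.A → (X.M →ₗ[k] Y.M)) (p : List (k × List Γ.A)) :
    derP m (c • D) p = c • derP m D p := by
  induction p with
  | nil => simp
  | cons a w ih =>
    simp only [derP_cons, ih, derW_smul, smul_add]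
    rw [smul_comm c]

/-- The differential `∂` of a derivation of degree `m`:
`(∂D)(γ) = [d, D(γ)] - (-1)^m D(dγ)`. -/
def bd (m : ℤ) (D : Γ.A → (X.M →ₗ[k] Y.M)) (a : Γ.A) : X.M →ₗ[k] Y.M :=
  Y.d ∘ₗ D a - sg k (m + Γ.deg a) • (D a ∘ₗ X.d) - sg k m • derP m D (Γ.diff a)

/-- The inner derivation `[h, -]` of a linear map of degree `n`. -/
def inn (n : ℤ) (h : X.M →ₗ[k] Y.M) (a : Γ.A) : X.M →ₗ[k] Y.M :=
  h ∘ₗ X.act a - sg k (n * Γ.deg a) • (Y.act a ∘ₗ h)

/-- The differential of a linear map of degree `n`. -/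
def dH (n : ℤ) (h : X.M →ₗ[k] Y.M) : X.M →ₗ[k] Y.M := Y.d ∘ₗ h - sg k n • (h ∘ₗ X.d)

lemma bd_apply (m : ℤ) (D : Γ.A → (X.M →ₗ[k] Y.M)) (a : Γ.A) (x : X.M) :
    bd m D a x = Y.d (D a x) - sg k (m + Γ.deg a) • D a (X.d x) -
      sg k m • derP m D (Γ.diff a) x := rfl
lemma inn_apply (n : ℤ) (h : X.M →ₗ[k] Y.M) (a : Γ.A) (x : X.M) :
    inn n h a x = h (X.act a x) - sg k (n * Γ.deg a) • Y.act a (h x) := rfl
lemma dH_apply (n : ℤ) (h : X.M →ₗ[k] Y.M) (x : X.M) :
    dH n h x = Y.d (h x) - sg k n • h (X.d x) := rfl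

lemma bd_add (m : ℤ) (D E : Γ.A → (X.M →ₗ[k] Y.M)) : bd m (D + E) = bd m D + bd m E := by
  ext a x
  simp only [bd_apply, Pi.add_apply, LinearMap.add_apply, map_add, smul_add, derP_add]
  abel
lemma bd_smul (m : ℤ) (c : k) (D : Γ.A → (X.M →ₗ[k] Y.M)) : bd m (c • D) = c • bd m D := by
  ext a x
  simp only [bd_apply, Pi.smul_apply, LinearMap.smul_apply, map_smul, smul_sub, derP_smul]
  rw [smul_comm c, smul_comm c]
lemma inn_add (n : ℤ) (h h' : X.M →ₗ[k] Y.M) : inn n (h + h') = inn n h + inn n h' := by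
  ext a x
  simp only [inn_apply, Pi.add_apply, LinearMap.add_apply, map_add, smul_add]
  abel
lemma inn_smul (n : ℤ) (c : k) (h : X.M →ₗ[k] Y.M) : inn n (c • h) = c • inn n h := by
  ext a x
  simp only [inn_apply, Pi.smul_apply, LinearMap.smul_apply, map_smul, smul_sub]
  rw [smul_comm c]
lemma dH_add (n : ℤ) (h h' : X.M →ₗ[k] Y.M) : dH n (h + h') = dH n h + dH n h' := by
  ext x
  simp only [dH_apply, LinearMap.add_apply, map_add, smul_add]
  abel
lemma dH_smul (n : ℤ) (c : k) (h : X.M →ₗ[k] Y.M) : dH n (c • h) = c • dH n h := by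
  ext x
  simp only [dH_apply, LinearMap.smul_apply, map_smul, smul_sub]
  rw [smul_comm c]

/-- The differential of `Φ(X, Y)` in degree `n`. -/
def dPhi (n : ℤ) : Amb X Y →ₗ[k] Amb X Y where
  toFun φ := (dH n φ.1, inn n φ.1 - bd (n - 1) φ.2)
  map_add' φ ψ := by
    ext1
    · simp [dH_add]
    · simp only [Prod.fst_add, Prod.snd_add, inn_add, bd_add]; abel
  map_smul' c φ := by
    ext1
    · simp [dH_smul]
    · simp only [Prod.smul_fst, Prod.smul_snd, inn_smul, bd_smul, RingHom.id_apply, smul_sub]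

lemma dPhi_apply (n : ℤ) (φ : Amb X Y) :
    dPhi n φ = (dH n φ.1, inn n φ.1 - bd (n - 1) φ.2) := rfl

variable (X Y)

/-- The cocycles of degree `n` of `Φ(X, Y)`. -/
def ZPhi (n : ℤ) : Submodule k (Amb X Y) := Phi X Y n ⊓ LinearMap.ker (dPhi n)

/-- The coboundaries of degree `n` of `Φ(X, Y)`. -/
def BPhi (n : ℤ) : Submodule k (Amb X Y) := (Phi X Y (n - 1)).map (dPhi (n - 1))

/-- The cohomology `Hⁿ Φ(X, Y)`. -/
abbrev HPhi (n : ℤ) : Type := ↥(ZPhi X Y n) ⧸ (BPhi X Y n).comap (ZPhi X Y n).subtype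

end DGM

end GZ
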