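import Pool.Agent.Lib_MP_a23b08_g.GCoh
import Pool.Agent.Lib_MP_a23b08_g.GPhiDefs
import Pool.Agent.Lib_MP_a23b08_g.GNil
import Pool.Agent.Lib_MP_a23b08_al.QP
import Pool.Agent.Lib_MP_a23b08_al.Core

/-!
PIECE D9. The `Φ` complexes between simple modules.
-/

open CategoryTheory

namespace GZ

variable {k : Type} [Field k]

namespace DGM

variable {Γ : QF k}

private theorem derW_Sm_zero (hΓ : Γ.Nice) (i j : Γ.V) (m : ℤ)
    (D : Γ.A → ((Sm hΓ i).M →ₗ[k] (Sm hΓ j).M)) (w : List Γ.A) (hw : 2 ≤ w.length)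
    (x : (Sm hΓ i).M) : derW m D w x = 0 := by
  match w, hw with
  | a :: b :: w, _ =>
    rw [derW_cons]
    have h1 : evW (Sm hΓ i).act (b :: w) x = 0 := evW_zero_act (by simp) x
    have h2 : (Sm hΓ j).act a (derW m D (b :: w) x) = 0 := rfl
    rw [h1, h2, map_zero, smul_zero, add_zero]

private theorem derP_Sm_zero (hΓ : Γ.Nice) (i j : Γ.V) (m : ℤ)
    (D : Γ.A → ((Sm hΓ i).M →ₗ[k] (Sm hΓ j).M)) (p : List (k × List Γ.A))
    (hp : ∀ t ∈ p, 2 ≤ t.2.length) (x : (Sm hΓ i).M) : derP m D p x = 0 := by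
  induction p with
  | nil => simp
  | cons t p ih =>
    rw [derP_cons_apply, ih (fun t' ht' => hp t' (List.mem_cons_of_mem _ ht')),
      derW_Sm_zero hΓ i j m D t.2 (hp t (by simp)), smul_zero, add_zero]

/-- The differential is zero. Proof: `d = 0` and `act a = 0` on `Sm`; `derW m D w = 0` for words of
length `≥ 2` (`derW_cons`, `evW_zero_act`) and `hΓ.minimal`. -/
theorem dPhi_Sm (hΓ : Γ.Nice) (i j : Γ.V) (n : ℤ) (φ : Amb (Sm hΓ i) (Sm hΓ j)) :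
    dPhi n φ = 0 := by
  rw [dPhi_apply]
  have h1 : dH n φ.1 = 0 := by
    apply LinearMap.ext
    intro x
    rw [dH_apply]
    have e1 : (Sm hΓ j).d (φ.1 x) = 0 := rfl
    have e2 : (Sm hΓ i).d x = 0 := rfl
    rw [e1, e2, map_zero, smul_zero, sub_zero]
  have h2 : inn n φ.1 = 0 := by
    funext a
    apply LinearMap.ext
    intro x
    rw [inn_apply]
    have e1 : (Sm hΓ j).act a (φ.1 x) = 0 := rfl
    have e2 : (Sm hΓ i).act a x = 0 := rfl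
    rw [e1, e2, map_zero, smul_zero, sub_zero]
    rfl
  have h3 : bd (n - 1) φ.2 = 0 := by
    funext a
    apply LinearMap.ext
    intro x
    rw [bd_apply, derP_Sm_zero hΓ i j _ _ _ (hΓ.minimal a)]
    have e1 : (Sm hΓ j).d (φ.2 a x) = 0 := rfl
    have e2 : (Sm hΓ i).d x = 0 := rfl
    rw [e1, e2, map_zero, smul_zero, smul_zero, sub_zero, sub_zero]
    rfl
  rw [h1, h2, h3, sub_zero]
  rfl

private theorem apply_eq_Sm {f : k →ₗ[k] k} {x : k} (h : f x ≠ 0) : x ≠ 0 ∧ f 1 ≠ 0 := by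
  have h1 : f x = x • f 1 := by rw [← map_smul, smul_eq_mul, mul_one]
  rw [h1, smul_eq_mul] at h
  exact ⟨left_ne_zero_of_mul h, right_ne_zero_of_mul h⟩

private theorem mem_HomV_Sm (hΓ : Γ.Nice) (i j : Γ.V) (n : ℤ) (f : k →ₗ[k] k) :
    (f : (Sm hΓ i).M →ₗ[k] (Sm hΓ j).M) ∈ HomV (Sm hΓ i) (Sm hΓ j) n ↔
      (f 1 ≠ 0 → i = j ∧ n = 0) := by
  constructor
  · intro h h1
    have := h i 0 n (1 : k) (by simp) (fun _ => ⟨rfl, rfl⟩) h1
    exact this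
  · intro h v p q x hpq hx hf
    obtain ⟨hx0, hf1⟩ := apply_eq_Sm hf
    obtain ⟨e1, e2⟩ := h hf1
    obtain ⟨e3, e4⟩ := hx hx0
    refine ⟨e3.trans e1, ?_⟩
    omega

private theorem mem_HomA_Sm (hΓ : Γ.Nice) (i j : Γ.V) (a : Γ.A) (m : ℤ) (f : k →ₗ[k] k) :
    (f : (Sm hΓ i).M →ₗ[k] (Sm hΓ j).M) ∈ HomA a (Sm hΓ i) (Sm hΓ j) m ↔
      (f 1 ≠ 0 → Γ.src a = i ∧ Γ.tgt a = j ∧ m = 0) := by
  constructor
  · rintro ⟨ha, hb⟩ h1
    have h2 : Γ.src a = i := by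
      by_contra h3
      exact h1 (hb i 0 (1 : k) (fun h => h3 h.symm) (fun _ => ⟨rfl, rfl⟩))
    have h4 := ha 0 m (1 : k) (by simp) (fun _ => ⟨h2, rfl⟩) h1
    exact ⟨h2, h4⟩
  · intro h
    constructor
    · intro p q x hpq hx hf
      obtain ⟨hx0, hf1⟩ := apply_eq_Sm hf
      obtain ⟨e1, e2, e5⟩ := h hf1
      obtain ⟨e3, e4⟩ := hx hx0
      refine ⟨e2, ?_⟩
      omega
    · intro v p x hv hx
      by_contra hf
      obtain ⟨hx0, hf1⟩ := apply_eq_Sm hf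
      obtain ⟨e1, e2, e5⟩ := h hf1
      obtain ⟨e3, e4⟩ := hx hx0
      exact hv (e3.trans e1.symm)

/-- The cocycles as functions. -/
private def toFunS (hΓ : Γ.Nice) (i j : Γ.V) (n : ℤ) :
    ↥(Phi (Sm hΓ i) (Sm hΓ j) n) →ₗ[k] (({_u : Unit // i = j ∧ n = 0} → k) ×
      ({a : Γ.A // Γ.src a = i ∧ Γ.tgt a = j ∧ n + Γ.deg a = 1} → k)) where
  toFun φ := (fun _ => (φ.1.1 : k →ₗ[k] k) 1, fun a => (φ.1.2 a.1 : k →ₗ[k] k) 1)
  map_add' _ _ := rfl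
  map_smul' _ _ := rfl

private theorem toFunS_inj (hΓ : Γ.Nice) (i j : Γ.V) (n : ℤ) :
    Function.Injective (toFunS hΓ i j n) := by
  rw [← LinearMap.ker_eq_bot, LinearMap.ker_eq_bot']
  rintro ⟨⟨h, D⟩, hh, hD⟩ h0
  have h1 := congrArg Prod.fst h0
  have h2 := congrArg Prod.snd h0
  have k1 : h = 0 := by
    apply LinearMap.ext_ring
    by_contra hne
    have h3 := (mem_HomV_Sm hΓ i j n h).1 hh hne
    exact hne (congrFun h1 ⟨(), h3⟩)
  have k2 : D = 0 := by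
    funext a
    apply LinearMap.ext_ring
    by_contra hne
    obtain ⟨e1, e2, e3⟩ := (mem_HomA_Sm hΓ i j a _ (D a)).1 (hD a) hne
    exact hne (congrFun h2 ⟨a, e1, e2, by omega⟩)
  subst k1 k2
  rfl

private theorem toFunS_surj (hΓ : Γ.Nice) (i j : Γ.V) (n : ℤ) :
    Function.Surjective (toFunS hΓ i j n) := by
  classical
  rintro ⟨u, v⟩
  let h : k →ₗ[k] k := if h : i = j ∧ n = 0 then u ⟨(), h⟩ • LinearMap.id else 0
  let D : Γ.A → (k →ₗ[k] k) := fun a =>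
    if h : Γ.src a = i ∧ Γ.tgt a = j ∧ n + Γ.deg a = 1 then v ⟨a, h⟩ • LinearMap.id else 0
  have hh : (h : (Sm hΓ i).M →ₗ[k] (Sm hΓ j).M) ∈ HomV (Sm hΓ i) (Sm hΓ j) n := by
    rw [mem_HomV_Sm]
    intro hne
    by_contra hc
    apply hne
    simp [h, hc]
  have hD : ∀ a, (D a : (Sm hΓ i).M →ₗ[k] (Sm hΓ j).M) ∈
      HomA a (Sm hΓ i) (Sm hΓ j) (n - 1 + Γ.deg a) := by
    intro a
    rw [mem_HomA_Sm]
    intro hne
    by_contra hc
    apply hne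
    have hc' : ¬(Γ.src a = i ∧ Γ.tgt a = j ∧ n + Γ.deg a = 1) := by
      rintro ⟨e1, e2, e3⟩
      exact hc ⟨e1, e2, by omega⟩
    simp only [D]
    rw [dif_neg hc']
    rfl
  refine ⟨⟨(h, D), hh, hD⟩, Prod.ext ?_ ?_⟩
  · funext x
    obtain ⟨x, hx⟩ := x
    change h 1 = u ⟨x, hx⟩
    simp only [h]
    rw [dif_pos hx]
    simp
  · funext a
    obtain ⟨a, ha⟩ := a
    change D a 1 = v ⟨a, ha⟩
    simp only [D]
    rw [dif_pos ha]
    simp

private theorem ZPhi_Sm (hΓ : Γ.Nice) (i j : Γ.V) (n : ℤ) :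
    ZPhi (Sm hΓ i) (Sm hΓ j) n = Phi (Sm hΓ i) (Sm hΓ j) n := by
  refine le_antisymm inf_le_left (le_inf le_rfl ?_)
  intro φ _
  exact dPhi_Sm hΓ i j n φ

private theorem BPhi_Sm (hΓ : Γ.Nice) (i j : Γ.V) (n : ℤ) :
    BPhi (Sm hΓ i) (Sm hΓ j) n = ⊥ := by
  rw [eq_bot_iff]
  rintro _ ⟨φ, -, rfl⟩
  exact dPhi_Sm hΓ i j _ φ

private theorem comap_Sm (hΓ : Γ.Nice) (i j : Γ.V) (n : ℤ) :
    (BPhi (Sm hΓ i) (Sm hΓ j) n).comap (ZPhi (Sm hΓ i) (Sm hΓ j) n).subtype = ⊥ := by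
  rw [BPhi_Sm, Submodule.comap_bot, Submodule.ker_subtype]

/-- Proof. A linear map `k → k` in `HomV (Sm i) (Sm j) n` is zero unless `i = j` and `n = 0`, in
`HomA a (Sm i) (Sm j) m` it is zero unless `src a = i`, `tgt a = j`, `m = 0`. So
`HPhi ≅ Phi (Sm i) (Sm j) n ≅ (k if i = j, n = 0) × (functions on the arrows a : i → j of degree 1 - n)`. -/
theorem finrank_HPhi_Sm (hΓ : Γ.Nice) (i j : Γ.V) (n : ℤ) :
    Module.finrank k (HPhi (Sm hΓ i) (Sm hΓ j) n) =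
      Nat.card {_u : Unit // i = j ∧ n = 0} +
        Nat.card {a : Γ.A // Γ.src a = i ∧ Γ.tgt a = j ∧ n + Γ.deg a = 1} := by
  have := hΓ.finA
  have e1 := (Submodule.quotEquivOfEqBot _ (comap_Sm hΓ i j n)).finrank_eq
  have e2 := (LinearEquiv.ofEq _ _ (ZPhi_Sm hΓ i j n)).finrank_eq
  have e3 := (LinearEquiv.ofBijective (toFunS hΓ i j n)
    ⟨toFunS_inj hΓ i j n, toFunS_surj hΓ i j n⟩).finrank_eq
  have := Fintype.ofFinite {_u : Unit // i = j ∧ n = 0}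
  have := Fintype.ofFinite {a : Γ.A // Γ.src a = i ∧ Γ.tgt a = j ∧ n + Γ.deg a = 1}
  rw [e1, e2, e3, Module.finrank_prod, Module.finrank_fintype_fun_eq_card,
    Module.finrank_fintype_fun_eq_card, Nat.card_eq_fintype_card, Nat.card_eq_fintype_card]

/-- The case of a Ginzburg algebra: degree `1`. -/
theorem finrank_HPhi_Sm_one {P : QP k} (hP : (ginz P).Nice) (i j : P.V) :
    Module.finrank k (HPhi (Sm hP i) (Sm hP j) 1) =
      (Finset.univ.filter fun a : P.A => P.src a = i ∧ P.tgt a = j).card := by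
  rw [finrank_HPhi_Sm]
  have h1 : Nat.card {_u : Unit // i = j ∧ (1 : ℤ) = 0} = 0 := by
    rw [Nat.card_eq_zero]
    left
    exact ⟨fun x => absurd x.2.2 one_ne_zero⟩
  have h2 : Nat.card {a : (ginz P).A // (ginz P).src a = i ∧ (ginz P).tgt a = j ∧
      1 + (ginz P).deg a = 1} = Nat.card {a : P.A // P.src a = i ∧ P.tgt a = j} := by
    refine (Nat.card_congr (Equiv.ofBijective (fun a => ⟨Gen.arr a.1, a.2.1, a.2.2, rfl⟩)
      ⟨?_, ?_⟩)).symm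
    · rintro ⟨a, ha⟩ ⟨b, hb⟩ h
      have h3 : (Gen.arr a : Gen P.V P.A) = Gen.arr b := congrArg Subtype.val h
      exact Subtype.ext (Gen.arr.inj h3)
    · rintro ⟨a, h1, h2, h3⟩
      cases a with
      | arr a => exact ⟨⟨a, h1, h2⟩, rfl⟩
      | star a =>
        have h4 : (1 : ℤ) + (-1) = 1 := h3
        omega
      | loop v =>
        have h4 : (1 : ℤ) + (-2) = 1 := h3
        omega
  erw [h1, h2]
  rw [Nat.card_eq_fintype_card, Fintype.card_subtype, zero_add]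

private theorem card_arr_Sm (hΓ : Γ.Nice) (i j : Γ.V) {n : ℤ} (hn : n ≤ 0) :
    Nat.card {a : Γ.A // Γ.src a = i ∧ Γ.tgt a = j ∧ n + Γ.deg a = 1} = 0 := by
  rw [Nat.card_eq_zero]
  left
  refine ⟨fun x => ?_⟩
  have h1 := x.2.2.2
  have h2 := hΓ.deg_nonpos x.1
  omega

/-- Negative degrees. Proof: `n + deg a = 1`, `deg a ≤ 0` force `n ≥ 1`. -/
theorem finrank_HPhi_Sm_neg (hΓ : Γ.Nice) (i j : Γ.V) {n : ℤ} (hn : n < 0) :
    Module.finrank k (HPhi (Sm hΓ i) (Sm hΓ j) n) = 0 := by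
  rw [finrank_HPhi_Sm, card_arr_Sm hΓ i j hn.le, add_zero, Nat.card_eq_zero]
  left
  exact ⟨fun x => absurd x.2.2 hn.ne⟩

theorem finrank_HPhi_Sm_zero_self (hΓ : Γ.Nice) (i : Γ.V) :
    Module.finrank k (HPhi (Sm hΓ i) (Sm hΓ i) 0) = 1 := by
  rw [finrank_HPhi_Sm, card_arr_Sm hΓ i i le_rfl, add_zero, Nat.card_eq_one_iff_unique]
  exact ⟨⟨fun x y => Subtype.ext (Subsingleton.elim _ _)⟩, ⟨⟨(), rfl, rfl⟩⟩⟩

theorem finrank_HPhi_Sm_zero_ne (hΓ : Γ.Nice) {i j : Γ.V} (h : i ≠ j) :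
    Module.finrank k (HPhi (Sm hΓ i) (Sm hΓ j) 0) = 0 := by
  rw [finrank_HPhi_Sm, card_arr_Sm hΓ i j le_rfl, add_zero, Nat.card_eq_zero]
  left
  exact ⟨fun x => absurd x.2.1 h⟩

theorem finite_HPhi_Sm (hΓ : Γ.Nice) (i j : Γ.V) (n : ℤ) :
    Module.Finite k (HPhi (Sm hΓ i) (Sm hΓ j) n) := by
  have := hΓ.finA
  have : Module.Finite k (Amb (Sm hΓ i) (Sm hΓ j)) :=
    inferInstanceAs (Module.Finite k ((k →ₗ[k] k) × (Γ.A → (k →ₗ[k] k))))
  infer_instance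

theorem isNil_Sm (hΓ : Γ.Nice) (i : Γ.V) : IsNil (Sm hΓ i) := by
  constructor
  · have : Module.Finite k (Sm hΓ i).M := inferInstanceAs (Module.Finite k k)
    infer_instance
  · refine ⟨1, fun w hw _ x _ => ⟨0, ?_⟩⟩
    have h1 : evW (Sm hΓ i).act w x = 0 := evW_zero_act (by rintro rfl; simp at hw) x
    rw [h1, map_zero]

end DGM

private theorem torus_card_aux : ∀ i j : Fin 6, ((Finset.univ.filter fun a : Fin 12 =>
    (![0, 2, 3, 1, 4, 2, 0, 5, 4, 1, 3, 5] : Fin 12 → Fin 6) a = i ∧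
      (![2, 3, 0, 4, 2, 1, 5, 4, 0, 3, 5, 1] : Fin 12 → Fin 6) a = j).card : ℤ) =
      max (MPa23.B0 i j) 0 := by decide

/-- The number of arrows of the quiver of the torus. -/
theorem torus_card (i j : Fin 6) :
    ((Finset.univ.filter fun a : (torus k).A => (torus k).src a = i ∧ (torus k).tgt a = j).card : ℤ) =
      max (MPa23.B0 i j) 0 := torus_card_aux i j

end GZ
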