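import Pool.Agent.Lib_MP_a23b08_g.GTheta

/-!
PIECE D4. Modules concentrated in degree `0`: morphisms in the derived category are morphisms of
modules.
-/

open CategoryTheory

namespace GZ

namespace DGM

variable {k : Type} [Field k] {Γ : QF k}

/-- The module is concentrated in degree `0`. -/
def Deg0 (X : DGM Γ) : Prop := ∀ (v : Γ.V) (p : ℤ), p ≠ 0 → ∀ x ∈ X.gr v p, x = 0

/-- Proof: a linear map of degree `m ≠ 0` in `HomV X Y m` vanishes on all homogeneous elements. -/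
theorem homV_eq_zero_of_deg0 {X Y : DGM Γ} (hX : Deg0 X) (hY : Deg0 Y) {m : ℤ} (hm : m ≠ 0)
    {f : X.M →ₗ[k] Y.M} (hf : f ∈ HomV X Y m) : f = 0 := by
  refine X.ext_hom fun v p x hx => ?_
  rw [LinearMap.zero_apply]
  by_cases hp : p = 0
  · subst hp
    exact hY v m hm _ (hf v 0 m x (zero_add m) hx)
  · rw [hX v p hp x hx, map_zero]

theorem homA_eq_zero_of_deg0 {X Y : DGM Γ} (hX : Deg0 X) (hY : Deg0 Y) {m : ℤ} (hm : m ≠ 0)
    {a : Γ.A} {f : X.M →ₗ[k] Y.M} (hf : f ∈ HomA a X Y m) : f = 0 := by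
  refine X.ext_hom fun v p x hx => ?_
  rw [LinearMap.zero_apply]
  by_cases hp : p = 0
  · subst hp
    by_cases hv : v = Γ.src a
    · subst hv
      exact hY _ m hm _ (hf.1 0 m x (zero_add m) hx)
    · exact hf.2 v 0 x hv hx
  · rw [hX v p hp x hx, map_zero]

theorem phi_eq_zero_of_deg0 (hΓ : Γ.Nice) {X Y : DGM Γ} (hX : Deg0 X) (hY : Deg0 Y) {n : ℤ}
    (hn : n < 0) {φ : Amb X Y} (hφ : φ ∈ Phi X Y n) : φ = 0 := by
  refine Prod.ext (homV_eq_zero_of_deg0 hX hY hn.ne hφ.1) (funext fun a => ?_)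
  have h := hΓ.deg_nonpos a
  exact homA_eq_zero_of_deg0 hX hY (by omega) (hφ.2 a)

/-- Proof: `φ.2 = 0` (degrees `-1 + deg a < 0`), and `dPhi 0 (h, 0) = 0` says that `h` commutes with
`d` and the arrows. -/
theorem exists_hom_of_deg0 (hΓ : Γ.Nice) {X Y : DGM Γ} (hX : Deg0 X) (hY : Deg0 Y)
    {φ : Amb X Y} (hφ : φ ∈ ZPhi X Y 0) : ∃ f : X ⟶ Y, φ = (lin f, 0) := by
  obtain ⟨h1, h2⟩ := hφ
  have h2' : dPhi 0 φ = 0 := h2
  have h3 : φ.2 = 0 := by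
    funext a
    have h := hΓ.deg_nonpos a
    exact homA_eq_zero_of_deg0 hX hY (by omega) (h1.2 a)
  rw [dPhi_apply, h3] at h2'
  have hb : bd (X := X) (Y := Y) (0 - 1) (0 : Γ.A → (X.M →ₗ[k] Y.M)) = 0 := by
    have h := bd_smul (X := X) (Y := Y) (0 - 1) (0 : k) (0 : Γ.A → (X.M →ₗ[k] Y.M))
    rw [zero_smul, zero_smul] at h
    exact h
  rw [hb, sub_zero] at h2'
  have h4 : dH 0 φ.1 = 0 := congrArg Prod.fst h2'
  have h5 : inn 0 φ.1 = 0 := congrArg Prod.snd h2'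
  refine ⟨homMk φ.1 (fun v p x hx => h1.1 v p p x (add_zero p) hx) (fun a x => ?_)
    (fun x => ?_), Prod.ext rfl h3⟩
  · have h6 : inn 0 φ.1 a x = 0 := by rw [h5]; rfl
    rw [inn_apply, zero_mul, sg_zero, one_smul, sub_eq_zero] at h6
    exact h6
  · have h6 : dH 0 φ.1 x = 0 := by rw [h4]; rfl
    rw [dH_apply, sg_zero, one_smul, sub_eq_zero] at h6
    exact h6.symm

/-- Proof. `BPhi X Y 0 = ⊥` (`phi_eq_zero_of_deg0`), `exists_hom_of_deg0`, `theta_Q`, and `theta` is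
bijective. -/
theorem Q_map_bijective (hΓ : Γ.Nice) {X Y : DGM Γ} (hX : Deg0 X) (hY : Deg0 Y) :
    Function.Bijective (fun f : X ⟶ Y => (Q Γ).map f) := by
  constructor
  · intro f g hfg
    have h1 : theta hΓ X Y ((Q Γ).map f) = theta hΓ X Y ((Q Γ).map g) := congrArg _ hfg
    rw [theta_Q, theta_Q, cl_eq_iff] at h1
    obtain ⟨ψ, hψ, h2⟩ := h1
    have h3 : ψ = 0 := phi_eq_zero_of_deg0 hΓ hX hY (by norm_num) hψ
    rw [h3, map_zero] at h2
    have h4 : (0 : X.M →ₗ[k] Y.M) = lin f - lin g := congrArg Prod.fst h2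
    exact lin_injective (sub_eq_zero.1 h4.symm)
  · intro u
    obtain ⟨φ, hφ, h1⟩ := cl_surjective (theta hΓ X Y u)
    obtain ⟨f, hf⟩ := exists_hom_of_deg0 hΓ hX hY hφ
    subst hf
    refine ⟨f, theta_injective hΓ X Y ?_⟩
    change theta hΓ X Y ((Q Γ).map f) = theta hΓ X Y u
    rw [h1, theta_Q]

/-- Proof: `nonempty_hom_equiv`. -/
theorem hom_eq_zero_of_deg0 (hΓ : Γ.Nice) {X Y : DGM Γ} (hX : Deg0 X) (hY : Deg0 Y) {n : ℤ}
    (hn : n < 0) (f : (Q Γ).obj X ⟶ ((Q Γ).obj Y)⟦n⟧) : f = 0 := by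
  obtain ⟨e⟩ := nonempty_hom_equiv hΓ X Y n
  apply e.injective
  rw [map_zero]
  obtain ⟨φ, hφ, h1⟩ := cl_surjective (e f)
  have h2 : φ = 0 := phi_eq_zero_of_deg0 hΓ hX hY hn hφ.1
  rw [h1, cl_eq_zero_iff, h2]
  exact zero_mem _

theorem deg0_Sm (hΓ : Γ.Nice) (i : Γ.V) : Deg0 (Sm hΓ i) := by
  intro v p hp x hx
  by_contra h
  exact hp (hx h).2

end DGM

end GZ
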