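import Pool.Agent.Lib_MP_a23b08_g.GDnil
import Pool.Agent.Lib_MP_a23b08_g.GCYD
import Pool.Agent.Lib_MP_a23b08_g.GEulD
import Pool.Agent.Lib_MP_a23b08_g.GExtS
import Pool.Agent.Lib_MP_a23b08_g.GFull
import Pool.Agent.Lib_MP_a23b08_t.T2Int

/-!
PIECE E1. Morphisms in `Dnil`, the 3-Calabi-Yau property, additivity of the classes.
-/

open CategoryTheory CategoryTheory.Limits CategoryTheory.Pretriangulated

namespace GZ

open DGM

variable {k : Type} [Field k] {Γ : QF k}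

namespace Dnil

private noncomputable def homE (X Y : Dnil Γ) : (X ⟶ Y) ≃ₗ[k] (X.obj ⟶ Y.obj) :=
  LinearEquiv.ofBijective ((nilP Γ).ι.mapLinearMap k (X := X) (Y := Y))
    ⟨(nilP Γ).ι.map_injective, (nilP Γ).ι.map_surjective⟩

/-- Proof. `(nilP Γ).ι` is fully faithful, linear and commutes with the shifts. -/
theorem nonempty_hom_ι (X Y : Dnil Γ) (m : ℤ) :
    Nonempty ((X ⟶ Y⟦m⟧) ≃ₗ[k] (X.obj ⟶ Y.obj⟦m⟧)) :=
  ⟨(homE X (Y⟦m⟧)).trans (Linear.homCongr k (Iso.refl X.obj)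
    (((nilP Γ).ι.commShiftIso m).app Y))⟩

theorem nonempty_hom (X Y : Dnil Γ) : Nonempty ((X ⟶ Y) ≃ₗ[k] (X.obj ⟶ Y.obj)) := ⟨homE X Y⟩

/-- Proof: `nonempty_hom_ι`, `nonempty_hom_equiv`. -/
theorem nonempty_hom_HPhi (hΓ : Γ.Nice) (X Y : Dnil Γ) (m : ℤ) :
    Nonempty ((X ⟶ Y⟦m⟧) ≃ₗ[k] HPhi X.mod Y.mod m) := by
  obtain ⟨e⟩ := nonempty_hom_ι X Y m
  obtain ⟨e'⟩ := nonempty_hom_equiv hΓ X.mod Y.mod m
  exact ⟨e.trans e'⟩

theorem finrank_hom (hΓ : Γ.Nice) (X Y : Dnil Γ) (m : ℤ) :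
    Module.finrank k (X ⟶ Y⟦m⟧) = Module.finrank k (HPhi X.mod Y.mod m) := by
  obtain ⟨e⟩ := nonempty_hom_HPhi hΓ X Y m
  exact e.finrank_eq

theorem finite_hom (hΓ : Γ.Nice) (X Y : Dnil Γ) : Module.Finite k (X ⟶ Y) := by
  have h : Module.Finite k (X.obj ⟶ Y.obj) := DGM.finite_hom hΓ (X.isNil_mod hΓ) (Y.isNil_mod hΓ)
  exact Module.Finite.equiv (homE X Y).symm

theorem finite_hom_shift (hΓ : Γ.Nice) (X Y : Dnil Γ) (m : ℤ) : Module.Finite k (X ⟶ Y⟦m⟧) :=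
  finite_hom hΓ X (Y⟦m⟧)

/-- The modules concentrated in degree `0` form a full subcategory of `Dnil`. -/
theorem exists_strict_of_deg0 (hΓ : Γ.Nice) {X Y : Dnil Γ} (hX : Deg0 X.mod) (hY : Deg0 Y.mod)
    (f : X ⟶ Y) : ∃! g : X.mod ⟶ Y.mod, (nilP Γ).ι.map f = (Q Γ).map g := by
  obtain ⟨g, hg⟩ := (Q_map_bijective hΓ hX hY).2 ((nilP Γ).ι.map f)
  refine ⟨g, hg.symm, fun g' hg' => (Q_map_bijective hΓ hX hY).1 ?_⟩
  exact hg'.symm.trans hg.symm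

/-- `Dnil` of a Ginzburg algebra is 3-Calabi-Yau. Proof: `finrank_cy`. -/
theorem cy3 {P : QP k} (hP : (ginz P).Nice) : EGr.CY3 k (Dnil (ginz P)) where
  fin X Y := finite_hom hP X Y
  cy X Y m := by
    obtain ⟨e₁⟩ := nonempty_hom_ι X Y m
    obtain ⟨e₂⟩ := nonempty_hom_ι Y X (3 - m)
    rw [e₁.finrank_eq, e₂.finrank_eq]
    exact finrank_cy hP (X.isNil_mod hP) (Y.isNil_mod hP) m

/-- Additivity. Proof: `distinguished_iff`, `eul_triangle`, `eul_iso`; objects of the triangle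
`(nilP Γ).ι.mapTriangle.obj T` are `(Q Γ).obj T.obj₁.mod` etc. by `rfl`. -/
theorem eul_add (hΓ : Γ.Nice) (T : Triangle (Dnil Γ)) (hT : T ∈ distTriang (Dnil Γ)) (v : Γ.V) :
    eul T.obj₂.mod v = eul T.obj₁.mod v + eul T.obj₃.mod v := by
  have h := (distinguished_iff T).1 hT
  exact eul_triangle (X := T.obj₁.mod) (Y := T.obj₂.mod) (Z := T.obj₃.mod)
    ((nilP Γ).ι.mapTriangle.obj T).mor₁ ((nilP Γ).ι.mapTriangle.obj T).mor₂
    ((nilP Γ).ι.mapTriangle.obj T).mor₃ h (T.obj₁.isNil_mod hΓ) (T.obj₂.isNil_mod hΓ) v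

/-- Invariance under isomorphism. -/
theorem eul_of_iso {X Y : Dnil Γ} (e : X ≅ Y) (v : Γ.V) : eul X.mod v = eul Y.mod v :=
  eul_iso (X := X.mod) (Y := Y.mod) ((nilP Γ).ι.mapIso e) v

/-- The simple objects. -/
noncomputable def simp (hΓ : Γ.Nice) (i : Γ.V) : Dnil Γ := of (Sm hΓ i) (isNil_Sm hΓ i)

theorem eul_simp (hΓ : Γ.Nice) (i v : Γ.V) [Decidable (i = v)] :
    eul (simp hΓ i).mod v = if i = v then 1 else 0 := by
  change eul (Sm hΓ i) v = _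
  split_ifs with h
  · subst h
    exact eul_Sm_self hΓ i
  · exact eul_Sm_of_ne hΓ (fun h' => h h'.symm)

private theorem eq_zero_of_finrank (hΓ : Γ.Nice) {X Y : Dnil Γ} (h : Module.finrank k (X ⟶ Y) = 0)
    (f : X ⟶ Y) : f = 0 := by
  have := finite_hom hΓ X Y
  have h1 := Module.finrank_zero_iff.1 h
  exact Subsingleton.elim _ _

theorem hom_neg (hΓ : Γ.Nice) (i j : Γ.V) {m : ℤ} (hm : m < 0)
    (f : simp hΓ i ⟶ (simp hΓ j)⟦m⟧) : f = 0 := by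
  have h1 : Module.finrank k (simp hΓ i ⟶ (simp hΓ j)⟦m⟧) = 0 :=
    (finrank_hom hΓ (simp hΓ i) (simp hΓ j) m).trans (finrank_HPhi_Sm_neg hΓ i j hm)
  exact eq_zero_of_finrank hΓ h1 f

private theorem finrank_hom_zero (hΓ : Γ.Nice) (X Y : Dnil Γ) :
    Module.finrank k (X ⟶ Y) = Module.finrank k (HPhi X.mod Y.mod 0) :=
  ((homE X Y).trans (thetaE hΓ X.mod Y.mod)).finrank_eq

theorem hom_ne (hΓ : Γ.Nice) {i j : Γ.V} (h : i ≠ j) (f : simp hΓ i ⟶ simp hΓ j) : f = 0 := by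
  have h1 : Module.finrank k (simp hΓ i ⟶ simp hΓ j) = 0 :=
    (finrank_hom_zero hΓ (simp hΓ i) (simp hΓ j)).trans (finrank_HPhi_Sm_zero_ne hΓ h)
  exact eq_zero_of_finrank hΓ h1 f

theorem ne_zero (hΓ : Γ.Nice) (i : Γ.V) : ¬ IsZero (simp hΓ i) := by
  intro h0
  have h1 := (finrank_hom_zero hΓ (simp hΓ i) (simp hΓ i)).trans (finrank_HPhi_Sm_zero_self hΓ i)
  have : Subsingleton (simp hΓ i ⟶ simp hΓ i) := ⟨fun f g => h0.eq_of_src f g⟩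
  rw [Module.finrank_zero_of_subsingleton] at h1
  exact zero_ne_one h1

theorem zero_or_iso (hΓ : Γ.Nice) (i : Γ.V) (f : simp hΓ i ⟶ simp hΓ i) : f = 0 ∨ IsIso f := by
  have h1 := (finrank_hom_zero hΓ (simp hΓ i) (simp hΓ i)).trans (finrank_HPhi_Sm_zero_self hΓ i)
  have hne : 𝟙 (simp hΓ i) ≠ 0 := fun h => ne_zero hΓ i ((IsZero.iff_id_eq_zero _).2 h)
  obtain ⟨c, hc⟩ := (finrank_eq_one_iff_of_nonzero' (𝟙 (simp hΓ i)) hne).1 h1 f
  by_cases h : c = 0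
  · left
    rw [← hc, h, zero_smul]
  · right
    refine ⟨c⁻¹ • 𝟙 _, ?_, ?_⟩
    · rw [← hc, Linear.smul_comp, Category.id_comp, smul_smul, mul_inv_cancel₀ h, one_smul]
    · rw [← hc, Linear.smul_comp, Category.id_comp, smul_smul, inv_mul_cancel₀ h, one_smul]

theorem finrank_ext {P : QP k} (hP : (ginz P).Nice) (i j : P.V) :
    Module.finrank k (simp hP i ⟶ (simp hP j)⟦(1 : ℤ)⟧) =
      (Finset.univ.filter fun a : P.A => P.src a = i ∧ P.tgt a = j).card :=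
  (finrank_hom hP _ _ 1).trans (finrank_HPhi_Sm_one hP i j)

end Dnil

end GZ
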