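import Pool.Agent.Lib_MP_a23b08_g.GPhi4
import Pool.Agent.Lib_MP_a23b08_g.GSub

/-!
PIECE D5. The extension of `B` by `A` given by a cocycle of degree `1` of `Φ(B, A)`.
-/

open CategoryTheory

namespace GZ

namespace DGM

variable {k : Type} [Field k] {Γ : QF k}

/-- The morphism `cone j ⟶ B`, `(e, a) ↦ π e`, of a short exact sequence. -/
def coneπ {A E B : DGM Γ} {j : A ⟶ E} {π : E ⟶ B} (h : IsShort j π) : cone j ⟶ B :=
  descCone j π 0 (zero_mem _) (by
    intro x
    simp only [LinearMap.zero_apply, map_zero, add_zero]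
    exact (h.exact _).2 ⟨x, rfl⟩)

private lemma gextM_coneπ_apply {A E B : DGM Γ} {j : A ⟶ E} {π : E ⟶ B} (h : IsShort j π)
    (e : E.M) (a : A.M) : lin (coneπ h) (e, a) = lin π e := by
  change lin π e + (0 : A.M →ₗ[k] B.M) a = lin π e
  rw [LinearMap.zero_apply, add_zero]

/-- Proof: elementwise from exactness: `(e, a) ↦ π e`. -/
theorem isQis_coneπ {A E B : DGM Γ} {j : A ⟶ E} {π : E ⟶ B} (h : IsShort j π) :
    IsQis (coneπ h) := by
  constructor
  · rintro ⟨e, a⟩ h0 ⟨b, hb⟩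
    rw [gextM_coneπ_apply] at hb
    rw [cone_d] at h0
    have h1 : E.d e + lin j a = 0 := congrArg Prod.fst h0
    obtain ⟨e1, rfl⟩ := h.surj b
    have h2 : lin π (e - E.d e1) = 0 := by
      rw [map_sub, lin_d, hb, sub_self]
    obtain ⟨a1, ha1⟩ := (h.exact _).1 h2
    refine ⟨(e1, a1), ?_⟩
    rw [cone_d]
    have h3 : -A.d a1 = a := by
      apply h.inj
      rw [map_neg, lin_d, ha1, map_sub, E.d_d, sub_zero]
      exact neg_eq_of_add_eq_zero_right h1
    rw [h3, ha1, add_sub_cancel]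
  · intro b hb
    obtain ⟨e, rfl⟩ := h.surj b
    have h1 : lin π (E.d e) = 0 := by rw [lin_d, hb]
    obtain ⟨a1, ha1⟩ := (h.exact _).1 h1
    refine ⟨(e, -a1), 0, ?_, ?_⟩
    · rw [cone_d, map_neg, ha1, add_neg_cancel, map_neg, neg_neg]
      have h2 : A.d a1 = 0 := by
        apply h.inj
        rw [lin_d, ha1, E.d_d, map_zero]
      rw [h2]
      rfl
    · rw [gextM_coneπ_apply, map_zero, add_zero]

/-! ## The extension -/

/-- differential of the extension -/
private def gextD {A B : DGM Γ} (f : B.M →ₗ[k] A.M) : (A.M × B.M) →ₗ[k] (A.M × B.M) :=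
  (A.d ∘ₗ LinearMap.fst k A.M B.M + f ∘ₗ LinearMap.snd k A.M B.M).prod
    (B.d ∘ₗ LinearMap.snd k A.M B.M)

/-- arrows of the extension -/
private def gextA {A B : DGM Γ} (D : Γ.A → (B.M →ₗ[k] A.M)) (a : Γ.A) :
    (A.M × B.M) →ₗ[k] (A.M × B.M) :=
  (A.act a ∘ₗ LinearMap.fst k A.M B.M - D a ∘ₗ LinearMap.snd k A.M B.M).prod
    (B.act a ∘ₗ LinearMap.snd k A.M B.M)

private lemma gextD_apply {A B : DGM Γ} (f : B.M →ₗ[k] A.M) (x : A.M) (y : B.M) :
    gextD f (x, y) = (A.d x + f y, B.d y) := rfl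

private lemma gextA_apply {A B : DGM Γ} (D : Γ.A → (B.M →ₗ[k] A.M)) (a : Γ.A) (x : A.M)
    (y : B.M) : gextA D a (x, y) = (A.act a x - D a y, B.act a y) := rfl

private lemma gext_evW {A B : DGM Γ} (D : Γ.A → (B.M →ₗ[k] A.M)) (w : List Γ.A) (x : A.M)
    (y : B.M) : evW (gextA D) w (x, y) =
      (evW A.act w x - derW 0 D w y, evW B.act w y) := by
  induction w with
  | nil => simp
  | cons a w ih =>
    rw [evW_cons, ih, gextA_apply, derW_cons, evW_cons, evW_cons, map_sub, zero_mul, sg_zero,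
      one_smul]
    refine Prod.ext ?_ rfl
    change A.act a (evW A.act w x) - A.act a (derW 0 D w y) - D a (evW B.act w y) =
      A.act a (evW A.act w x) - (D a (evW B.act w y) + A.act a (derW 0 D w y))
    abel

private lemma gext_evP {A B : DGM Γ} (D : Γ.A → (B.M →ₗ[k] A.M)) (p : List (k × List Γ.A))
    (x : A.M) (y : B.M) : evP (gextA D) p (x, y) =
      (evP A.act p x - derP 0 D p y, evP B.act p y) := by
  induction p with
  | nil =>
    simp only [evP_nil, derP_nil, LinearMap.zero_apply, sub_zero]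
    rfl
  | cons t p ih =>
    rw [evP_cons, ih, gext_evW, derP_cons_apply, evP_cons, evP_cons]
    refine Prod.ext ?_ rfl
    change t.1 • (evW A.act t.2 x - derW 0 D t.2 y) + (evP A.act p x - derP 0 D p y) =
      t.1 • evW A.act t.2 x + evP A.act p x - (t.1 • derW 0 D t.2 y + derP 0 D p y)
    rw [smul_sub]
    abel

private lemma gext_dd {A B : DGM Γ} {φ : Amb B A} (hφ : φ ∈ ZPhi B A 1) (y : B.M) :
    A.d (φ.1 y) + φ.1 (B.d y) = 0 := by
  have h1 : dPhi 1 φ = 0 := hφ.2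
  have h2 : dH 1 φ.1 = 0 := congrArg Prod.fst h1
  have h3 := LinearMap.congr_fun h2 y
  rw [dH_apply, sg_one] at h3
  simpa using h3

private lemma gext_leib {A B : DGM Γ} {φ : Amb B A} (hφ : φ ∈ ZPhi B A 1) (a : Γ.A) (y : B.M) :
    φ.1 (B.act a y) - A.d (φ.2 a y) =
      sg k (Γ.deg a) • (A.act a (φ.1 y) - φ.2 a (B.d y)) - derP 0 φ.2 (Γ.diff a) y := by
  have h1 : dPhi 1 φ = 0 := hφ.2
  have h2 : inn 1 φ.1 - bd (1 - 1) φ.2 = 0 := congrArg Prod.snd h1
  have h3 := LinearMap.congr_fun (congrFun h2 a) y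
  rw [Pi.sub_apply, LinearMap.sub_apply, inn_apply, bd_apply] at h3
  simp only [sub_self, one_mul, zero_add, sg_zero, one_smul, Pi.zero_apply,
    LinearMap.zero_apply] at h3
  rw [smul_sub, sub_eq_sub_iff_add_eq_add]
  rw [sub_eq_zero] at h3
  rw [sub_eq_iff_eq_add] at h3
  rw [h3]
  abel

/-- the extension -/
@[reducible] private def gext {A B : DGM Γ} {φ : Amb B A} (hφ : φ ∈ ZPhi B A 1) : DGM Γ where
  M := A.M × B.M
  gr v p := (A.gr v p).prod (B.gr v p)
  indep := iSupIndep_prod A.indep B.indep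
  iSup_eq_top := iSup_prod_eq_top A.iSup_eq_top B.iSup_eq_top
  d := gextD φ.1
  act := gextA φ.2
  d_mem := by
    rintro v p q ⟨x, y⟩ h ⟨hx, hy⟩
    exact ⟨add_mem (A.d_mem h hx) (hφ.1.1 v p q y h hy), B.d_mem h hy⟩
  d_d := by
    rintro ⟨x, y⟩
    rw [gextD_apply, gextD_apply, map_add, A.d_d, B.d_d, zero_add, gext_dd hφ]
    rfl
  act_mem := by
    rintro a p q ⟨x, y⟩ h ⟨hx, hy⟩
    refine ⟨sub_mem (A.act_mem a h hx) ((hφ.1.2 a).1 p q y ?_ hy), B.act_mem a h hy⟩
    omega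
  act_zero := by
    rintro a v p ⟨x, y⟩ h ⟨hx, hy⟩
    rw [gextA_apply, A.act_zero a h hx, B.act_zero a h hy, (hφ.1.2 a).2 v p y h hy, sub_zero]
    rfl
  leibniz := by
    rintro a ⟨x, y⟩
    rw [gextA_apply, gextD_apply, gextD_apply, gextA_apply, gext_evP, map_sub, A.leibniz,
      B.leibniz]
    refine Prod.ext ?_ rfl
    change evP A.act (Γ.diff a) x + sg k (Γ.deg a) • A.act a (A.d x) - A.d (φ.2 a y) +
        φ.1 (B.act a y) =
      evP A.act (Γ.diff a) x - derP 0 φ.2 (Γ.diff a) y +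
        sg k (Γ.deg a) • (A.act a (A.d x + φ.1 y) - φ.2 a (B.d y))
    have h := gext_leib hφ a y
    rw [map_add, add_sub_assoc (A.act a (A.d x)), smul_add]
    generalize sg k (Γ.deg a) • (A.act a (φ.1 y) - φ.2 a (B.d y)) = u at h ⊢
    rw [sub_eq_iff_eq_add] at h
    rw [h]
    abel

/-- Let `φ = (f, D)` be a cocycle of degree `1` of `Φ(B, A)`. There is a short exact sequence
`0 → A → E → B → 0` with `E.M` finite-dimensional if `A.M` and `B.M` are, whose connecting morphism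
`B → A[1]` in the derived category is `- φ`: in `Φ(cone j, A[1])` the cocycle `(pr j, 0)` plus the
pullback of `φ` along `cone j → B` is a coboundary.

Proof. `E.M = A.M × B.M`, `gr v p` the product, `d (x, y) = (d x + f y, d y)`,
`act a (x, y) = (a x - D_a y, a y)`. `indep`, `iSup_eq_top`: `iSupIndep_prod`, `iSup_prod_eq_top`
(GCone). A path `w` acts by `(w x - derW 0 D w y, w y)` (induction). `d d = 0`: `dH 1 f = 0`.
Leibniz: first component at `(0, y)`: `- d D_a y + f a y = - D(da) y + sg|a| (a f y - D_a d y)`, that is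
`inn 1 f a - bd 0 D a = 0`. `j x = (x, 0)`, `π (x, y) = y`. With `h : (cone j).M → A.M`,
`h ((x, y), x') = x`, of degree `-1` to `A.sh 1`, `dPhi (-1) (h, 0) = (pr j + f q, - D q)`,
`q = coneπ`: `dH (-1) h ((x, y), x') = - d x + (d x + f y + x')` (in `A.sh 1` the differential is `- d`),
`inn (-1) h a ((x, y), x') = (a x - D_a y) - sg|a| • sg|a| • a x = - D_a y`; and
`shC B A 1 φ = (f, - D)`. -/
theorem exists_ext {A B : DGM Γ} {φ : Amb B A} (hφ : φ ∈ ZPhi B A 1) :
    ∃ (E : DGM Γ) (j : A ⟶ E) (π : E ⟶ B) (h : IsShort j π),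
      (Module.Finite k A.M → Module.Finite k B.M → Module.Finite k E.M) ∧
      ((lin (pr j), 0) : Amb (cone j) (A.sh 1)) + mapL (A.sh 1) (lin (coneπ h)) (shC B A 1 φ) ∈
        BPhi (cone j) (A.sh 1) 0 := by
  obtain ⟨j, hj⟩ : ∃ j : A ⟶ gext hφ, ∀ x, lin j x = (x, 0) :=
    ⟨homMk (X := A) (Y := gext hφ) (LinearMap.inl k A.M B.M) (fun v p x hx => ⟨hx, zero_mem _⟩)
      (fun a x => by
        change (A.act a x, (0 : B.M)) = gextA φ.2 a (x, 0)
        rw [gextA_apply, map_zero, map_zero, sub_zero])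
      (fun x => by
        change (A.d x, (0 : B.M)) = gextD φ.1 (x, 0)
        rw [gextD_apply, map_zero, map_zero, add_zero]), fun x => rfl⟩
  obtain ⟨π, hπ⟩ : ∃ π : gext hφ ⟶ B, ∀ x y, lin π (x, y) = y :=
    ⟨homMk (X := gext hφ) (Y := B) (LinearMap.snd k A.M B.M) (fun v p x hx => hx.2)
      (fun a x => rfl) (fun x => rfl), fun x y => rfl⟩
  have hs : IsShort j π := by
    refine ⟨fun x y hxy => ?_, fun y => ⟨(0, y), hπ 0 y⟩, ?_⟩
    · rw [hj, hj] at hxy
      exact congrArg Prod.fst hxy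
    · rintro ⟨x, y⟩
      rw [hπ]
      constructor
      · rintro rfl
        exact ⟨x, hj x⟩
      · rintro ⟨z, hz⟩
        rw [hj] at hz
        exact (congrArg Prod.snd hz).symm
  refine ⟨gext hφ, j, π, hs, fun h1 h2 => ?_, ?_⟩
  · exact Module.Finite.prod
  · -- the primitive
    let hh : (cone j).M →ₗ[k] A.M := LinearMap.fst k A.M B.M ∘ₗ LinearMap.fst k (A.M × B.M) A.M
    have hhv : hh ∈ HomV (cone j) (A.sh 1) (-1) := by
      rintro v p q ⟨⟨x, y⟩, x'⟩ hpq hx
      change x ∈ A.gr v (q + 1)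
      have h1 : x ∈ A.gr v p := hx.1.1
      rwa [show q + 1 = p by omega]
    have hmem : ((hh, 0) : Amb (cone j) (A.sh 1)) ∈ Phi (cone j) (A.sh 1) (0 - 1) := by
      refine ⟨?_, fun a => zero_mem _⟩
      rw [zero_sub]
      exact hhv
    refine ⟨_, hmem, ?_⟩
    rw [zero_sub, dPhi_apply]
    have hbd : bd (-1 - 1) (0 : Γ.A → ((cone j).M →ₗ[k] (A.sh 1).M)) = 0 := by
      have h1 := bd_smul (X := cone j) (Y := A.sh 1) (-1 - 1) (0 : k) 0
      rwa [zero_smul, zero_smul] at h1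
    refine Prod.ext ?_ ?_
    · refine LinearMap.ext ?_
      rintro ⟨⟨x, y⟩, x'⟩
      rw [dH_apply, sg_neg_one, neg_smul, one_smul, sub_neg_eq_add, cone_d]
      change (sg k 1 • A.d) x + hh (gextD φ.1 (x, y) + lin j x', -A.d x') = x' + φ.1 (lin (coneπ hs) ((x, y), x'))
      rw [gextM_coneπ_apply, hπ, hj, gextD_apply, sg_one, neg_smul, one_smul]
      change -A.d x + (A.d x + φ.1 y + x') = _
      abel
    · funext a
      refine LinearMap.ext ?_
      rintro ⟨⟨x, y⟩, x'⟩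
      rw [hbd, sub_zero, inn_apply, cone_act]
      change A.act a x - φ.2 a y - sg k (-1 * Γ.deg a) • (sg k (1 * Γ.deg a) • A.act a) x =
        0 + sg k 1 • φ.2 a (lin (coneπ hs) ((x, y), x'))
      rw [gextM_coneπ_apply, hπ, LinearMap.smul_apply, neg_mul, sg_neg, sg_mul_self_smul, sg_one,
        neg_smul, one_smul, zero_add]
      abel

end DGM

end GZ
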