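import Pool.Agent.Lib_MP_a23b08_g.GTStr
import Pool.Agent.Lib_MP_a23b08_g.GExtS
import Pool.Agent.Lib_MP_a23b08_t1.Ext

/-!
# The simple modules generate `Dnil` (MP_a23b08_al, part G)
-/

open CategoryTheory CategoryTheory.Limits CategoryTheory.Pretriangulated

namespace GZ

variable {k : Type} [Field k] {Γ : QF k}

open DGM

namespace Dnil

/-- Isomorphisms of `Dnil` from isomorphisms in the derived category. -/
noncomputable def isoOf {X Y : Dnil Γ} (e : (Q Γ).obj X.mod ≅ (Q Γ).obj Y.mod) : X ≅ Y :=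
  (nilP Γ).fullyFaithfulι.preimageIso (X := X) (Y := Y) e

/-- The shift in `Dnil`. -/
noncomputable def shIso {X : DGM Γ} (hX : IsNil X) (n : ℤ) (h : IsNil (X.sh n)) :
    Dnil.of (X.sh n) h ≅ (Dnil.of X hX)⟦n⟧ :=
  (nilP Γ).fullyFaithfulι.preimageIso (X := Dnil.of (X.sh n) h) (Y := (Dnil.of X hX)⟦n⟧)
    ((QshIso X n).symm ≪≫ ((nilP Γ).ι.commShiftIso n).symm.app (Dnil.of X hX))

/-- Short exact sequences give distinguished triangles of `Dnil`. -/
theorem exists_tri {K X B : DGM Γ} {j : K ⟶ X} {π : X ⟶ B} (h : IsShort j π) (hK : IsNil K)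
    (hX : IsNil X) (hB : IsNil B) :
    ∃ (f : Dnil.of K hK ⟶ Dnil.of X hX) (g : Dnil.of X hX ⟶ Dnil.of B hB)
      (w : Dnil.of B hB ⟶ (Dnil.of K hK)⟦(1 : ℤ)⟧),
      (nilP Γ).ι.map f = (Q Γ).map j ∧ (nilP Γ).ι.map g = (Q Γ).map π ∧
      Triangle.mk f g w ∈ distTriang (Dnil Γ) := by
  obtain ⟨w, hw, -⟩ := exists_tri_of_short h
  let f : Dnil.of K hK ⟶ Dnil.of X hX :=
    (nilP Γ).fullyFaithfulι.preimage (X := Dnil.of K hK) (Y := Dnil.of X hX) ((Q Γ).map j)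
  let g : Dnil.of X hX ⟶ Dnil.of B hB :=
    (nilP Γ).fullyFaithfulι.preimage (X := Dnil.of X hX) (Y := Dnil.of B hB) ((Q Γ).map π)
  let w' : Dnil.of B hB ⟶ (Dnil.of K hK)⟦(1 : ℤ)⟧ :=
    (nilP Γ).fullyFaithfulι.preimage (X := Dnil.of B hB) (Y := (Dnil.of K hK)⟦(1 : ℤ)⟧)
      (w ≫ ((nilP Γ).ι.commShiftIso (1 : ℤ)).inv.app (Dnil.of K hK))
  have ef : (nilP Γ).ι.map f = (Q Γ).map j := (nilP Γ).fullyFaithfulι.map_preimage _
  have eg : (nilP Γ).ι.map g = (Q Γ).map π := (nilP Γ).fullyFaithfulι.map_preimage _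
  have ew : (nilP Γ).ι.map w' = w ≫ ((nilP Γ).ι.commShiftIso (1 : ℤ)).inv.app (Dnil.of K hK) :=
    (nilP Γ).fullyFaithfulι.map_preimage _
  refine ⟨f, g, w', ef, eg, ?_⟩
  rw [distinguished_iff]
  refine Pretriangulated.isomorphic_distinguished (C := Der Γ) _ hw _ ?_
  refine Triangle.isoMk _ _ (Iso.refl _) (Iso.refl _) (Iso.refl _) ?_ ?_ ?_
  · exact (Category.comp_id _).trans (ef.trans (Category.id_comp _).symm)
  · exact (Category.comp_id _).trans (eg.trans (Category.id_comp _).symm)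
  · have h3 : (nilP Γ).ι.map w' ≫ ((nilP Γ).ι.commShiftIso (1 : ℤ)).hom.app (Dnil.of K hK) = w := by
      refine (congrArg (fun z => z ≫
        ((nilP Γ).ι.commShiftIso (1 : ℤ)).hom.app (Dnil.of K hK)) ew).trans ?_
      refine (Category.assoc _ _ _).trans ?_
      exact (congrArg (fun z => w ≫ z)
        (((nilP Γ).ι.commShiftIso (1 : ℤ)).inv_hom_id_app (Dnil.of K hK))).trans
        (Category.comp_id _)
    have h4 : (CategoryTheory.shiftFunctor (Der Γ) (1 : ℤ)).map (𝟙 ((Q Γ).obj K)) = 𝟙 _ :=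
      CategoryTheory.Functor.map_id _ _
    refine (congrArg (fun z => z ≫ (CategoryTheory.shiftFunctor (Der Γ) (1 : ℤ)).map
      (𝟙 ((Q Γ).obj K))) h3).trans ?_
    change w ≫ (CategoryTheory.shiftFunctor (Der Γ) (1 : ℤ)).map (𝟙 ((Q Γ).obj K)) = 𝟙 _ ≫ w
    rw [h4]
    exact (Category.comp_id _).trans (Category.id_comp _).symm

theorem isZero_of_acyclic {X : Dnil Γ} (h : Acyclic X.mod) : IsZero X := by
  have h1 : IsZero ((nilP Γ).ι.obj X) := (isZero_Q_iff X.mod).2 h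
  rw [IsZero.iff_id_eq_zero] at h1 ⊢
  apply (nilP Γ).ι.map_injective
  rw [CategoryTheory.Functor.map_id, h1, Functor.map_zero]

theorem acyclic_of_isZero {X : Dnil Γ} (h : IsZero X) : Acyclic X.mod :=
  (isZero_Q_iff X.mod).1 ((nilP Γ).ι.map_isZero h)

end Dnil

/-- Every object of `Dnil` is an iterated extension of shifts of the simple modules. Proof: induction
on the dimension of the total cohomology by `exists_step`. -/
theorem filt_Sm (hΓ : Γ.Nice) (X : Dnil Γ) :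
    EGr.Filt (fun Y => ∃ (i : Γ.V) (m : ℤ),
      Nonempty (Y ≅ (Dnil.of (Sm hΓ i) (isNil_Sm hΓ i))⟦m⟧)) X := by
  induction hn : Module.finrank k (Coh X.mod) using Nat.strong_induction_on generalizing X with
  | _ n ih =>
    by_cases hX : Acyclic X.mod
    · exact EGr.Filt.zero _ (Dnil.isZero_of_acyclic hX)
    · obtain ⟨v, b, X', K, i, j, π, hi, hs, hK, hr, -, -, -⟩ :=
        exists_step hΓ X.mod (X.isNil_mod hΓ) hX
      have hX' : IsNil X' := (isNil_iff_of_qis hΓ i ((isQis_iff_bijective i).1 hi)).2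
        (X.isNil_mod hΓ)
      have hB : IsNil ((Sm hΓ v).sh (-b)) := isNil_sh (isNil_Sm hΓ v) (-b)
      obtain ⟨f, g, w, -, -, hT⟩ := Dnil.exists_tri hs hK hX' hB
      have i1 : IsIso ((Q Γ).map i) := isIso_Q_of_isQis i hi
      have e0 : (Q Γ).obj X' ≅ (Q Γ).obj X.mod := asIso ((Q Γ).map i)
      have e1 : Dnil.of X' hX' ≅ X := Dnil.isoOf (X := Dnil.of X' hX') (Y := X) e0
      have h1 := ih (Module.finrank k (Coh K)) (by omega) (Dnil.of K hK) rfl
      have h2 : EGr.Filt (fun Y => ∃ (i : Γ.V) (m : ℤ),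
          Nonempty (Y ≅ (Dnil.of (Sm hΓ i) (isNil_Sm hΓ i))⟦m⟧)) (Dnil.of X' hX') :=
        EGr.Filt.ext _ _ _ f g w hT h1 ⟨v, -b, ⟨Dnil.shIso (isNil_Sm hΓ v) (-b) hB⟩⟩
      exact EGr.Filt.of_iso e1 h2

end GZ
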