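import Pool.Agent.Lib_MP_a23b08_g.GSmc
import Pool.Agent.Lib_MP_a23b08_al.QPNice
import Pool.Agent.Lib_MP_a23b08_n.N5

/-!
# The torus with two punctures: the hypotheses of `theoremTN` for `Dnil`
-/

open CategoryTheory CategoryTheory.Limits CategoryTheory.Pretriangulated
  CategoryTheory.Triangulated

namespace GZ

open DGM

variable (k : Type) [Field k]

/-- The simple objects of `Dnil`. -/
noncomputable abbrev simpT : Fin 6 → Dnil (ginz (torus k)) := Dnil.simp (ginz_nice (torus k))

theorem torus_smlist : EGr.SMList (stdT (ginz_nice (torus k))) (simpT k) :=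
  Dnil.smlist_simp (ginz_nice (torus k))

/-- The class of an object. -/
noncomputable def clsT (X : Dnil (ginz (torus k))) : Fin 6 → ℤ := eul X.mod

theorem isAdd_clsT : EGr.IsAdd (clsT k) := by
  intro T hT
  funext v
  exact Dnil.eul_add (ginz_nice (torus k)) T hT v

theorem clsT_simp (i j : Fin 6) : clsT k (simpT k i) j = if i = j then 1 else 0 :=
  @Dnil.eul_simp k _ (ginz (torus k)) (ginz_nice (torus k)) i j
    (inferInstanceAs (Decidable ((i : Fin 6) = j)))

theorem torus_ext (i j : Fin 6) :
    (Module.finrank k (simpT k i ⟶ (simpT k j)⟦(1 : ℤ)⟧) : ℤ) = max (MPa23.B0 i j) 0 := by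
  rw [← torus_card (k := k) i j]
  exact congrArg Nat.cast (Dnil.finrank_ext (ginz_nice (torus k)) i j)

theorem torus_cy3 : EGr.CY3 k (Dnil (ginz (torus k))) := Dnil.cy3 (ginz_nice (torus k))

/-- The component of the standard heart is non-degenerate and its exchange groupoid is not
simply connected. -/
theorem torus_main [IsAlgClosed k] (hG : EGr.Good k (stdT (ginz_nice (torus k)))) :
    (∀ a : EGr.Vertex (stdT (ginz_nice (torus k))), EGr.NonDeg a.t) ∧
      ¬ EGr.SimplyConnected k (stdT (ginz_nice (torus k))) :=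
  ⟨fun a => (hG.vertex ⟨torus_cy3 k⟩ a).nonDeg ⟨torus_cy3 k⟩,
    EGr.theoremTN k (torus_cy3 k) (isAdd_clsT k) (torus_smlist k).isFiniteHeart
      (torus_smlist k).toSList (clsT_simp k) (torus_ext k) hG⟩

end GZ
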