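import Pool.Agent.Lib_MP_a23b08_g.GShift

/-!
# dg modules: the homotopy category (MP_a23b08_al, part G)
-/

open CategoryTheory CategoryTheory.Limits

namespace GZ

variable {k : Type} [Field k] {Γ : QF k}

namespace DGM

/-- Construct a `Γ`-linear map of degree `-1`. -/
lemma mem_lin_neg_one {X Y : DGM Γ} {z : X.M →ₗ[k] Y.M}
    (h1 : ∀ (v : Γ.V) (p q : ℤ) (x : X.M), q + 1 = p → x ∈ X.gr v p → z x ∈ Y.gr v q)
    (h2 : ∀ a x, z (X.act a x) = sg k (Γ.deg a) • Y.act a (z x)) : z ∈ Lin X Y (-1) :=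
  ⟨fun v p q x h hx => h1 v p q x (by omega) hx, fun a x => by rw [h2]; simp⟩

lemma lin_neg_one_act {X Y : DGM Γ} {z : X.M →ₗ[k] Y.M} (hz : z ∈ Lin X Y (-1)) (a : Γ.A)
    (x : X.M) : z (X.act a x) = sg k (Γ.deg a) • Y.act a (z x) := by
  rw [hz.2]; simp

lemma lin_neg_one_mem {X Y : DGM Γ} {z : X.M →ₗ[k] Y.M} (hz : z ∈ Lin X Y (-1)) {v : Γ.V}
    {p q : ℤ} {x : X.M} (h : q + 1 = p) (hx : x ∈ X.gr v p) : z x ∈ Y.gr v q :=
  hz.1 v p q x (by omega) hx

variable (Γ) in
/-- Two morphisms are homotopic if they differ by `d z + z d`, with `z` linear of degree `-1`. -/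
def homRel : HomRel (DGM Γ) := fun X Y f g =>
  ∃ z : X.M →ₗ[k] Y.M, z ∈ Lin X Y (-1) ∧ ∀ x, lin f x = Y.d (z x) + z (X.d x) + lin g x

instance : Congruence (homRel Γ) where
  equivalence :=
    { refl := fun f => ⟨0, zero_mem _, by simp⟩
      symm := by
        rintro f g ⟨z, hz, h⟩
        refine ⟨-z, neg_mem hz, fun x => ?_⟩
        rw [h]
        simp only [LinearMap.neg_apply, map_neg]
        abel
      trans := by
        rintro f g h ⟨z, hz, h₁⟩ ⟨z', hz', h₂⟩
        refine ⟨z + z', add_mem hz hz', fun x => ?_⟩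
        rw [h₁, h₂]
        simp only [LinearMap.add_apply, map_add]
        abel }
  comp_left := by
    rintro X Y Z f g g' ⟨z, hz, h⟩
    refine ⟨z ∘ₗ lin f, mem_lin_neg_one ?_ ?_, fun x => ?_⟩
    · intro v p q x hpq hx
      exact lin_neg_one_mem hz hpq (lin_mem f hx)
    · intro a x
      simp only [LinearMap.comp_apply, lin_act, lin_neg_one_act hz]
    · rw [lin_comp_apply, lin_comp_apply, h]
      simp only [LinearMap.comp_apply, lin_d]
  comp_right := by
    rintro X Y Z f f' g ⟨z, hz, h⟩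
    refine ⟨lin g ∘ₗ z, mem_lin_neg_one ?_ ?_, fun x => ?_⟩
    · intro v p q x hpq hx
      exact lin_mem g (lin_neg_one_mem hz hpq hx)
    · intro a x
      simp only [LinearMap.comp_apply, lin_act, lin_neg_one_act hz, map_smul]
    · rw [lin_comp_apply, lin_comp_apply, h]
      simp only [LinearMap.comp_apply, lin_d, map_add]

instance : (homRel Γ).IsCompatibleWithShift ℤ where
  condition := by
    rintro n X Y f g ⟨z, hz, h⟩
    refine ⟨(sg k n • z : X.M →ₗ[k] Y.M), mem_lin_neg_one ?_ ?_, fun x => ?_⟩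
    · intro v p q x hpq hx
      exact Submodule.smul_mem _ _ (lin_neg_one_mem hz (by omega) hx)
    · intro a x
      change sg k n • z (sg k (n * Γ.deg a) • X.act a x) =
        sg k (Γ.deg a) • sg k (n * Γ.deg a) • Y.act a (sg k n • z x)
      rw [map_smul, map_smul, lin_neg_one_act hz]
      simp only [smul_smul]
      congr 1
      ring
    · rw [lin_shift_map, lin_shift_map, h]
      change _ = sg k n • Y.d (sg k n • z x) + sg k n • z (sg k n • X.d x) + _
      simp

variable (Γ) in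
/-- The homotopy category of dg modules. -/
def Hot := CategoryTheory.Quotient (homRel Γ)

instance : Category (Hot Γ) := inferInstanceAs <| Category (CategoryTheory.Quotient (homRel Γ))

instance : Preadditive (CategoryTheory.Quotient (homRel Γ)) :=
  Quotient.preadditive _ (by
    rintro _ _ _ _ _ _ ⟨z, hz, h⟩ ⟨z', hz', h'⟩
    refine ⟨z + z', add_mem hz hz', fun x => ?_⟩
    simp only [lin_add, LinearMap.add_apply, h, h', map_add]
    abel)

instance : Preadditive (Hot Γ) :=
  inferInstanceAs <| Preadditive (CategoryTheory.Quotient (homRel Γ))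

variable (Γ) in
/-- The quotient functor. -/
def quot : DGM Γ ⥤ Hot Γ := CategoryTheory.Quotient.functor _

instance : (quot Γ).Full := Quotient.full_functor _

instance : (quot Γ).EssSurj := Quotient.essSurj_functor _

instance : (quot Γ).Additive where

instance : Functor.Additive (Quotient.functor (homRel Γ)) where

instance : Linear k (Hot Γ) :=
  Quotient.linear k (homRel Γ) (by
    rintro r X Y f g ⟨z, hz, h⟩
    refine ⟨r • z, Submodule.smul_mem _ _ hz, fun x => ?_⟩
    simp only [lin_smul, LinearMap.smul_apply, h, map_smul, smul_add])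

instance : Functor.Linear k (quot Γ) :=
  Quotient.linear_functor _ (homRel Γ) _

lemma quot_obj_surjective (X : Hot Γ) : ∃ K : DGM Γ, (quot Γ).obj K = X := ⟨_, rfl⟩

lemma quot_map_eq {X Y : DGM Γ} {f g : X ⟶ Y} (z : X.M →ₗ[k] Y.M) (hz : z ∈ Lin X Y (-1))
    (h : ∀ x, lin f x = Y.d (z x) + z (X.d x) + lin g x) : (quot Γ).map f = (quot Γ).map g :=
  CategoryTheory.Quotient.sound _ ⟨z, hz, h⟩

lemma quot_map_eq_iff {X Y : DGM Γ} {f g : X ⟶ Y} :
    (quot Γ).map f = (quot Γ).map g ↔ ∃ z : X.M →ₗ[k] Y.M, z ∈ Lin X Y (-1) ∧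
      ∀ x, lin f x = Y.d (z x) + z (X.d x) + lin g x :=
  Quotient.functor_map_eq_iff _ _ _

lemma quot_map_eq_zero_iff {X Y : DGM Γ} {f : X ⟶ Y} :
    (quot Γ).map f = 0 ↔ ∃ z : X.M →ₗ[k] Y.M, z ∈ Lin X Y (-1) ∧
      ∀ x, lin f x = Y.d (z x) + z (X.d x) := by
  rw [← (quot Γ).map_zero, quot_map_eq_iff]
  simp

/-- An isomorphism in the homotopy category from a homotopy equivalence. -/
@[simps] def isoMk {X Y : DGM Γ} (f : X ⟶ Y) (g : Y ⟶ X)
    (h₁ : (quot Γ).map (f ≫ g) = (quot Γ).map (𝟙 X))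
    (h₂ : (quot Γ).map (g ≫ f) = (quot Γ).map (𝟙 Y)) : (quot Γ).obj X ≅ (quot Γ).obj Y where
  hom := (quot Γ).map f
  inv := (quot Γ).map g
  hom_inv_id := by rw [← Functor.map_comp, h₁, CategoryTheory.Functor.map_id]
  inv_hom_id := by rw [← Functor.map_comp, h₂, CategoryTheory.Functor.map_id]

set_option backward.isDefEq.respectTransparency false in
noncomputable instance : HasShift (Hot Γ) ℤ := by
  dsimp only [Hot]
  infer_instance

noncomputable instance : (quot Γ).CommShift ℤ := Quotient.functor_commShift (homRel Γ) ℤ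

instance (n : ℤ) : (CategoryTheory.shiftFunctor (Hot Γ) n).Additive := by
  have : ((quot Γ ⋙ CategoryTheory.shiftFunctor _ n)).Additive :=
    Functor.additive_of_iso ((quot Γ).commShiftIso n)
  apply Functor.additive_of_full_essSurj_comp (quot Γ)

set_option backward.isDefEq.respectTransparency false in
instance (n : ℤ) : (CategoryTheory.shiftFunctor (Hot Γ) n).Linear k where
  map_smul := by
    rintro ⟨X⟩ ⟨Y⟩ f r
    obtain ⟨f, rfl⟩ := (quot Γ).map_surjective f
    have h₁ := NatIso.naturality_1 ((quot Γ).commShiftIso n) f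
    have h₂ := NatIso.naturality_1 ((quot Γ).commShiftIso n) (r • f)
    dsimp at h₁ h₂
    rw [← Functor.map_smul, ← h₁, ← h₂]
    simp

variable (Γ) in
/-- The zero dg module. -/
@[reducible] def zeroObj : DGM Γ where
  M := PUnit
  gr _ _ := ⊤
  indep := by
    intro i
    rw [disjoint_iff]
    exact Subsingleton.elim _ _
  iSup_eq_top := Subsingleton.elim _ _
  d := 0
  act _ := 0
  d_mem := by intros; trivial
  d_d := by intros; rfl
  act_mem := by intros; trivial
  act_zero := by intros; rfl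
  leibniz := by intros; rfl

lemma isZero_zeroObj : IsZero (zeroObj Γ) := by
  rw [IsZero.iff_id_eq_zero]
  ext x

instance : HasZeroObject (DGM Γ) := ⟨⟨_, isZero_zeroObj⟩⟩

instance : HasZeroObject (Hot Γ) :=
  ⟨⟨(quot Γ).obj (zeroObj Γ), by
    rw [IsZero.iff_id_eq_zero, ← (quot Γ).map_id, isZero_zeroObj.eq_of_src (𝟙 _) 0,
      Functor.map_zero]⟩⟩

lemma isZero_quot_obj_iff (X : DGM Γ) :
    IsZero ((quot Γ).obj X) ↔ ∃ z : X.M →ₗ[k] X.M, z ∈ Lin X X (-1) ∧
      ∀ x, x = X.d (z x) + z (X.d x) := by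
  rw [IsZero.iff_id_eq_zero, ← (quot Γ).map_id, quot_map_eq_zero_iff]
  rfl

end DGM

end GZ
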