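import Pool.Agent.Lib_MP_a23b08_g.GPhi4
import Pool.Agent.Lib_MP_a23b08_g.GHot

/-!
PIECE D1. `Hⁿ Φ(X, -)` as a functor on the homotopy category.
-/

open CategoryTheory

namespace GZ

namespace DGM

variable {k : Type} [Field k] {Γ : QF k}

/-- Proof: `mapR_mem`, `mapR_dPhi`. -/
lemma mapR_mem_Z (X : DGM Γ) {Y Z : DGM Γ} (g : Y ⟶ Z) (n : ℤ) :
    ∀ φ ∈ ZPhi X Y n, mapR X (lin g) φ ∈ ZPhi X Z n := by
  rintro φ ⟨h1, h2⟩
  refine ⟨mapR_mem g h1, ?_⟩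
  have h3 : dPhi n φ = 0 := h2
  change dPhi n (mapR X (lin g) φ) = 0
  rw [mapR_dPhi, h3, map_zero]

lemma mapR_mem_B (X : DGM Γ) {Y Z : DGM Γ} (g : Y ⟶ Z) (n : ℤ) :
    ∀ φ ∈ BPhi X Y n, mapR X (lin g) φ ∈ BPhi X Z n := by
  rintro _ ⟨ψ, hψ, rfl⟩
  exact ⟨mapR X (lin g) ψ, mapR_mem g hψ, mapR_dPhi g _ ψ⟩

lemma mapL_mem_Z {X X' : DGM Γ} (Y : DGM Γ) (f : X' ⟶ X) (n : ℤ) :
    ∀ φ ∈ ZPhi X Y n, mapL Y (lin f) φ ∈ ZPhi X' Y n := by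
  rintro φ ⟨h1, h2⟩
  refine ⟨mapL_mem f h1, ?_⟩
  have h3 : dPhi n φ = 0 := h2
  change dPhi n (mapL Y (lin f) φ) = 0
  rw [mapL_dPhi, h3, map_zero]

lemma mapL_mem_B {X X' : DGM Γ} (Y : DGM Γ) (f : X' ⟶ X) (n : ℤ) :
    ∀ φ ∈ BPhi X Y n, mapL Y (lin f) φ ∈ BPhi X' Y n := by
  rintro _ ⟨ψ, hψ, rfl⟩
  exact ⟨mapL Y (lin f) ψ, mapL_mem f hψ, mapL_dPhi f _ ψ⟩

/-- The map `Hⁿ Φ(X, Y) → Hⁿ Φ(X, Z)` induced by `g : Y ⟶ Z`. -/
noncomputable def HR (X : DGM Γ) {Y Z : DGM Γ} (g : Y ⟶ Z) (n : ℤ) :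
    HPhi X Y n →ₗ[k] HPhi X Z n :=
  Submodule.mapQ _ _ ((mapR X (lin g)).restrict (mapR_mem_Z X g n))
    (fun φ hφ => mapR_mem_B X g n φ.1 hφ)

/-- The map `Hⁿ Φ(X, Y) → Hⁿ Φ(X', Y)` induced by `f : X' ⟶ X`. -/
noncomputable def HL {X X' : DGM Γ} (Y : DGM Γ) (f : X' ⟶ X) (n : ℤ) :
    HPhi X Y n →ₗ[k] HPhi X' Y n :=
  Submodule.mapQ _ _ ((mapL Y (lin f)).restrict (mapL_mem_Z Y f n))
    (fun φ hφ => mapL_mem_B Y f n φ.1 hφ)

/-- The class of a cocycle. -/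
noncomputable def cl {X Y : DGM Γ} {n : ℤ} (φ : Amb X Y) (h : φ ∈ ZPhi X Y n) : HPhi X Y n :=
  Submodule.Quotient.mk ⟨φ, h⟩

lemma cl_surjective {X Y : DGM Γ} {n : ℤ} (c : HPhi X Y n) : ∃ φ h, c = cl φ h := by
  obtain ⟨⟨φ, h⟩, rfl⟩ := Submodule.Quotient.mk_surjective _ c
  exact ⟨φ, h, rfl⟩

lemma cl_eq_iff {X Y : DGM Γ} {n : ℤ} {φ ψ : Amb X Y} (h : φ ∈ ZPhi X Y n) (h' : ψ ∈ ZPhi X Y n) :
    cl φ h = cl ψ h' ↔ φ - ψ ∈ BPhi X Y n :=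
  Submodule.Quotient.eq _

lemma cl_eq_zero_iff {X Y : DGM Γ} {n : ℤ} {φ : Amb X Y} (h : φ ∈ ZPhi X Y n) :
    cl φ h = 0 ↔ φ ∈ BPhi X Y n :=
  Submodule.Quotient.mk_eq_zero _

private lemma cl_congr {X Y : DGM Γ} {n : ℤ} {φ ψ : Amb X Y} (h : φ ∈ ZPhi X Y n)
    (h' : ψ ∈ ZPhi X Y n) (e : φ = ψ) : cl φ h = cl ψ h' := by
  subst e
  rfl

private lemma cl_add {X Y : DGM Γ} {n : ℤ} {φ ψ : Amb X Y} (h : φ ∈ ZPhi X Y n)
    (h' : ψ ∈ ZPhi X Y n) : cl φ h + cl ψ h' = cl (φ + ψ) (add_mem h h') := rfl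

private lemma cl_smul {X Y : DGM Γ} {n : ℤ} {φ : Amb X Y} (c : k) (h : φ ∈ ZPhi X Y n) :
    c • cl φ h = cl (c • φ) (Submodule.smul_mem _ c h) := rfl

private lemma hphi_ext {X Y : DGM Γ} {n : ℤ} {N : Type} [AddCommGroup N] [Module k N]
    {F G : HPhi X Y n →ₗ[k] N} (h : ∀ φ (hφ : φ ∈ ZPhi X Y n), F (cl φ hφ) = G (cl φ hφ)) :
    F = G := by
  refine LinearMap.ext fun c => ?_
  obtain ⟨φ, hφ, rfl⟩ := cl_surjective c
  exact h φ hφ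

lemma HR_cl (X : DGM Γ) {Y Z : DGM Γ} (g : Y ⟶ Z) (n : ℤ) (φ : Amb X Y) (h : φ ∈ ZPhi X Y n) :
    HR X g n (cl φ h) = cl (mapR X (lin g) φ) (mapR_mem_Z X g n φ h) := rfl

lemma HL_cl {X X' : DGM Γ} (Y : DGM Γ) (f : X' ⟶ X) (n : ℤ) (φ : Amb X Y) (h : φ ∈ ZPhi X Y n) :
    HL Y f n (cl φ h) = cl (mapL Y (lin f) φ) (mapL_mem_Z Y f n φ h) := rfl

lemma HR_id (X Y : DGM Γ) (n : ℤ) : HR X (𝟙 Y) n = LinearMap.id := by
  refine hphi_ext fun φ hφ => ?_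
  rw [HR_cl, LinearMap.id_apply]
  exact cl_congr _ _ rfl

lemma HR_comp (X : DGM Γ) {Y Z W : DGM Γ} (g : Y ⟶ Z) (g' : Z ⟶ W) (n : ℤ) :
    HR X (g ≫ g') n = HR X g' n ∘ₗ HR X g n := by
  refine hphi_ext fun φ hφ => ?_
  rw [LinearMap.comp_apply, HR_cl, HR_cl, HR_cl]
  exact cl_congr _ _ rfl

lemma HR_add (X : DGM Γ) {Y Z : DGM Γ} (g g' : Y ⟶ Z) (n : ℤ) :
    HR X (g + g') n = HR X g n + HR X g' n := by
  refine hphi_ext fun φ hφ => ?_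
  rw [LinearMap.add_apply, HR_cl, HR_cl, HR_cl, cl_add]
  refine cl_congr _ _ ?_
  exact Prod.ext (LinearMap.add_comp _ _ _) (funext fun a => LinearMap.add_comp _ _ _)

lemma HR_smul (X : DGM Γ) {Y Z : DGM Γ} (c : k) (g : Y ⟶ Z) (n : ℤ) :
    HR X (c • g) n = c • HR X g n := by
  refine hphi_ext fun φ hφ => ?_
  rw [LinearMap.smul_apply, HR_cl, HR_cl, cl_smul]
  refine cl_congr _ _ ?_
  exact Prod.ext (LinearMap.smul_comp _ _ _) (funext fun a => LinearMap.smul_comp _ _ _)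

/-- Proof: `mapR_null` for `g - g'`. -/
lemma HR_homotopy (X : DGM Γ) {Y Z : DGM Γ} {g g' : Y ⟶ Z} (h : homRel Γ g g') (n : ℤ) :
    HR X g n = HR X g' n := by
  obtain ⟨z, hz, h⟩ := h
  refine hphi_ext fun φ hφ => ?_
  rw [HR_cl, HR_cl, cl_eq_iff]
  have h1 : mapR X (lin (g - g')) φ ∈ BPhi X Z n := by
    refine mapR_null hz (fun y => ?_) hφ
    rw [lin_sub, LinearMap.sub_apply, h]
    abel
  have h2 : mapR X (lin (g - g')) φ = mapR X (lin g) φ - mapR X (lin g') φ :=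
    Prod.ext (LinearMap.sub_comp _ _ _) (funext fun a => LinearMap.sub_comp _ _ _)
  rw [← h2]
  exact h1

lemma HL_HR {X X' Y Z : DGM Γ} (f : X' ⟶ X) (g : Y ⟶ Z) (n : ℤ) (c : HPhi X Y n) :
    HL Z f n (HR X g n c) = HR X' g n (HL Y f n c) := by
  obtain ⟨φ, hφ, rfl⟩ := cl_surjective c
  rw [HR_cl, HL_cl, HL_cl, HR_cl]
  exact cl_congr _ _ rfl

/-- Proof: `exists_of_qis` and `mem_of_qis`. -/
theorem HR_bijective (hΓ : Γ.Nice) (X : DGM Γ) {Y Y' : DGM Γ} {s : Y ⟶ Y'} (hs : IsQis s) (n : ℤ) :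
    Function.Bijective (HR X s n) := by
  constructor
  · rw [injective_iff_map_eq_zero]
    intro c hc
    obtain ⟨φ, hφ, rfl⟩ := cl_surjective c
    rw [HR_cl, cl_eq_zero_iff] at hc
    rw [cl_eq_zero_iff]
    exact mem_of_qis hΓ hs hφ hc
  · intro c
    obtain ⟨φ', hφ', rfl⟩ := cl_surjective c
    obtain ⟨φ, hφ, h⟩ := exists_of_qis hΓ hs hφ'
    refine ⟨cl φ hφ, ?_⟩
    rw [HR_cl, eq_comm, cl_eq_iff]
    exact h

/-- The functor `Hⁿ Φ(X, -)` on dg modules. -/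
noncomputable def hS (X : DGM Γ) (n : ℤ) : DGM Γ ⥤ ModuleCat.{0} k where
  obj Y := ModuleCat.of k (HPhi X Y n)
  map g := ModuleCat.ofHom (HR X g n)
  map_id Y := by rw [HR_id]; rfl
  map_comp g g' := by rw [HR_comp]; rfl

/-- The functor `Hⁿ Φ(X, -)` on the homotopy category. -/
noncomputable def hK (X : DGM Γ) (n : ℤ) : Hot Γ ⥤ ModuleCat.{0} k :=
  CategoryTheory.Quotient.lift (homRel Γ) (hS X n)
    (fun _ _ _ _ h => by dsimp only [hS]; rw [HR_homotopy X h])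

instance (X : DGM Γ) (n : ℤ) : (hS X n).Additive where
  map_add {_ _ g g'} := by dsimp only [hS]; rw [HR_add]; rfl

private lemma hK_map (X : DGM Γ) (n : ℤ) {Y Z : DGM Γ} (g : Y ⟶ Z) :
    (hK X n).map ((quot Γ).map g) = (hS X n).map g := rfl

instance (X : DGM Γ) (n : ℤ) : (hK X n).Additive where
  map_add {Y Z f g} := by
    obtain ⟨Y, rfl⟩ := quot_obj_surjective Y
    obtain ⟨Z, rfl⟩ := quot_obj_surjective Z
    obtain ⟨f, rfl⟩ := (quot Γ).map_surjective f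
    obtain ⟨g, rfl⟩ := (quot Γ).map_surjective g
    rw [← Functor.map_add, hK_map, hK_map, hK_map, Functor.map_add]
    rfl

instance (X : DGM Γ) (n : ℤ) : (hK X n).Linear k where
  map_smul {Y Z} f r := by
    obtain ⟨Y, rfl⟩ := quot_obj_surjective Y
    obtain ⟨Z, rfl⟩ := quot_obj_surjective Z
    obtain ⟨f, rfl⟩ := (quot Γ).map_surjective f
    rw [← Functor.map_smul, hK_map, hK_map]
    dsimp only [hS]
    rw [HR_smul]
    rfl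

/-- `shC` as a linear map. -/
private def shCL (X Y : DGM Γ) (m : ℤ) : Amb X Y →ₗ[k] Amb X (Y.sh m) where
  toFun := shC X Y m
  map_add' φ ψ := Prod.ext rfl (funext fun a => smul_add _ _ _)
  map_smul' c φ := Prod.ext rfl (funext fun a => by
    change sg k m • (c • φ.2 a) = c • (sg k m • φ.2 a)
    rw [smul_comm])

private lemma shCL_apply (X Y : DGM Γ) (m : ℤ) (φ : Amb X Y) : shCL X Y m φ = shC X Y m φ := rfl

private lemma shCL_injective (X Y : DGM Γ) (m : ℤ) : Function.Injective (shCL X Y m) := by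
  rw [injective_iff_map_eq_zero]
  intro φ hφ
  have h1 : φ.1 = 0 := congrArg Prod.fst hφ
  refine Prod.ext h1 (funext fun a => ?_)
  have h2 : sg k m • φ.2 a = 0 := congrFun (congrArg Prod.snd hφ) a
  have h3 := congrArg (fun z => sg k m • z) h2
  simp only [sg_mul_self_smul, smul_zero] at h3
  exact h3

private lemma shCL_surjective (X Y : DGM Γ) (m : ℤ) : Function.Surjective (shCL X Y m) := by
  intro φ
  refine ⟨((φ.1, fun a => sg k m • φ.2 a) : Amb X Y), ?_⟩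
  exact Prod.ext rfl (funext fun a => sg_mul_self_smul m (φ.2 a))

private lemma shCL_dPhi (X Y : DGM Γ) {m n n' : ℤ} (h : n + m = n') (φ : Amb X Y) :
    dPhi n (shCL X Y m φ) = sg k m • shCL X Y m (dPhi n' φ) := dPhi_shC m h φ

private lemma shCL_memZ (X Y : DGM Γ) {m n n' : ℤ} (h : n + m = n') (φ : Amb X Y) :
    shCL X Y m φ ∈ ZPhi X (Y.sh m) n ↔ φ ∈ ZPhi X Y n' := by
  have h1 : shCL X Y m φ ∈ ZPhi X (Y.sh m) n ↔
      shCL X Y m φ ∈ Phi X (Y.sh m) n ∧ dPhi n (shCL X Y m φ) = 0 := Iff.rfl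
  have h2 : φ ∈ ZPhi X Y n' ↔ φ ∈ Phi X Y n' ∧ dPhi n' φ = 0 := Iff.rfl
  rw [h1, h2, shCL_apply, shC_mem_iff m h]
  refine and_congr_right fun _ => ?_
  rw [← shCL_apply, shCL_dPhi X Y h]
  constructor
  · intro h3
    apply shCL_injective X Y m
    rw [map_zero]
    have h4 := congrArg (fun z => sg k m • z) h3
    simp only [sg_mul_self_smul, smul_zero] at h4
    exact h4
  · intro h3
    rw [h3, map_zero, smul_zero]

private lemma shCL_memB (X Y : DGM Γ) {m n n' : ℤ} (h : n + m = n') (φ : Amb X Y) :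
    shCL X Y m φ ∈ BPhi X (Y.sh m) n ↔ φ ∈ BPhi X Y n' := by
  have h' : n - 1 + m = n' - 1 := by omega
  constructor
  · rintro ⟨ψ', hψ', hψ⟩
    obtain ⟨ψ, rfl⟩ := shCL_surjective X Y m ψ'
    have h1 : ψ ∈ Phi X Y (n' - 1) := (shC_mem_iff m h').1 hψ'
    refine ⟨sg k m • ψ, Submodule.smul_mem _ _ h1, ?_⟩
    apply shCL_injective X Y m
    rw [← hψ, shCL_dPhi X Y h', map_smul, map_smul]
  · rintro ⟨ψ, hψ, rfl⟩
    refine ⟨sg k m • shCL X Y m ψ, Submodule.smul_mem _ _ ((shC_mem_iff m h').2 hψ), ?_⟩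
    rw [map_smul, shCL_dPhi X Y h', sg_mul_self_smul]

/-- The shift isomorphism. Proof: `shC_mem_iff`, `dPhi_shC`; the inverse is `(h, D) ↦ (h, sg m • D)`. -/
theorem exists_shift_equiv (X Y : DGM Γ) {n m n' : ℤ} (h : n + m = n') :
    ∃ e : HPhi X (Y.sh m) n ≃ₗ[k] HPhi X Y n', ∀ (φ : Amb X Y) (hφ : φ ∈ ZPhi X Y n')
      (hφ' : shC X Y m φ ∈ ZPhi X (Y.sh m) n), e (cl _ hφ') = cl φ hφ := by
  let F : HPhi X Y n' →ₗ[k] HPhi X (Y.sh m) n :=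
    Submodule.mapQ _ _ ((shCL X Y m).restrict (fun φ hφ => (shCL_memZ X Y h φ).2 hφ))
      (fun φ hφ => (shCL_memB X Y h φ.1).2 hφ)
  have hF : ∀ (φ : Amb X Y) (hφ : φ ∈ ZPhi X Y n'),
      F (cl φ hφ) = cl (shCL X Y m φ) ((shCL_memZ X Y h φ).2 hφ) := fun φ hφ => rfl
  have hb : Function.Bijective F := by
    constructor
    · rw [injective_iff_map_eq_zero]
      intro c hc
      obtain ⟨φ, hφ, rfl⟩ := cl_surjective c
      rw [hF, cl_eq_zero_iff] at hc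
      rw [cl_eq_zero_iff]
      exact (shCL_memB X Y h φ).1 hc
    · intro c
      obtain ⟨φ', hφ', rfl⟩ := cl_surjective c
      obtain ⟨φ, rfl⟩ := shCL_surjective X Y m φ'
      exact ⟨cl φ ((shCL_memZ X Y h φ).1 hφ'), rfl⟩
  refine ⟨(LinearEquiv.ofBijective F hb).symm, fun φ hφ hφ' => ?_⟩
  rw [LinearEquiv.symm_apply_eq]
  rfl

end DGM

end GZ
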