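import Pool.Agent.Lib_MP_a23b08_g.GTri

/-!
# dg modules: the octahedral axiom for the homotopy category (MP_a23b08_al, part G)
-/

open CategoryTheory CategoryTheory.Limits CategoryTheory.Category Pretriangulated

set_option backward.isDefEq.respectTransparency false
set_option backward.defeqAttrib.useBackward true

namespace GZ

variable {k : Type} [Field k] {Γ : QF k}

namespace DGM

variable {X Y Z : DGM Γ} (u : X ⟶ Y) (g : Y ⟶ Z)

/-- `cone u ⟶ cone (u ≫ g)`, `(y, x) ↦ (g y, x)`. -/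
def octA : cone u ⟶ cone (u ≫ g) :=
  coneMap u (u ≫ g) (𝟙 X) g 0 (zero_mem _) (by intro x; simp)

/-- `cone (u ≫ g) ⟶ cone g`, `(z, x) ↦ (z, u x)`. -/
def octB : cone (u ≫ g) ⟶ cone g :=
  coneMap (u ≫ g) g u (𝟙 Z) 0 (zero_mem _) (by intro x; simp)

lemma lin_octA (y : Y.M) (x : X.M) : lin (octA u g) (y, x) = (lin g y, x) := by
  change (lin g y + 0, x) = _
  rw [add_zero]

lemma lin_octB (z : Z.M) (x : X.M) : lin (octB u g) (z, x) = (z, lin u x) := by
  change (z + 0, lin u x) = _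
  rw [add_zero]

lemma cone_octA_d (z : Z.M) (x x' : X.M) (y : Y.M) : (cone (octA u g)).d ((z, x), (y, x')) =
    ((Z.d z + lin g (lin u x) + lin g y, -X.d x + x'), (-(Y.d y + lin u x'), X.d x')) := by
  rw [cone_d, cone_d, cone_d, lin_octA]
  refine Prod.ext (Prod.ext ?_ ?_) (Prod.ext ?_ ?_)
  · simp
  · simp
  · simp
  · simp

lemma cone_octA_act (a : Γ.A) (z : Z.M) (x x' : X.M) (y : Y.M) :
    (cone (octA u g)).act a ((z, x), (y, x')) =
    ((Z.act a z, sg k (Γ.deg a) • X.act a x), (sg k (Γ.deg a) • Y.act a y, X.act a x')) := by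
  rw [cone_act, cone_act, cone_act]
  refine Prod.ext rfl (Prod.ext ?_ ?_)
  · simp
  · simp

/-- `cone g ⟶ cone (octA u g)`, `(z, y) ↦ ((z, 0), (y, 0))`. -/
def octHom : cone g ⟶ cone (octA u g) :=
  homMk (X := cone g) (Y := cone (octA u g))
    ((LinearMap.inl k Z.M X.M).prodMap (LinearMap.inl k Y.M X.M))
    (by
      rintro v p ⟨z, y⟩ ⟨hz, hy⟩
      exact ⟨⟨hz, zero_mem _⟩, ⟨hy, zero_mem _⟩⟩)
    (by
      rintro a ⟨z, y⟩
      rw [cone_act]
      change ((Z.act a z, (0 : X.M)), (sg k (Γ.deg a) • Y.act a y, (0 : X.M))) =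
        (cone (octA u g)).act a ((z, 0), (y, 0))
      rw [cone_octA_act]
      simp)
    (by
      rintro ⟨z, y⟩
      rw [cone_d]
      change ((Z.d z + lin g y, (0 : X.M)), (-Y.d y, (0 : X.M))) =
        (cone (octA u g)).d ((z, 0), (y, 0))
      rw [cone_octA_d]
      simp)

/-- `cone (octA u g) ⟶ cone g`, `((z, x), (y, x')) ↦ (z, y + u x)`. -/
def octInv : cone (octA u g) ⟶ cone g :=
  homMk (X := cone (octA u g)) (Y := cone g)
    ((LinearMap.fst k Z.M X.M ∘ₗ LinearMap.fst k (Z.M × X.M) (Y.M × X.M)).prod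
      (LinearMap.fst k Y.M X.M ∘ₗ LinearMap.snd k (Z.M × X.M) (Y.M × X.M) +
        lin u ∘ₗ LinearMap.snd k Z.M X.M ∘ₗ LinearMap.fst k (Z.M × X.M) (Y.M × X.M)))
    (by
      rintro v p ⟨⟨z, x⟩, ⟨y, x'⟩⟩ ⟨⟨hz, hx⟩, ⟨hy, hx'⟩⟩
      exact ⟨hz, add_mem hy (lin_mem u hx)⟩)
    (by
      rintro a ⟨⟨z, x⟩, ⟨y, x'⟩⟩
      rw [cone_octA_act]
      change (Z.act a z, sg k (Γ.deg a) • Y.act a y + lin u (sg k (Γ.deg a) • X.act a x)) =
        (cone g).act a (z, y + lin u x)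
      rw [cone_act, map_smul, lin_act, map_add, smul_add])
    (by
      rintro ⟨⟨z, x⟩, ⟨y, x'⟩⟩
      rw [cone_octA_d]
      change (Z.d z + lin g (lin u x) + lin g y, -(Y.d y + lin u x') + lin u (-X.d x + x')) =
        (cone g).d (z, y + lin u x)
      rw [cone_d]
      refine Prod.ext ?_ ?_
      · change Z.d z + lin g (lin u x) + lin g y = Z.d z + lin g (y + lin u x)
        rw [map_add]
        abel
      · change -(Y.d y + lin u x') + lin u (-X.d x + x') = -Y.d (y + lin u x)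
        rw [map_add, map_add, map_neg, lin_d]
        abel)

lemma lin_octHom (z : Z.M) (y : Y.M) : lin (octHom u g) (z, y) = ((z, (0 : X.M)), (y, 0)) := rfl

lemma lin_octInv (z : Z.M) (x x' : X.M) (y : Y.M) :
    lin (octInv u g) ((z, x), (y, x')) = (z, y + lin u x) := rfl

lemma octHom_octInv : octHom u g ≫ octInv u g = 𝟙 _ := by
  apply hom_ext
  rintro ⟨z, y⟩
  change (z, y + lin u 0) = (z, y)
  simp

/-- The cone of `octA` is homotopy equivalent to the cone of `g`. -/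
noncomputable def octIso : (quot Γ).obj (cone g) ≅ (quot Γ).obj (cone (octA u g)) :=
  isoMk (octHom u g) (octInv u g) (congrArg (quot Γ).map (octHom_octInv u g))
    (by
      refine Eq.symm (quot_map_eq ((0 : (cone (octA u g)).M →ₗ[k] (cone (u ≫ g)).M).prod
        ((0 : (cone (octA u g)).M →ₗ[k] Y.M).prod
          (LinearMap.snd k Z.M X.M ∘ₗ LinearMap.fst k (Z.M × X.M) (Y.M × X.M))))
        (mem_lin_neg_one ?_ ?_) ?_)
      · rintro v p q ⟨⟨z, x⟩, ⟨y, x'⟩⟩ h ⟨⟨hz, hx⟩, ⟨hy, hx'⟩⟩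
        subst h
        exact ⟨zero_mem _, ⟨zero_mem _, hx⟩⟩
      · rintro a ⟨⟨z, x⟩, ⟨y, x'⟩⟩
        rw [cone_octA_act]
        change ((((0 : Z.M), (0 : X.M)), ((0 : Y.M), sg k (Γ.deg a) • X.act a x))) =
          sg k (Γ.deg a) • (cone (octA u g)).act a (((0 : Z.M), (0 : X.M)), ((0 : Y.M), x))
        rw [cone_octA_act]
        refine Prod.ext (Prod.ext ?_ ?_) (Prod.ext ?_ ?_) <;> simp
      · rintro ⟨⟨z, x⟩, ⟨y, x'⟩⟩
        change ((z, x), (y, x')) =
          (cone (octA u g)).d (((0 : Z.M), (0 : X.M)), ((0 : Y.M), x)) +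
          (((0 : Z.M), (0 : X.M)), ((0 : Y.M), ((cone (octA u g)).d ((z, x), (y, x'))).1.2)) +
          ((z, (0 : X.M)), (y + lin u x, (0 : X.M)))
        rw [cone_octA_d, cone_octA_d]
        refine Prod.ext (Prod.ext ?_ ?_) (Prod.ext ?_ ?_)
        · simp
        · simp
        · change y = -(Y.d 0 + lin u x) + 0 + (y + lin u x)
          rw [map_zero]
          abel
        · change x' = X.d x + (-X.d x + x') + 0
          abel)

/-- The triangle `cone u ⟶ cone (u ≫ g) ⟶ cone g ⟶ (cone u)⟦1⟧`. -/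
@[simps! mor₁ mor₂ mor₃ obj₁ obj₂ obj₃]
def octTri : Triangle (DGM Γ) :=
  Triangle.mk (octA u g) (octB u g) (pr g ≫ (inr u)⟦(1 : ℤ)⟧')

lemma inr_octInv : inr (octA u g) ≫ octInv u g = octB u g := by
  apply hom_ext
  rintro ⟨z, x⟩
  rw [lin_octB]
  change (z, 0 + lin u x) = (z, lin u x)
  rw [zero_add]

lemma octHom_pr : octHom u g ≫ pr (octA u g) = pr g ≫ (inr u)⟦(1 : ℤ)⟧' := by
  apply hom_ext
  rintro ⟨z, y⟩
  rfl

lemma octB_octHom : (quot Γ).map (octB u g) ≫ (quot Γ).map (octHom u g) =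
    (quot Γ).map (inr (octA u g)) := by
  rw [← cancel_mono (octIso u g).inv, assoc]
  change (quot Γ).map (octB u g) ≫ (octIso u g).hom ≫ (octIso u g).inv =
    (quot Γ).map (inr (octA u g)) ≫ (quot Γ).map (octInv u g)
  rw [Iso.hom_inv_id, comp_id, ← Functor.map_comp, inr_octInv]

lemma octTri_distinguished : (quot Γ).mapTriangle.obj (octTri u g) ∈ distTriang (Hot Γ) := by
  refine ⟨_, _, octA u g, ⟨?_⟩⟩
  refine Triangle.isoMk _ _ (Iso.refl _) (Iso.refl _) (octIso u g) (by simp) ?_ ?_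
  · dsimp [octIso]
    rw [id_comp]
    exact octB_octHom u g
  · dsimp [octIso]
    rw [CategoryTheory.Functor.map_id, comp_id, ← Functor.map_comp_assoc, octHom_pr]

noncomputable instance : IsTriangulated (Hot Γ) :=
  IsTriangulated.mk' (by
    intro X₁' X₂' X₃' u₁₂' u₂₃'
    obtain ⟨X₁, rfl⟩ := quot_obj_surjective X₁'
    obtain ⟨X₂, rfl⟩ := quot_obj_surjective X₂'
    obtain ⟨X₃, rfl⟩ := quot_obj_surjective X₃'
    obtain ⟨u₁₂, rfl⟩ := (quot Γ).map_surjective u₁₂'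
    obtain ⟨u₂₃, rfl⟩ := (quot Γ).map_surjective u₂₃'
    refine ⟨_, _, _, _, _, _, _, _, Iso.refl _, Iso.refl _, Iso.refl _, by simp, by simp,
        _, _, trih_distinguished u₁₂,
        _, _, trih_distinguished u₂₃,
        _, _, trih_distinguished (u₁₂ ≫ u₂₃), ⟨?_⟩⟩
    let α := trihMap u₁₂ (u₁₂ ≫ u₂₃) (𝟙 X₁) u₂₃ 0 (zero_mem _) (by intro x; simp)
    let β := trihMap (u₁₂ ≫ u₂₃) u₂₃ u₁₂ (𝟙 X₃) 0 (zero_mem _) (by intro x; simp)
    refine Triangulated.Octahedron.mk ((quot Γ).map (octA u₁₂ u₂₃))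
      ((quot Γ).map (octB u₁₂ u₂₃)) ?_ ?_ ?_ ?_ ?_
    · exact α.comm₂
    · exact α.comm₃.symm.trans (by dsimp [α]; simp)
    · exact β.comm₂.trans (by dsimp [β]; simp)
    · exact β.comm₃
    · refine isomorphic_distinguished _ (octTri_distinguished u₁₂ u₂₃) _ ?_
      exact Triangle.isoMk _ _ (Iso.refl _) (Iso.refl _) (Iso.refl _)
        (by dsimp; simp) (by dsimp; simp) (by dsimp; simp))

end DGM

end GZ
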