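import Pool.Agent.Lib_MP_a23b08_g.GPhiDefs

/-!
Functoriality of `Φ(X, Y)` for strict morphisms and homotopy invariance.
-/

open CategoryTheory

namespace GZ

namespace DGM

variable {k : Type} [Field k] {Γ : QF k} {X Y Z : DGM Γ}

/-- postcomposition with a linear map. -/
def mapR (X : DGM Γ) {Y Z : DGM Γ} (g : Y.M →ₗ[k] Z.M) : Amb X Y →ₗ[k] Amb X Z where
  toFun φ := (g ∘ₗ φ.1, fun a => g ∘ₗ φ.2 a)
  map_add' φ ψ := by ext <;> simp
  map_smul' c φ := by ext <;> simp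

/-- precomposition with a linear map. -/
def mapL {X Y : DGM Γ} (Z : DGM Γ) (f : X.M →ₗ[k] Y.M) : Amb Y Z →ₗ[k] Amb X Z where
  toFun φ := (φ.1 ∘ₗ f, fun a => φ.2 a ∘ₗ f)
  map_add' φ ψ := by ext <;> simp
  map_smul' c φ := by ext <;> simp

lemma mapR_mem (g : Y ⟶ Z) {n : ℤ} {φ : Amb X Y} (hφ : φ ∈ Phi X Y n) :
    mapR X (lin g) φ ∈ Phi X Z n := by
  exact ⟨fun v p q x h hx => lin_mem g (hφ.1 v p q x h hx),
    fun a => ⟨fun p q x h hx => lin_mem g ((hφ.2 a).1 p q x h hx),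
      fun v p x hv hx => by
        change lin g (φ.2 a x) = 0
        rw [(hφ.2 a).2 v p x hv hx, map_zero]⟩⟩

lemma mapL_mem (f : X ⟶ Y) {n : ℤ} {φ : Amb Y Z} (hφ : φ ∈ Phi Y Z n) :
    mapL Z (lin f) φ ∈ Phi X Z n := by
  exact ⟨fun v p q x h hx => hφ.1 v p q _ h (lin_mem f hx),
    fun a => ⟨fun p q x h hx => (hφ.2 a).1 p q _ h (lin_mem f hx),
      fun v p x hv hx => (hφ.2 a).2 v p _ hv (lin_mem f hx)⟩⟩

private lemma derW_lin_left (g : Y ⟶ Z) (m : ℤ) (D : Γ.A → (X.M →ₗ[k] Y.M)) (w : List Γ.A)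
    (x : X.M) : derW m (fun a => lin g ∘ₗ D a) w x = lin g (derW m D w x) := by
  induction w with
  | nil => simp
  | cons a w ih =>
    rw [derW_cons, derW_cons, ih, map_add, map_smul, lin_act]
    rfl

private lemma derP_lin_left (g : Y ⟶ Z) (m : ℤ) (D : Γ.A → (X.M →ₗ[k] Y.M))
    (p : List (k × List Γ.A)) (x : X.M) :
    derP m (fun a => lin g ∘ₗ D a) p x = lin g (derP m D p x) := by
  induction p with
  | nil => simp
  | cons t p ih =>
    rw [derP_cons_apply, derP_cons_apply, ih, map_add, map_smul, derW_lin_left]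

private lemma lin_evW3 (f : X ⟶ Y) (w : List Γ.A) (x : X.M) :
    lin f (evW X.act w x) = evW Y.act w (lin f x) := by
  induction w with
  | nil => rfl
  | cons a w ih => rw [evW_cons, evW_cons, lin_act, ih]

private lemma derW_lin_right (f : X ⟶ Y) (m : ℤ) (D : Γ.A → (Y.M →ₗ[k] Z.M)) (w : List Γ.A)
    (x : X.M) : derW m (fun a => D a ∘ₗ lin f) w x = derW m D w (lin f x) := by
  induction w with
  | nil => simp
  | cons a w ih =>
    rw [derW_cons, derW_cons, ih, ← lin_evW3]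
    rfl

private lemma derP_lin_right (f : X ⟶ Y) (m : ℤ) (D : Γ.A → (Y.M →ₗ[k] Z.M))
    (p : List (k × List Γ.A)) (x : X.M) :
    derP m (fun a => D a ∘ₗ lin f) p x = derP m D p (lin f x) := by
  induction p with
  | nil => simp
  | cons t p ih =>
    rw [derP_cons_apply, derP_cons_apply, ih, derW_lin_right]

/-- Proof: `derW m (g ∘ D) w = g ∘ derW m D w` for a morphism `g` (induction), and `g` commutes
with `d` and `act a`. -/
lemma mapR_dPhi (g : Y ⟶ Z) (n : ℤ) (φ : Amb X Y) :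
    dPhi n (mapR X (lin g) φ) = mapR X (lin g) (dPhi n φ) := by
  refine Prod.ext (LinearMap.ext fun x => ?_) (funext fun a => LinearMap.ext fun x => ?_)
  · change Z.d (lin g (φ.1 x)) - sg k n • lin g (φ.1 (X.d x)) =
      lin g (Y.d (φ.1 x) - sg k n • φ.1 (X.d x))
    rw [map_sub, map_smul, lin_d]
  · change lin g (φ.1 (X.act a x)) - sg k (n * Γ.deg a) • Z.act a (lin g (φ.1 x)) -
        (Z.d (lin g (φ.2 a x)) - sg k (n - 1 + Γ.deg a) • lin g (φ.2 a (X.d x)) -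
          sg k (n - 1) • derP (n - 1) (fun a => lin g ∘ₗ φ.2 a) (Γ.diff a) x) =
      lin g (φ.1 (X.act a x) - sg k (n * Γ.deg a) • Y.act a (φ.1 x) -
        (Y.d (φ.2 a x) - sg k (n - 1 + Γ.deg a) • φ.2 a (X.d x) -
          sg k (n - 1) • derP (n - 1) φ.2 (Γ.diff a) x))
    rw [derP_lin_left]
    simp only [map_sub, map_smul, lin_d, lin_act]

lemma mapL_dPhi (f : X ⟶ Y) (n : ℤ) (φ : Amb Y Z) :
    dPhi n (mapL Z (lin f) φ) = mapL Z (lin f) (dPhi n φ) := by
  refine Prod.ext (LinearMap.ext fun x => ?_) (funext fun a => LinearMap.ext fun x => ?_)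
  · change Z.d (φ.1 (lin f x)) - sg k n • φ.1 (lin f (X.d x)) =
      Z.d (φ.1 (lin f x)) - sg k n • φ.1 (Y.d (lin f x))
    rw [lin_d]
  · change φ.1 (lin f (X.act a x)) - sg k (n * Γ.deg a) • Z.act a (φ.1 (lin f x)) -
        (Z.d (φ.2 a (lin f x)) - sg k (n - 1 + Γ.deg a) • φ.2 a (lin f (X.d x)) -
          sg k (n - 1) • derP (n - 1) (fun a => φ.2 a ∘ₗ lin f) (Γ.diff a) x) =
      φ.1 (Y.act a (lin f x)) - sg k (n * Γ.deg a) • Z.act a (φ.1 (lin f x)) -
        (Z.d (φ.2 a (lin f x)) - sg k (n - 1 + Γ.deg a) • φ.2 a (Y.d (lin f x)) -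
          sg k (n - 1) • derP (n - 1) φ.2 (Γ.diff a) (lin f x))
    rw [derP_lin_right, lin_d, lin_act]

private lemma derW_null_left {z : Y.M →ₗ[k] Z.M}
    (hz : ∀ a y, Z.act a (z y) = sg k (Γ.deg a) • z (Y.act a y)) (m : ℤ)
    (D : Γ.A → (X.M →ₗ[k] Y.M)) (w : List Γ.A) (x : X.M) :
    derW (m - 1) (fun a => - (z ∘ₗ D a)) w x = - z (derW m D w x) := by
  induction w with
  | nil => simp
  | cons a w ih =>
    rw [derW_cons, derW_cons, ih, map_add, map_smul, map_neg, hz, sub_mul, one_mul, sg_sub,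
      smul_neg, smul_smul, mul_assoc, sg_mul_self, mul_one, neg_add]
    rfl

private lemma derP_null_left {z : Y.M →ₗ[k] Z.M}
    (hz : ∀ a y, Z.act a (z y) = sg k (Γ.deg a) • z (Y.act a y)) (m : ℤ)
    (D : Γ.A → (X.M →ₗ[k] Y.M)) (p : List (k × List Γ.A)) (x : X.M) :
    derP (m - 1) (fun a => - (z ∘ₗ D a)) p x = - z (derP m D p x) := by
  induction p with
  | nil => simp
  | cons t p ih =>
    rw [derP_cons_apply, derP_cons_apply, ih, map_add, map_smul, derW_null_left hz, smul_neg,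
      neg_add]

/-- Homotopy invariance in `Y`. If `g = d z + z d` with `z` `Γ`-linear of degree `-1` then for a
cocycle `φ = (h, D)` of degree `n`, `g φ = dPhi (n - 1) (z h, - z D)`. Proof: `z a = (-1)^|a| a z`
(`hz.2`, `sg k (-1 * deg a) = sg k (deg a)`), so `derW (m - 1) (z D) w = z (derW m D w)` with
`m = n - 1` (induction on `w`), `dH (n-1) (z h) = (d z + z d) h = g h` (use `dH n h = 0`),
`inn (n-1) (z h) = z (inn n h)`, `bd (n-2) (z D) = g D - z (bd (n-1) D)`; and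
`inn n h = bd (n-1) D` since `φ` is a cocycle. -/
lemma mapR_null {g : Y ⟶ Z} {z : Y.M →ₗ[k] Z.M} (hz : z ∈ Lin Y Z (-1))
    (hg : ∀ y, lin g y = Z.d (z y) + z (Y.d y)) {n : ℤ} {φ : Amb X Y} (hφ : φ ∈ ZPhi X Y n) :
    mapR X (lin g) φ ∈ BPhi X Z n := by
  obtain ⟨⟨h1, h2⟩, h3⟩ := hφ
  have h3' : dPhi n φ = 0 := h3
  have e1 : ∀ x, Y.d (φ.1 x) = sg k n • φ.1 (X.d x) := by
    intro x
    have := congrArg (fun ψ : Amb X Y => ψ.1 x) h3'
    exact sub_eq_zero.1 this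
  have e2 : ∀ a x, φ.1 (X.act a x) - sg k (n * Γ.deg a) • Y.act a (φ.1 x) =
      Y.d (φ.2 a x) - sg k (n - 1 + Γ.deg a) • φ.2 a (X.d x) -
        sg k (n - 1) • derP (n - 1) φ.2 (Γ.diff a) x := by
    intro a x
    have := congrArg (fun ψ : Amb X Y => ψ.2 a x) h3'
    exact sub_eq_zero.1 this
  have hz2 : ∀ a y, Z.act a (z y) = sg k (Γ.deg a) • z (Y.act a y) := by
    intro a y
    rw [hz.2 a y, neg_one_mul, sg_neg, sg_mul_self_smul]
  refine ⟨(z ∘ₗ φ.1, fun a => - (z ∘ₗ φ.2 a)), ⟨?_, ?_⟩, ?_⟩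
  · intro v p q x h hx
    exact hz.1 v (p + n) q _ (by omega) (h1 v p _ x rfl hx)
  · intro a
    refine ⟨fun p q x h hx => neg_mem (hz.1 _ (p + (n - 1 + Γ.deg a)) q _ (by omega)
      ((h2 a).1 p _ x rfl hx)), fun v p x hv hx => ?_⟩
    change - z (φ.2 a x) = 0
    rw [(h2 a).2 v p x hv hx, map_zero, neg_zero]
  · refine Prod.ext (LinearMap.ext fun x => ?_) (funext fun a => LinearMap.ext fun x => ?_)
    · change Z.d (z (φ.1 x)) - sg k (n - 1) • z (φ.1 (X.d x)) = lin g (φ.1 x)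
      rw [hg, e1, map_smul, sg_sub, sg_one]
      module
    · have e3 := e2 a x
      change z (φ.1 (X.act a x)) - sg k ((n - 1) * Γ.deg a) • Z.act a (z (φ.1 x)) -
          (Z.d (- z (φ.2 a x)) - sg k (n - 1 - 1 + Γ.deg a) • (- z (φ.2 a (X.d x))) -
            sg k (n - 1 - 1) • derP (n - 1 - 1) (fun a => - (z ∘ₗ φ.2 a)) (Γ.diff a) x) =
        lin g (φ.2 a x)
      rw [derP_null_left hz2, hg, hz2, sub_mul, one_mul, sg_sub, sg_add, sg_sub (n - 1) 1, sg_one]
      have e4 := congrArg z e3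
      simp only [map_sub, map_smul] at e4
      rw [sg_add] at e4
      rw [map_neg]
      have e5 : z (φ.1 (X.act a x)) = sg k (n * Γ.deg a) • z (Y.act a (φ.1 x)) +
        (z (Y.d (φ.2 a x)) - (sg k (n - 1) * sg k (Γ.deg a)) • z (φ.2 a (X.d x)) -
          sg k (n - 1) • z (derP (n - 1) φ.2 (Γ.diff a) x)) := by
        rw [← e4]; abel
      rw [e5, smul_smul, mul_assoc, sg_mul_self]
      module

private lemma z_evW {z : X.M →ₗ[k] Y.M}
    (hz : ∀ a y, z (X.act a y) = sg k (Γ.deg a) • Y.act a (z y)) (w : List Γ.A) (x : X.M) :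
    z (evW X.act w x) = sg k (degW Γ.deg w) • evW Y.act w (z x) := by
  induction w with
  | nil => simp
  | cons a w ih =>
    rw [evW_cons, evW_cons, hz, ih, map_smul, smul_smul, degW_cons, sg_add]

private lemma derW_null_right {z : X.M →ₗ[k] Y.M}
    (hz : ∀ a y, z (X.act a y) = sg k (Γ.deg a) • Y.act a (z y)) (c : k) (m : ℤ)
    (D : Γ.A → (Y.M →ₗ[k] Z.M)) (w : List Γ.A) (x : X.M) :
    derW (m - 1) (fun a => (c * sg k (Γ.deg a)) • (D a ∘ₗ z)) w x =
      (c * sg k (degW Γ.deg w)) • derW m D w (z x) := by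
  induction w with
  | nil => simp
  | cons a w ih =>
    rw [derW_cons, derW_cons, ih, map_smul, smul_add]
    change (c * sg k (Γ.deg a)) • D a (z (evW X.act w x)) + _ = _
    rw [z_evW hz, map_smul, smul_smul, smul_smul, smul_smul, degW_cons, sg_add, sub_mul,
      one_mul, sg_sub]
    congr 1
    · rw [mul_assoc]
    · congr 1
      ring

private lemma derP_null_right {z : X.M →ₗ[k] Y.M}
    (hz : ∀ a y, z (X.act a y) = sg k (Γ.deg a) • Y.act a (z y)) (c : k) (m : ℤ)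
    (D : Γ.A → (Y.M →ₗ[k] Z.M)) (p : List (k × List Γ.A)) (e : ℤ)
    (hp : ∀ t ∈ p, degW Γ.deg t.2 = e) (x : X.M) :
    derP (m - 1) (fun a => (c * sg k (Γ.deg a)) • (D a ∘ₗ z)) p x =
      (c * sg k e) • derP m D p (z x) := by
  induction p with
  | nil => simp
  | cons t p ih =>
    have h1 := hp t (List.mem_cons_self ..)
    rw [derP_cons_apply, derP_cons_apply, ih (fun s hs => hp s (List.mem_cons_of_mem _ hs)),
      derW_null_right hz, h1, smul_add, smul_comm]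

/-- Homotopy invariance in `X`. If `f = d z + z d` with `z` `Γ`-linear of degree `-1` then for a
cocycle `φ = (h, D)` of degree `n`, `φ f = dPhi (n - 1) ψ` with
`ψ = (sg n • h z, fun a => (sg n * sg |a|) • D_a z)`. Proof (`m = n - 1`): `z a = sg|a| a z`,
`w z = sg|w| z w`; `dH (n-1) (h z) = sg n • h f`; `inn (n-1) (h z) a = sg|a| • (inn n h a) z`;
for `E a = sg|a| • D_a z`: `derW (m-1) E w = sg|w| • (derW m D w) z` (induction), hence
`bd (m-1) E a = sg|a| • (bd m D a) z + sg m • D_a f` (use `z d = f - d z`); and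
`inn n h = bd m D`. -/
lemma mapL_null {f : X ⟶ Y} {z : X.M →ₗ[k] Y.M} (hz : z ∈ Lin X Y (-1))
    (hf : ∀ x, lin f x = Y.d (z x) + z (X.d x)) {n : ℤ} {φ : Amb Y Z} (hφ : φ ∈ ZPhi Y Z n) :
    mapL Z (lin f) φ ∈ BPhi X Z n := by
  obtain ⟨⟨h1, h2⟩, h3⟩ := hφ
  have h3' : dPhi n φ = 0 := h3
  have e1 : ∀ x, Z.d (φ.1 x) = sg k n • φ.1 (Y.d x) := by
    intro x
    have := congrArg (fun ψ : Amb Y Z => ψ.1 x) h3'
    exact sub_eq_zero.1 this
  have e2 : ∀ a x, φ.1 (Y.act a x) - sg k (n * Γ.deg a) • Z.act a (φ.1 x) =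
      Z.d (φ.2 a x) - sg k (n - 1 + Γ.deg a) • φ.2 a (Y.d x) -
        sg k (n - 1) • derP (n - 1) φ.2 (Γ.diff a) x := by
    intro a x
    have := congrArg (fun ψ : Amb Y Z => ψ.2 a x) h3'
    exact sub_eq_zero.1 this
  have hz2 : ∀ a y, z (X.act a y) = sg k (Γ.deg a) • Y.act a (z y) := by
    intro a y
    rw [hz.2 a y, neg_one_mul, sg_neg]
  refine ⟨(sg k n • (φ.1 ∘ₗ z), fun a => (sg k n * sg k (Γ.deg a)) • (φ.2 a ∘ₗ z)), ⟨?_, ?_⟩, ?_⟩
  · intro v p q x h hx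
    exact Submodule.smul_mem _ _ (h1 v (p + -1) q _ (by omega) (hz.1 v p _ x rfl hx))
  · intro a
    refine ⟨fun p q x h hx => Submodule.smul_mem _ _ ((h2 a).1 (p + -1) q _ (by omega)
      (hz.1 _ p _ x rfl hx)), fun v p x hv hx => ?_⟩
    change (sg k n * sg k (Γ.deg a)) • φ.2 a (z x) = 0
    rw [(h2 a).2 v _ _ hv (hz.1 v p _ x rfl hx), smul_zero]
  · refine Prod.ext (LinearMap.ext fun x => ?_) (funext fun a => LinearMap.ext fun x => ?_)
    · change Z.d (sg k n • φ.1 (z x)) - sg k (n - 1) • sg k n • φ.1 (z (X.d x)) = φ.1 (lin f x)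
      rw [hf, map_smul, e1, map_add, sg_sub, sg_one]
      simp only [smul_smul]
      have := sg_mul_self (k := k) n
      rw [show sg k n * -1 * sg k n = - (sg k n * sg k n) by ring, this]
      module
    · have e3 := e2 a (z x)
      have e6 : φ.2 a (z (X.d x)) = φ.2 a (lin f x) - φ.2 a (Y.d (z x)) := by
        rw [hf, map_add]; abel
      change sg k n • φ.1 (z (X.act a x)) -
          sg k ((n - 1) * Γ.deg a) • Z.act a (sg k n • φ.1 (z x)) -
          (Z.d ((sg k n * sg k (Γ.deg a)) • φ.2 a (z x)) -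
            sg k (n - 1 - 1 + Γ.deg a) • ((sg k n * sg k (Γ.deg a)) • φ.2 a (z (X.d x))) -
            sg k (n - 1 - 1) • derP (n - 1 - 1)
              (fun a => (sg k n * sg k (Γ.deg a)) • (φ.2 a ∘ₗ z)) (Γ.diff a) x) =
        φ.2 a (lin f x)
      rw [derP_null_right hz2 (sg k n) (n - 1) φ.2 (Γ.diff a) (Γ.deg a + 1) (Γ.diff_deg a), hz2,
        map_smul, map_smul, map_smul, e6]
      have e5 : φ.1 (Y.act a (z x)) = sg k (n * Γ.deg a) • Z.act a (φ.1 (z x)) +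
        (Z.d (φ.2 a (z x)) - sg k (n - 1 + Γ.deg a) • φ.2 a (Y.d (z x)) -
          sg k (n - 1) • derP (n - 1) φ.2 (Γ.diff a) (z x)) := by
        rw [← e3]; abel
      have s1 : sg k (n - 1) = - sg k n := by rw [sg_sub, sg_one]; ring
      have s2 : sg k (n - 1 - 1) = sg k n := by rw [sg_sub, s1, sg_one]; ring
      have s3 : sg k (n * Γ.deg a - Γ.deg a) = sg k (n * Γ.deg a) * sg k (Γ.deg a) := sg_sub _ _
      rw [e5, sub_mul, one_mul, s3, sg_add (n - 1 - 1), sg_add (n - 1), sg_add (Γ.deg a), s2,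
        s1, sg_one]
      rcases sg_eq_one_or (k := k) n with hn | hn <;>
      rcases sg_eq_one_or (k := k) (Γ.deg a) with ha | ha <;> rw [hn, ha] <;> module

private lemma bd_zero3 (m : ℤ) (a : Γ.A) : bd m (0 : Γ.A → (X.M →ₗ[k] Y.M)) a = 0 := by
  have h := congrFun (bd_smul m (0 : k) (0 : Γ.A → (X.M →ₗ[k] Y.M))) a
  rw [zero_smul, zero_smul] at h
  exact h

/-- A cocycle of the form `(g, 0)` of degree `0` is a morphism of dg modules. -/
lemma exists_hom_of_mem {g : X.M →ₗ[k] Y.M} (h : ((g, 0) : Amb X Y) ∈ ZPhi X Y 0) :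
    ∃ f : X ⟶ Y, lin f = g := by
  obtain ⟨⟨h1, -⟩, h3⟩ := h
  have h3' : dPhi 0 ((g, 0) : Amb X Y) = 0 := h3
  refine ⟨homMk g (fun v p x hx => h1 v p p x (add_zero p) hx) (fun a x => ?_) (fun x => ?_), rfl⟩
  · have := congrArg (fun ψ : Amb X Y => ψ.2 a x) h3'
    have h4 : g (X.act a x) - sg k (0 * Γ.deg a) • Y.act a (g x) - bd (0 - 1) 0 a x = 0 := this
    rw [bd_zero3, LinearMap.zero_apply, sub_zero, zero_mul, sg_zero, one_smul, sub_eq_zero] at h4
    exact h4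
  · have := congrArg (fun ψ : Amb X Y => ψ.1 x) h3'
    have h4 : Y.d (g x) - sg k 0 • g (X.d x) = 0 := this
    rw [sg_zero, one_smul, sub_eq_zero] at h4
    exact h4.symm

/-- A morphism gives a cocycle of degree `0`. -/
lemma hom_mem (f : X ⟶ Y) : ((lin f, 0) : Amb X Y) ∈ ZPhi X Y 0 := by
  refine ⟨⟨fun v p q x h hx => ?_, fun a => zero_mem _⟩, ?_⟩
  · rw [add_zero] at h
    subst h
    exact lin_mem f hx
  · change dPhi 0 ((lin f, 0) : Amb X Y) = 0
    refine Prod.ext (LinearMap.ext fun x => ?_) (funext fun a => LinearMap.ext fun x => ?_)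
    · change Y.d (lin f x) - sg k 0 • lin f (X.d x) = 0
      rw [sg_zero, one_smul, lin_d, sub_self]
    · change lin f (X.act a x) - sg k (0 * Γ.deg a) • Y.act a (lin f x) - bd (0 - 1) 0 a x = 0
      rw [bd_zero3, LinearMap.zero_apply, sub_zero, zero_mul, sg_zero, one_smul, lin_act, sub_self]

/-- If `(g, 0) = dPhi (-1) (h, 0)`, `h` of degree `-1`, then `h` is `Γ`-linear and `g = d h + h d`. -/
lemma lin_of_dPhi {g h : X.M →ₗ[k] Y.M} (hh : h ∈ HomV X Y (-1))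
    (e : dPhi (-1) ((h, 0) : Amb X Y) = (g, 0)) :
    h ∈ Lin X Y (-1) ∧ ∀ x, g x = Y.d (h x) + h (X.d x) := by
  refine ⟨⟨hh, fun a x => ?_⟩, fun x => ?_⟩
  · have := congrArg (fun ψ : Amb X Y => ψ.2 a x) e
    have h4 : h (X.act a x) - sg k (-1 * Γ.deg a) • Y.act a (h x) - bd (-1 - 1) 0 a x = 0 := this
    rw [bd_zero3, LinearMap.zero_apply, sub_zero, sub_eq_zero] at h4
    exact h4
  · have := congrArg (fun ψ : Amb X Y => ψ.1 x) e
    have h4 : Y.d (h x) - sg k (-1) • h (X.d x) = g x := this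
    rw [← h4, sg_neg_one, neg_smul, one_smul, sub_neg_eq_add]

end DGM

end GZ
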