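import Pool.Agent.Lib_MP_a23b08_g.GCoh
import Pool.Agent.Lib_MP_a23b08_g.GPhi3

/-!
PIECE F6. Quasi-isomorphisms `Y → Y'` induce isomorphisms on the cohomology of `Φ(X, -)`.
-/

open CategoryTheory

namespace GZ

namespace DGM

variable {k : Type} [Field k] {Γ : QF k} {X Y Y' : DGM Γ}

/-- Proof: elementary, from `cone_d : (cone f).d (y, x) = (d y + f x, - d x)`. -/
theorem acyclic_cone_iff (f : X ⟶ Y) : Acyclic (cone f) ↔ IsQis f := by
  constructor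
  · intro h
    constructor
    · rintro x hx ⟨y, hy⟩
      obtain ⟨⟨y', x'⟩, e⟩ := h (-y, x) (by
        rw [cone_d, map_neg, hy, hx]
        simp)
      rw [cone_d] at e
      obtain ⟨_, e2⟩ := Prod.mk.inj e
      exact ⟨-x', by rw [map_neg]; exact e2⟩
    · intro y hy
      obtain ⟨⟨y', x'⟩, e⟩ := h (y, 0) (by
        rw [cone_d, hy]
        simp)
      rw [cone_d] at e
      obtain ⟨e1, e2⟩ := Prod.mk.inj e
      exact ⟨x', y', neg_eq_zero.1 e2, by rw [← e1, add_comm]⟩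
  · rintro h ⟨y, x⟩ e
    rw [cone_d] at e
    obtain ⟨e1, e2⟩ := Prod.mk.inj e
    have hx : X.d x = 0 := neg_eq_zero.1 e2
    obtain ⟨x1, hx1⟩ := h.inj x hx ⟨-y, by rw [map_neg, neg_eq_iff_add_eq_zero]; exact e1⟩
    have h3 : Y.d (y + lin f x1) = 0 := by
      rw [map_add, ← lin_d, hx1]
      exact e1
    obtain ⟨x2, y', h4, h5⟩ := h.surj _ h3
    refine ⟨(y', x2 - x1), ?_⟩
    rw [cone_d, map_sub, map_sub, h4, hx1]
    refine Prod.ext ?_ ?_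
    · show Y.d y' + (lin f x2 - lin f x1) = y
      have h6 : y = lin f x2 + Y.d y' - lin f x1 := eq_sub_of_add_eq h5
      rw [h6]
      abel
    · show -(0 - x) = x
      simp

/-- The element of the ambient space of `Φ(X, cone s)` with components `u` and `w` (note the sign). -/
def pairC (s : Y ⟶ Y') (u : Amb X Y') (w : Amb X Y) : Amb X (cone s) :=
  (u.1.prod w.1, fun a => (u.2 a).prod (-(w.2 a)))

/-- Proof: definition of `cone`: `gr v p = Y'.gr v p × Y.gr v (p + 1)`. -/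
lemma pairC_mem_iff (s : Y ⟶ Y') {u : Amb X Y'} {w : Amb X Y} {n : ℤ} :
    pairC s u w ∈ Phi X (cone s) n ↔ u ∈ Phi X Y' n ∧ w ∈ Phi X Y (n + 1) := by
  constructor
  · rintro ⟨h1, h2⟩
    refine ⟨⟨fun v p q x h hx => (h1 v p q x h hx).1, fun a =>
      ⟨fun p q x h hx => ((h2 a).1 p q x h hx).1, fun v p x hv hx =>
        congrArg Prod.fst ((h2 a).2 v p x hv hx)⟩⟩, ⟨fun v p q x h hx => ?_, fun a =>
      ⟨fun p q x h hx => ?_, fun v p x hv hx => ?_⟩⟩⟩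
    · have h3 : w.1 x ∈ Y.gr v (q - 1 + 1) := (h1 v p (q - 1) x (by omega) hx).2
      rwa [sub_add_cancel] at h3
    · have h3 : -(w.2 a x) ∈ Y.gr (Γ.tgt a) (q - 1 + 1) :=
        ((h2 a).1 p (q - 1) x (by omega) hx).2
      rw [sub_add_cancel] at h3
      exact (Submodule.neg_mem_iff _).1 h3
    · have h3 : -(w.2 a x) = 0 := congrArg Prod.snd ((h2 a).2 v p x hv hx)
      exact neg_eq_zero.1 h3
  · rintro ⟨⟨h1, h2⟩, h3, h4⟩
    refine ⟨fun v p q x h hx => ⟨h1 v p q x h hx, h3 v p (q + 1) x (by omega) hx⟩, fun a =>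
      ⟨fun p q x h hx => ⟨(h2 a).1 p q x h hx, ?_⟩, fun v p x hv hx => ?_⟩⟩
    · show -(w.2 a x) ∈ Y.gr (Γ.tgt a) (q + 1)
      exact neg_mem ((h4 a).1 p (q + 1) x (by omega) hx)
    · show (u.2 a x, -(w.2 a x)) = 0
      rw [(h2 a).2 v p x hv hx, (h4 a).2 v p x hv hx, neg_zero]
      rfl

lemma exists_pairC (s : Y ⟶ Y') (φ : Amb X (cone s)) : ∃ u w, φ = pairC s u w := by
  refine ⟨(LinearMap.fst k Y'.M Y.M ∘ₗ φ.1, fun a => LinearMap.fst k Y'.M Y.M ∘ₗ φ.2 a),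
    (LinearMap.snd k Y'.M Y.M ∘ₗ φ.1, fun a => -(LinearMap.snd k Y'.M Y.M ∘ₗ φ.2 a)), ?_⟩
  refine Prod.ext ?_ (funext fun a => ?_)
  · exact LinearMap.ext fun x => rfl
  · refine LinearMap.ext fun x => Prod.ext rfl ?_
    show (φ.2 a x).2 = -(-(φ.2 a x).2)
    rw [neg_neg]

private lemma GPhi4_inj (s : Y ⟶ Y') {u u' : Amb X Y'} {w w' : Amb X Y}
    (h : pairC s u w = pairC s u' w') : u = u' ∧ w = w' := by
  obtain ⟨h1, h2⟩ := Prod.mk.inj h
  constructor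
  · refine Prod.ext (LinearMap.ext fun x => ?_) (funext fun a => LinearMap.ext fun x => ?_)
    · exact congrArg Prod.fst (LinearMap.congr_fun h1 x)
    · exact congrArg Prod.fst (LinearMap.congr_fun (congrFun h2 a) x)
  · refine Prod.ext (LinearMap.ext fun x => ?_) (funext fun a => LinearMap.ext fun x => ?_)
    · exact congrArg Prod.snd (LinearMap.congr_fun h1 x)
    · exact neg_injective (congrArg Prod.snd (LinearMap.congr_fun (congrFun h2 a) x))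

private lemma GPhi4_zero (s : Y ⟶ Y') : pairC s (0 : Amb X Y') (0 : Amb X Y) = 0 := by
  refine Prod.ext (LinearMap.ext fun x => rfl) (funext fun a => LinearMap.ext fun x => ?_)
  show ((0 : Y'.M), -(0 : Y.M)) = 0
  rw [neg_zero]
  rfl

private lemma GPhi4_derW (s : Y ⟶ Y') (m : ℤ) (D₀ : Γ.A → (X.M →ₗ[k] Y'.M))
    (D₁ : Γ.A → (X.M →ₗ[k] Y.M)) (w : List Γ.A) (x : X.M) :
    derW (Y := cone s) m (fun a => (D₀ a).prod (-(D₁ a))) w x =
      (derW m D₀ w x, -(derW (m + 1) D₁ w x)) := by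
  induction w with
  | nil =>
    show ((0 : Y'.M × Y.M)) = ((0 : Y'.M), -(0 : Y.M))
    rw [neg_zero]
    rfl
  | cons a w ih =>
    rw [derW_cons, ih, cone_act, derW_cons, derW_cons]
    refine Prod.ext rfl ?_
    show -(D₁ a (evW X.act w x)) + sg k (m * Γ.deg a) • sg k (Γ.deg a) •
      Y.act a (-(derW (m + 1) D₁ w x)) = -(D₁ a (evW X.act w x) + sg k ((m + 1) * Γ.deg a) •
        Y.act a (derW (m + 1) D₁ w x))
    rw [smul_smul, ← sg_add, map_neg, smul_neg, ← neg_add, add_mul, one_mul]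

private lemma GPhi4_derP (s : Y ⟶ Y') (m : ℤ) (D₀ : Γ.A → (X.M →ₗ[k] Y'.M))
    (D₁ : Γ.A → (X.M →ₗ[k] Y.M)) (p : List (k × List Γ.A)) (x : X.M) :
    derP (Y := cone s) m (fun a => (D₀ a).prod (-(D₁ a))) p x =
      (derP m D₀ p x, -(derP (m + 1) D₁ p x)) := by
  induction p with
  | nil =>
    show ((0 : Y'.M × Y.M)) = ((0 : Y'.M), -(0 : Y.M))
    rw [neg_zero]
    rfl
  | cons t p ih =>
    rw [derP_cons_apply, derP_cons_apply, derP_cons_apply, ih, GPhi4_derW]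
    refine Prod.ext rfl ?_
    show t.1 • -(derW (m + 1) D₁ t.2 x) + -(derP (m + 1) D₁ p x) = _
    rw [smul_neg, ← neg_add]

/-- Proof. `cone_d`, `cone_act` (`(cone s).act a (y', y) = (a y', sg|a| • a y)`). For the derivation
part: `derW m D w` for `D = (D₀, D₁)` has the components `derW m D₀ w` and `derW (m + 1) D₁ w`
(induction: `sg (m|a|) * sg|a| = sg ((m+1)|a|)`); then with `m = n - 1`
`bd m D a = (bd m D₀ a + s D₁ a, - bd (m + 1) D₁ a)` (signs: `- sg (m + |a|) = sg (m + 1 + |a|)`,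
`- sg m = sg (m + 1)`), `inn n (h₀, h₁) a = (inn n h₀ a, inn (n + 1) h₁ a)`,
`dH n (h₀, h₁) = (dH n h₀ + s h₁, - dH (n + 1) h₁)`. -/
lemma dPhi_pairC (s : Y ⟶ Y') (n : ℤ) (u : Amb X Y') (w : Amb X Y) :
    dPhi n (pairC s u w) = pairC s (dPhi n u + mapR X (lin s) w) (-(dPhi (n + 1) w)) := by
  refine Prod.ext (LinearMap.ext fun x => ?_) (funext fun a => LinearMap.ext fun x => ?_)
  · show (cone s).d (u.1 x, w.1 x) - sg k n • (u.1 (X.d x), w.1 (X.d x)) =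
      (dH n u.1 x + lin s (w.1 x), -(dH (n + 1) w.1 x))
    rw [cone_d, dH_apply, dH_apply, sg_succ]
    refine Prod.ext ?_ ?_
    · show Y'.d (u.1 x) + lin s (w.1 x) - sg k n • u.1 (X.d x) = _
      abel_nf
    · show -Y.d (w.1 x) - sg k n • w.1 (X.d x) = -(Y.d (w.1 x) - -sg k n • w.1 (X.d x))
      rw [neg_smul]
      abel
  · show ((u.1 (X.act a x), w.1 (X.act a x)) : Y'.M × Y.M) -
      sg k (n * Γ.deg a) • (cone s).act a (u.1 x, w.1 x) -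
      ((cone s).d (u.2 a x, -(w.2 a x)) - sg k (n - 1 + Γ.deg a) •
        (u.2 a (X.d x), -(w.2 a (X.d x))) -
        sg k (n - 1) • derP (Y := cone s) (n - 1) (fun a => (u.2 a).prod (-(w.2 a))) (Γ.diff a) x) =
      (inn n u.1 a x - bd (n - 1) u.2 a x + lin s (w.2 a x),
        -(-(inn (n + 1) w.1 a x - bd (n + 1 - 1) w.2 a x)))
    rw [GPhi4_derP, cone_d, cone_act, inn_apply, inn_apply, bd_apply, bd_apply, neg_neg, map_neg,
      map_neg, neg_neg]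
    have e1 : n + 1 - 1 = n - 1 + 1 := by ring
    have e2 : sg k (n - 1 + 1 + Γ.deg a) = - sg k (n - 1 + Γ.deg a) := by
      rw [add_right_comm, sg_succ]
    have e3 : sg k (n - 1 + 1) = - sg k (n - 1) := sg_succ _
    have e4 : sg k ((n + 1) * Γ.deg a) = sg k (n * Γ.deg a) * sg k (Γ.deg a) := by
      rw [add_mul, one_mul, sg_add]
    rw [e1, e2, e3, e4]
    refine Prod.ext ?_ ?_
    · show u.1 (X.act a x) - sg k (n * Γ.deg a) • Y'.act a (u.1 x) -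
        (Y'.d (u.2 a x) + -lin s (w.2 a x) - sg k (n - 1 + Γ.deg a) • u.2 a (X.d x) -
          sg k (n - 1) • derP (n - 1) u.2 (Γ.diff a) x) = _
      abel_nf
    · show w.1 (X.act a x) - sg k (n * Γ.deg a) • sg k (Γ.deg a) • Y.act a (w.1 x) -
        (Y.d (w.2 a x) - sg k (n - 1 + Γ.deg a) • -(w.2 a (X.d x)) -
          sg k (n - 1) • -(derP (n - 1 + 1) w.2 (Γ.diff a) x)) =
        w.1 (X.act a x) - (sg k (n * Γ.deg a) * sg k (Γ.deg a)) • Y.act a (w.1 x) -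
        (Y.d (w.2 a x) - -sg k (n - 1 + Γ.deg a) • w.2 a (X.d x) -
          -sg k (n - 1) • derP (n - 1 + 1) w.2 (Γ.diff a) x)
      rw [smul_smul, smul_neg, smul_neg, neg_smul, neg_smul]

private lemma GPhi4_cast {n n' : ℤ} (h : n = n') {φ : Amb X Y} (hφ : φ ∈ Phi X Y n) :
    φ ∈ Phi X Y n' := h ▸ hφ

/-- Surjectivity. Proof: `pairC s φ' 0` is a cocycle of degree `n` of `Φ(X, cone s)`, hence (by
`phi_acyclic`) `= dPhi (n-1) (pairC s u w)`, so `φ' = dPhi (n-1) u + s w` and `dPhi n w = 0`. -/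
theorem exists_of_qis (hΓ : Γ.Nice) {s : Y ⟶ Y'} (hs : IsQis s) {n : ℤ} {φ' : Amb X Y'}
    (hφ : φ' ∈ ZPhi X Y' n) : ∃ φ ∈ ZPhi X Y n, φ' - mapR X (lin s) φ ∈ BPhi X Y' n := by
  have h0 : dPhi n φ' = 0 := hφ.2
  have h1 : pairC s φ' 0 ∈ ZPhi X (cone s) n := by
    refine ⟨(pairC_mem_iff s).2 ⟨hφ.1, zero_mem _⟩, ?_⟩
    show dPhi n (pairC s φ' 0) = 0
    rw [dPhi_pairC, h0, map_zero, map_zero, neg_zero, add_zero, GPhi4_zero]
  obtain ⟨ψ, hψ, e⟩ := phi_acyclic hΓ ((acyclic_cone_iff s).2 hs) n h1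
  obtain ⟨u, w, rfl⟩ := exists_pairC s ψ
  obtain ⟨hu, hw⟩ := (pairC_mem_iff s).1 hψ
  rw [dPhi_pairC] at e
  obtain ⟨e1, e2⟩ := GPhi4_inj s e
  have e3 : n - 1 + 1 = n := by ring
  rw [e3] at hw e2
  refine ⟨w, ⟨hw, neg_eq_zero.1 e2⟩, u, hu, ?_⟩
  rw [← e1, add_sub_cancel_right]

/-- Injectivity. Proof: `s φ = dPhi (n-1) ψ`. Then `pairC s ψ (-φ)` is a cocycle of degree `n - 1`, so
`= dPhi (n-2) (pairC s u w)`, hence `- φ = - dPhi (n-1) w`. -/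
theorem mem_of_qis (hΓ : Γ.Nice) {s : Y ⟶ Y'} (hs : IsQis s) {n : ℤ} {φ : Amb X Y}
    (hφ : φ ∈ ZPhi X Y n) (h : mapR X (lin s) φ ∈ BPhi X Y' n) : φ ∈ BPhi X Y n := by
  obtain ⟨ψ, hψ, e⟩ := h
  have h0 : dPhi n φ = 0 := hφ.2
  have e3 : n - 1 + 1 = n := by ring
  have h1 : pairC s ψ (-φ) ∈ ZPhi X (cone s) (n - 1) := by
    refine ⟨(pairC_mem_iff s).2 ⟨hψ, neg_mem (GPhi4_cast e3.symm hφ.1)⟩, ?_⟩
    show dPhi (n - 1) (pairC s ψ (-φ)) = 0
    rw [dPhi_pairC, e, e3, map_neg, map_neg, h0, neg_zero, neg_zero, add_neg_cancel, GPhi4_zero]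
  obtain ⟨χ, hχ, e'⟩ := phi_acyclic hΓ ((acyclic_cone_iff s).2 hs) (n - 1) h1
  obtain ⟨u, w, rfl⟩ := exists_pairC s χ
  obtain ⟨hu, hw⟩ := (pairC_mem_iff s).1 hχ
  rw [dPhi_pairC] at e'
  obtain ⟨e1, e2⟩ := GPhi4_inj s e'
  have e4 : n - 1 - 1 + 1 = n - 1 := by ring
  rw [e4] at hw e2
  exact ⟨w, hw, neg_injective e2⟩

private lemma GPhi4_bd_zero (m : ℤ) : bd (X := X) (Y := Y) m 0 = 0 := by
  have h := bd_smul (X := X) (Y := Y) m (0 : k) 0
  rw [zero_smul, zero_smul] at h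
  exact h

/-- Effacing, first form. Every cocycle of degree `0` becomes strict after a quasi-isomorphism of `Y`.
Proof: `φ = (f, D)`, `D` of degree `-1`; `exists_cyl hΓ X Y (-1) D` gives `s : Y → Y'`, `h : X → Y'` of
degree `-1` with `s D = inn (-1) h`; `s φ - dPhi (-1) (h, 0) = (s f - dH (-1) h, 0)` is a cocycle
(`mapR_dPhi`, `dPhi_dPhi`), so it is a morphism by `exists_hom_of_mem`. -/
theorem exists_strict (hΓ : Γ.Nice) {φ : Amb X Y} (hφ : φ ∈ ZPhi X Y 0) :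
    ∃ (Y' : DGM Γ) (s : Y ⟶ Y') (g : X ⟶ Y'), IsQis s ∧
      mapR X (lin s) φ - (lin g, 0) ∈ BPhi X Y' 0 := by
  have hD : ∀ a, φ.2 a ∈ HomA a X Y (-1 + Γ.deg a) := by
    intro a
    have h := hφ.1.2 a
    rwa [zero_sub] at h
  obtain ⟨Y', s, h, hs, hh, e⟩ := exists_cyl hΓ X Y (-1) φ.2 hD
  have h1 : ((h, 0) : Amb X Y') ∈ Phi X Y' (-1) := ⟨hh, fun a => zero_mem _⟩
  have h2 : mapR X (lin s) φ - dPhi (-1) ((h, 0) : Amb X Y') =
      (lin s ∘ₗ φ.1 - dH (-1) h, 0) := by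
    rw [dPhi_apply]
    refine Prod.ext rfl (funext fun a => ?_)
    show lin s ∘ₗ φ.2 a - (inn (-1) h a - bd (-1 - 1) (0 : Γ.A → (X.M →ₗ[k] Y'.M)) a) = 0
    rw [e, GPhi4_bd_zero]
    simp
  have h3 : ((lin s ∘ₗ φ.1 - dH (-1) h, 0) : Amb X Y') ∈ ZPhi X Y' 0 := by
    rw [← h2]
    refine ⟨sub_mem (mapR_mem s hφ.1) (GPhi4_cast (by norm_num) (dPhi_mem h1)), ?_⟩
    show dPhi 0 _ = 0
    have h4 := dPhi_dPhi hΓ (-1) ((h, 0) : Amb X Y')
    rw [neg_add_cancel] at h4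
    have h5 : dPhi 0 φ = 0 := hφ.2
    rw [map_sub, h4, mapR_dPhi, h5, map_zero, sub_zero]
  obtain ⟨g, hg⟩ := exists_hom_of_mem h3
  refine ⟨Y', s, g, hs, ?_⟩
  rw [hg, ← h2, sub_sub_cancel]
  exact ⟨_, GPhi4_cast (by norm_num) h1, by rw [zero_sub]⟩

/-- Effacing, second form. If the cocycle `(g, 0)` of a morphism `g` is a coboundary then `g` becomes
null-homotopic after a quasi-isomorphism of `Y`. Proof: `(g, 0) = dPhi (-1) (h, D)`, `D` of degree `-2`;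
`exists_cyl hΓ X Y (-2) D` gives `s : Y → Y'`, `h'` of degree `-2` with `s D = inn (-2) h'`. Then
`s (h, D) - dPhi (-2) (h', 0) = (s h - dH (-2) h', 0)` and `dPhi (-1)` of it is `(s g, 0)`
(`dPhi_dPhi`); `lin_of_dPhi`. -/
theorem exists_null (hΓ : Γ.Nice) {g : X ⟶ Y} (hg : ((lin g, 0) : Amb X Y) ∈ BPhi X Y 0) :
    ∃ (Y' : DGM Γ) (s : Y ⟶ Y') (z : X.M →ₗ[k] Y'.M), IsQis s ∧ z ∈ Lin X Y' (-1) ∧
      ∀ x, lin (g ≫ s) x = Y'.d (z x) + z (X.d x) := by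
  obtain ⟨ψ, hψ, eψ⟩ := hg
  rw [zero_sub] at hψ eψ
  have hD : ∀ a, ψ.2 a ∈ HomA a X Y (-2 + Γ.deg a) := by
    intro a
    have h := hψ.2 a
    have e0 : (-1 : ℤ) - 1 = -2 := by norm_num
    rwa [e0] at h
  obtain ⟨Y', s, h, hs, hh, e⟩ := exists_cyl hΓ X Y (-2) ψ.2 hD
  have h1 : ((h, 0) : Amb X Y') ∈ Phi X Y' (-2) := ⟨hh, fun a => zero_mem _⟩
  have h2 : mapR X (lin s) ψ - dPhi (-2) ((h, 0) : Amb X Y') =
      (lin s ∘ₗ ψ.1 - dH (-2) h, 0) := by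
    rw [dPhi_apply]
    refine Prod.ext rfl (funext fun a => ?_)
    show lin s ∘ₗ ψ.2 a - (inn (-2) h a - bd (-2 - 1) (0 : Γ.A → (X.M →ₗ[k] Y'.M)) a) = 0
    rw [e, GPhi4_bd_zero]
    simp
  have h3 : ((lin s ∘ₗ ψ.1 - dH (-2) h, 0) : Amb X Y') ∈ Phi X Y' (-1) := by
    rw [← h2]
    exact sub_mem (mapR_mem s hψ) (GPhi4_cast (by norm_num) (dPhi_mem h1))
  have h4 : dPhi (-1) ((lin s ∘ₗ ψ.1 - dH (-2) h, 0) : Amb X Y') = (lin s ∘ₗ lin g, 0) := by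
    have h5 := dPhi_dPhi hΓ (-2) ((h, 0) : Amb X Y')
    have e0 : (-2 : ℤ) + 1 = -1 := by norm_num
    rw [e0] at h5
    rw [← h2, map_sub, h5, mapR_dPhi, eψ, sub_zero]
    refine Prod.ext rfl (funext fun a => ?_)
    show lin s ∘ₗ (0 : X.M →ₗ[k] Y.M) = 0
    rw [LinearMap.comp_zero]
  obtain ⟨h6, h7⟩ := lin_of_dPhi h3.1 h4
  exact ⟨Y', s, _, hs, h6, fun x => h7 x⟩

/-- The shift: `Φⁿ(X, Y[m]) ≅ Φⁿ⁺ᵐ(X, Y)`, `(h, D) ↦ (h, sg m • D)`. -/
def shC (X Y : DGM Γ) (m : ℤ) (φ : Amb X Y) : Amb X (Y.sh m) := (φ.1, fun a => sg k m • φ.2 a)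

lemma shC_mem_iff (m : ℤ) {φ : Amb X Y} {n n' : ℤ} (h : n + m = n') :
    shC X Y m φ ∈ Phi X (Y.sh m) n ↔ φ ∈ Phi X Y n' := by
  have hm : ∀ y : Y.M, sg k m • sg k m • y = y := fun y => sg_mul_self_smul m y
  constructor
  · rintro ⟨h1, h2⟩
    refine ⟨fun v p q x hp hx => ?_, fun a => ⟨fun p q x hp hx => ?_, fun v p x hv hx => ?_⟩⟩
    · have h3 : φ.1 x ∈ Y.gr v (q - m + m) := h1 v p (q - m) x (by omega) hx
      rwa [sub_add_cancel] at h3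
    · have h3 : sg k m • φ.2 a x ∈ Y.gr (Γ.tgt a) (q - m + m) :=
        (h2 a).1 p (q - m) x (by omega) hx
      rw [sub_add_cancel] at h3
      rw [← hm (φ.2 a x)]
      exact Submodule.smul_mem _ _ h3
    · have h3 : sg k m • φ.2 a x = 0 := (h2 a).2 v p x hv hx
      rw [← hm (φ.2 a x), h3, smul_zero]
  · rintro ⟨h1, h2⟩
    refine ⟨fun v p q x hp hx => ?_, fun a => ⟨fun p q x hp hx => ?_, fun v p x hv hx => ?_⟩⟩
    · show φ.1 x ∈ Y.gr v (q + m)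
      exact h1 v p (q + m) x (by omega) hx
    · show sg k m • φ.2 a x ∈ Y.gr (Γ.tgt a) (q + m)
      exact Submodule.smul_mem _ _ ((h2 a).1 p (q + m) x (by omega) hx)
    · show sg k m • φ.2 a x = 0
      rw [(h2 a).2 v p x hv hx, smul_zero]

private lemma GPhi4_shW (m j : ℤ) (D : Γ.A → (X.M →ₗ[k] Y.M)) (w : List Γ.A) (x : X.M) :
    derW (Y := Y.sh m) j D w x = derW (Y := Y) (j + m) D w x := by
  induction w with
  | nil => rfl
  | cons a w ih =>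
    rw [derW_cons, ih, derW_cons]
    show D a (evW X.act w x) + sg k (j * Γ.deg a) • sg k (m * Γ.deg a) • Y.act a _ = _
    rw [smul_smul, ← sg_add, ← add_mul]

private lemma GPhi4_shP (m j : ℤ) (D : Γ.A → (X.M →ₗ[k] Y.M)) (p : List (k × List Γ.A))
    (x : X.M) :
    derP (Y := Y.sh m) j D p x = derP (Y := Y) (j + m) D p x := by
  induction p with
  | nil => rfl
  | cons t p ih =>
    rw [derP_cons_apply, derP_cons_apply, ih, GPhi4_shW]

/-- Proof. In `Y.sh m` (with `d = sg m • d`, `act a = sg (m|a|) • act a`): `dH n h = sg m • dH (n+m) h`,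
`inn n h = inn (n+m) h`, `derW j D w` (in `Y.sh m`) `= derW (j+m) D w` (in `Y`), so
`bd j D = sg m • bd (j+m) D` for `j = n - 1`. -/
lemma dPhi_shC (m : ℤ) {n n' : ℤ} (h : n + m = n') (φ : Amb X Y) :
    dPhi n (shC X Y m φ) = sg k m • shC X Y m (dPhi n' φ) := by
  subst h
  refine Prod.ext (LinearMap.ext fun x => ?_) (funext fun a => LinearMap.ext fun x => ?_)
  · show sg k m • Y.d (φ.1 x) - sg k n • φ.1 (X.d x) =
      sg k m • (Y.d (φ.1 x) - sg k (n + m) • φ.1 (X.d x))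
    rw [smul_sub, smul_smul, sg_add, mul_comm (sg k n), ← mul_assoc, sg_mul_self, one_mul]
  · show φ.1 (X.act a x) - sg k (n * Γ.deg a) • sg k (m * Γ.deg a) • Y.act a (φ.1 x) -
      bd (Y := Y.sh m) (n - 1) (sg k m • φ.2) a x =
      sg k m • sg k m • (inn (n + m) φ.1 a x - bd (n + m - 1) φ.2 a x)
    rw [sg_mul_self_smul, inn_apply]
    have e1 : bd (Y := Y.sh m) (n - 1) (sg k m • φ.2) a x = bd (Y := Y) (n + m - 1) φ.2 a x := by
      rw [bd_smul]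
      show sg k m • (sg k m • Y.d (φ.2 a x) - sg k (n - 1 + Γ.deg a) • φ.2 a (X.d x) -
        sg k (n - 1) • derP (Y := Y.sh m) (n - 1) φ.2 (Γ.diff a) x) = _
      have e2 : n - 1 + m = n + m - 1 := by ring
      have e3 : sg k (n + m - 1 + Γ.deg a) = sg k m * sg k (n - 1 + Γ.deg a) := by
        rw [← sg_add]
        congr 1
        ring
      have e4 : sg k (n + m - 1) = sg k m * sg k (n - 1) := by
        rw [← sg_add]
        congr 1
        ring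
      rw [GPhi4_shP, bd_apply, e2, e3, e4, smul_sub, smul_sub, sg_mul_self_smul, smul_smul,
        smul_smul]
    rw [e1, smul_smul, ← sg_add, ← add_mul]

end DGM

end GZ
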