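import Pool.Agent.Lib_MP_a23b08_g.GCohF
import Pool.Agent.Lib_MP_a23b08_g.GPhi4
import Pool.Agent.Lib_MP_a23b08_g.GSub
import Pool.Agent.Lib_MP_a23b08_g.GExtM

/-!
PIECE D2. The functor `Q` from dg modules to the derived category: quasi-isomorphisms, fractions,
distinguished triangles.
-/

open CategoryTheory CategoryTheory.Limits CategoryTheory.Pretriangulated

namespace GZ

variable {k : Type} [Field k]

namespace DGM

variable {Γ : QF k}

instance : (Q Γ).Additive := inferInstanceAs (quot Γ ⋙ Qh Γ).Additive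
instance : (Q Γ).Linear k := inferInstanceAs ((quot Γ ⋙ Qh Γ).Linear k)
noncomputable instance : (Q Γ).CommShift ℤ := inferInstanceAs ((quot Γ ⋙ Qh Γ).CommShift ℤ)

/-- Proof: the objects of the localization are those of the category (see
`Localization.Construction.objEquiv` or `Quotient`), and those of `Hot Γ` are dg modules
(`quot_obj_surjective`). -/
theorem exists_Q_obj (Y : Der Γ) : ∃ X : DGM Γ, (Q Γ).obj X = Y := by
  obtain ⟨X, rfl⟩ := (Localization.Construction.objEquiv (acyc Γ).trW).surjective Y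
  obtain ⟨X, rfl⟩ := quot_obj_surjective X
  exact ⟨X, rfl⟩

/-- Proof. `trih_distinguished f` and: the third object of a distinguished triangle on `quot.map f` is
unique up to isomorphism, see `trW_quot_map_iff` and `acyc_cone_iff` in GCohF; `acyclic_cone_iff`. -/
theorem trW_quot_iff {X Y : DGM Γ} (f : X ⟶ Y) : (acyc Γ).trW ((quot Γ).map f) ↔ IsQis f := by
  rw [← acyclic_cone_iff]
  exact (acyc Γ).trW_iff_of_distinguished _ (trih_distinguished f)

theorem isIso_Q_of_isQis {X Y : DGM Γ} (f : X ⟶ Y) (hf : IsQis f) : IsIso ((Q Γ).map f) := by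
  exact Localization.inverts (Qh Γ) (acyc Γ).trW _ ((trW_quot_iff f).2 hf)

/-- Left fractions. Proof: `Localization.exists_leftFraction (Qh Γ) (acyc Γ).trW`, lift the two
morphisms of the homotopy category to morphisms of dg modules (`quot Γ` is full, `trW_quot_iff`). -/
theorem exists_left {X Y : DGM Γ} (φ : (Q Γ).obj X ⟶ (Q Γ).obj Y) :
    ∃ (Y' : DGM Γ) (s : Y ⟶ Y') (g : X ⟶ Y'), IsQis s ∧ φ ≫ (Q Γ).map s = (Q Γ).map g := by
  obtain ⟨F, hF⟩ := Localization.exists_leftFraction (Qh Γ) (acyc Γ).trW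
    (X := (quot Γ).obj X) (Y := (quot Γ).obj Y) φ
  obtain ⟨f, s, hs⟩ := F
  rename_i Z
  obtain ⟨Y', rfl⟩ := quot_obj_surjective Z
  obtain ⟨g, rfl⟩ := (quot Γ).map_surjective f
  obtain ⟨s, rfl⟩ := (quot Γ).map_surjective s
  refine ⟨Y', s, g, (trW_quot_iff s).1 hs, ?_⟩
  rw [hF]
  exact MorphismProperty.LeftFraction.map_comp_map_s
    (⟨(quot Γ).map g, (quot Γ).map s, hs⟩ : (acyc Γ).trW.LeftFraction _ _) (Qh Γ) _

/-- Right fractions. -/
theorem exists_right {X Y : DGM Γ} (φ : (Q Γ).obj X ⟶ (Q Γ).obj Y) :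
    ∃ (X' : DGM Γ) (s : X' ⟶ X) (g : X' ⟶ Y), IsQis s ∧ (Q Γ).map s ≫ φ = (Q Γ).map g := by
  obtain ⟨F, hF⟩ := Localization.exists_rightFraction (Qh Γ) (acyc Γ).trW
    (X := (quot Γ).obj X) (Y := (quot Γ).obj Y) φ
  obtain ⟨s, hs, f⟩ := F
  rename_i Z
  obtain ⟨X', rfl⟩ := quot_obj_surjective Z
  obtain ⟨g, rfl⟩ := (quot Γ).map_surjective f
  obtain ⟨s, rfl⟩ := (quot Γ).map_surjective s
  refine ⟨X', s, g, (trW_quot_iff s).1 hs, ?_⟩
  rw [hF]
  exact MorphismProperty.RightFraction.map_s_comp_map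
    (⟨(quot Γ).map s, hs, (quot Γ).map g⟩ : (acyc Γ).trW.RightFraction _ _) (Qh Γ) _

/-- Proof: homotopic morphisms have the same image in the homotopy category. -/
theorem Q_map_eq_zero_of_null {X Y : DGM Γ} {g : X ⟶ Y} {z : X.M →ₗ[k] Y.M}
    (hz : z ∈ Lin X Y (-1)) (h : ∀ x, lin g x = Y.d (z x) + z (X.d x)) : (Q Γ).map g = 0 := by
  change (Qh Γ).map ((quot Γ).map g) = 0
  rw [quot_map_eq_zero_iff.2 ⟨z, hz, h⟩, Functor.map_zero]

theorem tri_distinguished {X Y : DGM Γ} (f : X ⟶ Y) :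
    (Q Γ).mapTriangle.obj (tri f) ∈ distTriang (Der Γ) := by
  refine Pretriangulated.isomorphic_distinguished (C := Der Γ) _
    ((Qh Γ).map_distinguished _ (trih_distinguished f)) _ ?_
  exact (Functor.mapTriangleCompIso (quot Γ) (Qh Γ)).app _

theorem exists_tri_iso (T : Triangle (Der Γ)) (hT : T ∈ distTriang (Der Γ)) :
    ∃ (X Y : DGM Γ) (f : X ⟶ Y), Nonempty (T ≅ (Q Γ).mapTriangle.obj (tri f)) := by
  obtain ⟨T', e, ⟨X, Y, f, ⟨e'⟩⟩⟩ := hT
  refine ⟨X, Y, f, ⟨?_⟩⟩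
  exact e ≪≫ (Qh Γ).mapTriangle.mapIso e' ≪≫
    (Functor.mapTriangleCompIso (quot Γ) (Qh Γ)).symm.app _

/-- A short exact sequence of dg modules gives a distinguished triangle, with connecting morphism
the fraction `B ← cone j → K[1]`. Proof: `tri_distinguished j` and the quasi-isomorphism
`coneπ : cone j ⟶ B` (`isQis_coneπ`), `inr j ≫ coneπ h = π`. -/
theorem exists_tri_of_short {K X B : DGM Γ} {j : K ⟶ X} {π : X ⟶ B} (h : IsShort j π) :
    ∃ w : (Q Γ).obj B ⟶ ((Q Γ).obj K)⟦(1 : ℤ)⟧,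
      Triangle.mk ((Q Γ).map j) ((Q Γ).map π) w ∈ distTriang (Der Γ) ∧
      (Q Γ).map (coneπ h) ≫ w = (Q Γ).map (pr j) ≫ ((Q Γ).commShiftIso (1 : ℤ)).hom.app K := by
  have h1 : IsIso ((Q Γ).map (coneπ h)) := isIso_Q_of_isQis _ (isQis_coneπ h)
  have h2 : inr j ≫ coneπ h = π := by
    apply hom_ext
    intro x
    change lin π x + (0 : K.M →ₗ[k] B.M) 0 = lin π x
    rw [map_zero, add_zero]
  refine ⟨inv ((Q Γ).map (coneπ h)) ≫ (Q Γ).map (pr j) ≫
    ((Q Γ).commShiftIso (1 : ℤ)).hom.app K, ?_, by rw [IsIso.hom_inv_id_assoc]⟩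
  refine Pretriangulated.isomorphic_distinguished (C := Der Γ) _ (tri_distinguished j) _ ?_
  refine Triangle.isoMk _ _ (Iso.refl _) (Iso.refl _) (asIso ((Q Γ).map (coneπ h))).symm ?_ ?_ ?_
  · exact (Category.comp_id _).trans (Category.id_comp _).symm
  · change (Q Γ).map π ≫ inv ((Q Γ).map (coneπ h)) = 𝟙 ((Q Γ).obj X) ≫ (Q Γ).map (inr j)
    rw [Category.id_comp, IsIso.comp_inv_eq, ← Functor.map_comp, h2]
  · change (inv ((Q Γ).map (coneπ h)) ≫ (Q Γ).map (pr j) ≫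
      ((Q Γ).commShiftIso (1 : ℤ)).hom.app K) ≫
      (CategoryTheory.shiftFunctor (Der Γ) (1 : ℤ)).map (𝟙 ((Q Γ).obj K)) =
      inv ((Q Γ).map (coneπ h)) ≫ (Q Γ).map (pr j) ≫ ((Q Γ).commShiftIso (1 : ℤ)).hom.app K
    rw [CategoryTheory.Functor.map_id]
    exact Category.comp_id _

theorem isZero_Q_iff (X : DGM Γ) : IsZero ((Q Γ).obj X) ↔ Acyclic X := by
  have e0 : cohMap (0 : X ⟶ X) = 0 := by
    apply LinearMap.ext
    intro c
    obtain ⟨x, hx, rfl⟩ := clsC_surj X c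
    rw [cohMap_clsC, LinearMap.zero_apply, clsC_eq_zero_iff]
    exact ⟨0, by rw [map_zero]; rfl⟩
  have e1 : Acyclic X ↔ Subsingleton (Coh X) := acyc_iff_subsingleton X
  rw [e1]
  constructor
  · intro h
    have h1 : (Q Γ).map (0 : X ⟶ X) = 𝟙 _ := h.eq_of_src _ _
    have h2 : IsIso ((Q Γ).map (0 : X ⟶ X)) := by rw [h1]; infer_instance
    rw [isIso_Q_map_iff, e0] at h2
    exact ⟨fun a b => h2.1 rfl⟩
  · intro h
    have h2 : IsIso ((Q Γ).map (0 : X ⟶ X)) := by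
      rw [isIso_Q_map_iff, e0]
      exact ⟨fun a b _ => Subsingleton.elim _ _, fun b => ⟨0, Subsingleton.elim _ _⟩⟩
    rw [Functor.map_zero] at h2
    rw [IsZero.iff_id_eq_zero, ← IsIso.hom_inv_id (0 : (Q Γ).obj X ⟶ (Q Γ).obj X), zero_comp]

end DGM

end GZ
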