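import Pool.Agent.Lib_MP_a23b08_g.GDefs

/-!
# dg modules: the shift (MP_a23b08_al, part G)

The shift `X.sh n` has the same underlying vector space; the differential is multiplied by
`(-1)^n` and the arrow `a` by `(-1)^(n * deg a)`.
-/

open CategoryTheory

namespace GZ

variable {k : Type} [Field k] {Γ : QF k}

lemma evW_tw {A M : Type} [AddCommGroup M] [Module k M] (act : A → M →ₗ[k] M) (deg : A → ℤ)
    (n : ℤ) (w : List A) (x : M) :
    evW (fun a => sg k (n * deg a) • act a) w x = sg k (n * degW deg w) • evW act w x := by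
  induction w with
  | nil => simp
  | cons a w ih =>
    simp only [evW_cons, ih, LinearMap.smul_apply, map_smul, degW_cons, mul_add, sg_add,
      smul_smul]
    rw [mul_comm]

lemma evP_tw {A M : Type} [AddCommGroup M] [Module k M] (act : A → M →ₗ[k] M) (deg : A → ℤ)
    (n m : ℤ) (p : List (k × List A)) (hp : ∀ t ∈ p, degW deg t.2 = m) (x : M) :
    evP (fun a => sg k (n * deg a) • act a) p x = sg k (n * m) • evP act p x := by
  induction p with
  | nil => simp
  | cons t p ih =>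
    have h1 : degW deg t.2 = m := hp t (by simp)
    have h2 := ih (fun t' ht' => hp t' (List.mem_cons_of_mem _ ht'))
    rw [evP_cons, evP_cons, h2, evW_tw, h1, smul_add, smul_comm]

namespace DGM

/-- The shift of a dg module. -/
@[reducible] def sh (X : DGM Γ) (n : ℤ) : DGM Γ where
  M := X.M
  gr v p := X.gr v (p + n)
  indep := X.indep.comp (f := fun p : Γ.V × ℤ => (p.1, p.2 + n)) (by
    rintro ⟨v, p⟩ ⟨w, q⟩ h
    simp only [Prod.mk.injEq, add_left_inj] at h
    ext <;> simp [h.1, h.2])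
  iSup_eq_top := by
    rw [← X.iSup_eq_top]
    exact Equiv.iSup_comp (g := fun p : Γ.V × ℤ => X.gr p.1 p.2)
      (Equiv.prodCongr (Equiv.refl Γ.V) (Equiv.addRight n))
  d := sg k n • X.d
  act a := sg k (n * Γ.deg a) • X.act a
  d_mem := by
    intro v p q x h hx
    exact Submodule.smul_mem _ _ (X.d_mem (by omega) hx)
  d_d x := by simp [X.d_d]
  act_mem := by
    intro a p q x h hx
    exact Submodule.smul_mem _ _ (X.act_mem a (by omega) hx)
  act_zero := by
    intro a v p x h hx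
    simp [X.act_zero a h hx]
  leibniz a x := by
    rw [evP_tw X.act Γ.deg n (Γ.deg a + 1) _ (Γ.diff_deg a)]
    simp only [LinearMap.smul_apply, map_smul, X.leibniz, smul_add, smul_smul, mul_add, mul_one,
      sg_add]
    congr 2
    ring

/-- the shift of a morphism -/
def shMap {X Y : DGM Γ} (f : X ⟶ Y) (n : ℤ) : X.sh n ⟶ Y.sh n :=
  homMk (X := X.sh n) (Y := Y.sh n) (lin (X := X) (Y := Y) f) (fun _ _ _ hx => lin_mem f hx)
    (fun a x => by simp [lin_act]) (fun x => by simp [lin_d])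

@[simp] lemma lin_shMap {X Y : DGM Γ} (f : X ⟶ Y) (n : ℤ) : lin (shMap f n) = lin f := rfl

/-- the identity map as an isomorphism of dg modules, if all structures agree -/
def idIso {X Y : DGM Γ} (e : X.M ≃ₗ[k] Y.M)
    (h1 : ∀ (v : Γ.V) (p : ℤ) (x : X.M), x ∈ X.gr v p ↔ e x ∈ Y.gr v p)
    (h2 : ∀ a x, e (X.act a x) = Y.act a (e x)) (h3 : ∀ x, e (X.d x) = Y.d (e x)) : X ≅ Y where
  hom := homMk (e : X.M →ₗ[k] Y.M) (fun v p x hx => (h1 v p x).1 hx) h2 h3
  inv := homMk (e.symm : Y.M →ₗ[k] X.M) (fun v p x hx => (h1 v p _).2 (by simpa using hx))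
    (fun a x => e.injective (by simp [h2])) (fun x => e.injective (by simp [h3]))
  hom_inv_id := by ext x; simp
  inv_hom_id := by ext x; simp

@[simp] lemma lin_idIso_hom {X Y : DGM Γ} (e : X.M ≃ₗ[k] Y.M) (h1) (h2) (h3) :
    lin (idIso (X := X) (Y := Y) e h1 h2 h3).hom = (e : X.M →ₗ[k] Y.M) := rfl
@[simp] lemma lin_idIso_inv {X Y : DGM Γ} (e : X.M ≃ₗ[k] Y.M) (h1) (h2) (h3) :
    lin (idIso (X := X) (Y := Y) e h1 h2 h3).inv = (e.symm : Y.M →ₗ[k] X.M) := rfl

/-- shift by zero -/
def shZero (X : DGM Γ) : X.sh 0 ≅ X :=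
  idIso (X := X.sh 0) (Y := X) (LinearEquiv.refl k X.M) (fun v p x => by simp) (fun a x => by simp)
    (fun x => by simp)

/-- shift by a sum -/
def shAdd (X : DGM Γ) (a b : ℤ) : X.sh (a + b) ≅ (X.sh a).sh b :=
  idIso (X := X.sh (a + b)) (Y := (X.sh a).sh b) (LinearEquiv.refl k X.M)
    (fun v p x => by
      change x ∈ X.gr v (p + (a + b)) ↔ x ∈ X.gr v (p + b + a)
      rw [show p + (a + b) = p + b + a by ring])
    (fun c x => by
      simp only [LinearEquiv.refl_apply, LinearMap.smul_apply, smul_smul, add_mul, sg_add]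
      rw [mul_comm])
    (fun x => by
      simp only [LinearEquiv.refl_apply, LinearMap.smul_apply, smul_smul, sg_add]
      rw [mul_comm])

@[simp] lemma lin_shZero_hom (X : DGM Γ) : lin (shZero X).hom = LinearMap.id := rfl
@[simp] lemma lin_shZero_inv (X : DGM Γ) : lin (shZero X).inv = LinearMap.id := rfl
@[simp] lemma lin_shAdd_hom (X : DGM Γ) (a b : ℤ) : lin (shAdd X a b).hom = LinearMap.id := rfl
@[simp] lemma lin_shAdd_inv (X : DGM Γ) (a b : ℤ) : lin (shAdd X a b).inv = LinearMap.id := rfl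

/-- the shift functors -/
def shF (n : ℤ) : DGM Γ ⥤ DGM Γ where
  obj X := X.sh n
  map f := shMap f n
  map_id X := by ext x; rfl
  map_comp f g := by ext x; rfl

lemma lin_eqToHom_sh (X : DGM Γ) {a b : ℤ} (h : a = b) (e : X.sh a = X.sh b) (x : X.M) :
    lin (eqToHom e) x = x := by
  subst h
  simp

/-- the core of the shift -/
def shCore (Γ : QF k) : ShiftMkCore (DGM Γ) ℤ where
  F := shF
  zero := NatIso.ofComponents shZero (fun f => by ext x; rfl)
  add a b := NatIso.ofComponents (fun X => shAdd X a b) (fun f => by ext x; rfl)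
  assoc_hom_app a b c X := by
    ext x
    rw [lin_comp_apply, lin_comp_apply, lin_comp_apply]
    erw [lin_eqToHom_sh X (add_assoc a b c)]
    rfl
  zero_add_hom_app a X := by
    ext x
    rw [lin_comp_apply]
    erw [lin_eqToHom_sh X (zero_add a)]
    rfl
  add_zero_hom_app a X := by
    ext x
    rw [lin_comp_apply]
    erw [lin_eqToHom_sh X (add_zero a)]
    rfl

instance : HasShift (DGM Γ) ℤ := hasShiftMk _ _ (shCore Γ)

lemma shiftFunctor_eq (n : ℤ) : CategoryTheory.shiftFunctor (DGM Γ) n = shF n := rfl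

lemma shiftFunctor_obj (X : DGM Γ) (n : ℤ) : X⟦n⟧ = X.sh n := rfl

lemma lin_shift_map {X Y : DGM Γ} (f : X ⟶ Y) (n : ℤ) (x : X.M) : lin (f⟦n⟧') x = lin f x := rfl

lemma lin_shiftFunctorZero_hom (X : DGM Γ) (x : X.M) :
    lin ((shiftFunctorZero (DGM Γ) ℤ).hom.app X) x = x := rfl

lemma lin_shiftFunctorZero_inv (X : DGM Γ) (x : X.M) :
    lin ((shiftFunctorZero (DGM Γ) ℤ).inv.app X) x = x := rfl

lemma lin_shiftFunctorAdd_hom (X : DGM Γ) (a b : ℤ) (x : X.M) :
    lin ((shiftFunctorAdd (DGM Γ) a b).hom.app X) x = x := rfl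

lemma lin_shiftFunctorAdd_inv (X : DGM Γ) (a b : ℤ) (x : X.M) :
    lin ((shiftFunctorAdd (DGM Γ) a b).inv.app X) x = x := rfl

lemma lin_shiftFunctorAdd'_hom (X : DGM Γ) (a b c : ℤ) (h : a + b = c) (x : X.M) :
    lin ((shiftFunctorAdd' (DGM Γ) a b c h).hom.app X) x = x := by
  subst h
  rw [shiftFunctorAdd'_eq_shiftFunctorAdd]
  rfl

lemma lin_shiftFunctorAdd'_inv (X : DGM Γ) (a b c : ℤ) (h : a + b = c) (x : X.M) :
    lin ((shiftFunctorAdd' (DGM Γ) a b c h).inv.app X) x = x := by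
  subst h
  rw [shiftFunctorAdd'_eq_shiftFunctorAdd]
  rfl

lemma lin_shiftFunctorComm_hom (X : DGM Γ) (a b : ℤ) (x : X.M) :
    lin ((shiftFunctorComm (DGM Γ) a b).hom.app X) x = x := by
  rw [shiftFunctorComm_eq _ _ _ _ rfl]
  change lin (((shiftFunctorAdd' (DGM Γ) a b (a + b) rfl).inv.app X) ≫
    ((shiftFunctorAdd' (DGM Γ) b a (a + b) (by rw [add_comm])).hom.app X)) x = x
  rw [lin_comp_apply, lin_shiftFunctorAdd'_inv]
  exact lin_shiftFunctorAdd'_hom X b a (a + b) _ x

instance (n : ℤ) : (CategoryTheory.shiftFunctor (DGM Γ) n).Additive where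
  map_add := by
    intro X Y f g
    ext x
    rfl

instance (n : ℤ) : Functor.Linear k (CategoryTheory.shiftFunctor (DGM Γ) n) where
  map_smul := by
    intro X Y f r
    ext x
    rfl

end DGM

end GZ
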