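import Pool.Agent.Lib_MP_a23b08_g.GTStr
import Pool.Agent.Lib_MP_a23b08_g.GDn
import Pool.Agent.Lib_MP_a23b08_g.GFilt
import Pool.Agent.Lib_MP_a23b08_t1.Main

/-!
PIECE E2. The simple modules form a simple-minded collection of `Dnil`, whose t-structure is the
standard t-structure.
-/

open CategoryTheory CategoryTheory.Limits CategoryTheory.Pretriangulated
  CategoryTheory.Triangulated

namespace GZ

open DGM

variable {k : Type} [Field k] {Γ : QF k}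

namespace Dnil

theorem isSMC_simp (hΓ : Γ.Nice) : EGr.IsSMC (simp hΓ) where
  hom_neg i j m hm f := hom_neg hΓ i j hm f
  hom_ne i j h f := hom_ne hΓ h f
  zero_or_iso i f := zero_or_iso hΓ i f
  ne_zero i := ne_zero hΓ i
  gen X := by
    refine EGr.Filt.mono ?_ (filt_Sm hΓ X)
    rintro Y ⟨i, m, e⟩
    exact ⟨i, m, Set.mem_univ _, e⟩

theorem cohZero_simp (hΓ : Γ.Nice) (i : Γ.V) {p : ℤ} (hp : p ≠ 0) :
    CohZero (simp hΓ i).mod p := by
  intro v x hx _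
  exact ⟨0, by rw [map_zero]; exact (deg0_Sm hΓ i v p hp x hx).symm⟩

theorem cohZero_simp_shift (hΓ : Γ.Nice) (i : Γ.V) (m : ℤ) {p : ℤ} (hp : p + m ≠ 0) :
    CohZero ((simp hΓ i)⟦m⟧ : Dnil Γ).mod p := by
  have e : ((simp hΓ i)⟦m⟧ : Dnil Γ).obj ≅ (simp hΓ i).obj⟦m⟧ :=
    ((nilP Γ).ι.commShiftIso m).app (simp hΓ i)
  exact (cohZero_of_iso (X := ((simp hΓ i)⟦m⟧ : Dnil Γ).mod)
    (Y := und ((simp hΓ i).obj⟦m⟧)) e p).2
    ((cohZero_shift (simp hΓ i).obj m p).2 (cohZero_simp hΓ i hp))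

theorem le_of_cl (hΓ : Γ.Nice) {X : Dnil Γ} (n : ℤ) (hX : EGr.cl (simp hΓ) (Set.Ici (-n)) X) :
    (stdT hΓ).le n X := by
  induction hX with
  | zero X hX => exact (EGr.le_iff_orth _ n X).2 (fun Y f _ => hX.eq_of_src f 0)
  | ext A X B f g h hT hA hB ih =>
    refine EGr.le₂ _ n hT ih ?_
    obtain ⟨i, m, hm, ⟨e⟩⟩ := hB
    refine ((stdT hΓ).le n).prop_of_iso e.symm ?_
    rw [stdT_le_iff]
    intro p hp
    rw [Set.mem_Ici] at hm
    exact cohZero_simp_shift hΓ i m (by omega)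

theorem ge_of_cl (hΓ : Γ.Nice) {X : Dnil Γ} (n : ℤ) (hX : EGr.cl (simp hΓ) (Set.Iic (-n)) X) :
    (stdT hΓ).ge n X := by
  induction hX with
  | zero X hX => exact (EGr.ge_iff_orth _ n X).2 (fun Y f _ => hX.eq_of_tgt f 0)
  | ext A X B f g h hT hA hB ih =>
    refine EGr.ge₂ _ n hT ih ?_
    obtain ⟨i, m, hm, ⟨e⟩⟩ := hB
    refine ((stdT hΓ).ge n).prop_of_iso e.symm ?_
    rw [stdT_ge_iff]
    intro p hp
    rw [Set.mem_Iic] at hm
    exact cohZero_simp_shift hΓ i m (by omega)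

theorem stdT_eq (hΓ : Γ.Nice) : stdT hΓ = (isSMC_simp hΓ).tstr := by
  symm
  refine EGr.tstr_ext_le_ge (fun X hX => le_of_cl hΓ 0 hX) (fun X hX => ge_of_cl hΓ 1 hX)

theorem smlist_simp (hΓ : Γ.Nice) : EGr.SMList (stdT hΓ) (simp hΓ) := by
  rw [stdT_eq]
  exact (isSMC_simp hΓ).slist

end Dnil

end GZ
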