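import Pool.Agent.Lib_MP_a23b08_g.GQ
import Pool.Agent.Lib_MP_a23b08_g.GStep
import Pool.Agent.Lib_MP_a23b08_g.GDnil

/-!
# The standard t-structure on the derived category and on `Dnil` (MP_a23b08_al, part G)
-/

open CategoryTheory CategoryTheory.Limits CategoryTheory.Pretriangulated

namespace GZ

variable {k : Type} [Field k]

namespace DGM

variable {Γ : QF k}

/-- Quasi-isomorphisms and vanishing of cohomology. -/
lemma IsQis.cohZero_iff {X Y : DGM Γ} {f : X ⟶ Y} (hf : IsQis f) (m : ℤ) :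
    CohZero X m ↔ CohZero Y m := by
  constructor
  · intro h v y hy hd
    obtain ⟨x, y', hx, e⟩ := hf.surj y hd
    have e1 : y = lin f (cmp X v m x) + Y.d (cmp Y v (m - 1) y') := by
      rw [d_cmp Y v (q := m) (by omega), ← cmp_lin, ← map_add, ← e, cmp_of_mem Y hy]
    obtain ⟨x', hx'⟩ := h v (cmp X v m x) (cmp_mem X v m x) (by rw [d_cmp X v rfl, hx, map_zero])
    refine ⟨lin f x' + cmp Y v (m - 1) y', ?_⟩
    rw [map_add, ← lin_d, hx', ← e1]
  · intro h v x hx hd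
    refine hf.inj x hd (h v _ (lin_mem f hx) ?_)
    rw [← lin_d, hd, map_zero]

lemma isQis_iff_bijective {X Y : DGM Γ} (f : X ⟶ Y) :
    IsQis f ↔ Function.Bijective (cohMap f) := by
  rw [← trW_quot_iff, trW_quot_map_iff]

lemma isIso_Q_iff_isQis {X Y : DGM Γ} (f : X ⟶ Y) : IsIso ((Q Γ).map f) ↔ IsQis f := by
  rw [isQis_iff_bijective, isIso_Q_map_iff]

/-- Isomorphisms in the derived category are fractions of quasi-isomorphisms. -/
lemma exists_of_iso {X Y : DGM Γ} (e : (Q Γ).obj X ≅ (Q Γ).obj Y) :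
    ∃ (Z : DGM Γ) (s : Y ⟶ Z) (g : X ⟶ Z), IsQis s ∧ IsQis g := by
  obtain ⟨Z, s, g, hs, h⟩ := exists_left e.hom
  refine ⟨Z, s, g, hs, ?_⟩
  have h1 : IsIso ((Q Γ).map s) := isIso_Q_of_isQis s hs
  rw [← isIso_Q_iff_isQis, ← h]
  infer_instance

lemma cohZero_of_iso {X Y : DGM Γ} (e : (Q Γ).obj X ≅ (Q Γ).obj Y) (m : ℤ) :
    CohZero X m ↔ CohZero Y m := by
  obtain ⟨Z, s, g, hs, hg⟩ := exists_of_iso e
  rw [hs.cohZero_iff, hg.cohZero_iff]

lemma cohZero_sh (X : DGM Γ) (a m : ℤ) : CohZero (X.sh a) m ↔ CohZero X (m + a) := by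
  constructor
  · intro h v x hx hd
    obtain ⟨y, hy⟩ := h v x hx (by
      change sg k a • X.d x = 0
      rw [hd, smul_zero])
    refine ⟨(sg k a • y : X.M), ?_⟩
    rw [map_smul]
    exact hy
  · intro h v x hx hd
    have hd' : X.d x = 0 := by
      change sg k a • X.d x = 0 at hd
      rw [← sg_mul_self_smul (k := k) a (X.d x), hd, smul_zero]
    obtain ⟨y, hy⟩ := h v x hx hd'
    refine ⟨(sg k a • y : X.M), ?_⟩
    change sg k a • X.d (sg k a • y) = x
    rw [map_smul, sg_mul_self_smul, hy]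

/-- The shift of `Q X`. -/
noncomputable def QshIso (X : DGM Γ) (a : ℤ) : ((Q Γ).obj X)⟦a⟧ ≅ (Q Γ).obj (X.sh a) :=
  (((Q Γ).commShiftIso a).app X).symm

lemma cohZero_shift (X : Der Γ) (a m : ℤ) :
    CohZero (und (X⟦a⟧)) m ↔ CohZero (und X) (m + a) := by
  have e : (Q Γ).obj (und (X⟦a⟧)) ≅ (Q Γ).obj ((und X).sh a) := QshIso (und X) a
  exact (cohZero_of_iso e m).trans (cohZero_sh _ _ _)

/-- Vanishing of morphisms from cohomology in degrees `≤ 0` to cohomology in degrees `≥ 1`. -/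
theorem hom_eq_zero (hΓ : Γ.Nice) {X Y : DGM Γ} (f : (Q Γ).obj X ⟶ (Q Γ).obj Y)
    (hX : ∀ m, 0 < m → CohZero X m) (hY : ∀ m, m < 1 → CohZero Y m) : f = 0 := by
  obtain ⟨X', s, g, hs, h⟩ := exists_right f
  obtain ⟨T, -, j, -, -, t1, t2, -, -, -, -, -, -, t9, -, -⟩ := exists_trunc hΓ X' 0
  obtain ⟨-, F, -, π, -, -, -, f3, f4, -, -, -, -, -, f10, -⟩ := exists_trunc hΓ Y 0
  have hj : IsQis j := t9 fun p hp => (hs.cohZero_iff p).2 (hX p hp)
  have hπ : IsQis π := f10 fun p hp => hY p (by omega)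
  have e0 : j ≫ g ≫ π = 0 := by
    apply lin_injective
    refine ext_hom T fun v p x hx => ?_
    rw [lin_zero, LinearMap.zero_apply]
    have hm : lin (j ≫ g ≫ π) x ∈ F.gr v p := lin_mem _ hx
    rcases lt_trichotomy p 0 with hp | hp | hp
    · exact f3 v p _ hp hm
    · subst hp
      refine f4 v _ hm ?_
      rw [← lin_d, t2 v x hx, map_zero]
    · rw [t1 v p x hp hx, map_zero]
  have i1 : IsIso ((Q Γ).map j) := isIso_Q_of_isQis j hj
  have i2 : IsIso ((Q Γ).map π) := isIso_Q_of_isQis π hπ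
  have i3 : IsIso ((Q Γ).map s) := isIso_Q_of_isQis s hs
  have e1 : (Q Γ).map j ≫ (Q Γ).map g ≫ (Q Γ).map π = 0 := by
    rw [← Functor.map_comp, ← Functor.map_comp, e0, Functor.map_zero]
  have e2 : (Q Γ).map g = 0 := by
    rw [← cancel_mono ((Q Γ).map π), ← cancel_epi ((Q Γ).map j), e1, zero_comp, comp_zero]
  rw [← cancel_epi ((Q Γ).map s), h, e2, comp_zero]

/-- The t-structure on the derived category. -/
noncomputable def stdD (hΓ : Γ.Nice) : Triangulated.TStructure (Der Γ) where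
  le n X := ∀ m, n < m → CohZero (und X) m
  ge n X := ∀ m, m < n → CohZero (und X) m
  le_isClosedUnderIsomorphisms n :=
    ⟨fun {X Y} e hX m hm => (cohZero_of_iso (X := und X) (Y := und Y) e m).1 (hX m hm)⟩
  ge_isClosedUnderIsomorphisms n :=
    ⟨fun {X Y} e hX m hm => (cohZero_of_iso (X := und X) (Y := und Y) e m).1 (hX m hm)⟩
  le_shift n a n' h X hX m hm := (cohZero_shift X a m).2 (hX _ (by omega))
  ge_shift n a n' h X hX m hm := (cohZero_shift X a m).2 (hX _ (by omega))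
  zero' X Y f hX hY := hom_eq_zero hΓ (X := und X) (Y := und Y) f hX hY
  le_zero_le X hX m hm := hX m (by omega)
  ge_one_le X hX m hm := hX m (by omega)
  exists_triangle_zero_one A := by
    obtain ⟨T, F, j, π, hs, -, -, -, -, h5, h6, -, -, -, -, -⟩ := exists_trunc hΓ (und A) 0
    obtain ⟨w, hw, -⟩ := exists_tri_of_short hs
    exact ⟨(Q Γ).obj T, (Q Γ).obj F, h5, fun m hm => h6 m (by omega), (Q Γ).map j, (Q Γ).map π,
      w, hw⟩

end DGM

open DGM

variable {Γ : QF k}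

/-- The truncations of the objects of `Dnil` are in `Dnil`. -/
lemma nilP_induced (hΓ : Γ.Nice) : (nilP Γ).HasInducedTStructure (stdD hΓ) := by
  constructor
  intro A hA
  obtain ⟨T, F, j, π, hs, -, -, -, -, h5, h6, -, -, -, -, h11⟩ := exists_trunc hΓ (und A) 0
  obtain ⟨w, hw, -⟩ := exists_tri_of_short hs
  have h12 := h11 (hA hΓ)
  exact ⟨(Q Γ).obj T, (Q Γ).obj F, ⟨h5⟩, ⟨fun m hm => h6 m (by omega)⟩, (Q Γ).map j,
    (Q Γ).map π, w, hw, ⟨(Q Γ).obj T, fun _ => h12.1, ⟨Iso.refl _⟩⟩,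
    ⟨(Q Γ).obj F, fun _ => h12.2, ⟨Iso.refl _⟩⟩⟩

/-- The standard t-structure on `Dnil`: `X ≤ n` if `Hᵐ(X) = 0` for `m > n`, `X ≥ n` if `Hᵐ(X) = 0`
for `m < n`. -/
noncomputable def stdT (hΓ : Γ.Nice) : Triangulated.TStructure (nilP Γ).FullSubcategory :=
  haveI := nilP_induced hΓ
  (nilP Γ).tStructure (stdD hΓ)

theorem stdT_le_iff (hΓ : Γ.Nice) (X : Dnil Γ) (n : ℤ) :
    (stdT hΓ).le n X ↔ ∀ m, n < m → CohZero X.mod m := Iff.rfl

theorem stdT_ge_iff (hΓ : Γ.Nice) (X : Dnil Γ) (n : ℤ) :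
    (stdT hΓ).ge n X ↔ ∀ m, m < n → CohZero X.mod m := Iff.rfl

end GZ
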