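import Pool.Agent.Lib_MP_a23b08_g.GQ
import Pool.Agent.Lib_MP_a23b08_g.GHom1

/-!
PIECE D3. Morphisms in the derived category: `Hom(Q X, Q Y) ≅ H⁰ Φ(X, Y)`.
-/

open CategoryTheory CategoryTheory.Limits CategoryTheory.Pretriangulated

namespace GZ

variable {k : Type} [Field k]

namespace DGM

variable {Γ : QF k}

/-- Proof. Lift the morphism to a morphism `s` of dg modules (`quot Γ` is full and essentially
surjective, see `quot_obj_surjective`); `trW_quot_iff` and `HR_bijective`. -/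
theorem hK_inverts (hΓ : Γ.Nice) (X : DGM Γ) (n : ℤ) : (acyc Γ).trW.IsInvertedBy (hK X n) := by
  intro A B f hf
  obtain ⟨A, rfl⟩ := quot_obj_surjective A
  obtain ⟨B, rfl⟩ := quot_obj_surjective B
  obtain ⟨g, rfl⟩ := (quot Γ).map_surjective f
  have hb : Function.Bijective (HR X g n) := HR_bijective hΓ X ((trW_quot_iff g).1 hf) n
  change IsIso (ModuleCat.ofHom (HR X g n))
  exact (ConcreteCategory.isIso_iff_bijective (ModuleCat.ofHom (HR X g n))).2 hb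

/-- The functor `Hⁿ Φ(X, -)` on the derived category. -/
noncomputable def hD (hΓ : Γ.Nice) (X : DGM Γ) (n : ℤ) : Der Γ ⥤ ModuleCat.{0} k :=
  Localization.lift (hK X n) (hK_inverts hΓ X n) (Qh Γ)

/-- `hD` restricted to the homotopy category. -/
noncomputable def hDIso (hΓ : Γ.Nice) (X : DGM Γ) (n : ℤ) : Qh Γ ⋙ hD hΓ X n ≅ hK X n :=
  Localization.fac (hK X n) (hK_inverts hΓ X n) (Qh Γ)

instance (hΓ : Γ.Nice) (X : DGM Γ) (n : ℤ) : (hD hΓ X n).Additive := by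
  rw [Localization.functor_additive_iff (Qh Γ) (acyc Γ).trW]
  exact Functor.additive_of_iso (hDIso hΓ X n).symm

instance (hΓ : Γ.Nice) (X : DGM Γ) (n : ℤ) : (hD hΓ X n).Linear k := by
  have : Localization.Lifting (Qh Γ) (acyc Γ).trW (hK X n) (hD hΓ X n) := ⟨hDIso hΓ X n⟩
  exact (Localization.functor_linear_iff (Qh Γ) (acyc Γ).trW k (hK X n) (hD hΓ X n)).1 inferInstance

/-- The Yoneda map `Hom(Q X, Q Y) → H⁰ Φ(X, Y)`, `φ ↦ φ_* [(𝟙, 0)]`. -/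
noncomputable def theta (hΓ : Γ.Nice) (X Y : DGM Γ) :
    ((Q Γ).obj X ⟶ (Q Γ).obj Y) →ₗ[k] HPhi X Y 0 where
  toFun φ := ((hDIso hΓ X 0).hom.app ((quot Γ).obj Y)).hom (((hD hΓ X 0).map φ).hom
    (((hDIso hΓ X 0).inv.app ((quot Γ).obj X)).hom
      (cl ((LinearMap.id, 0) : Amb X X) (hom_mem (𝟙 X)))))
  map_add' φ ψ := by
    rw [Functor.map_add]
    exact LinearMap.map_add ((hDIso hΓ X 0).hom.app ((quot Γ).obj Y)).hom _ _
  map_smul' c φ := by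
    rw [Functor.map_smul]
    exact LinearMap.map_smul ((hDIso hΓ X 0).hom.app ((quot Γ).obj Y)).hom c _

lemma theta_apply (hΓ : Γ.Nice) (X Y : DGM Γ) (φ : (Q Γ).obj X ⟶ (Q Γ).obj Y) :
    theta hΓ X Y φ = ((hDIso hΓ X 0).hom.app ((quot Γ).obj Y)).hom (((hD hΓ X 0).map φ).hom
      (((hDIso hΓ X 0).inv.app ((quot Γ).obj X)).hom
        (cl ((LinearMap.id, 0) : Amb X X) (hom_mem (𝟙 X))))) := rfl

private lemma hDIso_nat (hΓ : Γ.Nice) (X : DGM Γ) {Y Z : DGM Γ} (g : Y ⟶ Z)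
    (c : (hD hΓ X 0).obj ((Q Γ).obj Y)) :
    ((hDIso hΓ X 0).hom.app ((quot Γ).obj Z)).hom (((hD hΓ X 0).map ((Q Γ).map g)).hom c) =
      HR X g 0 (((hDIso hΓ X 0).hom.app ((quot Γ).obj Y)).hom c) := by
  have h := (hDIso hΓ X 0).hom.naturality ((quot Γ).map g)
  exact congrArg (fun f => (ModuleCat.Hom.hom f) c) h

/-- Naturality in `Y`. Proof: functoriality of `hD` and naturality of `hDIso`. -/
theorem theta_comp_Q (hΓ : Γ.Nice) {X Y Z : DGM Γ} (φ : (Q Γ).obj X ⟶ (Q Γ).obj Y) (g : Y ⟶ Z) :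
    theta hΓ X Z (φ ≫ (Q Γ).map g) = HR X g 0 (theta hΓ X Y φ) := by
  rw [theta_apply, theta_apply, Functor.map_comp]
  exact hDIso_nat hΓ X g _

private lemma theta_id (hΓ : Γ.Nice) (X : DGM Γ) :
    theta hΓ X X (𝟙 ((Q Γ).obj X)) = cl ((LinearMap.id, 0) : Amb X X) (hom_mem (𝟙 X)) := by
  rw [theta_apply, CategoryTheory.Functor.map_id]
  have h := (hDIso hΓ X 0).inv_hom_id_app ((quot Γ).obj X)
  exact congrArg (fun f => (ModuleCat.Hom.hom f)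
    (cl ((LinearMap.id, 0) : Amb X X) (hom_mem (𝟙 X)))) h

/-- The value on a morphism of dg modules. Proof: naturality of `hDIso`. -/
theorem theta_Q (hΓ : Γ.Nice) {X Y : DGM Γ} (g : X ⟶ Y) :
    theta hΓ X Y ((Q Γ).map g) = cl ((lin g, 0) : Amb X Y) (hom_mem g) := by
  have h : (Q Γ).map g = 𝟙 ((Q Γ).obj X) ≫ (Q Γ).map g := (Category.id_comp _).symm
  rw [h, theta_comp_Q, theta_id, HR_cl]
  rw [cl_eq_iff]
  have h1 : mapR X (lin g) ((LinearMap.id, 0) : Amb X X) = ((lin g, 0) : Amb X Y) :=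
    Prod.ext (LinearMap.comp_id _) (funext fun a => LinearMap.comp_zero _)
  rw [h1, sub_self]
  exact zero_mem _

/-- Naturality in `X`. Proof: `exists_left`: `φ ≫ Q s = Q g`, `s` a quasi-isomorphism, `HR X' s 0` is
injective (`HR_bijective`); `HR s` of both sides is `[(f g, 0)]` (`theta_comp_Q`, `theta_Q`,
`HL_HR`). -/
theorem theta_Q_comp (hΓ : Γ.Nice) {X' X Y : DGM Γ} (f : X' ⟶ X)
    (φ : (Q Γ).obj X ⟶ (Q Γ).obj Y) :
    theta hΓ X' Y ((Q Γ).map f ≫ φ) = HL Y f 0 (theta hΓ X Y φ) := by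
  obtain ⟨Y', s, g, hs, e⟩ := exists_left φ
  apply (HR_bijective hΓ X' hs 0).1
  rw [← theta_comp_Q, Category.assoc, e, ← Functor.map_comp, theta_Q, ← HL_HR, ← theta_comp_Q, e,
    theta_Q, HL_cl, cl_eq_iff]
  have h1 : mapL Y' (lin f) ((lin g, 0) : Amb X Y') = ((lin (f ≫ g), 0) : Amb X' Y') :=
    Prod.ext rfl (funext fun a => LinearMap.zero_comp _)
  rw [h1, sub_self]
  exact zero_mem _

/-- Proof. `c = [φ]`; `exists_strict` gives `s : Y → Y'`, `g : X → Y'` with `s_* c = [(g, 0)]`. Then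
`Q g ≫ (Q s)⁻¹` is mapped to `c` (`theta_comp_Q`, `HR_bijective`). -/
theorem theta_surjective (hΓ : Γ.Nice) (X Y : DGM Γ) : Function.Surjective (theta hΓ X Y) := by
  intro c
  obtain ⟨φ, hφ, rfl⟩ := cl_surjective c
  obtain ⟨Y', s, g, hs, h⟩ := exists_strict hΓ hφ
  have : IsIso ((Q Γ).map s) := isIso_Q_of_isQis s hs
  refine ⟨(Q Γ).map g ≫ inv ((Q Γ).map s), ?_⟩
  apply (HR_bijective hΓ X hs 0).1
  rw [← theta_comp_Q, Category.assoc, IsIso.inv_hom_id, Category.comp_id, theta_Q, HR_cl, eq_comm,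
    cl_eq_iff]
  exact h

/-- Proof. Let `theta φ = 0`, `φ ≫ Q s = Q g` (`exists_left`). Then `[(g, 0)] = 0`, so `exists_null` gives a
quasi-isomorphism `s'` with `g ≫ s'` null-homotopic, `Q (g ≫ s') = 0` (`Q_map_eq_zero_of_null`). -/
theorem theta_injective (hΓ : Γ.Nice) (X Y : DGM Γ) : Function.Injective (theta hΓ X Y) := by
  rw [injective_iff_map_eq_zero]
  intro φ hφ
  obtain ⟨Y', s, g, hs, e⟩ := exists_left φ
  have : IsIso ((Q Γ).map s) := isIso_Q_of_isQis s hs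
  have h1 : theta hΓ X Y' ((Q Γ).map g) = 0 := by
    rw [← e, theta_comp_Q, hφ, map_zero]
  rw [theta_Q, cl_eq_zero_iff] at h1
  obtain ⟨Y'', s', z, hs', hz, hh⟩ := exists_null hΓ h1
  have : IsIso ((Q Γ).map s') := isIso_Q_of_isQis s' hs'
  have h2 : (Q Γ).map (g ≫ s') = 0 := Q_map_eq_zero_of_null hz hh
  rw [Functor.map_comp, ← e, Category.assoc] at h2
  have h3 : φ ≫ ((Q Γ).map s ≫ (Q Γ).map s') = 0 ≫ ((Q Γ).map s ≫ (Q Γ).map s') := by
    rw [h2, zero_comp]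
  exact (cancel_mono _).1 h3

/-- Morphisms in the derived category. -/
noncomputable def thetaE (hΓ : Γ.Nice) (X Y : DGM Γ) :
    ((Q Γ).obj X ⟶ (Q Γ).obj Y) ≃ₗ[k] HPhi X Y 0 :=
  LinearEquiv.ofBijective (theta hΓ X Y) ⟨theta_injective hΓ X Y, theta_surjective hΓ X Y⟩

/-- Morphisms of degree `m`. -/
theorem nonempty_hom_equiv (hΓ : Γ.Nice) (X Y : DGM Γ) (m : ℤ) :
    Nonempty (((Q Γ).obj X ⟶ ((Q Γ).obj Y)⟦m⟧) ≃ₗ[k] HPhi X Y m) := by
  obtain ⟨e, -⟩ := exists_shift_equiv X Y (zero_add m)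
  let i : (Q Γ).obj (Y.sh m) ≅ ((Q Γ).obj Y)⟦m⟧ := ((Q Γ).commShiftIso m).app Y
  exact ⟨(Linear.homCongr k (Iso.refl _) i.symm) ≪≫ₗ thetaE hΓ X (Y.sh m) ≪≫ₗ e⟩

end DGM

end GZ
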