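import Pool.Agent.Lib_MP_a23b08_g.GCone

/-!
# dg modules: the pretriangulated structure of the homotopy category (MP_a23b08_al, part G)
-/

open CategoryTheory CategoryTheory.Limits CategoryTheory.Category Pretriangulated

set_option backward.isDefEq.respectTransparency false
set_option backward.defeqAttrib.useBackward true

namespace GZ

variable {k : Type} [Field k] {Γ : QF k}

namespace DGM

variable {X Y Z : DGM Γ}

/-- The cone of the identity is contractible. -/
lemma isZero_cone_id (X : DGM Γ) : IsZero ((quot Γ).obj (cone (𝟙 X))) := by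
  rw [isZero_quot_obj_iff]
  refine ⟨(0 : (X.M × X.M) →ₗ[k] X.M).prod (LinearMap.fst k X.M X.M),
    mem_lin_neg_one ?_ ?_, ?_⟩
  · rintro v p q ⟨y, x⟩ h ⟨hy, hx⟩
    subst h
    exact ⟨zero_mem _, hy⟩
  · rintro a ⟨y, x⟩
    rw [cone_act]
    change ((0 : X.M), X.act a y) = sg k (Γ.deg a) • (cone (𝟙 X)).act a ((0 : X.M), y)
    rw [cone_act]
    refine Prod.ext ?_ ?_ <;> simp
  · rintro ⟨y, x⟩
    change (y, x) = (cone (𝟙 X)).d ((0 : X.M), y) + ((0 : X.M), ((cone (𝟙 X)).d (y, x)).1)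
    rw [cone_d, cone_d]
    refine Prod.ext ?_ ?_ <;> simp

section square

variable {X₁ Y₁ X₂ Y₂ : DGM Γ} (f₁ : X₁ ⟶ Y₁) (f₂ : X₂ ⟶ Y₂) (a : X₁ ⟶ X₂) (b : Y₁ ⟶ Y₂)
    (z : X₁.M →ₗ[k] Y₂.M) (hz : z ∈ Lin X₁ Y₂ (-1))
    (h : ∀ x, lin (f₁ ≫ b) x = Y₂.d (z x) + z (X₁.d x) + lin (a ≫ f₂) x)

lemma inr_coneMap : inr f₁ ≫ coneMap f₁ f₂ a b z hz h = b ≫ inr f₂ := by
  apply hom_ext
  intro y
  change (lin b y + z 0, lin a 0) = (lin b y, (0 : X₂.M))
  simp

lemma coneMap_pr : coneMap f₁ f₂ a b z hz h ≫ pr f₂ = pr f₁ ≫ a⟦(1 : ℤ)⟧' := by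
  apply hom_ext
  rintro ⟨y, x⟩
  rfl

/-- The morphism of triangles induced by a square that commutes up to homotopy. -/
@[simps]
noncomputable def trihMap : trih f₁ ⟶ trih f₂ where
  hom₁ := (quot Γ).map a
  hom₂ := (quot Γ).map b
  hom₃ := (quot Γ).map (coneMap f₁ f₂ a b z hz h)
  comm₁ := by
    dsimp
    simp only [← Functor.map_comp]
    exact quot_map_eq z hz h
  comm₂ := by
    dsimp
    simp only [← Functor.map_comp]
    rw [inr_coneMap]
  comm₃ := by
    dsimp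
    rw [← Functor.map_comp_assoc, coneMap_pr, Functor.map_comp, assoc, assoc]
    simp

end square

section rotate

variable (f : X ⟶ Y)

lemma cone_inr_d (y y' : Y.M) (x : X.M) : (cone (inr f)).d ((y, x), y') =
    ((Y.d y + lin f x + y', -X.d x), -Y.d y') := by
  rw [cone_d, cone_d]
  change ((Y.d y + lin f x + y', -X.d x + 0), -Y.d y') = _
  rw [add_zero]

lemma cone_inr_act (a : Γ.A) (y y' : Y.M) (x : X.M) : (cone (inr f)).act a ((y, x), y') =
    ((Y.act a y, sg k (Γ.deg a) • X.act a x), sg k (Γ.deg a) • Y.act a y') := by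
  rw [cone_act, cone_act]

/-- `X⟦1⟧ ⟶ cone (inr f)`, `x ↦ ((0, x), - f x)`. -/
def rotHom : X⟦(1 : ℤ)⟧ ⟶ cone (inr f) :=
  homMk (X := X.sh 1) (Y := cone (inr f))
    ((LinearMap.inr k Y.M X.M).prod (-(lin (X := X) (Y := Y) f)))
    (fun v p x hx => ⟨⟨zero_mem _, hx⟩, neg_mem (lin_mem f hx)⟩)
    (fun a x => by
      change (((0 : Y.M), (sg k (1 * Γ.deg a) • X.act a x)), -lin f (sg k (1 * Γ.deg a) • X.act a x)) =
        (cone (inr f)).act a (((0 : Y.M), x), -lin f x)
      rw [cone_inr_act]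
      refine Prod.ext (Prod.ext ?_ ?_) ?_
      · simp
      · simp
      · simp [lin_act])
    (fun x => by
      change (((0 : Y.M), (sg k 1 • X.d x)), -lin f (sg k 1 • X.d x)) =
        (cone (inr f)).d (((0 : Y.M), x), -lin f x)
      rw [cone_inr_d]
      refine Prod.ext (Prod.ext ?_ ?_) ?_
      · simp
      · simp
      · simp [lin_d])

/-- `cone (inr f) ⟶ X⟦1⟧`, `((y, x), y') ↦ x`. -/
def rotInv : cone (inr f) ⟶ X⟦(1 : ℤ)⟧ :=
  homMk (X := cone (inr f)) (Y := X.sh 1)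
    (LinearMap.snd k Y.M X.M ∘ₗ LinearMap.fst k (Y.M × X.M) Y.M)
    (fun v p x hx => hx.1.2)
    (fun a x => rfl)
    (fun x => by
      obtain ⟨⟨y, x⟩, y'⟩ := x
      change ((cone (inr f)).d ((y, x), y')).1.2 = sg k 1 • X.d x
      rw [cone_inr_d]
      simp)

lemma lin_rotHom_apply (x : X.M) : lin (rotHom f) x = (((0 : Y.M), x), -lin f x) := rfl

lemma lin_rotInv_apply (u : (cone (inr f)).M) : lin (rotInv f) u = u.1.2 := rfl

/-- The rotation isomorphism in the homotopy category. -/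
noncomputable def rotIso : (quot Γ).obj (X⟦(1 : ℤ)⟧) ≅ (quot Γ).obj (cone (inr f)) :=
  isoMk (rotHom f) (rotInv f)
    (congrArg (quot Γ).map (by apply hom_ext; intro x; rfl))
    (by
      refine Eq.symm (quot_map_eq ((0 : (cone (inr f)).M →ₗ[k] (cone f).M).prod
        (LinearMap.fst k Y.M X.M ∘ₗ LinearMap.fst k (Y.M × X.M) Y.M)) (mem_lin_neg_one ?_ ?_) ?_)
      · rintro v p q ⟨⟨y, x⟩, y'⟩ h ⟨⟨hy, hx⟩, hy'⟩
        subst h
        exact ⟨zero_mem _, hy⟩
      · rintro a ⟨⟨y, x⟩, y'⟩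
        change ((((0 : Y.M), (0 : X.M)), ((cone (inr f)).act a ((y, x), y')).1.1)) =
          sg k (Γ.deg a) • (cone (inr f)).act a (((0 : Y.M), (0 : X.M)), y)
        rw [cone_inr_act, cone_inr_act]
        refine Prod.ext (Prod.ext ?_ ?_) ?_
        · simp
        · simp
        · simp
      · rintro ⟨⟨y, x⟩, y'⟩
        change ((y, x), y') = (cone (inr f)).d (((0 : Y.M), (0 : X.M)), y) +
          (((0 : Y.M), (0 : X.M)), ((cone (inr f)).d ((y, x), y')).1.1) +
          (((0 : Y.M), x), -lin f x)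
        rw [cone_inr_d, cone_inr_d]
        refine Prod.ext (Prod.ext ?_ ?_) ?_
        · simp
        · simp
        · change y' = -Y.d y + (Y.d y + lin f x + y') + -lin f x
          abel)

lemma pr_rotHom : (quot Γ).map (pr f) ≫ (quot Γ).map (rotHom f) =
    (quot Γ).map (inr (inr f)) := by
  rw [← Functor.map_comp]
  refine Eq.symm (quot_map_eq ((0 : (cone f).M →ₗ[k] (cone f).M).prod
    (LinearMap.fst k Y.M X.M)) (mem_lin_neg_one ?_ ?_) ?_)
  · rintro v p q ⟨y, x⟩ h ⟨hy, hx⟩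
    subst h
    exact ⟨zero_mem _, hy⟩
  · rintro a ⟨y, x⟩
    change ((((0 : Y.M), (0 : X.M)), ((cone f).act a (y, x)).1)) =
      sg k (Γ.deg a) • (cone (inr f)).act a (((0 : Y.M), (0 : X.M)), y)
    rw [cone_act, cone_inr_act]
    refine Prod.ext (Prod.ext ?_ ?_) ?_
    · simp
    · simp
    · simp
  · rintro ⟨y, x⟩
    change ((y, x), (0 : Y.M)) = (cone (inr f)).d (((0 : Y.M), (0 : X.M)), y) +
      (((0 : Y.M), (0 : X.M)), ((cone f).d (y, x)).1) + (((0 : Y.M), x), -lin f x)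
    rw [cone_inr_d, cone_d]
    refine Prod.ext (Prod.ext ?_ ?_) ?_
    · simp
    · simp
    · change (0 : Y.M) = -Y.d y + (Y.d y + lin f x) + -lin f x
      abel

lemma rotHom_pr : rotHom f ≫ pr (inr f) = -f⟦(1 : ℤ)⟧' := by
  apply hom_ext
  intro x
  rfl

/-- The rotation of the standard triangle of `f` is the standard triangle of `inr f`. -/
noncomputable def rotTriIso : (trih f).rotate ≅ trih (inr f) :=
  Triangle.isoMk _ _ (Iso.refl _) (Iso.refl _)
    (((quot Γ).commShiftIso (1 : ℤ)).symm.app X ≪≫ rotIso f)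
        (by simp)
        (by
          dsimp [rotIso]
          simp only [id_comp, assoc, Iso.hom_inv_id_app_assoc]
          exact pr_rotHom f)
        (by
          dsimp [rotIso]
          rw [CategoryTheory.Functor.map_id, comp_id, assoc, ← Functor.map_comp_assoc,
            rotHom_pr, Functor.map_neg, Preadditive.neg_comp,
            Functor.commShiftIso_hom_naturality, Preadditive.comp_neg,
            Iso.inv_hom_id_app_assoc])

end rotate

section shift

variable (f : X ⟶ Y) (n : ℤ)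

/-- The cone commutes with the shift. -/
def shConeIso : (cone f)⟦n⟧ ≅ cone (f⟦n⟧') :=
  idIso (X := (cone f).sh n) (Y := cone (shMap f n))
    { toFun := fun p => (p.1, sg k n • p.2)
      invFun := fun p => (p.1, sg k n • p.2)
      left_inv := fun p => by simp
      right_inv := fun p => by simp
      map_add' := fun p q => by simp
      map_smul' := fun c p => by simp [smul_comm c] }
    (fun v p x => by
      obtain ⟨y, x⟩ := x
      have e : p + n + 1 = p + 1 + n := by ring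
      constructor
      · rintro ⟨hy, hx⟩
        refine ⟨hy, Submodule.smul_mem _ _ ?_⟩
        change x ∈ X.gr v (p + 1 + n)
        rw [← e]
        exact hx
      · rintro ⟨hy, hx⟩
        refine ⟨hy, ?_⟩
        change x ∈ X.gr v (p + n + 1)
        rw [e]
        have := Submodule.smul_mem _ (sg k n) hx
        simpa using this)
    (fun a x => by
      obtain ⟨y, x⟩ := x
      change ((sg k (n * Γ.deg a) • (cone f).act a (y, x)).1,
        sg k n • (sg k (n * Γ.deg a) • (cone f).act a (y, x)).2) =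
          (cone (shMap f n)).act a (y, sg k n • x)
      rw [cone_act, cone_act]
      refine Prod.ext ?_ ?_
      · simp
      · simp only [Prod.smul_mk, LinearMap.smul_apply, map_smul, smul_smul]
        congr 1
        ring)
    (fun x => by
      obtain ⟨y, x⟩ := x
      change ((sg k n • (cone f).d (y, x)).1, sg k n • (sg k n • (cone f).d (y, x)).2) =
          (cone (shMap f n)).d (y, sg k n • x)
      rw [cone_d, cone_d]
      refine Prod.ext ?_ ?_
      · simp
      · simp)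

lemma lin_shConeIso_hom_apply (y : Y.M) (x : X.M) :
    lin (shConeIso f n).hom (y, x) = (y, sg k n • x) := rfl

lemma lin_units_smul {X Y : DGM Γ} (f : X ⟶ Y) (n : ℤ) (x : X.M) :
    lin (n.negOnePow • f) x = sg k n • lin f x := by
  rcases Int.even_or_odd n with h | h
  · rw [Int.negOnePow_even n h, sg_even h, one_smul, one_smul]
  · rw [Int.negOnePow_odd n h, sg_odd h]
    simp

/-- The shift of the standard triangle of `f` is the standard triangle of the shift of `f`. -/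
noncomputable def shTriIso : (Triangle.shiftFunctor _ n).obj (tri f) ≅ tri (f⟦n⟧') := by
  refine Triangle.isoMk _ _ (Iso.refl _) (n.negOnePow • Iso.refl _) (shConeIso f n) ?_ ?_ ?_
  · apply hom_ext
    intro x
    change lin (n.negOnePow • 𝟙 (Y⟦n⟧)) (lin (n.negOnePow • f⟦n⟧') x) = lin f x
    rw [lin_units_smul, lin_units_smul]
    change sg k n • sg k n • lin f x = _
    rw [sg_mul_self_smul]
  · apply hom_ext
    intro y
    change lin (shConeIso f n).hom (lin (n.negOnePow • (inr f)⟦n⟧') y) =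
      lin (inr (f⟦n⟧')) (lin (n.negOnePow • 𝟙 (Y⟦n⟧)) y)
    rw [lin_units_smul, lin_units_smul]
    change ((sg k n • (y, (0 : X.M))).1, sg k n • (sg k n • (y, (0 : X.M))).2) =
      (sg k n • y, (0 : X.M))
    simp
  · apply hom_ext
    rintro ⟨y, x⟩
    change lin (n.negOnePow • ((pr f)⟦n⟧' ≫ (shiftFunctorComm (DGM Γ) 1 n).hom.app X)) (y, x) =
      sg k n • x
    refine (lin_units_smul ((pr f)⟦n⟧' ≫ (shiftFunctorComm (DGM Γ) 1 n).hom.app X) n _).trans ?_
    congr 1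
    exact lin_shiftFunctorComm_hom X 1 n x

/-- The same in the homotopy category. -/
noncomputable def shTrihIso : (Triangle.shiftFunctor _ n).obj (trih f) ≅ trih (f⟦n⟧') :=
  ((quot Γ).mapTriangle.commShiftIso n).symm.app _ ≪≫ (quot Γ).mapTriangle.mapIso (shTriIso f n)

end shift

section pretriangulated

variable (Γ) in
/-- The distinguished triangles of the homotopy category. -/
def distTri : Set (Triangle (Hot Γ)) :=
  {T | ∃ (X Y : DGM Γ) (f : X ⟶ Y), Nonempty (T ≅ trih f)}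

lemma isomorphic_distinguished (T₁ : Triangle (Hot Γ)) (hT₁ : T₁ ∈ distTri Γ)
    (T₂ : Triangle (Hot Γ)) (e : T₂ ≅ T₁) : T₂ ∈ distTri Γ := by
  obtain ⟨X, Y, f, ⟨e'⟩⟩ := hT₁
  exact ⟨X, Y, f, ⟨e ≪≫ e'⟩⟩

lemma contractible_distinguished (X : Hot Γ) :
    Pretriangulated.contractibleTriangle X ∈ distTri Γ := by
  obtain ⟨X, rfl⟩ := quot_obj_surjective X
  refine ⟨_, _, 𝟙 X, ⟨?_⟩⟩
  have h := isZero_cone_id X
  exact Triangle.isoMk _ _ (Iso.refl _) (Iso.refl _) h.isoZero.symm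
    (by simp) (h.eq_of_tgt _ _) ((isZero_zero _).eq_of_src _ _)

lemma distinguished_cocone_triangle {X Y : Hot Γ} (f : X ⟶ Y) :
    ∃ (Z : Hot Γ) (g : Y ⟶ Z) (h : Z ⟶ X⟦(1 : ℤ)⟧), Triangle.mk f g h ∈ distTri Γ := by
  obtain ⟨X, rfl⟩ := quot_obj_surjective X
  obtain ⟨Y, rfl⟩ := quot_obj_surjective Y
  obtain ⟨f, rfl⟩ := (quot Γ).map_surjective f
  exact ⟨_, _, _, ⟨_, _, f, ⟨Iso.refl _⟩⟩⟩

lemma rotate_distinguished_triangle' (T : Triangle (Hot Γ)) (hT : T ∈ distTri Γ) :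
    T.rotate ∈ distTri Γ := by
  obtain ⟨X, Y, f, ⟨e⟩⟩ := hT
  exact ⟨_, _, _, ⟨(rotate _).mapIso e ≪≫ rotTriIso f⟩⟩

lemma shift_distinguished_triangle (T : Triangle (Hot Γ)) (hT : T ∈ distTri Γ) (n : ℤ) :
    (Triangle.shiftFunctor _ n).obj T ∈ distTri Γ := by
  obtain ⟨X, Y, f, ⟨e⟩⟩ := hT
  exact ⟨_, _, _, ⟨Functor.mapIso _ e ≪≫ shTrihIso f n⟩⟩

lemma invRotate_distinguished_triangle' (T : Triangle (Hot Γ)) (hT : T ∈ distTri Γ) :
    T.invRotate ∈ distTri Γ :=
  isomorphic_distinguished _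
    (shift_distinguished_triangle _ (rotate_distinguished_triangle' _
      (rotate_distinguished_triangle' _ hT)) _) _
    ((invRotateIsoRotateRotateShiftFunctorNegOne _).app T)

lemma rotate_distinguished_triangle (T : Triangle (Hot Γ)) :
    T ∈ distTri Γ ↔ T.rotate ∈ distTri Γ := by
  constructor
  · exact rotate_distinguished_triangle' T
  · intro hT
    exact isomorphic_distinguished _ (invRotate_distinguished_triangle' T.rotate hT) _
      ((triangleRotation _).unitIso.app T)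

lemma complete_distinguished_triangle_morphism (T₁ T₂ : Triangle (Hot Γ))
    (hT₁ : T₁ ∈ distTri Γ) (hT₂ : T₂ ∈ distTri Γ)
    (a : T₁.obj₁ ⟶ T₂.obj₁) (b : T₁.obj₂ ⟶ T₂.obj₂) (fac : T₁.mor₁ ≫ b = a ≫ T₂.mor₁) :
    ∃ (c : T₁.obj₃ ⟶ T₂.obj₃), T₁.mor₂ ≫ c = b ≫ T₂.mor₂ ∧
      T₁.mor₃ ≫ a⟦(1 : ℤ)⟧' = c ≫ T₂.mor₃ := by
  obtain ⟨X₁, Y₁, f₁, ⟨e₁⟩⟩ := hT₁
  obtain ⟨X₂, Y₂, f₂, ⟨e₂⟩⟩ := hT₂
  obtain ⟨a', ha'⟩ : ∃ (a' : (quot Γ).obj X₁ ⟶ (quot Γ).obj X₂),
    a' = e₁.inv.hom₁ ≫ a ≫ e₂.hom.hom₁ := ⟨_, rfl⟩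
  obtain ⟨b', hb'⟩ : ∃ (b' : (quot Γ).obj Y₁ ⟶ (quot Γ).obj Y₂),
    b' = e₁.inv.hom₂ ≫ b ≫ e₂.hom.hom₂ := ⟨_, rfl⟩
  obtain ⟨a'', rfl⟩ := (quot Γ).map_surjective a'
  obtain ⟨b'', rfl⟩ := (quot Γ).map_surjective b'
  have H : (quot Γ).map (f₁ ≫ b'') = (quot Γ).map (a'' ≫ f₂) := by
    have comm₁₁ := e₁.inv.comm₁
    have comm₁₂ := e₂.hom.comm₁
    dsimp at comm₁₁ comm₁₂
    simp only [Functor.map_comp, ha', hb', reassoc_of% comm₁₁,
      reassoc_of% fac, comm₁₂, assoc]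
  obtain ⟨z, hz, h⟩ := quot_map_eq_iff.1 H
  let γ := e₁.hom ≫ trihMap f₁ f₂ a'' b'' z hz h ≫ e₂.inv
  have comm₂ := γ.comm₂
  have comm₃ := γ.comm₃
  dsimp [γ] at comm₂ comm₃
  simp only [ha', hb'] at comm₂ comm₃
  refine ⟨γ.hom₃, ?_, ?_⟩
  · simpa [γ] using comm₂
  · simpa [γ] using comm₃

noncomputable instance : Pretriangulated (Hot Γ) where
  distinguishedTriangles := distTri Γ
  isomorphic_distinguished := isomorphic_distinguished
  contractible_distinguished := contractible_distinguished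
  distinguished_cocone_triangle := distinguished_cocone_triangle
  rotate_distinguished_triangle := rotate_distinguished_triangle
  complete_distinguished_triangle_morphism := complete_distinguished_triangle_morphism

theorem trih_distinguished {X Y : DGM Γ} (f : X ⟶ Y) : trih f ∈ distTriang (Hot Γ) :=
  ⟨_, _, f, ⟨Iso.refl _⟩⟩

lemma mem_distTriang_iff (T : Triangle (Hot Γ)) :
    T ∈ distTriang (Hot Γ) ↔ ∃ (X Y : DGM Γ) (f : X ⟶ Y), Nonempty (T ≅ trih f) := Iff.rfl

end pretriangulated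

end DGM

end GZ
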