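import Pool.Agent.Lib_MP_a23b08_g.GSub

/-!
PIECE S2. Truncation of dg modules (all arrows are in degrees `≤ 0`).
-/

open CategoryTheory

namespace GZ

namespace DGM

variable {k : Type} [Field k] {Γ : QF k}

lemma degW_nonpos (hΓ : Γ.Nice) (w : List Γ.A) : degW Γ.deg w ≤ 0 := by
  induction w with
  | nil => simp
  | cons a w ih =>
    rw [degW_cons]
    have := hΓ.deg_nonpos a
    omega

/-- The arrows of degree `0` are closed. -/
lemma diff_nil (hΓ : Γ.Nice) {a : Γ.A} (ha : Γ.deg a = 0) : Γ.diff a = [] := by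
  by_contra h
  obtain ⟨t, ht⟩ := List.exists_mem_of_ne_nil _ h
  have h1 := Γ.diff_deg a t ht
  have h2 := degW_nonpos hΓ t.2
  omega

lemma d_act_zero (hΓ : Γ.Nice) (X : DGM Γ) {a : Γ.A} (ha : Γ.deg a = 0) (x : X.M) :
    X.d (X.act a x) = X.act a (X.d x) := by
  rw [X.leibniz, diff_nil hΓ ha, ha]
  simp

lemma d_evW_zero (hΓ : Γ.Nice) (X : DGM Γ) {w : List Γ.A} (hw : ∀ a ∈ w, Γ.deg a = 0) (x : X.M) :
    X.d (evW X.act w x) = evW X.act w (X.d x) := by
  induction w with
  | nil => rfl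
  | cons a w ih =>
    rw [evW_cons, evW_cons, d_act_zero hΓ X (hw a (by simp)),
      ih fun b hb => hw b (List.mem_cons_of_mem _ hb)]

/-- The map on cohomology. -/
def trCoh {X Y : DGM Γ} (f : X ⟶ Y) : Coh X →ₗ[k] Coh Y :=
  Submodule.mapQ _ _ ((lin f).restrict (p := LinearMap.ker X.d) (q := LinearMap.ker Y.d)
    (fun x hx => by
      rw [LinearMap.mem_ker] at hx ⊢
      rw [← lin_d, hx, map_zero]))
    (by
      rintro ⟨x, hx⟩ ⟨y, hy⟩
      refine ⟨lin f y, ?_⟩
      rw [← lin_d, hy]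
      rfl)

lemma trCoh_injective {X Y : DGM Γ} (f : X ⟶ Y)
    (h : ∀ x, X.d x = 0 → (∃ y, Y.d y = lin f x) → ∃ x', X.d x' = x) :
    Function.Injective (trCoh f) := by
  rw [injective_iff_map_eq_zero]
  intro z hz
  obtain ⟨⟨x, hx⟩, rfl⟩ := Submodule.mkQ_surjective _ z
  have h1 : (trCoh f) (((LinearMap.range X.d).comap (LinearMap.ker X.d).subtype).mkQ ⟨x, hx⟩) =
    ((LinearMap.range Y.d).comap (LinearMap.ker Y.d).subtype).mkQ
      ((lin f).restrict (p := LinearMap.ker X.d) (q := LinearMap.ker Y.d)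
    (fun x hx => by
      rw [LinearMap.mem_ker] at hx ⊢
      rw [← lin_d, hx, map_zero]) ⟨x, hx⟩) := rfl
  rw [h1, Submodule.mkQ_apply, Submodule.Quotient.mk_eq_zero] at hz
  obtain ⟨x', hx'⟩ := h x hx hz
  rw [Submodule.mkQ_apply, Submodule.Quotient.mk_eq_zero]
  exact ⟨x', hx'⟩

lemma trCoh_surjective {X Y : DGM Γ} (f : X ⟶ Y)
    (h : ∀ y, Y.d y = 0 → ∃ x y', X.d x = 0 ∧ y = lin f x + Y.d y') :
    Function.Surjective (trCoh f) := by
  intro z
  obtain ⟨⟨y, hy⟩, rfl⟩ := Submodule.mkQ_surjective _ z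
  obtain ⟨x, y', hx, hxy⟩ := h y hy
  refine ⟨((LinearMap.range X.d).comap (LinearMap.ker X.d).subtype).mkQ ⟨x, hx⟩, ?_⟩
  have h1 : (trCoh f) (((LinearMap.range X.d).comap (LinearMap.ker X.d).subtype).mkQ ⟨x, hx⟩) =
    ((LinearMap.range Y.d).comap (LinearMap.ker Y.d).subtype).mkQ
      ((lin f).restrict (p := LinearMap.ker X.d) (q := LinearMap.ker Y.d)
    (fun x hx => by
      rw [LinearMap.mem_ker] at hx ⊢
      rw [← lin_d, hx, map_zero]) ⟨x, hx⟩) := rfl
  rw [h1, ← sub_eq_zero, ← map_sub, Submodule.mkQ_apply, Submodule.Quotient.mk_eq_zero]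
  refine ⟨-y', ?_⟩
  change Y.d (-y') = lin f x - y
  rw [hxy, map_neg]
  abel

/-- Sub modules for which the map on cohomology is injective. -/
lemma IsNil.of_inj {X Y : DGM Γ} (hY : IsNil Y) (f : X ⟶ Y)
    (h : ∀ x, X.d x = 0 → (∃ y, Y.d y = lin f x) → ∃ x', X.d x' = x)
    (hΓ : Γ.Nice) : IsNil X where
  fin := by
    have := hY.fin
    exact Module.Finite.of_injective (trCoh f) (trCoh_injective f h)
  nil := by
    obtain ⟨N, hN⟩ := hY.nil
    refine ⟨N, fun w hw hw0 x hx => ?_⟩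
    refine h _ ?_ ?_
    · rw [d_evW_zero hΓ X hw0, hx, map_zero]
    · rw [evW_intertw (lin_act f)]
      exact hN w hw hw0 _ (by rw [← lin_d, hx, map_zero])

/-- Quotient modules for which the map on cohomology is surjective. -/
lemma IsNil.of_surj {X Y : DGM Γ} (hX : IsNil X) (f : X ⟶ Y)
    (h : ∀ y, Y.d y = 0 → ∃ x y', X.d x = 0 ∧ y = lin f x + Y.d y')
    (hΓ : Γ.Nice) : IsNil Y where
  fin := by
    have := hX.fin
    exact Module.Finite.of_surjective (trCoh f) (trCoh_surjective f h)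
  nil := by
    obtain ⟨N, hN⟩ := hX.nil
    refine ⟨N, fun w hw hw0 y hy => ?_⟩
    obtain ⟨x, y', hx, rfl⟩ := h y hy
    obtain ⟨z, hz⟩ := hN w hw hw0 x hx
    refine ⟨lin f z + evW Y.act w y', ?_⟩
    rw [map_add, ← lin_d, hz, d_evW_zero hΓ Y hw0, map_add, evW_intertw (lin_act f)]

/-- The submodule `τ_{≤ n} X`. -/
def trN (X : DGM Γ) (n : ℤ) : Submodule k X.M where
  carrier := {x | (∀ v p, n < p → cmp X v p x = 0) ∧ ∀ v, X.d (cmp X v n x) = 0}
  add_mem' := fun ha hb => ⟨fun v p h => by rw [map_add, ha.1 v p h, hb.1 v p h, add_zero],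
    fun v => by rw [map_add, map_add, ha.2 v, hb.2 v, add_zero]⟩
  zero_mem' := ⟨fun v p _ => map_zero _, fun v => by rw [map_zero, map_zero]⟩
  smul_mem' := fun c x hx => ⟨fun v p h => by rw [map_smul, hx.1 v p h, smul_zero],
    fun v => by rw [map_smul, map_smul, hx.2 v, smul_zero]⟩

lemma mem_trN {X : DGM Γ} {n : ℤ} {x : X.M} : x ∈ trN X n ↔
    (∀ v p, n < p → cmp X v p x = 0) ∧ ∀ v, X.d (cmp X v n x) = 0 := Iff.rfl

lemma trN_of_lt {X : DGM Γ} {n p : ℤ} (h : p < n) {v : Γ.V} {x : X.M} (hx : x ∈ X.gr v p) :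
    x ∈ trN X n := by
  refine ⟨fun w q hq => cmp_of_ne X ?_ hx, fun w => ?_⟩
  · intro e
    simp only [Prod.mk.injEq] at e
    omega
  · rw [cmp_of_ne X _ hx, map_zero]
    intro e
    simp only [Prod.mk.injEq] at e
    omega

lemma trN_of_eq {X : DGM Γ} {n : ℤ} {v : Γ.V} {x : X.M} (hx : x ∈ X.gr v n) (hd : X.d x = 0) :
    x ∈ trN X n := by
  refine ⟨fun w q hq => cmp_of_ne X ?_ hx, fun w => ?_⟩
  · intro e
    simp only [Prod.mk.injEq] at e
    omega
  · by_cases hw : w = v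
    · subst hw
      rw [cmp_of_mem X hx, hd]
    · rw [cmp_of_ne X _ hx, map_zero]
      intro e
      simp only [Prod.mk.injEq] at e
      exact hw e.1

lemma isSub_trN (hΓ : Γ.Nice) (X : DGM Γ) (n : ℤ) : IsSub X (trN X n) where
  hom := by
    intro v p x hx
    rcases lt_trichotomy p n with h | h | h
    · exact trN_of_lt h (cmp_mem X v p x)
    · subst h
      exact trN_of_eq (cmp_mem X v p x) (hx.2 v)
    · rw [hx.1 v p h]
      exact zero_mem _
  d := by
    intro x hx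
    refine ⟨fun v p h => ?_, fun v => ?_⟩
    · rw [← d_cmp X v (p := p - 1) (by omega)]
      rcases eq_or_lt_of_le (show n ≤ p - 1 by omega) with h1 | h1
      · rw [← h1]
        exact hx.2 v
      · rw [hx.1 v (p - 1) h1, map_zero]
    · rw [← d_cmp X v (p := n - 1) (by omega), X.d_d]
  act := by
    intro a x hx
    have ha := hΓ.deg_nonpos a
    refine ⟨fun v p h => ?_, fun v => ?_⟩
    · by_cases hv : v = Γ.tgt a
      · subst hv
        rw [cmp_act X a (p := p - Γ.deg a) (by omega), hx.1 _ _ (by omega), map_zero]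
      · exact cmp_act_ne X a hv p x
    · by_cases hv : v = Γ.tgt a
      · subst hv
        rw [cmp_act X a (p := n - Γ.deg a) (by omega)]
        rcases eq_or_lt_of_le ha with h1 | h1
        · rw [d_act_zero hΓ X h1, h1, sub_zero, hx.2, map_zero]
        · rw [hx.1 _ _ (by omega), map_zero, map_zero]
      · rw [cmp_act_ne X a hv n x, map_zero]

/-- A cocycle in `τ_{≤ n} X` which is a boundary in `X` is a boundary in `τ_{≤ n} X`. -/
lemma trN_inj (hΓ : Γ.Nice) (X : DGM Γ) (n : ℤ) (x : (subMod X (trN X n) (isSub_trN hΓ X n)).M)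
    (h : ∃ y, X.d y = lin (subι X (trN X n) (isSub_trN hΓ X n)) x) :
    ∃ x', (subMod X (trN X n) (isSub_trN hΓ X n)).d x' = x := by
  obtain ⟨y, hy⟩ := h
  have h1 : x ∈ LinearMap.range (subMod X (trN X n) (isSub_trN hΓ X n)).d := by
    refine mem_of_cmp _ fun v p => ?_
    have h2 : (cmp (subMod X (trN X n) (isSub_trN hΓ X n)) v p x : (trN X n)).1 =
      X.d (cmp X v (p - 1) y) := by
      rw [d_cmp X v (q := p) (by omega), hy]
      exact (cmp_lin (subι X (trN X n) (isSub_trN hΓ X n)) v p x).symm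
    by_cases hp : p ≤ n
    · refine ⟨⟨cmp X v (p - 1) y, trN_of_lt (by omega) (cmp_mem X v (p - 1) y)⟩, ?_⟩
      apply Subtype.ext
      exact h2.symm
    · have h3 : cmp (subMod X (trN X n) (isSub_trN hΓ X n)) v p x = 0 := by
        apply Subtype.ext
        refine ((cmp_lin (subι X (trN X n) (isSub_trN hΓ X n)) v p x).symm).trans ?_
        exact x.2.1 v p (by omega)
      rw [h3]
      exact zero_mem _
  exact h1

/-- A homogeneous cocycle of `X / τ_{≤ n} X` lifts to a cocycle. -/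
lemma trN_lift (hΓ : Γ.Nice) (X : DGM Γ) (n : ℤ) {v : Γ.V} {p : ℤ}
    {z : (quotMod X (trN X n) (isSub_trN hΓ X n)).M}
    (hz : z ∈ (quotMod X (trN X n) (isSub_trN hΓ X n)).gr v p)
    (h : (quotMod X (trN X n) (isSub_trN hΓ X n)).d z = 0) :
    (p ≤ n ∧ z = 0) ∨ ∃ x ∈ X.gr v p, X.d x = 0 ∧ (trN X n).mkQ x = z := by
  obtain ⟨x, hx, rfl⟩ := hz
  have h1 : X.d x ∈ trN X n := (Submodule.Quotient.mk_eq_zero _).1 h
  rcases lt_or_ge p n with hp | hp
  · left
    refine ⟨hp.le, ?_⟩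
    rw [Submodule.mkQ_apply, Submodule.Quotient.mk_eq_zero]
    exact trN_of_lt hp hx
  · have h2 : X.d x = 0 := by
      rw [← cmp_of_mem X (X.d_mem (v := v) (p := p) rfl hx)]
      exact h1.1 v (p + 1) (by omega)
    exact Or.inr ⟨x, hx, h2, rfl⟩

/-- The truncation `τ_{≤ n} X` and the quotient `X / τ_{≤ n} X`.

Proof. `N` = the set of `x` with: `cmp X v p x = 0` for all `v` and `p > n`, and
`X.d (cmp X v n x) = 0` for all `v`. It is a submodule and `IsSub`: stable under `d` (`d_cmp`,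
`d_d`; degree `n` components of `d x` are boundaries) and under the arrow `a`, of degree
`deg a ≤ 0`: the component of `a x` in degree `q` is `a` of the component in degree `q - deg a ≥ q`;
for `q = n`: if `deg a < 0` the component in degree `n - deg a > n` is zero; if `deg a = 0` then
`Γ.diff a = []` (a word in it would have degree `1`, but all arrows have degree `≤ 0`:
`Γ.diff_deg`, `hΓ.deg_nonpos`), so `d (a y) = a (d y) = 0`.
`T = subMod`, `F = quotMod`. The components of `F`: `F.gr v p` is the image of `X.gr v p`, zero for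
`p < n` (`X.gr v p ≤ N`), and if `x ∈ X.gr v n`, `d x ∈ N`, then `d (d x) = 0` and `d x` has degree
`n + 1 > n`, so `d x = 0` and `x ∈ N`. Cohomology: elementary. For `IsNil`: `Coh T → Coh X` is
injective (if `x ∈ N` is a cocycle and `x = d y`, replace `y` by the sum of its components in
degrees `< n`) and `Coh X → Coh F` is surjective (a cocycle of `F` of degree `p > n` is the class of
`x ∈ X.gr v p` with `d x ∈ N` of degree `p + 1 > n`, so `d x = 0`; cocycles of degree `≤ n` of `F` are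
zero). Finite-dimensionality and nilpotency follow. -/
theorem exists_trunc (hΓ : Γ.Nice) (X : DGM Γ) (n : ℤ) :
    ∃ (T F : DGM Γ) (j : T ⟶ X) (π : X ⟶ F), IsShort j π ∧
      (∀ v p x, n < p → x ∈ T.gr v p → x = 0) ∧
      (∀ v x, x ∈ T.gr v n → T.d x = 0) ∧
      (∀ v p x, p < n → x ∈ F.gr v p → x = 0) ∧
      (∀ v x, x ∈ F.gr v n → F.d x = 0 → x = 0) ∧
      (∀ p, n < p → CohZero T p) ∧ (∀ p, p ≤ n → CohZero F p) ∧
      (∀ p, CohZero X p → CohZero T p) ∧ (∀ p, CohZero X p → CohZero F p) ∧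
      ((∀ p, n < p → CohZero X p) → IsQis j) ∧ ((∀ p, p ≤ n → CohZero X p) → IsQis π) ∧
      (IsNil X → IsNil T ∧ IsNil F) := by
  have hN := isSub_trN hΓ X n
  have t1 : ∀ v p, ∀ x : (trN X n), n < p → (x : X.M) ∈ X.gr v p → x = 0 := by
    intro v p x h hx
    apply Subtype.ext
    rw [← cmp_of_mem X hx]
    exact x.2.1 v p h
  have f3 : ∀ v p x, p < n → x ∈ (quotMod X (trN X n) hN).gr v p → x = 0 := by
    rintro v p _ h ⟨x, hx, rfl⟩
    rw [Submodule.mkQ_apply, Submodule.Quotient.mk_eq_zero]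
    exact trN_of_lt h hx
  have f4 : ∀ v x, x ∈ (quotMod X (trN X n) hN).gr v n → (quotMod X (trN X n) hN).d x = 0 →
      x = 0 := by
    intro v x hx hd
    rcases trN_lift hΓ X n hx hd with h | ⟨y, hy, hdy, rfl⟩
    · exact h.2
    · rw [Submodule.mkQ_apply, Submodule.Quotient.mk_eq_zero]
      exact trN_of_eq hy hdy
  have f6 : ∀ p, p ≤ n → CohZero (quotMod X (trN X n) hN) p := by
    intro p hp v x hx hd
    refine ⟨0, ?_⟩
    rw [map_zero]
    rcases eq_or_lt_of_le hp with h | h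
    · subst h
      exact (f4 v x hx hd).symm
    · exact (f3 v p x h hx).symm
  have surjπ : ∀ y, (quotMod X (trN X n) hN).d y = 0 → ∃ x y', X.d x = 0 ∧
      y = lin (quotπ X (trN X n) hN) x + (quotMod X (trN X n) hN).d y' := by
    intro y hy
    have h1 : y ∈ (LinearMap.ker X.d).map (trN X n).mkQ := by
      refine mem_of_cmp (quotMod X (trN X n) hN) (fun v p => ?_)
      have h2 : (quotMod X (trN X n) hN).d (cmp (quotMod X (trN X n) hN) v p y) = 0 := by
        rw [d_cmp _ v rfl, hy, map_zero]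
      rcases trN_lift hΓ X n (cmp_mem _ v p y) h2 with h | ⟨x, hx, hdx, h3⟩
      · rw [h.2]
        exact zero_mem _
      · exact ⟨x, hdx, h3⟩
    obtain ⟨x, hx, rfl⟩ := h1
    exact ⟨x, 0, hx, by rw [map_zero, add_zero]; rfl⟩
  refine ⟨subMod X (trN X n) hN, quotMod X (trN X n) hN, subι X _ hN, quotπ X _ hN,
    isShort_sub X _ hN, ?_, ?_, f3, f4, ?_, f6, ?_, ?_, ?_, ?_, ?_⟩
  · exact t1
  · intro v x hx
    apply Subtype.ext
    have h1 := x.2.2 v
    have h2 : cmp X v n (x : X.M) = x := cmp_of_mem X hx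
    rw [h2] at h1
    exact h1
  · intro p hp v x hx _
    exact ⟨0, by rw [map_zero]; exact (t1 v p x hp hx).symm⟩
  · intro p hp v x hx hd
    refine trN_inj hΓ X n x ?_
    exact hp v x hx (congrArg Subtype.val hd)
  · intro p hp v x hx hd
    rcases trN_lift hΓ X n hx hd with h | ⟨y, hy, hdy, rfl⟩
    · exact ⟨0, by rw [map_zero]; exact h.2.symm⟩
    · obtain ⟨z, rfl⟩ := hp v y hy hdy
      exact ⟨(trN X n).mkQ z, rfl⟩
  · intro h
    refine ⟨fun x _ hx => trN_inj hΓ X n x hx, fun y hy => ?_⟩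
    have h1 : y ∈ (LinearMap.ker X.d ⊓ trN X n) ⊔ LinearMap.range X.d := by
      refine mem_of_cmp X fun v p => ?_
      have h2 : X.d (cmp X v p y) = 0 := by rw [d_cmp X v rfl, hy, map_zero]
      rcases lt_trichotomy p n with hp | hp | hp
      · exact Submodule.mem_sup_left ⟨h2, trN_of_lt hp (cmp_mem X v p y)⟩
      · subst hp
        exact Submodule.mem_sup_left ⟨h2, trN_of_eq (cmp_mem X v p y) h2⟩
      · exact Submodule.mem_sup_right (h p hp v _ (cmp_mem X v p y) h2)
    obtain ⟨x, ⟨hx1, hx2⟩, _, ⟨y', rfl⟩, rfl⟩ := Submodule.mem_sup.1 h1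
    exact ⟨⟨x, hx2⟩, y', Subtype.ext hx1, rfl⟩
  · intro h
    refine ⟨fun x hx hy => ?_, surjπ⟩
    obtain ⟨z, hz⟩ := hy
    obtain ⟨y, rfl⟩ := (trN X n).mkQ_surjective z
    have hz' : (trN X n).mkQ (X.d y) = (trN X n).mkQ x := hz
    have h1 : X.d y - x ∈ trN X n := by
      rw [← Submodule.Quotient.mk_eq_zero, ← Submodule.mkQ_apply, map_sub, hz', sub_self]
    have h2 : x ∈ LinearMap.range X.d := by
      refine mem_of_cmp X fun v p => ?_
      by_cases hp : p ≤ n
      · refine h p hp v _ (cmp_mem X v p x) ?_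
        rw [d_cmp X v rfl, hx, map_zero]
      · refine ⟨cmp X v (p - 1) y, ?_⟩
        have h3 := h1.1 v p (by omega)
        rw [map_sub, sub_eq_zero] at h3
        rw [d_cmp X v (q := p) (by omega), h3]
    exact h2
  · intro h
    exact ⟨h.of_inj (subι X _ hN) (fun x _ hx => trN_inj hΓ X n x hx) hΓ,
      h.of_surj (quotπ X _ hN) surjπ hΓ⟩

end DGM

end GZ
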